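import Pool.Agent.TKB.St3
import Pool.Agent.TKN.TwoCor

/-!
# Project TKB: corollaries of the lower bound

`mbU`: one function for all `k` and `q`; `mbH q`: at most `q + 1` blocks (Boolean hierarchy).
-/

set_option autoImplicit false

open Finset

namespace Pool.Agent.TKB

open Pool.Agent.TKN

/-- the number of the blocks for the universal function: every number `q + 1` occurs for infinitely
many `e` -/
def mbU (e : ℕ) : ℕ := (Nat.unpair e).1 + 1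

/-- at most `q + 1` blocks -/
def mbH (q e : ℕ) : ℕ := min (q + 1) (e + 1)

theorem okU : OKB mbU := fun e => ⟨Nat.succ_le_succ (Nat.zero_le _),
  Nat.succ_le_succ (Nat.unpair_left_le e)⟩

theorem okH (q : ℕ) : OKB (mbH q) := fun _ =>
  ⟨le_min (Nat.succ_le_succ (Nat.zero_le _)) (Nat.succ_le_succ (Nat.zero_le _)), min_le_right _ _⟩

theorem easy_mono {N s s' T T' : ℕ} {z z' : ℝ} {A : (Fin N → Bool) → Prop} (hs : s ≤ s')
    (hT : T ≤ T') (hz : z ≤ z') (h : Easy N s T z A) : Easy N s' T' z' A := by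
  have hp : (2 : ℝ) ^ z ≤ 2 ^ z' := Real.rpow_le_rpow_of_exponent_le (by norm_num) hz
  rcases h with ⟨Γ, Q, i, G, h1, h2, h3, h4⟩ | ⟨Q, i, G, h1, h2, h3, h4⟩
  · refine Or.inl ⟨Γ, Q, i, G, fun a t b hab => (h1 a t b hab).trans hs, ?_, h3, h4.trans_le hp⟩
    intro b hb
    obtain ⟨l, g1, g2, R, g3, g4⟩ := h2 b hb
    exact ⟨l, g1, g2, R, g3.trans hs, g4.trans hT⟩
  · refine Or.inr ⟨Q, i, G, fun a t b hab => (h1 a t b hab).trans hs, ?_, h3, h4.trans_le hp⟩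
    intro b hb
    obtain ⟨l, g1, g2, R, g3, g4⟩ := h2 b hb
    exact ⟨l, g1, g2, R, g3.trans hs, g4.trans hT⟩

theorem noBool_mono {q N s s' T T' : ℕ} {z z' : ℝ} {f : (Fin N → Bool) → Prop} (hs : s ≤ s')
    (hT : T ≤ T') (hz : z ≤ z') (h : NoBool q N s' T' z' f) : NoBool q N s T z f :=
  fun A De hA => h A De fun i => easy_mono hs hT hz (hA i)

/-- From a large switch to the constants of the theorems. -/
theorem shape {mb : ℕ → ℕ} {q k M e E : ℕ} (hE : 10 * e ≤ E)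
    {β : BasB mb M} {ly : LayB mb M} (h : ∀ s : ℕ, (s : ℝ) ≤ (sizeB M : ℝ) / 2 ^ (6 * e) →
      NoBool q (sizeB M) s (k * sizeB M) ((sizeB M : ℝ) / 2 ^ (6 * e)) (FB β ly)) (s : ℕ)
    (hs : (s : ℝ) ≤ 1 / 2 ^ E * sizeB M) :
    NoBool q (sizeB M) s (k * sizeB M) (1 / 2 ^ E * sizeB M) (FB β ly) := by
  have h1 : (1 : ℝ) / 2 ^ E * sizeB M ≤ (sizeB M : ℝ) / 2 ^ (6 * e) := by
    rw [one_div, inv_mul_eq_div]
    apply div_le_div_of_nonneg_left (Nat.cast_nonneg _) (by positivity)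
    exact pow_le_pow_right₀ (by norm_num) (by omega)
  exact noBool_mono le_rfl le_rfl h1 (h s (hs.trans h1))

theorem blk_ge {M e E : ℕ} (hE : 10 * e ≤ E) (hM : 2 ^ E ≤ M) : e ≤ blkB M := by
  have h1 : E ≤ Nat.log 2 M := Nat.le_log_of_pow_le (by norm_num) hM
  unfold blkB Pool.Agent.URG.lg
  omega

/-- The lower bound for the universal function. -/
theorem lowU (h : S_LWB) : ∃ B : ℕ, ∀ q k M : ℕ, 1 ≤ k → 2 ^ (((k + 1) * (q + 1)) ^ B) ≤ M →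
    ∀ (β : BasB mbU M) (ly : LayB mbU M) (s : ℕ),
      (s : ℝ) ≤ 1 / 2 ^ (((k + 1) * (q + 1)) ^ B) * sizeB M →
      NoBool q (sizeB M) s (k * sizeB M) (1 / 2 ^ (((k + 1) * (q + 1)) ^ B) * sizeB M)
        (FB β ly) := by
  obtain ⟨B1, hB⟩ := h
  refine ⟨2 * B1 + 8, fun q k M hk hM β ly s hs => ?_⟩
  obtain ⟨Y, hY⟩ : ∃ Y, Y = (k + 1) * (q + 1) := ⟨_, rfl⟩
  have hB' := hB mbU q k M (Nat.pair q (Y ^ B1)) okU hk (by simp [mbU])
    (by rw [← hY]; exact Nat.right_le_pair _ _)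
  rw [← hY] at hM hs ⊢
  have hY2 : 2 ≤ Y := by
    rw [hY]
    nlinarith
  have hqY : q ≤ Y := by
    rw [hY]
    nlinarith
  have h1 : 10 * Nat.pair q (Y ^ B1) ≤ Y ^ (2 * B1 + 8) := by
    have a1 := Nat.pair_lt_max_add_one_sq q (Y ^ B1)
    have a2 : 1 ≤ Y ^ B1 := Nat.one_le_pow _ _ (by omega)
    have a3 : max q (Y ^ B1) + 1 ≤ 2 * (Y * Y ^ B1) := by
      have b1 : q ≤ Y * Y ^ B1 := hqY.trans (Nat.le_mul_of_pos_right _ a2)
      have b2 : Y ^ B1 ≤ Y * Y ^ B1 := Nat.le_mul_of_pos_left _ (by omega)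
      have b3 : max q (Y ^ B1) ≤ Y * Y ^ B1 := max_le b1 b2
      omega
    have a4 : (max q (Y ^ B1) + 1) ^ 2 ≤ (2 * (Y * Y ^ B1)) ^ 2 := Nat.pow_le_pow_left a3 2
    have a5 : 40 ≤ Y ^ 6 := le_trans (by norm_num) (Nat.pow_le_pow_left hY2 6)
    calc 10 * Nat.pair q (Y ^ B1) ≤ 10 * (2 * (Y * Y ^ B1)) ^ 2 := by
          apply Nat.mul_le_mul_left
          exact a1.le.trans a4
      _ = 40 * (Y ^ 2 * Y ^ (2 * B1)) := by ring
      _ ≤ Y ^ 6 * (Y ^ 2 * Y ^ (2 * B1)) := Nat.mul_le_mul_right _ a5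
      _ = Y ^ (2 * B1 + 8) := by ring
  exact shape h1 (hB' (blk_ge h1 hM) β ly) s hs

/-- The lower bound for the functions with at most `q + 1` blocks. -/
theorem lowH (h : S_LWB) : ∃ B : ℕ, ∀ q k M : ℕ, 1 ≤ k → 2 ^ (((k + 1) * (q + 1)) ^ B) ≤ M →
    ∀ (β : BasB (mbH q) M) (ly : LayB (mbH q) M) (s : ℕ),
      (s : ℝ) ≤ 1 / 2 ^ (((k + 1) * (q + 1)) ^ B) * sizeB M →
      NoBool q (sizeB M) s (k * sizeB M) (1 / 2 ^ (((k + 1) * (q + 1)) ^ B) * sizeB M)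
        (FB β ly) := by
  obtain ⟨B1, hB⟩ := h
  refine ⟨B1 + 5, fun q k M hk hM β ly s hs => ?_⟩
  obtain ⟨Y, hY⟩ : ∃ Y, Y = (k + 1) * (q + 1) := ⟨_, rfl⟩
  have hY2 : 2 ≤ Y := by
    rw [hY]
    nlinarith
  have hqY : q ≤ Y := by
    rw [hY]
    nlinarith
  have a2 : 1 ≤ Y ^ B1 := Nat.one_le_pow _ _ (by omega)
  have b1 : q ≤ Y * Y ^ B1 := hqY.trans (Nat.le_mul_of_pos_right _ a2)
  have b2 : Y ^ B1 ≤ Y * Y ^ B1 := Nat.le_mul_of_pos_left _ (by omega)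
  have hB' := hB (mbH q) q k M (Y * Y ^ B1) (okH q) hk
    (by unfold mbH; exact min_eq_left (by omega)) (by rw [← hY]; exact b2)
  rw [← hY] at hM hs ⊢
  have h1 : 10 * (Y * Y ^ B1) ≤ Y ^ (B1 + 5) := by
    have a5 : 10 ≤ Y ^ 4 := le_trans (by norm_num) (Nat.pow_le_pow_left hY2 4)
    calc 10 * (Y * Y ^ B1) ≤ Y ^ 4 * (Y * Y ^ B1) := Nat.mul_le_mul_right _ a5
      _ = Y ^ (B1 + 5) := by ring
  exact shape h1 (hB' (blk_ge h1 hM) β ly) s hs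

/-- Superlinear lengths and many programs. -/
theorem lowS (h : S_LWB) : ∃ a : ℝ, 0 < a ∧ ∀ ε : ℝ, 0 < ε → ∃ M0 : ℕ, ∀ M ≥ M0,
    sizeB M ≤ 3 * M → M ≤ sizeB M → ∀ (β : BasB mbU M) (ly : LayB mbU M) (q s T : ℕ),
      (q : ℝ) ≤ Real.log (sizeB M) ^ a → (s : ℝ) ≤ (sizeB M : ℝ) ^ (1 - ε) →
      (T : ℝ) ≤ sizeB M * Real.log (sizeB M) ^ a →
      NoBool q (sizeB M) s T ((sizeB M : ℝ) ^ (1 - ε)) (FB β ly) := by
  obtain ⟨B, hB⟩ := lowU h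
  refine ⟨1 / (2 * (2 * B : ℕ) + 2), by positivity, fun ε hε => ?_⟩
  obtain ⟨N0, h0⟩ := TWO.numbers (2 * B) ε hε
  refine ⟨N0, fun M hM h1 h2 β ly q s T hq hs hT => ?_⟩
  obtain ⟨k, hk1, hk2, hk3, hk4⟩ := h0 (sizeB M) M (hM.trans h2) h1
  have hqk : q ≤ k := by exact_mod_cast hq.trans hk2
  have hexp : ((k + 1) * (q + 1)) ^ B ≤ (k + 1) ^ (2 * B) := by
    rw [pow_mul]
    apply Nat.pow_le_pow_left
    nlinarith
  have hM' : 2 ^ (((k + 1) * (q + 1)) ^ B) ≤ M :=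
    (Nat.pow_le_pow_right (by norm_num) hexp).trans hk3
  have hc : (1 : ℝ) / 2 ^ ((k + 1) ^ (2 * B)) * sizeB M ≤
      1 / 2 ^ (((k + 1) * (q + 1)) ^ B) * sizeB M := by
    apply mul_le_mul_of_nonneg_right _ (Nat.cast_nonneg _)
    apply one_div_le_one_div_of_le (by positivity)
    exact pow_le_pow_right₀ (by norm_num) hexp
  have hT' : (T : ℝ) ≤ ((k * sizeB M : ℕ) : ℝ) := by
    push_cast
    rw [mul_comm (k : ℝ)]
    exact hT.trans (mul_le_mul_of_nonneg_left hk2 (Nat.cast_nonneg _))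
  exact noBool_mono le_rfl (by exact_mod_cast hT') (hk4.trans hc)
    (hB q k M hk1 hM' β ly s (hs.trans (hk4.trans hc)))

end Pool.Agent.TKB
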