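import Pool.Agent.TKB.St4
import Pool.Agent.TKB.Cor

/-!
# Project TKB: corollaries, the levels of the Boolean hierarchy
-/

set_option autoImplicit false

open Finset

namespace Pool.Agent.TKB

open Pool.Agent.TKN
open Pool.Agent.Lib_helper20.SRO (Agrees)

/-- at most `m` blocks -/
def mbL (m e : ℕ) : ℕ := min m (e + 1)

theorem okL {m : ℕ} (hm : 1 ≤ m) : OKB (mbL m) := fun _ =>
  ⟨le_min hm (Nat.succ_le_succ (Nat.zero_le _)), min_le_right _ _⟩

/-- `f` is no Boolean function of fewer than `m` easy properties, and no Boolean function of `m` easy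
properties that is true if all of them are false. -/
def Level (m N s T : ℕ) (z : ℝ) (f : (Fin N → Bool) → Prop) : Prop :=
  ∀ (q : ℕ) (A : Fin q → (Fin N → Bool) → Prop) (De : (Fin q → Prop) → Prop), q ≤ m →
    (∀ i, Easy N s T z (A i)) → (∀ v, (f v ↔ De fun i => A i v)) → q = m ∧ ¬ De fun _ => False

/-- the program that accepts everything -/
def allP (V : Type) : CFT.FP V Unit where
  source := ()
  edge _ _ _ := False
  fork _ _ _ := False
  fin _ := True

theorem easy_true {N s T : ℕ} {z : ℝ} (hz : 0 < z) : Easy N s T z (fun _ => True) := by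
  refine Or.inr ⟨Unit, inferInstance, allP (Fin N), fun a t b h => h.elim, ?_, ?_, ?_⟩
  · intro b _
    exact ⟨[], CFT.Der.fin trivial, fun p hp => by simp at hp, ∅, by simp, by simp [Out]⟩
  · intro b
    exact ⟨fun _ => trivial, fun _ => ⟨[], CFT.Der.fin trivial, fun p hp => by simp at hp⟩⟩
  · rw [Fintype.card_unit, Nat.cast_one]
    exact Real.one_lt_rpow (by norm_num) hz

theorem level_of {m N s T : ℕ} {z : ℝ} {f : (Fin N → Bool) → Prop} (hz : 0 < z)
    (h : NoLev m N s T z f) : Level m N s T z f := by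
  intro q A De hq hA hf
  by_cases hqm : q = m
  · subst hqm
    exact ⟨rfl, fun hD => h A De hA hD hf⟩
  · exfalso
    have hlt : q < m := lt_of_le_of_ne hq hqm
    refine h (fun i => if hi : i.val < q then A ⟨i.val, hi⟩ else fun _ => True)
      (fun a => a ⟨q, hlt⟩ → De fun i => a (Fin.castLE hq i)) ?_ (fun h0 => h0.elim) ?_
    · intro i
      by_cases hi : i.val < q
      · simp only [dif_pos hi]
        exact hA _
      · simp only [dif_neg hi]
        exact easy_true hz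
    · intro v
      have e1 : (if hi : (⟨q, hlt⟩ : Fin m).val < q then A ⟨(⟨q, hlt⟩ : Fin m).val, hi⟩
          else fun _ => True) v := by
        rw [dif_neg (lt_irrefl q)]
        trivial
      have e2 : (fun i : Fin q => (if hi : (Fin.castLE hq i).val < q then
          A ⟨(Fin.castLE hq i).val, hi⟩ else fun _ => True) v) = fun i => A i v := by
        funext i
        rw [dif_pos (show (Fin.castLE hq i).val < q from i.2)]
        rfl
      show f v ↔ (_ → De _)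
      rw [e2]
      exact (hf v).trans ⟨fun h1 _ => h1, fun h1 => h1 e1⟩

theorem level_mono {m N s s' T T' : ℕ} {z z' : ℝ} {f : (Fin N → Bool) → Prop} (hs : s ≤ s')
    (hT : T ≤ T') (hz : z ≤ z') (h : Level m N s' T' z' f) : Level m N s T z f :=
  fun q A De hq hA hf => h q A De hq (fun i => easy_mono hs hT hz (hA i)) hf

/-- **The levels of the Boolean hierarchy.** -/
theorem lowL (h : S_LWC) : ∃ B : ℕ, ∀ m k M : ℕ, 1 ≤ m → 1 ≤ k →
    2 ^ (((k + 1) * (m + 1)) ^ B) ≤ M → ∀ (β : BasB (mbL m) M) (ly : LayB (mbL m) M) (s : ℕ),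
      (s : ℝ) ≤ 1 / 2 ^ (((k + 1) * (m + 1)) ^ B) * sizeB M →
      Level m (sizeB M) s (k * sizeB M) (1 / 2 ^ (((k + 1) * (m + 1)) ^ B) * sizeB M)
        (FB β ly) := by
  obtain ⟨B1, hB⟩ := h
  refine ⟨B1 + 5, fun m k M hm hk hM β ly s hs => ?_⟩
  obtain ⟨Y, hY⟩ : ∃ Y, Y = (k + 1) * (m + 1) := ⟨_, rfl⟩
  have hY2 : 2 ≤ Y := by
    rw [hY]
    nlinarith
  have hqY : m ≤ Y := by
    rw [hY]
    nlinarith
  have a2 : 1 ≤ Y ^ B1 := Nat.one_le_pow _ _ (by omega)
  have b1 : m ≤ Y * Y ^ B1 := hqY.trans (Nat.le_mul_of_pos_right _ a2)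
  have b2 : Y ^ B1 ≤ Y * Y ^ B1 := Nat.le_mul_of_pos_left _ (by omega)
  have hB' := hB (mbL m) m k M (Y * Y ^ B1) (okL hm) hk hm
    (by unfold mbL; exact min_eq_left (by omega)) (by rw [← hY]; exact b2)
  rw [← hY] at hM hs ⊢
  have h1 : 10 * (Y * Y ^ B1) ≤ Y ^ (B1 + 5) := by
    have a5 : 10 ≤ Y ^ 4 := le_trans (by norm_num) (Nat.pow_le_pow_left hY2 4)
    calc 10 * (Y * Y ^ B1) ≤ Y ^ 4 * (Y * Y ^ B1) := Nat.mul_le_mul_right _ a5
      _ = Y ^ (B1 + 5) := by ring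
  have hblk := blk_ge h1 hM
  have h2 : (1 : ℝ) / 2 ^ (Y ^ (B1 + 5)) * sizeB M ≤ (sizeB M : ℝ) / 2 ^ (6 * (Y * Y ^ B1)) := by
    rw [one_div, inv_mul_eq_div]
    apply div_le_div_of_nonneg_left (Nat.cast_nonneg _) (by positivity)
    exact pow_le_pow_right₀ (by norm_num) (by omega)
  have hM1 : 1 ≤ M := le_trans Nat.one_le_two_pow hM
  have hpos : (0 : ℝ) < sizeB M := by
    have : 0 < sizeB M := by
      unfold sizeB
      omega
    exact_mod_cast this
  exact level_mono le_rfl le_rfl h2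
    (level_of (by positivity) (hB' hblk β ly s (hs.trans h2)))

/-- Superlinear lengths and many levels. -/
theorem lowLS (h : S_LWC) : ∃ a : ℝ, 0 < a ∧ ∀ ε : ℝ, 0 < ε → ∃ M0 : ℕ, ∀ M ≥ M0,
    sizeB M ≤ 3 * M → M ≤ sizeB M → ∀ m : ℕ, 1 ≤ m → (m : ℝ) ≤ Real.log (sizeB M) ^ a →
    ∀ (β : BasB (mbL m) M) (ly : LayB (mbL m) M) (s T : ℕ), (s : ℝ) ≤ (sizeB M : ℝ) ^ (1 - ε) →
      (T : ℝ) ≤ sizeB M * Real.log (sizeB M) ^ a →
      Level m (sizeB M) s T ((sizeB M : ℝ) ^ (1 - ε)) (FB β ly) := by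
  obtain ⟨B, hB⟩ := lowL h
  refine ⟨1 / (2 * (2 * B : ℕ) + 2), by positivity, fun ε hε => ?_⟩
  obtain ⟨N0, h0⟩ := TWO.numbers (2 * B) ε hε
  refine ⟨N0, fun M hM h1 h2 m hm hq β ly s T hs hT => ?_⟩
  obtain ⟨k, hk1, hk2, hk3, hk4⟩ := h0 (sizeB M) M (hM.trans h2) h1
  have hqk : m ≤ k := by exact_mod_cast hq.trans hk2
  have hexp : ((k + 1) * (m + 1)) ^ B ≤ (k + 1) ^ (2 * B) := by
    rw [pow_mul]
    apply Nat.pow_le_pow_left
    nlinarith
  have hM' : 2 ^ (((k + 1) * (m + 1)) ^ B) ≤ M :=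
    (Nat.pow_le_pow_right (by norm_num) hexp).trans hk3
  have hc : (1 : ℝ) / 2 ^ ((k + 1) ^ (2 * B)) * sizeB M ≤
      1 / 2 ^ (((k + 1) * (m + 1)) ^ B) * sizeB M := by
    apply mul_le_mul_of_nonneg_right _ (Nat.cast_nonneg _)
    apply one_div_le_one_div_of_le (by positivity)
    exact pow_le_pow_right₀ (by norm_num) hexp
  have hT' : (T : ℝ) ≤ ((k * sizeB M : ℕ) : ℝ) := by
    push_cast
    rw [mul_comm (k : ℝ)]
    exact hT.trans (mul_le_mul_of_nonneg_left hk2 (Nat.cast_nonneg _))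
  exact level_mono le_rfl (by exact_mod_cast hT') (hk4.trans hc)
    (hB m k M hm hk1 hM' β ly s (hs.trans (hk4.trans hc)))

end Pool.Agent.TKB
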