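import Pool.Agent.TKB.St2

/-!
# TKB: conjunctions of fork programs (helper52)
-/

set_option autoImplicit false

open Finset

namespace Pool.Agent.TKB

open Pool.Agent.Lib_helper20.SRO (Agrees)
open Pool.Agent.CFT (Der)

namespace ANDPAux

variable {V : Type} {q : ℕ} {N : Fin q → Type} {G : ∀ i, CFT.FP V (N i)} {S : Finset (Fin q)}

theorem up {i : Fin q} {u : N i} {l : List (V × Bool)} (h : Der (G i) u l) :
    Der (andP G S) (Sum.inr ⟨i, u⟩) l := by
  induction h with
  | fin h => exact Der.fin (Or.inr ⟨i, _, h, rfl⟩)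
  | edge h _ ih => exact Der.edge (Or.inr ⟨i, _, _, h, rfl, rfl⟩) ih
  | fork h _ _ ih₁ ih₂ => exact Der.fork (Or.inr ⟨i, _, _, _, h, rfl, rfl, rfl⟩) ih₁ ih₂

theorem down {a : Fin (q + 1) ⊕ (Σ i, N i)} {l : List (V × Bool)} (h : Der (andP G S) a l) :
    ∀ (i : Fin q) (u : N i), a = Sum.inr ⟨i, u⟩ → Der (G i) u l := by
  induction h with
  | fin h =>
    rintro i u rfl
    rcases h with h | ⟨i', u', h, h'⟩
    · exact absurd h (by simp)
    · cases Sum.inr.inj h'
      exact Der.fin h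
  | edge h _ ih =>
    rintro i u rfl
    rcases h with ⟨i', _, h', _⟩ | ⟨i', u', v', h, h', rfl⟩
    · exact absurd h' (by simp)
    · cases Sum.inr.inj h'
      exact Der.edge h (ih i v' rfl)
  | fork h _ _ ih₁ ih₂ =>
    rintro i u rfl
    rcases h with ⟨i', _, h', _⟩ | ⟨i', u', v', w', h, h', rfl, rfl⟩
    · exact absurd h' (by simp)
    · cases Sum.inr.inj h'
      exact Der.fork h (ih₁ i v' rfl) (ih₂ i w' rfl)

theorem chain {b : V → Bool} {a : Fin (q + 1) ⊕ (Σ i, N i)} {l : List (V × Bool)}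
    (h : Der (andP G S) a l) : ∀ j : Fin (q + 1), a = Sum.inl j → Agrees b l →
      ∀ i ∈ S, (j : ℕ) ≤ i → (G i).Accepts b := by
  induction h with
  | fin h =>
    rintro j rfl _ i _ hj
    rcases h with h | ⟨i', u', h, h'⟩
    · rw [Sum.inl.inj h, Fin.val_last] at hj
      exact absurd i.isLt (by omega)
    · exact absurd h' (by simp)
  | edge h _ ih =>
    rintro j rfl hb i hi hj
    rcases h with ⟨i', hi', h', rfl, rfl⟩ | ⟨i', u', v', h, h', rfl⟩
    · have h1 : (j : ℕ) = i' := by rw [Sum.inl.inj h', Fin.val_castSucc]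
      have h2 : i ≠ i' := fun h => hi' (h ▸ hi)
      have h3 : (i : ℕ) ≠ i' := fun h => h2 (Fin.ext h)
      exact ih i'.succ rfl (by simpa using hb) i hi (by rw [Fin.val_succ]; omega)
    · exact absurd h' (by simp)
  | fork h h₁ _ _ ih₂ =>
    rintro j rfl hb i hi hj
    rcases h with ⟨i', hi', h', rfl, rfl⟩ | ⟨i', u', v', w', h, h', _⟩
    · have h1 : (j : ℕ) = i' := by rw [Sum.inl.inj h', Fin.val_castSucc]
      by_cases h2 : i = i'
      · subst h2
        exact ⟨_, down h₁ i _ rfl, fun p hp => hb p (List.mem_append_left _ hp)⟩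
      · have h3 : (i : ℕ) ≠ i' := fun h => h2 (Fin.ext h)
        exact ih₂ i'.succ rfl (fun p hp => hb p (List.mem_append_right _ hp)) i hi
          (by rw [Fin.val_succ]; omega)
    · exact absurd h' (by simp)

theorem tree {f : Fin q → List (V × Bool)} (h1 : ∀ i ∈ S, Der (G i) (G i).source (f i))
    (h2 : ∀ i, i ∉ S → f i = []) (j : Fin (q + 1)) :
    Der (andP G S) (Sum.inl j) (((List.finRange q).drop j).flatMap f) := by
  induction j using Fin.reverseInduction with
  | last =>
    have : (List.finRange q).drop (Fin.last q : ℕ) = [] := by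
      rw [Fin.val_last]
      exact List.drop_eq_nil_of_le (by simp)
    rw [this]
    exact Der.fin (Or.inl rfl)
  | cast i ih =>
    have h3 : (List.finRange q).drop (i.castSucc : ℕ) =
        i :: (List.finRange q).drop (i.succ : ℕ) := by
      rw [Fin.val_castSucc, Fin.val_succ, List.drop_eq_getElem_cons (by simp)]
      simp
    rw [h3, List.flatMap_cons]
    by_cases hi : i ∈ S
    · exact Der.fork (Or.inl ⟨i, hi, rfl, rfl, rfl⟩) (up (h1 i hi)) ih
    · rw [h2 i hi]
      exact Der.edge (Or.inl ⟨i, hi, rfl, rfl, rfl⟩) ih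

theorem tree0 {f : Fin q → List (V × Bool)} (h1 : ∀ i ∈ S, Der (G i) (G i).source (f i))
    (h2 : ∀ i, i ∉ S → f i = []) :
    Der (andP G S) (andP G S).source ((List.finRange q).flatMap f) := by
  have h := tree h1 h2 0
  rw [Fin.val_zero, List.drop_zero] at h
  exact h

end ANDPAux

open ANDPAux in
theorem t_ANDP : S_ANDP := by
  intro V q N G S
  refine ⟨fun b => ⟨?_, ?_⟩, ?_, ?_⟩
  · rintro ⟨l, hl, hb⟩ i hi
    exact chain hl 0 rfl hb i hi (Nat.zero_le _)
  · intro h
    classical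
    have h' : ∀ i, ∃ l, (i ∈ S → Der (G i) (G i).source l) ∧ (i ∉ S → l = []) ∧ Agrees b l := by
      intro i
      by_cases hi : i ∈ S
      · obtain ⟨l, hl, hb⟩ := h i hi
        exact ⟨l, fun _ => hl, fun h => absurd hi h, hb⟩
      · exact ⟨[], fun h => absurd h hi, fun _ => rfl, fun p hp => absurd hp (by simp)⟩
    choose f hf1 hf2 hf3 using h'
    refine ⟨_, tree0 (f := f) hf1 hf2, fun p hp => ?_⟩
    obtain ⟨i, _, hi⟩ := List.mem_flatMap.1 hp
    exact hf3 i p hi
  · rintro s hs v t u (⟨i, _, _, rfl, _⟩ | ⟨i, a, c, h, _, _⟩)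
    · simp
    · exact hs i _ _ _ h
  · intro ls hls
    refine tree0 (fun i hi => ?_) (fun i hi => ?_)
    · rw [if_pos hi]
      exact hls i hi
    · rw [if_neg hi]

end Pool.Agent.TKB
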