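import Pool.Agent.TKB.St3
import Pool.Agent.TKN.O_DTA

/-!
# TKB: module DTB, a deterministic oblivious machine for `FB` (helper90)

Port of O_DTA.lean and R_DTQ.lean: the items are treated one after the other; in place of one bit the
machine stores the greatest bad block so far (plus one; zero if there is none).
-/

set_option autoImplicit false

open Finset

namespace Pool.Agent.TKB

open Pool.Agent.TKN
open Pool.Agent.URG (VarA VarX deg lg pols)
open Pool.Agent.HPM (DecOs GMachs)
open Pool.Agent.HPM.Fn (Coord)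
open Pool.Agent.TKN.ONE (cop Aut fold)

namespace MDTB

section
variable {m K B : ℕ} {V : Type}

open Classical in
/-- one machine that runs `K` automata one after the other and stores a maximum -/
noncomputable def mach (hm : 0 < m) (v₀ : V) (δ : ℕ → Fin m → V → Bool → V) (s : ℕ → V)
    (acc : ℕ → V → Prop) (b : ℕ → Fin (B + 2)) : GMachs 1 0 (Fin m) (Fin (B + 2) × V) where
  start := (0, v₀)
  query t _ := fun _ => ⟨t % m, Nat.mod_lt t hm⟩
  next t v a _ :=
    (if t % m + 1 = m ∧ acc (t / m) (δ (t / m) ⟨t % m, Nat.mod_lt t hm⟩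
          (if t % m = 0 then s (t / m) else v.2) (a 0)) then
        max v.1 (b (t / m))
      else v.1,
      δ (t / m) ⟨t % m, Nat.mod_lt t hm⟩ (if t % m = 0 then s (t / m) else v.2) (a 0))
  acc v := Odd v.1.val

/-- the invariant -/
theorem inv (hm : 0 < m) (v₀ : V) (δ : ℕ → Fin m → V → Bool → V) (s : ℕ → V)
    (acc : ℕ → V → Prop) (b : ℕ → Fin (B + 2)) (x : Fin m → Bool) (c : ℕ → Fin 0 → Bool) (t : ℕ) :
    (∀ i : ℕ, i < (((mach hm v₀ δ s acc b).state x c t).1).val ↔
        ∃ ω < t / m, i < (b ω).val ∧ acc ω (fold (δ ω) (s ω) x)) ∧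
      (t % m ≠ 0 → ((mach hm v₀ δ s acc b).state x c t).2 =
        ((List.finRange m).take (t % m)).foldl (fun s j => δ (t / m) j s (x j)) (s (t / m))) := by
  classical
  induction t with
  | zero =>
    refine ⟨?_, fun h => absurd (Nat.zero_mod m) h⟩
    intro i
    rw [Nat.zero_div]
    refine ⟨fun h => absurd h (Nat.not_lt_zero i), ?_⟩
    rintro ⟨ω, h, -⟩
    exact absurd h (Nat.not_lt_zero ω)
  | succ t ih =>
    obtain ⟨ih1, ih2⟩ := ih
    have hi : t % m < m := Nat.mod_lt t hm
    have hlen : t % m < (List.finRange m).length := by rw [List.length_finRange]; exact hi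
    have hcur : (if t % m = 0 then s (t / m) else ((mach hm v₀ δ s acc b).state x c t).2) =
        ((List.finRange m).take (t % m)).foldl (fun s j => δ (t / m) j s (x j)) (s (t / m)) := by
      split_ifs with h
      · rw [h, List.take_zero]
        rfl
      · exact ih2 h
    have hnew : δ (t / m) ⟨t % m, hi⟩
        (if t % m = 0 then s (t / m) else ((mach hm v₀ δ s acc b).state x c t).2)
        (x ⟨t % m, hi⟩) =
        ((List.finRange m).take (t % m + 1)).foldl (fun s j => δ (t / m) j s (x j)) (s (t / m)) := by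
      rw [hcur, List.take_succ_eq_append_getElem hlen, List.foldl_append, List.getElem_finRange]
      simp only [List.foldl_cons, List.foldl_nil]
      rfl
    have h1 : ((mach hm v₀ δ s acc b).state x c (t + 1)).1 =
        if t % m + 1 = m ∧ acc (t / m) (δ (t / m) ⟨t % m, hi⟩
            (if t % m = 0 then s (t / m) else ((mach hm v₀ δ s acc b).state x c t).2)
            (x ⟨t % m, hi⟩)) then
          max ((mach hm v₀ δ s acc b).state x c t).1 (b (t / m))
        else ((mach hm v₀ δ s acc b).state x c t).1 := rfl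
    have h2 : ((mach hm v₀ δ s acc b).state x c (t + 1)).2 = δ (t / m) ⟨t % m, hi⟩
        (if t % m = 0 then s (t / m) else ((mach hm v₀ δ s acc b).state x c t).2)
        (x ⟨t % m, hi⟩) := rfl
    rw [h1, h2, hnew]
    by_cases hend : t % m + 1 = m
    · have h3 : t + 1 = m * (t / m + 1) := by
        have h4 := Nat.div_add_mod t m
        rw [mul_add, mul_one]
        omega
      have hdiv : (t + 1) / m = t / m + 1 := by
        rw [h3]
        exact Nat.mul_div_cancel_left _ hm
      have hmod : (t + 1) % m = 0 := by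
        rw [h3]
        exact Nat.mul_mod_right _ _
      refine ⟨?_, fun h => absurd hmod h⟩
      have h5 : (List.finRange m).take m = List.finRange m := by
        rw [List.take_of_length_le]
        rw [List.length_finRange]
      have h5' : ((List.finRange m).take (t % m + 1)).foldl (fun s j => δ (t / m) j s (x j))
          (s (t / m)) = fold (δ (t / m)) (s (t / m)) x := by
        rw [hend, h5]
        rfl
      rw [h5', hdiv]
      intro i
      have h6 : (i < (if t % m + 1 = m ∧ acc (t / m) (fold (δ (t / m)) (s (t / m)) x) then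
            max ((mach hm v₀ δ s acc b).state x c t).1 (b (t / m))
          else ((mach hm v₀ δ s acc b).state x c t).1).val) ↔
          (i < (((mach hm v₀ δ s acc b).state x c t).1).val ∨
            (i < (b (t / m)).val ∧ acc (t / m) (fold (δ (t / m)) (s (t / m)) x))) := by
        by_cases hA : acc (t / m) (fold (δ (t / m)) (s (t / m)) x)
        · rw [if_pos ⟨hend, hA⟩]
          have h7 : (max ((mach hm v₀ δ s acc b).state x c t).1 (b (t / m))).val =
              max (((mach hm v₀ δ s acc b).state x c t).1).val (b (t / m)).val := by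
            rcases le_total ((mach hm v₀ δ s acc b).state x c t).1 (b (t / m)) with h | h
            · rw [max_eq_right h, max_eq_right (Fin.le_def.1 h)]
            · rw [max_eq_left h, max_eq_left (Fin.le_def.1 h)]
          rw [h7, lt_max_iff]
          simp only [hA, and_true]
        · rw [if_neg (fun h => hA h.2)]
          simp only [hA, and_false, or_false]
      rw [h6, ih1 i]
      constructor
      · rintro (⟨ω, h8, h9⟩ | h8)
        · exact ⟨ω, Nat.lt_succ_of_lt h8, h9⟩
        · exact ⟨t / m, Nat.lt_succ_self _, h8⟩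
      · rintro ⟨ω, h8, h9⟩
        rcases Nat.lt_succ_iff_lt_or_eq.1 h8 with h10 | h10
        · exact Or.inl ⟨ω, h10, h9⟩
        · subst h10
          exact Or.inr h9
    · have hlt : t % m + 1 < m := by omega
      have h3 : t + 1 = m * (t / m) + (t % m + 1) := by
        have h4 := Nat.div_add_mod t m
        omega
      have hdiv : (t + 1) / m = t / m := by
        rw [h3, Nat.mul_add_div hm, Nat.div_eq_of_lt hlt, add_zero]
      have hmod : (t + 1) % m = t % m + 1 := by
        conv_lhs => rw [h3]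
        rw [Nat.mul_add_mod, Nat.mod_eq_of_lt hlt]
      rw [if_neg (fun h => hend h.1), hdiv, hmod]
      exact ⟨ih1, fun _ => rfl⟩

/-- the last index with a property: zero if there is none, otherwise this index plus one -/
theorem omb_iff {R : ℕ → Prop} {c : ℕ} (h : ∀ i, i < c ↔ ∃ j, i ≤ j ∧ R j) : Omb R ↔ Odd c := by
  constructor
  · rintro ⟨i, hev, hR, hmax⟩
    have h1 : i < c := (h i).2 ⟨i, le_refl i, hR⟩
    have h2 : ¬ i + 1 < c := by
      intro h3
      obtain ⟨j, hj, hRj⟩ := (h (i + 1)).1 h3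
      exact hmax j hj hRj
    have h3 : c = i + 1 := by omega
    rw [h3]
    exact hev.add_one
  · intro hodd
    obtain ⟨k, hk⟩ := hodd
    obtain ⟨j, hj, hRj⟩ := (h (2 * k)).1 (by omega)
    have h4 : j < c := (h j).2 ⟨j, le_refl j, hRj⟩
    have h5 : j = 2 * k := by omega
    subst h5
    refine ⟨2 * k, even_two_mul k, hRj, ?_⟩
    intro i hi hRi
    have h6 : i < c := (h i).2 ⟨i, le_refl i, hRi⟩
    omega

/-- the last block with an item that is accepted -/
theorem many (hm : 0 < m) [Nonempty V] (P : Fin K → (Fin m → Bool) → Prop) (b : Fin K → ℕ)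
    (hb : ∀ ω, b ω ≤ B) (h : ∀ ω, Aut m V (P ω)) :
    DecOs 1 (Fin m) (Fin (B + 2) × V) (K * m) (fun t _ => ⟨t % m, Nat.mod_lt t hm⟩)
      (fun x => Omb fun i => ∃ ω, b ω = i ∧ P ω x) := by
  classical
  choose δ s acc hP using h
  obtain ⟨v₀⟩ := ‹Nonempty V›
  refine ⟨mach hm v₀ (fun k => if hk : k < K then δ ⟨k, hk⟩ else fun _ v _ => v)
    (fun k => if hk : k < K then s ⟨k, hk⟩ else v₀)
    (fun k => if hk : k < K then acc ⟨k, hk⟩ else fun _ => True)
    (fun k => if hk : k < K then ⟨b ⟨k, hk⟩ + 1, by have := hb ⟨k, hk⟩; omega⟩ else 0),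
    fun t v => rfl, fun x => ?_⟩
  have h1 := (inv hm v₀ (fun k => if hk : k < K then δ ⟨k, hk⟩ else fun _ v _ => v)
    (fun k => if hk : k < K then s ⟨k, hk⟩ else v₀)
    (fun k => if hk : k < K then acc ⟨k, hk⟩ else fun _ => True)
    (fun k => if hk : k < K then ⟨b ⟨k, hk⟩ + 1, by have := hb ⟨k, hk⟩; omega⟩
      else (0 : Fin (B + 2))) x
    (fun _ _ => false) (K * m)).1
  rw [Nat.mul_div_cancel _ hm] at h1
  refine omb_iff fun i => (h1 i).trans ?_
  constructor
  · rintro ⟨ω, hω, h2, h3⟩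
    simp only [dif_pos hω] at h2 h3
    exact ⟨b ⟨ω, hω⟩, Nat.lt_succ_iff.1 h2, ⟨ω, hω⟩, rfl, (hP ⟨ω, hω⟩ x).2 h3⟩
  · rintro ⟨j, hj, ω, hω, h2⟩
    refine ⟨ω.val, ω.2, ?_, ?_⟩
    · simp only [dif_pos ω.2]
      exact Nat.lt_succ_iff.2 (hj.trans hω.ge)
    · simp only [dif_pos ω.2]
      exact (hP ω x).1 h2

end

theorem datB_lt {M : ℕ} {j j' : Fin (2 * M)} (h : j < j') :
    (datB j : Fin (sizeB M)) < datB j' := by
  have h1 : j.val < j'.val := h
  show blkB M + j.val < blkB M + j'.val
  omega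

/-- an automaton for one item, with a common set of states -/
theorem aut_item (h1 : ONE.S_CLO) (h2 : TWO.S_AUQ) (h3 : S_SIZB) {mb : ℕ → ℕ} {M : ℕ}
    (hmb : OKB mb) (hM : 2 ^ 56 ≤ M) (β : BasB mb M) (ly : LayB mb M) (ω : OmB mb M) :
    Aut (sizeB M) (Fin (2 ^ (9 * lg M + 1))) (PB β ly ω) := by
  obtain ⟨-, c2, c3, c4⟩ := h1
  obtain ⟨e, x⟩ := ω
  have hsz := (h3 mb M hmb hM).2.2 (e.val + 1) (by omega) (by have := e.2; omega)
  obtain ⟨-, -, -, -, -, -, hdeg, -⟩ := hsz
  have a1 : Aut (sizeB M) Bool fun v => v (swB e) = true :=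
    c2 (sizeB M) (swB e) (fun b => b = true)
  have a2 : Aut (sizeB M) _ fun v => TWO.Bad (β e) x (fun w => v (datB (ly.pos e w))) :=
    h2 (ptB mb M (e.val + 1)) (e.val + 1) (mb (e.val + 1) * cop (e.val + 1)) (sizeB M) (β e)
      (fun w => datB (ly.pos e w))
      (fun w w' h => ly.inj e (by
        have h4 := congrArg Fin.val h
        simp only [datB, Fin.val_natAdd] at h4
        exact Fin.ext (by omega)))
      (fun t i p => datB_lt (ly.lt₁ e t i p))
      (fun t q p => datB_lt (ly.lt₂ e t q p)) x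
  have a3 := c3 (sizeB M) Bool _ _ _ (fun p q => p ∧ q) a1 a2
  have hd : deg (ptB mb M (e.val + 1)) (e.val + 1) ≠ 0 := by
    unfold deg
    omega
  have : Fintype (GaloisField 2 (deg (ptB mb M (e.val + 1)) (e.val + 1))) := Fintype.ofFinite _
  have hcard : Fintype.card (Bool × GaloisField 2 (deg (ptB mb M (e.val + 1)) (e.val + 1)) ×
      GaloisField 2 (deg (ptB mb M (e.val + 1)) (e.val + 1)) ×
      GaloisField 2 (deg (ptB mb M (e.val + 1)) (e.val + 1))) ≤
      Fintype.card (Fin (2 ^ (9 * lg M + 1))) := by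
    have hg : Fintype.card (GaloisField 2 (deg (ptB mb M (e.val + 1)) (e.val + 1))) =
        2 ^ (deg (ptB mb M (e.val + 1)) (e.val + 1)) := by
      rw [← Nat.card_eq_fintype_card, GaloisField.card 2 _ hd]
    rw [Fintype.card_prod, Fintype.card_prod, Fintype.card_prod, hg, Fintype.card_bool,
      Fintype.card_fin]
    calc 2 * (2 ^ (deg (ptB mb M (e.val + 1)) (e.val + 1)) *
          (2 ^ (deg (ptB mb M (e.val + 1)) (e.val + 1)) *
            2 ^ (deg (ptB mb M (e.val + 1)) (e.val + 1))))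
        = 2 ^ (deg (ptB mb M (e.val + 1)) (e.val + 1) + deg (ptB mb M (e.val + 1)) (e.val + 1) +
            deg (ptB mb M (e.val + 1)) (e.val + 1) + 1) := by ring
      _ ≤ 2 ^ (9 * lg M + 1) := Nat.pow_le_pow_right (by norm_num) (by omega)
  obtain ⟨j⟩ := Function.Embedding.nonempty_of_card_le hcard
  exact c4 (sizeB M) _ _ j _ j.injective a3

/-- the number of the items -/
theorem card_OmB (h3 : S_SIZB) {mb : ℕ → ℕ} {M : ℕ} (hmb : OKB mb) (hM : 2 ^ 56 ≤ M) :
    Fintype.card (OmB mb M) ≤ sizeB M ^ 4 := by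
  obtain ⟨⟨s1, s2⟩, s3, s4⟩ := h3 mb M hmb hM
  have hM1 : 1 ≤ M := le_trans (by norm_num) hM
  have hblk : blkB M ≤ sizeB M := by
    unfold sizeB
    omega
  have hMs : M ≤ sizeB M := by omega
  have hs2 : 2 ≤ sizeB M := by omega
  rw [Fintype.card_sigma]
  have hterm : ∀ e : Fin (blkB M), Fintype.card (ItB mb M (e.val + 1)) ≤ sizeB M ^ 3 := by
    intro e
    obtain ⟨-, -, -, hc, hp, -, -, -⟩ := s4 (e.val + 1) (by omega) (by have := e.2; omega)
    unfold ItB
    rw [Fintype.card_sum, Fintype.card_prod, Fintype.card_fin, Fintype.card_fin]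
    have h5 : pols (ptB mb M (e.val + 1)) (e.val + 1) * (mb (e.val + 1) * cop (e.val + 1)) ≤
        sizeB M * sizeB M := Nat.mul_le_mul (hp.trans hMs) (hc.trans hMs)
    have h6 : mb (e.val + 1) * cop (e.val + 1) ≤ sizeB M * sizeB M := by
      calc mb (e.val + 1) * cop (e.val + 1) ≤ sizeB M := hc.trans hMs
        _ = sizeB M * 1 := (mul_one _).symm
        _ ≤ sizeB M * sizeB M := Nat.mul_le_mul_left _ (by omega)
    calc pols (ptB mb M (e.val + 1)) (e.val + 1) * (mb (e.val + 1) * cop (e.val + 1)) +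
          mb (e.val + 1) * cop (e.val + 1)
        ≤ sizeB M * sizeB M + sizeB M * sizeB M := Nat.add_le_add h5 h6
      _ = sizeB M ^ 2 * 2 := by ring
      _ ≤ sizeB M ^ 2 * sizeB M := Nat.mul_le_mul_left _ hs2
      _ = sizeB M ^ 3 := by ring
  calc ∑ e : Fin (blkB M), Fintype.card (ItB mb M (e.val + 1))
      ≤ ∑ _e : Fin (blkB M), sizeB M ^ 3 := Finset.sum_le_sum fun e _ => hterm e
    _ = blkB M * sizeB M ^ 3 := by
        rw [Finset.sum_const, Finset.card_univ, Fintype.card_fin, smul_eq_mul]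
    _ ≤ sizeB M * sizeB M ^ 3 := Nat.mul_le_mul_right _ hblk
    _ = sizeB M ^ 4 := by ring

theorem pnt_lt {A : Type} {L : ℕ} (x : (A × Fin L) ⊕ Fin L) : pnt x < L := by
  rcases x with ⟨a, l⟩ | l
  · exact l.2
  · exact l.2

theorem blo_le {mb : ℕ → ℕ} {M : ℕ} (hmb : OKB mb) (ω : OmB mb M) : blo ω ≤ blkB M := by
  obtain ⟨e, x⟩ := ω
  have h1 : pnt x < mb (e.val + 1) * cop (e.val + 1) := pnt_lt x
  have h2 : pnt x / cop (e.val + 1) < mb (e.val + 1) := by
    apply Nat.div_lt_of_lt_mul
    exact lt_of_lt_of_eq h1 (mul_comm _ _)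
  have h3 := (hmb (e.val + 1)).2
  have h4 := e.2
  show pnt x / cop (e.val + 1) ≤ blkB M
  omega

end MDTB

open MDTB in
theorem t_DTB (h1 : ONE.S_CLO) (h2 : TWO.S_AUQ) (h3 : S_SIZB) : S_DTB := by
  intro mb M hmb hM β ly
  obtain ⟨⟨s1, s2⟩, s3, s4⟩ := h3 mb M hmb hM
  have hM1 : 1 ≤ M := le_trans (by norm_num) hM
  have hpos : 0 < sizeB M := by omega
  have hs2 : 2 ≤ sizeB M := by omega
  have : Nonempty (Fin (2 ^ (9 * lg M + 1))) := ⟨⟨0, by positivity⟩⟩
  have key := many (B := blkB M) hpos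
    (fun (k : Fin (Fintype.card (OmB mb M))) (v : Fin (sizeB M) → Bool) =>
      PB β ly ((Fintype.equivFin (OmB mb M)).symm k) v)
    (fun k => blo ((Fintype.equivFin (OmB mb M)).symm k))
    (fun k => blo_le hmb _)
    (fun k => aut_item h1 h2 h3 hmb hM β ly ((Fintype.equivFin (OmB mb M)).symm k))
  refine ⟨Fin (blkB M + 2) × Fin (2 ^ (9 * lg M + 1)), inferInstance,
    Fintype.card (OmB mb M) * sizeB M,
    fun t _ => ⟨t % sizeB M, Nat.mod_lt t hpos⟩, ?_, ?_, ?_⟩
  · rw [Fintype.card_prod, Fintype.card_fin, Fintype.card_fin]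
    have hlg : 2 ^ lg M ≤ sizeB M := by
      have h4 : 2 ^ Nat.log 2 M ≤ M := Nat.pow_log_le_self 2 (by omega)
      unfold lg
      rw [pow_succ]
      omega
    have hblk : blkB M + 2 ≤ sizeB M := by
      unfold sizeB
      omega
    calc (blkB M + 2) * 2 ^ (9 * lg M + 1) = (blkB M + 2) * 2 * (2 ^ lg M) ^ 9 := by
          rw [← pow_mul]; ring
      _ ≤ sizeB M * sizeB M * sizeB M ^ 9 :=
          Nat.mul_le_mul (Nat.mul_le_mul hblk hs2) (Nat.pow_le_pow_left hlg 9)
      _ = sizeB M ^ 11 := by ring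
      _ ≤ sizeB M ^ 24 := Nat.pow_le_pow_right hpos (by norm_num)
  · calc Fintype.card (OmB mb M) * sizeB M ≤ sizeB M ^ 4 * sizeB M :=
        Nat.mul_le_mul_right _ (card_OmB h3 hmb hM)
      _ = sizeB M ^ 5 := by ring
      _ ≤ sizeB M ^ 24 := Nat.pow_le_pow_right hpos (by norm_num)
  · obtain ⟨G, hq, hG⟩ := key
    refine ⟨G, hq, fun v => ?_⟩
    refine Iff.trans ?_ (hG v)
    have h5 : BadBl β ly v = fun i => ∃ k : Fin (Fintype.card (OmB mb M)),
        blo ((Fintype.equivFin (OmB mb M)).symm k) = i ∧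
          PB β ly ((Fintype.equivFin (OmB mb M)).symm k) v := by
      funext i
      apply propext
      unfold BadBl
      constructor
      · rintro ⟨ω, h6, h7⟩
        refine ⟨Fintype.equivFin (OmB mb M) ω, ?_, ?_⟩
        · rw [Equiv.symm_apply_apply]
          exact h6
        · rw [Equiv.symm_apply_apply]
          exact h7
      · rintro ⟨k, h6, h7⟩
        exact ⟨_, h6, h7⟩
    show Omb (BadBl β ly v) ↔ _
    rw [h5]

end Pool.Agent.TKB
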