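import Pool.Agent.TKB.St2
import Pool.Agent.TKN.O_RED

/-!
# Project TKB: FIB, the programs on one point (helper1)
-/

set_option autoImplicit false

open Finset

namespace Pool.Agent.TKB

open Pool.Agent.TKN
open Pool.Agent.Lib_helper20.SRO (RectFree Rigid Agrees)
open Pool.Agent.CFT (Der)

namespace MFIB

open Pool.Agent.TKN.ONE Pool.Agent.TKN.ONE.MRED

/-- the variables of the point `p` -/
def io (W : Type) {P : Type} {n : ℕ} (p : P) (j : Fin n) : W ⊕ (P × Fin n) := Sum.inr (p, j)

variable {W P : Type} {n : ℕ}

theorem io_inj (p : P) : Function.Injective (io W (n := n) p) := by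
  intro a b h
  have h1 : (p, a) = (p, b) := Sum.inr.inj h
  exact (Prod.mk.inj h1).2

theorem put_io [DecidableEq P] (p : P) (w : W → Bool) (y : P × Fin n → Bool)
    (v : Fin n → Bool) : put (io W p) (Sum.elim w y) v = Sum.elim w (ins p v y) := by
  funext a
  by_cases h : ∃ j, io W p j = a
  · obtain ⟨j, rfl⟩ := h
    rw [put_apply (io_inj p)]
    show v j = ins p v y (p, j)
    unfold ins
    rw [if_pos rfl]
  · rw [put_of_not _ _ (fun j hj => h ⟨j, hj⟩)]
    rcases a with a | ⟨p', j⟩
    · rfl
    · have hne : p' ≠ p := fun e => h ⟨j, by rw [e]; rfl⟩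
      show y (p', j) = ins p v y (p', j)
      unfold ins
      rw [if_neg hne]

open Classical in
/-- the counted tests of one tree -/
theorem out_le (p : P) (R : Finset (W ⊕ (P × Fin n))) (R' : Finset (Fin n))
    (hR : ∀ j, Sum.inr (p, j) ∈ R → j ∈ R') (l : List ((W ⊕ (P × Fin n)) × Bool)) :
    Out R' (rst (io W p) l) ≤ OutP p R l := by
  unfold Out OutP
  induction l with
  | nil => exact le_rfl
  | cons a l ih =>
    by_cases hx : ∃ x, io W p x = a.1
    · have h1 : rst (io W p) (a :: l) = (hx.choose, a.2) :: rst (io W p) l := by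
        unfold rst
        rw [List.filterMap_cons, dif_pos hx]
      rw [h1]
      by_cases hp : hx.choose ∈ R'
      · rw [List.filter_cons_of_neg (by simpa using hp)]
        refine ih.trans ?_
        exact List.Sublist.length_le (List.Sublist.filter _ (List.sublist_cons_self a l))
      · have h3 : Sum.inr (p, hx.choose) = a.1 := hx.choose_spec
        have h2 : a.1 ∉ R ∧ ∃ j, a.1 = Sum.inr (p, j) :=
          ⟨fun h => hp (hR _ (by rw [h3]; exact h)), hx.choose, h3.symm⟩
        rw [List.filter_cons_of_pos (by simpa using hp),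
          List.filter_cons_of_pos (by simpa using h2), List.length_cons, List.length_cons]
        exact Nat.succ_le_succ ih
    · have h1 : rst (io W p) (a :: l) = rst (io W p) l := by
        unfold rst
        rw [List.filterMap_cons, dif_neg hx]
      rw [h1]
      refine ih.trans ?_
      exact List.Sublist.length_le (List.Sublist.filter _ (List.sublist_cons_self a l))

theorem out_flat {U V α : Type} (ι : U → V) (R' : Finset U) (f : α → List (V × Bool))
    (L : List α) :
    Out R' (rst ι (L.flatMap f)) = (L.map fun i => Out R' (rst ι (f i))).sum := by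
  induction L with
  | nil => rfl
  | cons a L ih =>
    rw [List.flatMap_cons, rst_append, List.map_cons, List.sum_cons, ← ih]
    unfold Out
    rw [List.filter_append, List.length_append]

end MFIB

open MFIB Pool.Agent.TKN.ONE Pool.Agent.TKN.ONE.MRED in
/-- Module FIB. -/
theorem t_FIB (hANDP : S_ANDP) : S_FIB := by
  classical
  intro P W _ _ q n K m s σ c c' N _ G w g S p y B0 hLB hqs hB hrig hrf hm1 hm hcard hB0 hbig
  obtain ⟨hacc, hblk, hder⟩ := hANDP (W ⊕ (P × Fin n)) q N G S
  have hι : Function.Injective (io W (n := n) p) := io_inj p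
  -- the blocks
  have hB' : (andP G S).Block (q * s) := by
    rcases Nat.eq_zero_or_pos q with hq | hq
    · subst hq
      exact hblk _ fun i => i.elim0
    · refine hblk _ fun i v t u h => (hB i v t u h).trans ?_
      exact Nat.le_mul_of_pos_left s hq
  -- acceptance
  have hA : ∀ v : Fin n → Bool,
      (fixG (andP G S) (io W p) (Sum.elim w y)).Accepts v ↔
        ∀ i ∈ S, (G i).Accepts (Sum.elim w (ins p v y)) := by
    intro v
    rw [accepts_fix hι, put_io, hacc]
  have hnode : Fintype.card (Fin (q + 1) ⊕ Σ i, N i) = q + 1 + ∑ i, Fintype.card (N i) := by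
    rw [Fintype.card_sum, Fintype.card_fin, Fintype.card_sigma]
  have key := hLB (Fin (q + 1) ⊕ Σ i, N i) (fixG (andP G S) (io W p) (Sum.elim w y)) g m (q * s)
    B0 hqs (block_fix _ hB') hrig ?_ hm1 hm hrf hbig (by rw [hnode]; exact hcard)
  · refine key.trans (le_of_eq ?_)
    congr 2
    congr 1
    ext v
    simp only [mem_filter, mem_univ, true_and]
    rw [hA v]
  · intro v hv
    obtain ⟨ls, Rs, hls, hsum⟩ := hB0 v hv
    set L : List ((W ⊕ (P × Fin n)) × Bool) :=
      (List.finRange q).flatMap fun i => if i ∈ S then ls i else [] with hL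
    have hLd : Der (andP G S) (andP G S).source L := hder ls fun i hi => (hls i hi).1
    have hLa : Agrees (put (io W p) (Sum.elim w y) v) L := by
      rw [put_io]
      intro a ha
      rw [hL, List.mem_flatMap] at ha
      obtain ⟨i, _, hi⟩ := ha
      by_cases hiS : i ∈ S
      · rw [if_pos hiS] at hi
        exact (hls i hiS).2.1 a hi
      · rw [if_neg hiS] at hi
        exact absurd hi List.not_mem_nil
    refine ⟨rst (io W p) L, der_fix hLd ?_, agrees_rst hι hLa,
      S.biUnion fun i => (Rs i).preimage (io W p) hι.injOn, ?_, ?_⟩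
    · intro a ha hx
      rw [← hLa a ha, put_of_not _ _ hx]
    · refine card_biUnion_le.trans ?_
      have h1 : ∀ i ∈ S, ((Rs i).preimage (io W p) hι.injOn).card ≤ s := by
        intro i hi
        refine le_trans ?_ (hls i hi).2.2
        exact Finset.card_le_card_of_injOn (io W p) (fun u hu => Finset.mem_preimage.1 hu) hι.injOn
      refine (sum_le_sum h1).trans ?_
      rw [sum_const, smul_eq_mul]
      refine Nat.mul_le_mul_right s ?_
      calc S.card ≤ (univ : Finset (Fin q)).card := card_le_univ S
        _ = q := by rw [card_univ, Fintype.card_fin]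
    · rw [hL, out_flat, ← Fin.sum_univ_def]
      refine le_trans ?_ hsum
      rw [← Finset.sum_subset (subset_univ S)]
      · refine sum_le_sum fun i hi => ?_
        rw [if_pos hi]
        refine out_le p (Rs i) _ ?_ (ls i)
        intro j hj
        exact mem_biUnion.2 ⟨i, hi, Finset.mem_preimage.2 hj⟩
      · intro i _ hi
        rw [if_neg hi]
        rfl

end Pool.Agent.TKB
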