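import Pool.Agent.TKB.St2

/-!
# Project TKB, module HVY: heavy fibres
-/

set_option autoImplicit false

open Finset

namespace Pool.Agent.TKB

namespace HVYx

section

variable {P : Type} [DecidableEq P] {n : ℕ}

theorem ins_ins (p : P) (v w : Fin n → Bool) (y : P × Fin n → Bool) :
    ins p v (ins p w y) = ins p v y := by
  funext a
  unfold ins
  split_ifs <;> rfl

theorem ins_self (p : P) (y : P × Fin n → Bool) : ins p (fun j => y (p, j)) y = y := by
  funext a
  obtain ⟨q, j⟩ := a
  unfold ins
  split_ifs with h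
  · have h' : q = p := h
    subst h'
    rfl
  · rfl

theorem ins_at (p : P) (v : Fin n → Bool) (y : P × Fin n → Bool) (j : Fin n) :
    ins p v y (p, j) = v j := if_pos rfl

theorem ins_ne (p q : P) (h : q ≠ p) (v : Fin n → Bool) (y : P × Fin n → Bool) (j : Fin n) :
    ins p v y (q, j) = y (q, j) := if_neg h

theorem ins_fun (p : P) (v : Fin n → Bool) (y : P × Fin n → Bool) :
    (fun j => ins p v y (p, j)) = v := funext fun j => ins_at p v y j

end

/-- The arithmetic of the heavy fibres. -/
theorem arith {G D T S1 S2 h X : ℝ} (hG : 0 < G) (hD : 0 < D) (h1 : T = S1 + S2)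
    (h2 : S1 ≤ h * G) (h3 : 2 * D * S2 ≤ X * G) (h4 : X * G ≤ D * T) : X ≤ 2 * D * h := by
  have h5 : D * S1 ≤ D * (h * G) := mul_le_mul_of_nonneg_left h2 hD.le
  have h6 : X * G ≤ 2 * D * h * G := by
    rw [h1] at h4
    nlinarith
  exact le_of_mul_le_mul_right h6 hG

theorem count {Y V : Type} [Fintype V] [Nonempty V] (H : Finset Y) (R : Y → V → Prop)
    [∀ y v, Decidable (R y v)] (E N : ℝ) (hN : N = Fintype.card V)
    (h : ∀ y ∈ H, N ≤ E * (univ.filter fun v => R y v).card) :
    ∃ v, (H.card : ℝ) ≤ E * (H.filter fun y => R y v).card := by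
  by_contra hcon
  push Not at hcon
  have h2 : (H.card : ℝ) * N ≤ E * ∑ y ∈ H, ((univ.filter fun v => R y v).card : ℝ) := by
    rw [mul_sum, ← nsmul_eq_mul]
    exact card_nsmul_le_sum _ _ _ h
  have h3 : ∑ y ∈ H, (univ.filter fun v => R y v).card =
      ∑ v, (H.filter fun y => R y v).card := by
    simp_rw [card_filter]
    exact sum_comm
  have h3' : ∑ y ∈ H, ((univ.filter fun v => R y v).card : ℝ) =
      ∑ v, ((H.filter fun y => R y v).card : ℝ) := by
    exact_mod_cast h3
  have h5 : ∑ v, E * ((H.filter fun y => R y v).card : ℝ) < ∑ _v : V, (H.card : ℝ) :=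
    sum_lt_sum_of_nonempty univ_nonempty fun v _ => hcon v
  rw [sum_const, card_univ, nsmul_eq_mul, ← hN, ← mul_sum, ← h3'] at h5
  linarith [mul_comm N (H.card : ℝ)]

end HVYx

open HVYx

theorem t_HVY : S_HVY := by
  classical
  intro P _ _ n g A u p T Acc D E hp hg hD hE hT hTc hF
  let z : Fin n → Bool := fun _ => false
  let H : Finset (P × Fin n → Bool) := T.image (ins p z)
  let F : (P × Fin n → Bool) → ℕ := fun y => (univ.filter fun v => ins p v y ∈ T).card
  have hF' : ∀ y, (gd g : ℝ) ≤ 2 * D * (F y : ℝ) →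
      (2 : ℝ) ^ n ≤ E * (univ.filter fun v => Acc (ins p v y) ∧ g v = false).card := hF
  have hsum : ∑ y ∈ H, F y = T.card := by
    rw [Finset.card_eq_sum_card_image (ins p z) T]
    refine Finset.sum_congr rfl fun b hb => ?_
    obtain ⟨y0, hy0, rfl⟩ := Finset.mem_image.1 hb
    refine Finset.card_bij (fun v _ => ins p v (ins p z y0)) ?_ ?_ ?_
    · intro v hv
      refine mem_filter.2 ⟨(mem_filter.1 hv).2, ?_⟩
      rw [ins_ins, ins_ins]
    · intro v _ v' _ h
      funext j
      have h1 := congrFun h (p, j)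
      rwa [ins_at, ins_at] at h1
    · intro a ha
      obtain ⟨ha1, ha2⟩ := mem_filter.1 ha
      have h1 : ins p (fun j => a (p, j)) (ins p z y0) = a := by
        rw [← ha2, ins_ins, ins_self]
      refine ⟨fun j => a (p, j), mem_filter.2 ⟨mem_univ _, ?_⟩, h1⟩
      rw [h1]
      exact ha1
  have hle : ∀ y, F y ≤ gd g := fun y => card_le_card fun v hv => mem_filter.2 ⟨mem_univ _, by
    have h1 := (hT _ (mem_filter.1 hv).2).2 p hp
    rwa [ins_fun] at h1⟩
  have hH : H.card ≤ gd g ^ (Fintype.card P - (insert p A).card) := by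
    have h1 : H.card ≤ (Fintype.piFinset (fun _ : {q // q ∉ insert p A} =>
        univ.filter fun x => g x = true)).card := by
      refine card_le_card_of_injOn (fun y q j => y (q.1, j)) ?_ ?_
      · intro y hy
        obtain ⟨y0, hy0, rfl⟩ := mem_image.1 (mem_coe.1 hy)
        refine mem_coe.2 (Fintype.mem_piFinset.2 fun q => mem_filter.2 ⟨mem_univ _, ?_⟩)
        have h2 := (hT y0 hy0).2 q.1 (fun h => q.2 (mem_insert_of_mem h))
        have h3 : (fun j => ins p z y0 (q.1, j)) = fun j => y0 (q.1, j) :=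
          funext fun j => ins_ne _ _ (fun h => q.2 (mem_insert.2 (Or.inl h))) _ _ _
        show g (fun j => ins p z y0 (q.1, j)) = true
        rw [h3]
        exact h2
      · intro y hy y' hy' h
        obtain ⟨y0, hy0, rfl⟩ := mem_image.1 (mem_coe.1 hy)
        obtain ⟨y1, hy1, rfl⟩ := mem_image.1 (mem_coe.1 hy')
        funext a
        obtain ⟨q, j⟩ := a
        by_cases hq : q = p
        · subst hq
          rw [ins_at, ins_at]
        · by_cases hqA : q ∈ A
          · rw [ins_ne _ _ hq, ins_ne _ _ hq, (hT y0 hy0).1 q hqA, (hT y1 hy1).1 q hqA]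
          · have hqi : q ∉ insert p A := by
              rw [mem_insert, not_or]
              exact ⟨hq, hqA⟩
            exact congrFun (congrFun h ⟨q, hqi⟩) j
    rw [Fintype.card_piFinset, prod_const, card_univ] at h1
    have h2 : Fintype.card {q // q ∉ insert p A} = Fintype.card P - (insert p A).card := by
      rw [Fintype.card_subtype_compl, Fintype.card_coe]
    rw [h2] at h1
    exact h1
  have hcard : Fintype.card P - A.card = (Fintype.card P - (insert p A).card) + 1 := by
    have h1 := Finset.card_lt_univ_of_notMem hp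
    rw [card_insert_of_notMem hp]
    omega
  have hgR : (0 : ℝ) < gd g := by exact_mod_cast hg
  let H' : Finset (P × Fin n → Bool) := H.filter fun y => (gd g : ℝ) ≤ 2 * D * (F y : ℝ)
  have hbig : (gd g : ℝ) ^ (Fintype.card P - (insert p A).card) ≤ 2 * D * H'.card := by
    refine arith (T := T.card) (S1 := ∑ y ∈ H', (F y : ℝ))
      (S2 := ∑ y ∈ H.filter fun y => ¬ (gd g : ℝ) ≤ 2 * D * (F y : ℝ), (F y : ℝ)) hgR hD ?_ ?_ ?_ ?_
    · rw [← hsum]
      push_cast
      exact (sum_filter_add_sum_filter_not _ _ _).symm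
    · rw [← nsmul_eq_mul]
      exact sum_le_card_nsmul _ _ _ fun y _ => by exact_mod_cast hle y
    · rw [mul_sum]
      refine (sum_le_card_nsmul _ _ (gd g : ℝ)
        fun y hy => (not_le.1 (mem_filter.1 hy).2).le).trans ?_
      rw [nsmul_eq_mul]
      refine mul_le_mul_of_nonneg_right ?_ hgR.le
      have h1 : ((H.filter fun y => ¬ (gd g : ℝ) ≤ 2 * D * (F y : ℝ)).card : ℝ) ≤ H.card := by
        exact_mod_cast card_filter_le _ _
      refine h1.trans ?_
      exact_mod_cast hH
    · rw [← pow_succ, ← hcard]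
      exact hTc
  have hpos : (0 : ℝ) < H'.card := by
    have h1 : (0 : ℝ) < (gd g : ℝ) ^ (Fintype.card P - (insert p A).card) := by positivity
    have h2 := h1.trans_le hbig
    exact pos_of_mul_pos_right h2 (by positivity)
  obtain ⟨v, hv⟩ := count H' (fun y v => Acc (ins p v y) ∧ g v = false) E ((2 : ℝ) ^ n)
    (by simp) (fun y hy => hF' y (mem_filter.1 hy).2)
  have hgv : g v = false := by
    by_contra hgv
    have h1 : (H'.filter fun y => Acc (ins p v y) ∧ g v = false) = ∅ :=
      filter_eq_empty_iff.2 fun y _ h => hgv h.2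
    rw [h1, card_empty, Nat.cast_zero, mul_zero] at hv
    exact absurd hpos (not_lt.2 hv)
  refine ⟨v, hgv, (H'.filter fun y => Acc (ins p v y) ∧ g v = false).image (ins p v), ?_, ?_⟩
  · intro y' hy'
    obtain ⟨y, hy, rfl⟩ := mem_image.1 hy'
    obtain ⟨hy1, hy2, -⟩ := mem_filter.1 hy
    refine ⟨?_, hy2⟩
    obtain ⟨y0, hy0, rfl⟩ := mem_image.1 (mem_filter.1 hy1).1
    rw [ins_ins]
    refine ⟨fun q hq j => ?_, fun q hq => ?_⟩
    · by_cases hqp : q = p
      · subst hqp
        rw [ins_at, Function.update_self]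
      · rw [ins_ne _ _ hqp, Function.update_of_ne hqp]
        exact (hT y0 hy0).1 q ((mem_insert.1 hq).resolve_left hqp) j
    · have h2 := (hT y0 hy0).2 q (fun h => hq (mem_insert_of_mem h))
      have h3 : (fun j => ins p v y0 (q, j)) = fun j => y0 (q, j) :=
        funext fun j => ins_ne _ _ (fun h => hq (mem_insert.2 (Or.inl h))) _ _ _
      rw [h3]
      exact h2
  · have h1 : ((H'.filter fun y => Acc (ins p v y) ∧ g v = false).image (ins p v)).card =
        (H'.filter fun y => Acc (ins p v y) ∧ g v = false).card := by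
      refine card_image_of_injOn fun y hy y' hy' h => ?_
      obtain ⟨y0, hy0, rfl⟩ := mem_image.1 (mem_filter.1 (mem_filter.1 (mem_coe.1 hy)).1).1
      obtain ⟨y1, hy1, rfl⟩ := mem_image.1 (mem_filter.1 (mem_filter.1 (mem_coe.1 hy')).1).1
      have h2 := congrArg (ins p z) h
      rwa [ins_ins, ins_ins, ins_ins, ins_ins] at h2
    rw [h1]
    refine hbig.trans ?_
    rw [mul_assoc (2 * D) E]
    exact mul_le_mul_of_nonneg_left hv (by positivity)

end Pool.Agent.TKB
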