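import Pool.Agent.TKB.St3
import Pool.Agent.TKN.O_LAY

/-!
# TKB, module LAYB: layouts and bases exist (helper30)
-/

set_option autoImplicit false

open Finset

namespace Pool.Agent.TKB

open Pool.Agent.TKN
open Pool.Agent.URG (VarA deg pols)
open Pool.Agent.TKN.ONE (cop)
open Pool.Agent.TKN.ONE.MLAY

theorem t_LAYB (hSIZ : S_SIZB) : S_LAYB := by
  intro mb M hmb hM
  obtain ⟨-, -, hsz⟩ := hSIZ mb M hmb hM
  refine ⟨⟨fun e => (coord_nonempty _ _).some⟩, ⟨?_⟩⟩
  have hcard : ∀ e : Fin (blkB M), Fintype.card (BVB mb M (e.val + 1)) ≤ 2 * M := fun e =>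
    (hsz (e.val + 1) (by omega) (by have := e.2; omega)).2.2.2.2.2.1
  refine ⟨fun e w => ⟨num w, (num_lt w).trans_le (hcard e)⟩, ?_, ?_, ?_⟩
  · intro e x y h
    exact num_inj (congrArg Fin.val h)
  · intro e t i p
    rw [Fin.mk_lt_mk]
    have := (Fintype.equivFin (Fin (pols (ptB mb M (e.val + 1)) (e.val + 1)) ×
      Fin (deg (ptB mb M (e.val + 1)) (e.val + 1))) (t, i)).2
    simp only [num]
    omega
  · intro e t q p
    rw [Fin.mk_lt_mk]
    have := (Fintype.equivFin (Fin (mb (e.val + 1) * cop (e.val + 1)) ×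
      Fin (ptB mb M (e.val + 1))) p).2
    simp only [num]
    omega

end Pool.Agent.TKB
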