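import Pool.Agent.TKB.St2
import Pool.Agent.TKN.R_LFQ

/-!
# Module TKB_LBFQ: the robust lower bound for fork programs on `n` bits, with explicit constants
-/

set_option autoImplicit false

open Finset

namespace Pool.Agent.TKB

open Pool.Agent.TKN
open Pool.Agent.Lib_helper20.SRO (RectFree Rigid Agrees)
open Pool.Agent.CFT (Der)
open Pool.Agent.TKN.RLFQ (arith base expo)

theorem t_LBFQ (hFAM : TKN.S_FAM) (hRCQ : S_RCQ) : S_LBFQ := by
  obtain ⟨B1, hCORE⟩ := hRCQ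
  refine ⟨3 * B1 + 2,
    fun k hk g n hn N _ G f m s B0 hs hG hrig hB hm hmc hrf hcard hcardN => ?_⟩
  obtain ⟨r, hr, hrX, hcore⟩ := hCORE (4 * k) (by omega)
  obtain ⟨K, rfl⟩ : ∃ K, r = K + 1 := ⟨r - 1, by omega⟩
  have hXY0 := expo hk B1
  have hY2 : 2 * (k + 1) ^ (3 * B1 + 1) ≤ (k + 1) ^ (3 * B1 + 2) := by
    rw [pow_succ (k + 1) (3 * B1 + 1), mul_comm]
    exact Nat.mul_le_mul le_rfl (by omega)
  set X : ℕ := (4 * k + 1) ^ B1 with hX
  set Y : ℕ := (k + 1) ^ (3 * B1 + 2) with hY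
  have hXY : 4 * X ≤ Y := by omega
  set c : ℝ := 1 / 2 ^ (g + Y) with hc
  have hX1 : 1 ≤ X := Nat.one_le_pow _ _ (by omega)
  have hX2 : X + 1 ≤ 2 ^ X := Nat.lt_two_pow_self
  have hn1 : 4 ^ (g + 1 + X) ≤ n := by
    refine le_trans ?_ hn
    exact Nat.pow_le_pow_right (by norm_num) (by omega)
  have hn2 : 2 * (K + 1) ≤ n := by
    have h1 : 2 * (K + 1) ≤ 4 ^ (g + 1 + X) := by
      calc 2 * (K + 1) ≤ 2 * 2 ^ X := Nat.mul_le_mul le_rfl (by omega)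
        _ = 2 ^ (X + 1) := by rw [pow_succ, mul_comm]
        _ ≤ 4 ^ (X + 1) := Nat.pow_le_pow_left (by norm_num) _
        _ ≤ 4 ^ (g + 1 + X) := Nat.pow_le_pow_right (by norm_num) (by omega)
    omega
  have hc0 : 0 < c := by positivity
  have hYpos : (0 : ℝ) < 2 ^ (g + Y) := by positivity
  have hXpos : (0 : ℝ) < 2 ^ (g + 1 + X) := by positivity
  have hc1 : c * ((K : ℝ) + 1) ≤ 1 := by
    have h1 : K + 1 ≤ 2 ^ (g + Y) := by
      calc K + 1 ≤ 2 ^ X := by omega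
        _ ≤ 2 ^ (g + Y) := Nat.pow_le_pow_right (by norm_num) (by omega)
    have h2 : ((K : ℝ) + 1) ≤ 2 ^ (g + Y) := by exact_mod_cast h1
    rw [hc, div_mul_eq_mul_div, one_mul, div_le_one hYpos]
    exact h2
  have hc2 : c * ((K : ℝ) + 2) ≤ 1 / 2 ^ (g + 1 + X) := by
    have h1 : (K + 2) * 2 ^ (g + 1 + X) ≤ 2 ^ (g + Y) := by
      calc (K + 2) * 2 ^ (g + 1 + X) ≤ 2 ^ X * 2 ^ (g + 1 + X) :=
            Nat.mul_le_mul (by omega) le_rfl
        _ = 2 ^ (X + (g + 1 + X)) := (pow_add _ _ _).symm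
        _ ≤ 2 ^ (g + Y) := Nat.pow_le_pow_right (by norm_num) (by omega)
    have h2 : ((K : ℝ) + 2) * 2 ^ (g + 1 + X) ≤ 2 ^ (g + Y) := by exact_mod_cast h1
    rw [hc, div_mul_eq_mul_div, one_mul, div_le_div_iff₀ hYpos hXpos]
    linarith
  obtain ⟨a1, a2⟩ := arith (h := k * n / (K + 1) + 1) hk hn2 hc1 hs rfl
  obtain ⟨Z, U, hfam, hZ, hBZ⟩ : ∃ (Z : Finset (Fin n → Bool))
      (U : Fin (K + 1) → (Fin n → Bool) → Finset (Fin n)),
      Fam n (K + 1) (2 * (k * n / (K + 1) + 1) + s) Z U ∧ (∀ z ∈ Z, G.Accepts z) ∧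
      B0.card ≤ Fintype.card N ^ (K + 1) * Z.card := by
    classical
    obtain ⟨Z, U, h1, h2, h3⟩ := hFAM n N G (fun b => decide (G.Accepts b))
      (k * n / (K + 1) + 1) s K (k * n) B0 hG (fun b hb => decide_eq_true hb) hB a1
    exact ⟨Z, U, h1, fun z hz => of_decide_eq_true (h2 z hz), h3⟩
  have key : ∀ t : ℝ, 0 ≤ t → t ≤ (K : ℝ) + 2 →
      (2 : ℝ) ^ (c * n * t) ≤ Real.exp ((n : ℝ) / 2 ^ (g + 1 + X)) := by
    intro t ht0 ht
    rw [Real.rpow_def_of_pos (by norm_num)]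
    apply Real.exp_le_exp.2
    have hl : Real.log 2 ≤ 1 := by linarith [Real.log_two_lt_d9]
    have hl0 : 0 ≤ Real.log 2 := Real.log_nonneg (by norm_num)
    have h1 : 0 ≤ c * n * t := by positivity
    calc Real.log 2 * (c * n * t) ≤ 1 * (c * n * t) := by gcongr
      _ ≤ c * n * ((K : ℝ) + 2) := by rw [one_mul]; gcongr
      _ = c * ((K : ℝ) + 2) * n := by ring
      _ ≤ 1 / 2 ^ (g + 1 + X) * n := by gcongr
      _ = (n : ℝ) / 2 ^ (g + 1 + X) := by ring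
  have hM : (m : ℝ) ≤ Real.exp ((n : ℝ) / 2 ^ (g + 1 + X)) := by
    calc (m : ℝ) ≤ 2 ^ (c * n) := hmc
      _ = (2 : ℝ) ^ (c * n * 1) := by rw [mul_one]
      _ ≤ _ := key 1 zero_le_one (by linarith [(Nat.cast_nonneg K : (0 : ℝ) ≤ K)])
  have hZc : (2 : ℝ) ^ n ≤ Real.exp ((n : ℝ) / 2 ^ (g + 1 + X)) * Z.card := by
    have h1 : (B0.card : ℝ) ≤ (2 : ℝ) ^ (c * n * ((K : ℝ) + 1)) * Z.card := by
      calc (B0.card : ℝ) ≤ ((Fintype.card N ^ (K + 1) * Z.card : ℕ) : ℝ) := by exact_mod_cast hBZ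
        _ = (Fintype.card N : ℝ) ^ (K + 1) * Z.card := by push_cast; ring
        _ ≤ ((2 : ℝ) ^ (c * n)) ^ (K + 1) * Z.card := by gcongr
        _ = (2 : ℝ) ^ (c * n * ((K : ℝ) + 1)) * Z.card := by
          rw [Real.rpow_mul (by norm_num) (c * n), ← Real.rpow_natCast]
          push_cast
          ring
    calc (2 : ℝ) ^ n ≤ 2 ^ (c * n) * B0.card := hcard
      _ ≤ 2 ^ (c * n) * ((2 : ℝ) ^ (c * n * ((K : ℝ) + 1)) * Z.card) := by gcongr
      _ = (2 : ℝ) ^ (c * n * ((K : ℝ) + 2)) * Z.card := by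
        rw [← mul_assoc, ← Real.rpow_add (by norm_num)]
        congr 2
        ring
      _ ≤ Real.exp ((n : ℝ) / 2 ^ (g + 1 + X)) * Z.card := by
        gcongr
        exact key _ (by positivity) le_rfl
  have hfin := hcore (g + 1) n hn1 (2 * (k * n / (K + 1) + 1) + s) Z U f m hfam a2 hrig hrf hm
    hM hZc
  refine hfin.trans (mul_le_mul ?_ ?_ (Nat.cast_nonneg _) (by positivity))
  · rw [Real.rpow_def_of_pos (by norm_num)]
    apply Real.exp_le_exp.2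
    have hl : (1 : ℝ) / 2 ≤ Real.log 2 := by linarith [Real.log_two_gt_d9]
    have h1 : (0 : ℝ) ≤ 1 / 2 ^ g * n := by positivity
    calc (n : ℝ) / 2 ^ (g + 1) = 1 / 2 * (1 / 2 ^ g * n) := by
          rw [pow_succ]
          field_simp
      _ ≤ Real.log 2 * (1 / 2 ^ g * n) := mul_le_mul_of_nonneg_right hl h1
  · refine Nat.cast_le.2 (Finset.card_le_card fun z hz => ?_)
    obtain ⟨h1, h2⟩ := Finset.mem_filter.1 hz
    simp only [Finset.mem_filter, Finset.mem_univ, true_and]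
    exact ⟨hZ z h1, h2⟩

end Pool.Agent.TKB
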