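import Pool.Agent.TKB.St2
import Pool.Agent.TKN.R_LRQ

/-!
# TKB, LBQ: the robust lower bound where the tests of few variables are not counted

After `Pool.Agent.TKN.R_LRQ`.
-/

set_option autoImplicit false

open Finset

namespace Pool.Agent.TKB

open Pool.Agent.TKN
open Pool.Agent.Lib_helper20.SRO (RectFree Rigid Agrees)
open Pool.Agent.CFT (Der)

namespace LBQ50

open EXC54

theorem core (h2 : S_SUBS) {k n : ℕ} {σ c c1 c' : ℝ} (hσ : 0 < σ) (hσ1 : σ ≤ 1)
    (hσc : σ ≤ c1) (hc : 0 < c)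
    (hc8 : c ≤ c1 / 8) (heta : eta σ ≤ c1 / 8) (hnc : 2 ≤ c1 * n)
    (hlow : LBF (k + 1) c1 c' n) : LB k σ c c' n := by
  classical
  intro N _ G f m s B0 hs hblock hrig hB hm hm2 hrect hcard hN
  have hnn : (0 : ℝ) ≤ n := Nat.cast_nonneg n
  obtain ⟨F, hF, hFc⟩ : ∃ F : Finset (Finset (Fin n)), (∀ T, T ∈ F ↔ (T.card : ℝ) ≤ σ * n) ∧
      (F.card : ℝ) ≤ Real.exp (eta σ * n) :=
    ⟨(univ : Finset (Fin n)).powerset.filter fun T => (T.card : ℝ) ≤ σ * (univ : Finset (Fin n)).card,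
      fun T => by simp, by simpa using h2 (Fin n) univ σ hσ hσ1⟩
  have hex : ∀ b : Fin n → Bool, ∃ R : Finset (Fin n), b ∈ B0 → R.card ≤ s ∧
      ∃ l, Der G G.source l ∧ Agrees b l ∧ Out R l ≤ k * n := by
    intro b
    by_cases hb : b ∈ B0
    · obtain ⟨l, g1, g2, R, g3, g4⟩ := hB b hb
      exact ⟨R, fun _ => ⟨g3, l, g1, g2, g4⟩⟩
    · exact ⟨∅, fun h => absurd h hb⟩
  choose Rb hRb using hex
  have hmaps : ∀ b ∈ B0, (Rb b, (Rb b).filter fun x => b x = true) ∈ F ×ˢ F := by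
    intro b hb
    have h3 : ((Rb b).card : ℝ) ≤ σ * n := le_trans (by exact_mod_cast (hRb b hb).1) hs
    rw [Finset.mem_product]
    refine ⟨(hF _).2 h3, (hF _).2 (le_trans ?_ h3)⟩
    exact_mod_cast Finset.card_filter_le _ _
  have hne : (F ×ˢ F).Nonempty := by
    have h0 : (∅ : Finset (Fin n)) ∈ F := (hF _).2 (by
      rw [Finset.card_empty, Nat.cast_zero]
      positivity)
    exact ⟨(∅, ∅), Finset.mk_mem_product h0 h0⟩
  have hFF : (0 : ℝ) < ((F ×ˢ F).card : ℝ) := by exact_mod_cast Finset.card_pos.2 hne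
  obtain ⟨⟨R, S⟩, hRS, hfib⟩ := Finset.exists_le_card_fiber_of_nsmul_le_card_of_maps_to
    (b := (B0.card : ℝ) / ((F ×ˢ F).card : ℝ)) hmaps hne (by
      rw [nsmul_eq_mul, mul_div_cancel₀ _ hFF.ne'])
  set B1 : Finset (Fin n → Bool) :=
    B0.filter fun b => (Rb b, (Rb b).filter fun x => b x = true) = (R, S) with hB1
  have hB1c : (B0.card : ℝ) ≤ Real.exp (2 * (eta σ * n)) * B1.card := by
    have h3 : (B0.card : ℝ) ≤ ((F ×ˢ F).card : ℝ) * B1.card := by
      rw [div_le_iff₀ hFF, mul_comm] at hfib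
      exact hfib
    refine h3.trans (mul_le_mul_of_nonneg_right ?_ (Nat.cast_nonneg _))
    rw [Finset.card_product, Nat.cast_mul, two_mul, Real.exp_add]
    exact mul_le_mul hFc hFc (Nat.cast_nonneg _) (Real.exp_pos _).le
  have hRs : R.card ≤ s ∨ B1 = ∅ := by
    rcases B1.eq_empty_or_nonempty with h | ⟨b, hb⟩
    · exact Or.inr h
    · left
      obtain ⟨hb0, hb1⟩ := Finset.mem_filter.1 hb
      have h3 := (hRb b hb0).1
      rwa [(Prod.mk.inj hb1).1] at h3
  have hetan : eta σ * n ≤ c1 / 8 * n := mul_le_mul_of_nonneg_right heta hnn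
  have hcn : c * n ≤ c1 / 8 * n := mul_le_mul_of_nonneg_right hc8 hnn
  have heta0 : 0 ≤ eta σ := by
    unfold eta
    have : 0 ≤ Real.log (1 / σ) := Real.log_nonneg (by rw [le_div_iff₀ hσ]; linarith)
    positivity
  have hmain : (2 : ℝ) ^ n ≤ 2 ^ (c1 * n) * B1.card := by
    calc (2 : ℝ) ^ n ≤ 2 ^ (c * n) * B0.card := hcard
      _ ≤ 2 ^ (c * n) * (Real.exp (2 * (eta σ * n)) * B1.card) := by
          refine mul_le_mul_of_nonneg_left hB1c (by positivity)
      _ = (2 ^ (c * n) * Real.exp (2 * (eta σ * n))) * B1.card := by ring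
      _ ≤ (2 ^ (c * n) * 2 ^ (2 * (2 * (eta σ * n)))) * B1.card := by
          refine mul_le_mul_of_nonneg_right (mul_le_mul_of_nonneg_left
            (exp_le (by positivity)) (by positivity)) (Nat.cast_nonneg _)
      _ ≤ 2 ^ (c1 * n) * B1.card := by
          refine mul_le_mul_of_nonneg_right ?_ (Nat.cast_nonneg _)
          rw [← Real.rpow_add (by norm_num)]
          refine Real.rpow_le_rpow_of_exponent_le (by norm_num) ?_
          nlinarith
  have hB1ne : B1 ≠ ∅ := by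
    intro h0
    rw [h0, Finset.card_empty, Nat.cast_zero, mul_zero] at hmain
    have : (0 : ℝ) < 2 ^ n := by positivity
    linarith
  have hR : R.card ≤ s := hRs.resolve_right hB1ne
  set a : Fin n → Bool := fun x => decide (x ∈ S) with ha
  have hab : ∀ b ∈ B1, ∀ x ∈ R, b x = a x := by
    intro b hb x hx
    obtain ⟨hb0, hb1⟩ := Finset.mem_filter.1 hb
    obtain ⟨e1, e2⟩ := Prod.mk.inj hb1
    rw [e1] at e2
    have h3 : x ∈ S ↔ b x = true := by
      rw [← e2, Finset.mem_filter]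
      exact ⟨fun h => h.2, fun h => ⟨hx, h⟩⟩
    rw [ha]
    cases hbx : b x with
    | true => simp [h3.2 hbx]
    | false =>
      have : x ∉ S := fun h => by
        rw [h3.1 h] at hbx
        exact absurd hbx (by simp)
      simp [this]
  have h6 : (2 : ℝ) * 2 ^ (c * n) ≤ 2 ^ (c1 * n) := by
    calc (2 : ℝ) * 2 ^ (c * n) = 2 ^ (1 + c * n) := by
          rw [Real.rpow_add (by norm_num), Real.rpow_one]
      _ ≤ 2 ^ (c1 * n) := by
          refine Real.rpow_le_rpow_of_exponent_le (by norm_num) ?_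
          nlinarith
  have h7 : (1 : ℝ) ≤ 2 ^ (c * n) := Real.one_le_rpow (by norm_num) (by positivity)
  have hfin := hlow (Option N) (progR G R a) f m s B1
    (hs.trans (mul_le_mul_of_nonneg_right hσc hnn)) (block hblock R a hR)
    hrig (by
      intro b hb
      obtain ⟨hb0, hb1⟩ := Finset.mem_filter.1 hb
      obtain ⟨-, l, g1, g2, g3⟩ := hRb b hb0
      rw [(Prod.mk.inj hb1).1] at g3
      obtain ⟨l', g4, g5, g6⟩ := complete R a (hab b hb) g1 g2
      refine ⟨l', g4, g5, ?_⟩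
      have h4 : (s : ℝ) ≤ n := hs.trans (by nlinarith)
      have h5 : s ≤ n := by exact_mod_cast h4
      rw [g6]
      nlinarith) hm
    (hm2.trans (Real.rpow_le_rpow_of_exponent_le (by norm_num) (by nlinarith)))
    hrect hmain (by
      rw [Fintype.card_option, Nat.cast_add, Nat.cast_one]
      linarith)
  refine hfin.trans (mul_le_mul_of_nonneg_left ?_ (by positivity))
  have h8 : (univ.filter fun b => (progR G R a).Accepts b ∧ f b = false).card
      ≤ (univ.filter fun b => G.Accepts b ∧ f b = false).card := by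
    refine Finset.card_le_card fun b hb => ?_
    rw [Finset.mem_filter] at hb ⊢
    exact ⟨hb.1, sound hb.2.1, hb.2.2⟩
  exact_mod_cast h8

end LBQ50

open LBQ50 EXC54 in
/-- LBQ -/
theorem t_LBQ (h1 : S_LBFQ) (h2 : TKN.S_SUBS) : S_LBQ := by
  obtain ⟨B, hB⟩ := h1
  refine ⟨2 * B + 4, fun k hk g n hn => ?_⟩
  obtain ⟨e, he⟩ : ∃ e, e = (k + 1 + 1) ^ B := ⟨_, rfl⟩
  obtain ⟨e', he'⟩ : ∃ e', e' = (k + 1) ^ (2 * B + 4) := ⟨_, rfl⟩
  have hee : 2 * e + 8 ≤ e' := by
    have g1 : k + 1 + 1 ≤ (k + 1) ^ 2 := by nlinarith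
    have g2 : e ≤ (k + 1) ^ (2 * B) := by
      rw [he, pow_mul]
      exact Nat.pow_le_pow_left g1 B
    have g3 : 1 ≤ (k + 1) ^ (2 * B) := Nat.one_le_pow _ _ (by omega)
    have g4 : 2 ^ 4 ≤ (k + 1) ^ 4 := Nat.pow_le_pow_left (by omega) 4
    have g5 : e' = (k + 1) ^ (2 * B) * (k + 1) ^ 4 := by rw [he', pow_add]
    have g6 : (k + 1) ^ (2 * B) * 2 ^ 4 ≤ (k + 1) ^ (2 * B) * (k + 1) ^ 4 :=
      Nat.mul_le_mul_left _ g4
    rw [g5]
    omega
  have hlow := hB (k + 1) (by omega) g n ?_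
  · rw [← he] at hlow
    rw [← he'] at hn ⊢
    have q1 : (0 : ℝ) < 1 / 2 ^ (g + e) := by positivity
    have q2 : (1 : ℝ) / 4 ^ (g + e') ≤ 1 / 4 ^ (g + e + 4) := by
      apply one_div_le_one_div_of_le (by positivity)
      exact pow_le_pow_right₀ (by norm_num) (by omega)
    have q3 : (1 : ℝ) / 4 ^ (g + e + 4) = (1 / 2 ^ (g + e) / 16) ^ 2 := by
      rw [pow_add _ (g + e) 4, div_div, div_pow, mul_pow, ← pow_mul, mul_comm (g + e) 2, pow_mul]
      norm_num
    have q4 : (1 : ℝ) / 2 ^ (g + e) ≤ 1 := by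
      rw [div_le_one (by positivity)]
      exact one_le_pow₀ (by norm_num)
    have q5 : (1 : ℝ) / 4 ^ (g + e') ≤ (1 / 2 ^ (g + e) / 16) ^ 2 := q2.trans q3.le
    refine core h2 (by positivity) ?_ ?_ (by positivity) ?_ ?_ ?_ hlow
    · refine q5.trans ?_
      nlinarith
    · refine q5.trans ?_
      nlinarith
    · have r1 : (1 : ℝ) / 2 ^ (g + e') ≤ 1 / 2 ^ (g + e + 3) := by
        apply one_div_le_one_div_of_le (by positivity)
        exact pow_le_pow_right₀ (by norm_num) (by omega)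
      refine r1.trans (le_of_eq ?_)
      rw [pow_add _ (g + e) 3, div_div]
      norm_num
    · refine (eta_le (by positivity)).trans ?_
      have r1 : Real.sqrt (1 / 4 ^ (g + e')) ≤ 1 / 2 ^ (g + e) / 16 :=
        (Real.sqrt_le_sqrt q5).trans (Real.sqrt_sq (by positivity)).le
      linarith
    · have r2 : (2 : ℝ) ^ (g + e + 1) ≤ n := by
        have r3 : 2 ^ (g + e + 1) ≤ n := by
          calc 2 ^ (g + e + 1) ≤ 4 ^ (g + e + 1) := Nat.pow_le_pow_left (by norm_num) _
            _ ≤ 4 ^ (g + e') := Nat.pow_le_pow_right (by norm_num) (by omega)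
            _ ≤ n := hn
        exact_mod_cast r3
      rw [one_div, ← div_eq_inv_mul, le_div_iff₀ (by positivity)]
      calc (2 : ℝ) * 2 ^ (g + e) = 2 ^ (g + e + 1) := by ring
        _ ≤ n := r2
  · rw [← he]
    rw [← he'] at hn
    exact (Nat.pow_le_pow_right (by norm_num) (by omega)).trans hn

end Pool.Agent.TKB
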