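import Pool.Agent.TKB.St3

/-!
# Project TKB, module LWB: the lower bound
-/

set_option autoImplicit false

open Finset

namespace Pool.Agent.TKB

open Pool.Agent.TKN
open Pool.Agent.Lib_helper20.SRO (RectFree Rigid)
open Pool.Agent.URG (VarX deg lg)
open Pool.Agent.TKN.ONE (cop)

namespace MLWB

/-- the fibres of the block number -/
lemma fibre (m L j : ℕ) (hj : j < m) :
    (univ.filter fun p : Fin (m * L) => p.val / L = j).card = L := by
  have h : ∀ i : Fin L, j * L + i.val < m * L := fun i =>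
    calc j * L + i.val < j * L + L := by omega
      _ = (j + 1) * L := by ring
      _ ≤ m * L := Nat.mul_le_mul_right _ hj
  have e : (univ : Finset (Fin L)).card =
      (univ.filter fun p : Fin (m * L) => p.val / L = j).card := by
    refine Finset.card_bij (fun i _ => ⟨j * L + i.val, h i⟩) ?_ ?_ ?_
    · intro i _
      have hL : 0 < L := lt_of_le_of_lt (Nat.zero_le _) i.isLt
      rw [mem_filter]
      refine ⟨mem_univ _, ?_⟩
      show (j * L + i.val) / L = j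
      rw [mul_comm, Nat.mul_add_div hL, Nat.div_eq_of_lt i.isLt, add_zero]
    · intro a _ b _ hab
      have h1 : j * L + a.val = j * L + b.val := congrArg Fin.val hab
      exact Fin.ext (by omega)
    · intro p hp
      rw [mem_filter] at hp
      have hL : 0 < L := by
        rcases Nat.eq_zero_or_pos L with h0 | h0
        · exfalso
          have h1 := p.isLt
          have h2 : m * L = 0 := by rw [h0, mul_zero]
          omega
        · exact h0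
      refine ⟨⟨p.val % L, Nat.mod_lt _ hL⟩, mem_univ _, ?_⟩
      refine Fin.ext ?_
      show j * L + p.val % L = p.val
      rw [← hp.2, mul_comm]
      exact Nat.div_add_mod _ _
  rw [← e, card_univ, Fintype.card_fin]

/-- the exponents -/
lemma expo (B1 k q : ℕ) (hk : 1 ≤ k) :
    4 * ((6 * k * (q + 1) + 1) * (q + 1)) ^ B1 + 100 ≤ ((k + 1) * (q + 1)) ^ (5 * B1 + 7) := by
  have hY : 2 ≤ (k + 1) * (q + 1) :=
    calc 2 = 2 * 1 := by norm_num
      _ ≤ (k + 1) * (q + 1) := Nat.mul_le_mul (by omega) (by omega)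
  have h1 : (6 * k * (q + 1) + 1) * (q + 1) ≤ ((k + 1) * (q + 1)) ^ 5 := by
    have h2 : 6 * k * (q + 1) + 1 ≤ 6 * ((k + 1) * (q + 1)) := by
      have : 6 * ((k + 1) * (q + 1)) = 6 * k * (q + 1) + (6 * q + 6) := by ring
      omega
    have h3 : q + 1 ≤ (k + 1) * (q + 1) := Nat.le_mul_of_pos_left _ (by omega)
    generalize (k + 1) * (q + 1) = Y at hY h2 h3 ⊢
    calc (6 * k * (q + 1) + 1) * (q + 1) ≤ 6 * Y * Y := Nat.mul_le_mul h2 h3
      _ ≤ 2 ^ 3 * Y * Y := by gcongr; norm_num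
      _ ≤ Y ^ 3 * Y * Y := by gcongr
      _ = Y ^ 5 := by ring
  have h2 : ((6 * k * (q + 1) + 1) * (q + 1)) ^ B1 ≤ ((k + 1) * (q + 1)) ^ (5 * B1) := by
    rw [pow_mul]
    exact Nat.pow_le_pow_left h1 B1
  have h3 : 1 ≤ ((k + 1) * (q + 1)) ^ (5 * B1) := Nat.one_le_pow _ _ (by omega)
  have h4 : 128 ≤ ((k + 1) * (q + 1)) ^ 7 :=
    calc 128 = 2 ^ 7 := by norm_num
      _ ≤ ((k + 1) * (q + 1)) ^ 7 := Nat.pow_le_pow_left hY 7
  calc 4 * ((6 * k * (q + 1) + 1) * (q + 1)) ^ B1 + 100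
      ≤ 128 * ((k + 1) * (q + 1)) ^ (5 * B1) := by omega
    _ ≤ ((k + 1) * (q + 1)) ^ 7 * ((k + 1) * (q + 1)) ^ (5 * B1) := Nat.mul_le_mul_right _ h4
    _ = ((k + 1) * (q + 1)) ^ (5 * B1 + 7) := by rw [← pow_add, add_comm 7 (5 * B1)]

end MLWB

theorem t_LWB (hCBQ : S_CBQ) (hREDB : S_REDB) (hNUB : S_NUB) (hPUTB : S_PUTB)
    (hGOOQ : TWO.S_GOOQ) : S_LWB := by
  obtain ⟨B1, hCB⟩ := hCBQ
  refine ⟨5 * B1 + 7, ?_⟩
  intro mb q k M e hmb hk hme hYe heb β ly s hs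
  have hE := (MLWB.expo B1 k q hk).trans hYe
  have hCB' := hCB q (6 * k * (q + 1)) (Nat.mul_pos (by omega) (by omega))
  generalize ((6 * k * (q + 1) + 1) * (q + 1)) ^ B1 = X at hE hCB'
  obtain ⟨-, hn2, hlg, h4X, hm, hdens, hT, hz1, hz2, hqs⟩ := hNUB mb M e q k X hmb hme hk hE heb
  obtain ⟨f, rfl⟩ : ∃ f, e = f + 1 := ⟨e - 1, by omega⟩
  have hfb : f < blkB M := heb
  obtain ⟨hrig, u, hfree, hgood⟩ := hGOOQ (ptB mb M (f + 1)) (f + 1) (β ⟨f, hfb⟩) hn2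
    (by omega) hlg
  obtain ⟨hinj, hput⟩ := hPUTB mb M β ly ⟨f, hfb⟩
  have hcop : 1 ≤ cop (f + 1) := by
    unfold cop
    omega
  refine hREDB q (6 * k * (q + 1)) (ptB mb M (f + 1)) (1 / 4 ^ X) (1 / 2 ^ X) (hCB' _ h4X)
    (Fin (mb (f + 1) * cop (f + 1))) (VarX (ptB mb M (f + 1)) (f + 1))
    (fun p => p.val / cop (f + 1)) (2 ^ (f + 1)) s (cop (f + 1)) (sizeB M) (k * sizeB M)
    ((sizeB M : ℝ) / 2 ^ (6 * (f + 1))) u (TWO.one (β ⟨f, hfb⟩) u) (FB β ly)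
    (fun w => datB (ly.pos ⟨f, hfb⟩ w)) (fun i => decide (i = swB ⟨f, hfb⟩)) hinj ?_ (hrig u)
    hfree Nat.one_le_two_pow hm hcop ?_ ?_ hT hz1 hz2 (fun y => hput u y)
  · -- the exceptional variables
    refine le_trans ?_ hqs
    rw [Nat.cast_mul]
    exact mul_le_mul_of_nonneg_left hs (Nat.cast_nonneg _)
  · intro j hj
    exact MLWB.fibre (mb (f + 1)) (cop (f + 1)) j (by omega)
  · -- the density of the good words
    show ((2 : ℝ) ^ (q + 1) * (cop (f + 1) : ℕ)) ^ (q + 1) * 2 ^ ptB mb M (f + 1) ≤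
      2 ^ (1 / 2 ^ X * (ptB mb M (f + 1) : ℝ) / 2) *
        ((univ.filter fun x : Fin (ptB mb M (f + 1)) → Bool =>
          TWO.one (β ⟨f, hfb⟩) u x = true).card : ℕ)
    have h1 : (0 : ℝ) ≤ ((univ.filter fun x : Fin (ptB mb M (f + 1)) → Bool =>
        TWO.one (β ⟨f, hfb⟩) u x = true).card : ℕ) := Nat.cast_nonneg _
    generalize ((univ.filter fun x : Fin (ptB mb M (f + 1)) → Bool =>
        TWO.one (β ⟨f, hfb⟩) u x = true).card : ℕ) = Γ at hgood h1 ⊢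
    have h0 : (0 : ℝ) ≤ ((2 : ℝ) ^ (q + 1) * (cop (f + 1) : ℕ)) ^ (q + 1) := by positivity
    calc ((2 : ℝ) ^ (q + 1) * (cop (f + 1) : ℕ)) ^ (q + 1) * 2 ^ ptB mb M (f + 1)
        ≤ ((2 : ℝ) ^ (q + 1) * (cop (f + 1) : ℕ)) ^ (q + 1) *
          (2 ^ (24 * (ptB mb M (f + 1) : ℝ) / 2 ^ (f + 1) + 2 * lg (ptB mb M (f + 1))) * Γ) :=
          mul_le_mul_of_nonneg_left hgood h0
      _ = ((2 : ℝ) ^ (q + 1) * (cop (f + 1) : ℕ)) ^ (q + 1) *
          2 ^ (24 * (ptB mb M (f + 1) : ℝ) / 2 ^ (f + 1) + 2 * lg (ptB mb M (f + 1))) * Γ := by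
          ring
      _ ≤ _ := mul_le_mul_of_nonneg_right hdens h1

end Pool.Agent.TKB
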