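import Pool.Agent.TKB.St3

/-!
# Project TKB: odd-max-bit and weights (OMC)
-/

set_option autoImplicit false

open Finset

namespace Pool.Agent.TKB

namespace OMCAux

/-- numbers in base `W` with digits at most `K < W` -/
lemma low (K W : ℕ) (a : ℕ → ℕ) (hK : K < W) (ha : ∀ i, a i ≤ K) (j : ℕ) :
    ∑ i ∈ range j, a i * W ^ i < W ^ j := by
  induction j with
  | zero => simp
  | succ j ih =>
    rw [sum_range_succ]
    calc ∑ i ∈ range j, a i * W ^ i + a j * W ^ j < W ^ j + a j * W ^ j :=
          Nat.add_lt_add_right ih _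
      _ ≤ W ^ j + K * W ^ j := Nat.add_le_add_left (Nat.mul_le_mul_right _ (ha j)) _
      _ = (K + 1) * W ^ j := by ring
      _ ≤ W * W ^ j := Nat.mul_le_mul_right _ hK
      _ = W ^ (j + 1) := by ring

/-- a set which contains the last index has a larger sum than a set which does not contain it -/
lemma cmp (K W : ℕ) (a : ℕ → ℕ) (hK : K < W) (ha : ∀ i, a i ≤ K) (m : ℕ) (hm : a m ≠ 0)
    (hl : ∀ j, m < j → a j = 0) (S T : Finset ℕ) (hS : m ∉ S) (hT : m ∈ T) :
    ∑ i ∈ S, a i * W ^ i < ∑ i ∈ T, a i * W ^ i := by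
  have h1 : ∑ i ∈ S, a i * W ^ i ≤ ∑ i ∈ range m, a i * W ^ i := by
    refine sum_le_sum_of_ne_zero fun i hi h0 => ?_
    rw [mem_range]
    by_contra hc
    have h2 : m < i := by
      rcases Nat.lt_or_ge m i with h | h
      · exact h
      · exfalso
        have : i = m := by omega
        exact hS (this ▸ hi)
    exact h0 (by rw [hl i h2, Nat.zero_mul])
  have h2 : W ^ m ≤ ∑ i ∈ T, a i * W ^ i :=
    calc W ^ m = 1 * W ^ m := (Nat.one_mul _).symm
      _ ≤ a m * W ^ m := Nat.mul_le_mul_right _ (Nat.pos_of_ne_zero hm)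
      _ ≤ ∑ i ∈ T, a i * W ^ i :=
        single_le_sum (f := fun i => a i * W ^ i) (fun i _ => Nat.zero_le _) hT
  exact (h1.trans_lt (low K W a hK ha m)).trans_le h2

end OMCAux

open OMCAux in
/-- **OMC**: odd-max-bit and weights. -/
theorem t_OMC : S_OMC := by
  intro mh K W a hK ha h0
  by_cases hex : ∃ i, a i ≠ 0
  · obtain ⟨i0, hi0⟩ := hex
    have hi1 : i0 ≤ mh := by
      by_contra hc
      exact hi0 (h0 i0 (by omega))
    obtain ⟨m, hmdef⟩ : ∃ m, m = Nat.findGreatest (fun i => a i ≠ 0) mh := ⟨_, rfl⟩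
    have hm : a m ≠ 0 := by
      rw [hmdef]
      exact Nat.findGreatest_spec (P := fun i => a i ≠ 0) hi1 hi0
    have hmm : m ≤ mh := by
      rw [hmdef]
      exact Nat.findGreatest_le mh
    have hl : ∀ j, m < j → a j = 0 := by
      intro j hj
      by_cases hjm : j ≤ mh
      · by_contra hc
        rw [hmdef] at hj
        exact Nat.findGreatest_is_greatest (P := fun i => a i ≠ 0) hj hjm hc
      · exact h0 j (by omega)
    have hr : m ∈ range (mh + 1) := mem_range.2 (by omega)
    by_cases he : Even m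
    · refine ⟨fun _ => ⟨m, he, hm, fun j hj hc => hc (hl j hj)⟩, fun _ => ?_⟩
      exact cmp K W a hK ha m hm hl _ _ (fun h => (mem_filter.1 h).2 he) (mem_filter.2 ⟨hr, he⟩)
    · constructor
      · intro h
        exfalso
        have h1 := cmp K W a hK ha m hm hl ((range (mh + 1)).filter fun i => Even i)
          ((range (mh + 1)).filter fun i => ¬ Even i) (fun h => he (mem_filter.1 h).2)
          (mem_filter.2 ⟨hr, he⟩)
        omega
      · rintro ⟨i, hi, hai, hli⟩
        exfalso
        rcases lt_trichotomy i m with h | h | h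
        · exact hli m h hm
        · exact he (h ▸ hi)
        · exact hai (hl i h)
  · push Not at hex
    constructor
    · intro h
      exfalso
      simp [hex] at h
    · rintro ⟨i, -, hi, -⟩
      exact absurd (hex i) hi

end Pool.Agent.TKB
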