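import Pool.Agent.TKB.St3

/-!
# Project TKB, module PAU (helper33): the automaton that reads coins and then the input
-/

set_option autoImplicit false


namespace Pool.Agent.TKB

open Pool.Agent.TKN.ONE (Aut fold)

namespace MPAU

/-- the fold over `a + b` bits in two parts -/
theorem fold_add {a b : ℕ} {V : Type} (δ : Fin (a + b) → V → Bool → V) (s : V)
    (z : Fin (a + b) → Bool) :
    fold δ s z = fold (fun j => δ (Fin.natAdd a j))
      (fold (fun i => δ (Fin.castAdd b i)) s (fun i => z (Fin.castAdd b i)))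
      (fun j => z (Fin.natAdd a j)) := by
  unfold fold
  rw [← Fin.foldl_eq_foldl_finRange, ← Fin.foldl_eq_foldl_finRange,
    ← Fin.foldl_eq_foldl_finRange, Fin.foldl_add]
  rfl

variable {w1 h m : ℕ} {V Ω : Type}

/-- the states -/
abbrev St (w1 : ℕ) (V : Type) : Type := (Fin w1 → Bool) × Bool × Bool × V

/-- first phase: store the coin -/
def da (i : Fin w1) (s : St w1 V) (c : Bool) : St w1 V :=
  (Function.update s.1 i c, s.2.1, s.2.2.1, s.2.2.2)

theorem fold_da (r : Fin w1 → Bool) (s : St w1 V) :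
    fold (da (V := V)) s r = (r, s.2.1, s.2.2.1, s.2.2.2) := by
  have key : ∀ (l : List (Fin w1)) (s : St w1 V),
      l.foldl (fun s j => da j s (r j)) s =
        (fun i => if i ∈ l then r i else s.1 i, s.2.1, s.2.2.1, s.2.2.2) := by
    intro l
    induction l with
    | nil =>
      intro s
      simp
    | cons a l ih =>
      intro s
      rw [List.foldl_cons, ih]
      unfold da
      simp only [Prod.mk.injEq, and_true]
      funext i
      by_cases h1 : i ∈ l
      · rw [if_pos h1, if_pos (List.mem_cons_of_mem _ h1)]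
      · rw [if_neg h1]
        by_cases h2 : i = a
        · subst h2
          rw [Function.update_self, if_pos List.mem_cons_self]
        · rw [Function.update_of_ne h2, if_neg (by
            rw [List.mem_cons]
            tauto)]
  unfold fold
  rw [key]
  simp

open Classical in
/-- second phase: test the coins -/
noncomputable def db (Q : (Fin w1 → Bool) → Fin h → Prop) (j : Fin h) (s : St w1 V) (c : Bool) :
    St w1 V :=
  (s.1, decide (s.2.1 = true ∧ (Q s.1 j → c = false)), s.2.2.1, s.2.2.2)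

open Classical in
theorem fold_db (Q : (Fin w1 → Bool) → Fin h → Prop) (r : Fin h → Bool) (s : St w1 V) :
    fold (db (V := V) Q) s r =
      (s.1, decide (s.2.1 = true ∧ ∀ j, Q s.1 j → r j = false), s.2.2.1, s.2.2.2) := by
  have key : ∀ (l : List (Fin h)) (s : St w1 V),
      l.foldl (fun s j => db Q j s (r j)) s =
        (s.1, decide (s.2.1 = true ∧ ∀ j ∈ l, Q s.1 j → r j = false), s.2.2.1, s.2.2.2) := by
    intro l
    induction l with
    | nil =>
      intro s
      simp
    | cons a l ih =>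
      intro s
      rw [List.foldl_cons, ih]
      unfold db
      simp only [Prod.mk.injEq, and_true, true_and, decide_eq_true_eq]
      rw [decide_eq_decide]
      constructor
      · rintro ⟨⟨h1, h2⟩, h3⟩
        refine ⟨h1, fun j hj => ?_⟩
        rcases List.mem_cons.1 hj with h4 | h4
        · rw [h4]
          exact h2
        · exact h3 j h4
      · rintro ⟨h1, h2⟩
        exact ⟨⟨h1, h2 a List.mem_cons_self⟩, fun j hj => h2 j (List.mem_cons_of_mem _ hj)⟩
  unfold fold
  rw [key]
  simp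

/-- third phase: store the last coin and start the automaton -/
def dc (S : (Fin w1 → Bool) → V) (_ : Fin 1) (s : St w1 V) (c : Bool) : St w1 V :=
  (s.1, s.2.1, c, S s.1)

theorem fold_dc (S : (Fin w1 → Bool) → V) (r : Fin 1 → Bool) (s : St w1 V) :
    fold (dc S) s r = (s.1, s.2.1, r 0, S s.1) := by
  unfold fold
  rw [← Fin.foldl_eq_foldl_finRange, Fin.foldl_succ, Fin.foldl_zero]
  rfl

/-- fourth phase: the automaton -/
def dx (D : (Fin w1 → Bool) → Fin m → V → Bool → V) (j : Fin m) (s : St w1 V) (c : Bool) :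
    St w1 V :=
  (s.1, s.2.1, s.2.2.1, D s.1 j s.2.2.2 c)

theorem fold_dx (D : (Fin w1 → Bool) → Fin m → V → Bool → V) (x : Fin m → Bool) (s : St w1 V) :
    fold (dx D) s x = (s.1, s.2.1, s.2.2.1, fold (D s.1) s.2.2.2 x) := by
  have key : ∀ (l : List (Fin m)) (s : St w1 V),
      l.foldl (fun s j => dx D j s (x j)) s =
        (s.1, s.2.1, s.2.2.1, l.foldl (fun v j => D s.1 j v (x j)) s.2.2.2) := by
    intro l
    induction l with
    | nil =>
      intro s
      rfl
    | cons a l ih =>
      intro s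
      rw [List.foldl_cons, ih]
      rfl
  exact key _ s

end MPAU

open MPAU in
/-- PAU: the automaton. -/
theorem t_PAU : S_PAU := by
  classical
  intro w1 h m V Ω _ em t ev P hem hP
  -- the automata in terms of the code
  have hex : ∀ c : Fin w1 → Bool, ∃ (D : Fin m → V → Bool → V) (S : V) (A : V → Prop),
      ∀ ω, em ω = c → ∀ x, P ω x ↔ A (fold D S x) := by
    intro c
    by_cases hc : ∃ ω, em ω = c
    · obtain ⟨ω0, h0⟩ := hc
      obtain ⟨D, S, A, hA⟩ := hP ω0
      refine ⟨D, S, A, fun ω hω x => ?_⟩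
      rw [hem (hω.trans h0.symm)]
      exact hA x
    · refine ⟨fun _ v _ => v, Classical.arbitrary V, fun _ => True, fun ω hω => ?_⟩
      exact absurd ⟨ω, hω⟩ hc
  choose D S Ac hD using hex
  let Q : (Fin w1 → Bool) → Fin h → Prop := fun c j => ∃ ω, em ω = c ∧ j.val < t ω
  let δ : Fin (w1 + h + 1 + m) → St w1 V → Bool → St w1 V :=
    Fin.addCases (Fin.addCases (Fin.addCases (da (V := V)) (db Q)) (dc S)) (dx D)
  let s0 : St w1 V := (fun _ => false, true, false, Classical.arbitrary V)
  let acc : St w1 V → Prop := fun s =>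
    (∃ ω, em ω = s.1 ∧ s.2.1 = true ∧ Ac s.1 s.2.2.2 ∧ ev ω) ∨
      ((∀ ω, em ω = s.1 → s.2.1 = true → ¬ Ac s.1 s.2.2.2) ∧ s.2.2.1 = true)
  refine ⟨fun z => acc (fold δ s0 z), ⟨δ, s0, acc, fun _ => Iff.rfl⟩, fun r x => ?_⟩
  -- the state
  obtain ⟨r1, hr1⟩ : ∃ r1 : Fin w1 → Bool, r1 = fun i => r (Fin.castAdd 1 (Fin.castAdd h i)) :=
    ⟨_, rfl⟩
  have hfold : fold δ s0 (Fin.append r x) = (r1,
      decide (∀ j, Q r1 j → r (Fin.castAdd 1 (Fin.natAdd w1 j)) = false), r (Fin.last (w1 + h)),
      fold (D r1) (S r1) x) := by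
    have e1 : (fun i => δ (Fin.castAdd m i)) =
        Fin.addCases (Fin.addCases (da (V := V)) (db Q)) (dc S) := by
      funext i
      exact Fin.addCases_left i
    have e2 : (fun j => δ (Fin.natAdd (w1 + h + 1) j)) = dx D := by
      funext j
      exact Fin.addCases_right j
    rw [fold_add, e1, e2, fold_add, fold_add]
    have e3 : (fun i : Fin w1 => (fun i : Fin (w1 + h) =>
        (Fin.addCases (Fin.addCases (da (V := V)) (db Q)) (dc S) :
          Fin (w1 + h + 1) → St w1 V → Bool → St w1 V) (Fin.castAdd 1 i)) (Fin.castAdd h i)) =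
        da (V := V) := by
      funext i
      simp only [Fin.addCases_left]
    have e4 : (fun j : Fin h => (fun i : Fin (w1 + h) =>
        (Fin.addCases (Fin.addCases (da (V := V)) (db Q)) (dc S) :
          Fin (w1 + h + 1) → St w1 V → Bool → St w1 V) (Fin.castAdd 1 i)) (Fin.natAdd w1 j)) =
        db Q := by
      funext j
      simp only [Fin.addCases_left, Fin.addCases_right]
    have e5 : (fun j : Fin 1 => (Fin.addCases (Fin.addCases (da (V := V)) (db Q)) (dc S) :
          Fin (w1 + h + 1) → St w1 V → Bool → St w1 V) (Fin.natAdd (w1 + h) j)) = dc S := by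
      funext j
      exact Fin.addCases_right j
    rw [e3, e4, e5, fold_da, fold_db, fold_dc, fold_dx]
    simp only [Fin.append_left, Fin.append_right]
    rw [← hr1]
    refine Prod.ext rfl (Prod.ext ?_ rfl)
    show decide _ = decide _
    rw [decide_eq_decide]
    exact ⟨fun hh => hh.2, fun hh => ⟨rfl, hh⟩⟩
  show acc (fold δ s0 (Fin.append r x)) ↔ _
  rw [hfold]
  -- selection
  have hsel : ∀ ω, Sel em t r ω ↔ em ω = r1 ∧
      ∀ j, Q r1 j → r (Fin.castAdd 1 (Fin.natAdd w1 j)) = false := by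
    intro ω
    unfold Sel
    constructor
    · rintro ⟨h1, h2⟩
      have h3 : em ω = r1 := by
        rw [hr1]
        funext i
        exact (h1 i).symm
      refine ⟨h3, fun j hj => ?_⟩
      obtain ⟨ω', h4, h5⟩ := hj
      rw [hem (h4.trans h3.symm)] at h5
      exact h2 j h5
    · rintro ⟨h1, h2⟩
      refine ⟨fun i => ?_, fun j hj => h2 j ⟨ω, h1, hj⟩⟩
      rw [h1, hr1]
  show acc _ ↔ Acp em t ev P r x
  unfold Acp
  simp only [acc, decide_eq_true_eq]
  constructor
  · rintro (⟨ω, h1, h2, h3, h4⟩ | ⟨h1, h2⟩)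
    · exact Or.inl ⟨ω, (hsel ω).2 ⟨h1, h2⟩, (hD r1 ω h1 x).2 h3, h4⟩
    · refine Or.inr ⟨fun ω hω hPω => ?_, h2⟩
      obtain ⟨h3, h4⟩ := (hsel ω).1 hω
      exact h1 ω h3 h4 ((hD r1 ω h3 x).1 hPω)
  · rintro (⟨ω, h1, h2, h3⟩ | ⟨h1, h2⟩)
    · obtain ⟨h4, h5⟩ := (hsel ω).1 h1
      exact Or.inl ⟨ω, h4, h5, (hD r1 ω h4 x).1 h2, h3⟩
    · refine Or.inr ⟨fun ω h3 h4 h5 => ?_, h2⟩
      exact h1 ω ((hsel ω).2 ⟨h3, h4⟩) ((hD r1 ω h3 x).2 h5)

end Pool.Agent.TKB
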