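import Pool.Agent.TKB.St3

/-!
# Project TKB, module PCT: the count of the coin strings
-/

set_option autoImplicit false

open Finset

namespace Pool.Agent.TKB

namespace PCTx

/-- The selection, without the last coin. -/
def Sl {w1 h : ℕ} {Ω : Type} (em : Ω → Fin w1 → Bool) (t : Ω → ℕ) (s : Fin (w1 + h) → Bool)
    (ω : Ω) : Prop :=
  (∀ i : Fin w1, s (Fin.castAdd h i) = em ω i) ∧
    ∀ j : Fin h, j.val < t ω → s (Fin.natAdd w1 j) = false

theorem sel_snoc {w1 h : ℕ} {Ω : Type} (em : Ω → Fin w1 → Bool) (t : Ω → ℕ)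
    (s : Fin (w1 + h) → Bool) (c : Bool) (ω : Ω) :
    Sel em t (Fin.snoc (α := fun _ => Bool) s c) ω ↔ Sl em t s ω := by
  unfold Sel Sl
  have h1 : ∀ k : Fin (w1 + h), Fin.snoc (α := fun _ => Bool) s c (Fin.castAdd 1 k) = s k :=
    fun k => Fin.snoc_castSucc (α := fun _ => Bool) c s k
  simp only [h1]

theorem acp_snoc {w1 h m : ℕ} {Ω : Type} (em : Ω → Fin w1 → Bool) (t : Ω → ℕ) (ev : Ω → Prop)
    (P : Ω → (Fin m → Bool) → Prop) (s : Fin (w1 + h) → Bool) (c : Bool) (x : Fin m → Bool) :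
    Acp em t ev P (Fin.snoc (α := fun _ => Bool) s c) x ↔
      (∃ ω, Sl em t s ω ∧ P ω x ∧ ev ω) ∨ ((∀ ω, Sl em t s ω → ¬ P ω x) ∧ c = true) := by
  unfold Acp
  simp only [sel_snoc]
  have h1 : Fin.snoc (α := fun _ => Bool) s c (Fin.last (w1 + h)) = c :=
    Fin.snoc_last (α := fun _ => Bool) c s
  rw [h1]

theorem sl_uniq {w1 h : ℕ} {Ω : Type} {em : Ω → Fin w1 → Bool} (hem : Function.Injective em)
    {t : Ω → ℕ} {s : Fin (w1 + h) → Bool} {ω ω' : Ω} (h1 : Sl em t s ω) (h2 : Sl em t s ω') :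
    ω = ω' :=
  hem (funext fun i => (h1.1 i).symm.trans (h2.1 i))

theorem sum_snoc (n : ℕ) (f : (Fin (n + 1) → Bool) → ℕ) :
    ∑ r, f r = ∑ s : Fin n → Bool, (f (Fin.snoc (α := fun _ => Bool) s true) +
      f (Fin.snoc (α := fun _ => Bool) s false)) := by
  rw [← (Fin.snocEquiv (fun _ : Fin (n + 1) => Bool)).sum_comp f, Fintype.sum_prod_type,
    Fintype.sum_bool, ← sum_add_distrib]
  rfl

theorem prod_two (t k : ℕ) : ∏ j ∈ range (t + k), (if j < t then 1 else 2) = 2 ^ k := by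
  induction k with
  | zero => exact prod_eq_one fun j hj => if_pos (mem_range.1 hj)
  | succ k ih =>
    rw [← Nat.add_assoc, prod_range_succ, ih, if_neg (by omega), pow_succ]

open Classical in
theorem card_sl {w1 h : ℕ} {Ω : Type} (em : Ω → Fin w1 → Bool) (t : Ω → ℕ) (ω : Ω)
    (ht : t ω ≤ h) :
    (univ.filter fun s : Fin (w1 + h) → Bool => Sl em t s ω).card = 2 ^ (h - t ω) := by
  have h1 : (univ.filter fun s : Fin (w1 + h) → Bool => Sl em t s ω) =
      Fintype.piFinset (fun k : Fin (w1 + h) => Fin.addCases (motive := fun _ => Finset Bool)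
        (fun i => {em ω i}) (fun j => if j.val < t ω then {false} else univ) k) := by
    ext s
    rw [mem_filter, Fintype.mem_piFinset]
    constructor
    · rintro ⟨-, h1, h2⟩ k
      refine Fin.addCases (fun i => ?_) (fun j => ?_) k
      · rw [Fin.addCases_left, h1 i]
        exact mem_singleton_self _
      · rw [Fin.addCases_right]
        split_ifs with h3
        · rw [h2 j h3]
          exact mem_singleton_self _
        · exact mem_univ _
    · intro h3
      refine ⟨mem_univ _, fun i => ?_, fun j hj => ?_⟩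
      · have h4 := h3 (Fin.castAdd h i)
        rw [Fin.addCases_left] at h4
        exact mem_singleton.1 h4
      · have h4 := h3 (Fin.natAdd w1 j)
        rw [Fin.addCases_right, if_pos hj] at h4
        exact mem_singleton.1 h4
  rw [h1, Fintype.card_piFinset, Fin.prod_univ_add]
  simp only [Fin.addCases_left, Fin.addCases_right, card_singleton, prod_const_one, one_mul]
  have h2 : ∀ j : Fin h, (if j.val < t ω then ({false} : Finset Bool) else univ).card =
      if j.val < t ω then 1 else 2 := by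
    intro j
    split_ifs <;> rfl
  simp only [h2]
  rw [Fin.prod_univ_eq_prod_range (fun j => if j < t ω then 1 else 2) h]
  have h3 := prod_two (t ω) (h - t ω)
  rw [Nat.add_sub_cancel' ht] at h3
  exact h3

open Classical in
/-- The number of the elements with a property. -/
noncomputable def cnt {A : Type} [Fintype A] (p : A → Prop) : ℕ := (univ.filter p).card

open Classical in
theorem card_ex {w1 h : ℕ} {Ω : Type} [Fintype Ω] (em : Ω → Fin w1 → Bool)
    (hem : Function.Injective em) (t : Ω → ℕ) (ht : ∀ ω, t ω ≤ h) (Q : Ω → Prop) :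
    cnt (fun s : Fin (w1 + h) → Bool => ∃ ω, Sl em t s ω ∧ Q ω) =
      ∑ ω ∈ univ.filter Q, 2 ^ (h - t ω) := by
  have h1 : ∑ ω ∈ univ.filter Q, 2 ^ (h - t ω) = ((univ.filter Q).biUnion fun ω =>
      univ.filter fun s : Fin (w1 + h) → Bool => Sl em t s ω).card := by
    rw [card_biUnion]
    · exact sum_congr rfl fun ω _ => (card_sl em t ω (ht ω)).symm
    · intro ω _ ω' _ hne
      refine disjoint_left.2 fun s h2 h3 => hne ?_
      exact sl_uniq hem (mem_filter.1 h2).2 (mem_filter.1 h3).2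
  rw [h1]
  unfold cnt
  refine congrArg Finset.card ?_
  ext s
  simp only [mem_filter, mem_univ, true_and, mem_biUnion]
  constructor
  · rintro ⟨ω, h2, h3⟩
    exact ⟨ω, h3, h2⟩
  · rintro ⟨ω, h2, h3⟩
    exact ⟨ω, h3, h2⟩

open Classical in
/-- The count of the accepted strings. -/
theorem count {w1 h m : ℕ} {Ω : Type} (em : Ω → Fin w1 → Bool)
    (hem : Function.Injective em) (t : Ω → ℕ) (ev : Ω → Prop) (P : Ω → (Fin m → Bool) → Prop)
    (x : Fin m → Bool) :
    Nat.card {r : Fin (w1 + h + 1) → Bool // Acp em t ev P r x} +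
      cnt (fun s : Fin (w1 + h) → Bool => ∃ ω, Sl em t s ω ∧ P ω x ∧ ¬ ev ω) =
    2 ^ (w1 + h) +
      cnt (fun s : Fin (w1 + h) → Bool => ∃ ω, Sl em t s ω ∧ P ω x ∧ ev ω) := by
  have h0 : 2 ^ (w1 + h) = ∑ _s : Fin (w1 + h) → Bool, 1 := by
    simp
  unfold cnt
  rw [Nat.card_eq_fintype_card, Fintype.card_subtype, card_filter, card_filter, card_filter,
    sum_snoc, h0, ← sum_add_distrib, ← sum_add_distrib]
  refine sum_congr rfl fun s _ => ?_
  have ht : Acp em t ev P (Fin.snoc (α := fun _ => Bool) s true) x ↔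
      (∃ ω, Sl em t s ω ∧ P ω x ∧ ev ω) ∨ (∀ ω, Sl em t s ω → ¬ P ω x) := by
    rw [acp_snoc]
    simp
  have hf : Acp em t ev P (Fin.snoc (α := fun _ => Bool) s false) x ↔
      ∃ ω, Sl em t s ω ∧ P ω x ∧ ev ω := by
    rw [acp_snoc]
    simp
  by_cases he : ∃ ω, Sl em t s ω ∧ P ω x ∧ ev ω
  · have ho : ¬ ∃ ω, Sl em t s ω ∧ P ω x ∧ ¬ ev ω := by
      rintro ⟨ω', h1, -, h2⟩
      obtain ⟨ω, h3, -, h4⟩ := he
      exact h2 (sl_uniq hem h3 h1 ▸ h4)
    rw [if_pos (ht.2 (Or.inl he)), if_pos (hf.2 he), if_neg ho, if_pos he]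
  · by_cases ho : ∃ ω, Sl em t s ω ∧ P ω x ∧ ¬ ev ω
    · have hn : ¬ ∀ ω, Sl em t s ω → ¬ P ω x := by
        obtain ⟨ω, h1, h2, -⟩ := ho
        exact fun h3 => h3 ω h1 h2
      have h3 : ¬ Acp em t ev P (Fin.snoc (α := fun _ => Bool) s true) x := fun h4 =>
        (ht.1 h4).elim he hn
      rw [if_neg h3, if_neg fun h4 => he (hf.1 h4), if_pos ho, if_neg he]
    · have hn : ∀ ω, Sl em t s ω → ¬ P ω x := by
        intro ω h1 h2
        by_cases h3 : ev ω
        · exact he ⟨ω, h1, h2, h3⟩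
        · exact ho ⟨ω, h1, h2, h3⟩
      rw [if_pos (ht.2 (Or.inr hn)), if_neg fun h4 => he (hf.1 h4), if_neg ho, if_neg he]

open Classical in
theorem fib {Ω : Type} [Fintype Ω] (b : Ω → ℕ) (mh u : ℕ) (hb : ∀ ω, b ω ≤ mh) (p : Ω → Prop)
    (E : ℕ → Prop) [DecidablePred E] (Q : Ω → Prop) (hQ : ∀ ω, Q ω ↔ p ω ∧ E (b ω)) :
    ∑ ω ∈ univ.filter Q, 2 ^ (mh * u - (mh - b ω) * u) =
      ∑ i ∈ (range (mh + 1)).filter (fun i => E i),
        Nat.card {ω // b ω = i ∧ p ω} * (2 ^ u) ^ i := by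
  have h1 : ∀ ω ∈ univ.filter Q, b ω ∈ (range (mh + 1)).filter (fun i => E i) := by
    intro ω hω
    exact mem_filter.2 ⟨mem_range.2 (Nat.lt_succ_of_le (hb ω)),
      ((hQ ω).1 (mem_filter.1 hω).2).2⟩
  rw [← sum_fiberwise_of_maps_to h1]
  refine sum_congr rfl fun i hi => ?_
  obtain ⟨hi1, hi2⟩ := mem_filter.1 hi
  have h3 : ∀ ω ∈ (univ.filter Q).filter (fun ω => b ω = i),
      2 ^ (mh * u - (mh - b ω) * u) = (2 ^ u) ^ i := by
    intro ω hω
    have h4 := (mem_filter.1 hω).2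
    have h5 : mh * u - (mh - b ω) * u = u * i := by
      rw [h4, ← Nat.sub_mul, Nat.sub_sub_self (by rw [← h4]; exact hb ω), Nat.mul_comm]
    rw [h5, pow_mul]
  rw [sum_congr rfl h3, sum_const, smul_eq_mul]
  refine congrArg (· * (2 ^ u) ^ i) ?_
  rw [Nat.card_eq_fintype_card, Fintype.card_subtype]
  refine congrArg Finset.card ?_
  ext ω
  simp only [mem_filter, mem_univ, true_and]
  constructor
  · rintro ⟨h5, h6⟩
    exact ⟨h6, ((hQ ω).1 h5).1⟩
  · rintro ⟨h5, h6⟩
    exact ⟨(hQ ω).2 ⟨h6, by rw [h5]; exact hi2⟩, h5⟩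

end PCTx

open PCTx

theorem t_PCT (hOMC : S_OMC) : S_PCT := by
  intro w1 u mh m Ω _ em b P x hem hΩ hb
  have ht : ∀ ω, (mh - b ω) * u ≤ mh * u := fun ω => Nat.mul_le_mul_right _ (Nat.sub_le _ _)
  have h1 := count (h := mh * u) em hem (fun ω => (mh - b ω) * u) (fun ω => Even (b ω)) P x
  have h2 := (card_ex (h := mh * u) em hem (fun ω => (mh - b ω) * u) ht
    (fun ω => P ω x ∧ ¬ Even (b ω))).trans
    (fib b mh u hb (fun ω => P ω x) (fun i => ¬ Even i) _ fun ω => Iff.rfl)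
  have h3 := (card_ex (h := mh * u) em hem (fun ω => (mh - b ω) * u) ht
    (fun ω => P ω x ∧ Even (b ω))).trans
    (fib b mh u hb (fun ω => P ω x) (fun i => Even i) _ fun ω => Iff.rfl)
  have h6 := hOMC mh (Fintype.card Ω) (2 ^ u)
    (fun i => Nat.card {ω // b ω = i ∧ P ω x}) hΩ
    (fun i => by
      rw [← Nat.card_eq_fintype_card]
      exact Finite.card_subtype_le _)
    (fun i hi => by
      have h8 : IsEmpty {ω // b ω = i ∧ P ω x} := ⟨fun ω => by
        have h9 := hb ω.1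
        have h10 := ω.2.1
        omega⟩
      exact Nat.card_of_isEmpty)
  have h7 : (Omb fun i => Nat.card {ω // b ω = i ∧ P ω x} ≠ 0) ↔
      Omb fun i => ∃ ω, b ω = i ∧ P ω x := by
    have h8 : (fun i => Nat.card {ω // b ω = i ∧ P ω x} ≠ 0) =
        fun i => ∃ ω, b ω = i ∧ P ω x := by
      funext i
      refine propext ?_
      rw [← Nat.pos_iff_ne_zero, Nat.card_pos_iff]
      constructor
      · rintro ⟨⟨ω, h9⟩, -⟩
        exact ⟨ω, h9⟩
      · rintro ⟨ω, h9⟩
        exact ⟨⟨ω, h9⟩, inferInstance⟩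
    rw [h8]
  rw [← h7, ← h6, ← h2, ← h3]
  rw [pow_succ]
  constructor
  · intro h8
    omega
  · intro h8
    omega

end Pool.Agent.TKB
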