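import Pool.Agent.TKB.St3
import Pool.Agent.TKN.O_RED

/-!
# Module TKB_PUTB: the function with one switch on
-/

set_option autoImplicit false

open Finset

namespace Pool.Agent.TKB

open Pool.Agent.TKN
open Pool.Agent.Lib_helper20.SRO (RectFree Rigid Agrees evenWeight NBP Walk)
open Pool.Agent.URG (VarA VarX deg lg pols)
open Pool.Agent.HPM (DecOs)
open Pool.Agent.HPM.Fn (Coord)
open Pool.Agent.TKN.ONE (cop Aut put)

namespace PUTB

theorem pos_inj {mb : ℕ → ℕ} {M : ℕ} (ly : LayB mb M) (e : Fin (blkB M)) :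
    Function.Injective fun w => datB (ly.pos e w) :=
  fun _ _ h => ly.inj e (Fin.natAdd_injective _ _ h)

theorem dat_ne {M : ℕ} (j : Fin (2 * M)) (e : Fin (blkB M)) : datB j ≠ swB e := by
  intro h
  have h1 := congrArg Fin.val h
  unfold datB swB at h1
  rw [Fin.val_natAdd, Fin.val_castAdd] at h1
  have := e.2
  omega

theorem put_sw {mb : ℕ → ℕ} {M : ℕ} (ly : LayB mb M) (e : Fin (blkB M))
    (b : BVB mb M (e.val + 1) → Bool) (e' : Fin (blkB M)) :
    put (fun w => datB (ly.pos e w)) (fun i => decide (i = swB e)) b (swB e') =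
      decide (e' = e) := by
  rw [ONE.MRED.put_of_not _ _ (fun x => dat_ne _ e')]
  by_cases h : e' = e
  · rw [h]
    simp
  · have h2 : swB e' ≠ swB e := fun h' => h (Fin.castAdd_injective _ _ h')
    simp [h, h2]

theorem inp_put {mb : ℕ → ℕ} {M : ℕ} (ly : LayB mb M) (e : Fin (blkB M))
    (b : BVB mb M (e.val + 1) → Bool) :
    inpB ly e (put (fun w => datB (ly.pos e w)) (fun i => decide (i = swB e)) b) = b := by
  funext w
  exact ONE.MRED.put_apply (pos_inj ly e) _ b w

theorem one_false {n e : ℕ} (β : Coord (deg n e)) (u : VarX n e → Bool) (x : Fin n → Bool) :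
    TWO.one β u x = false ↔ ¬ evenWeight x = true ∨ ∃ t, ¬ TWO.Pass β u t x := by
  unfold TWO.one
  rw [Bool.and_eq_false_iff, decide_eq_false_iff_not, not_forall, Bool.not_eq_true]

end PUTB

open PUTB in
theorem t_PUTB : S_PUTB := by
  intro mb M β ly e
  refine ⟨pos_inj ly e, fun w y => ?_⟩
  obtain ⟨v, hv⟩ : ∃ v, v = put (fun w => datB (ly.pos e w)) (fun i => decide (i = swB e))
    (Sum.elim w y) := ⟨_, rfl⟩
  have h1 : ∀ e', v (swB e') = decide (e' = e) := fun e' => by
    rw [hv]
    exact put_sw ly e _ e'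
  have h2 : inpB ly e v = Sum.elim w y := by
    rw [hv]
    exact inp_put ly e _
  rw [← hv]
  have key : BadBl β ly v =
      BadB (fun p : Fin (mb (e.val + 1) * cop (e.val + 1)) => p.val / cop (e.val + 1))
        (TWO.one (β e) w) y := by
    funext i
    apply propext
    constructor
    · rintro ⟨⟨e', x⟩, hb, hs, hbad⟩
      have he : e' = e := by
        have h3 : v (swB e') = true := hs
        rw [h1] at h3
        exact of_decide_eq_true h3
      subst he
      change TWO.Bad (β e') x (inpB ly e' v) at hbad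
      rw [h2] at hbad
      rcases x with ⟨t, l⟩ | l
      · exact ⟨l, hb, (one_false _ _ _).2 (Or.inr ⟨t, hbad⟩)⟩
      · exact ⟨l, hb, (one_false _ _ _).2 (Or.inl hbad)⟩
    · rintro ⟨p, hρ, hone⟩
      have hs : v (swB e) = true := by
        rw [h1]
        simp
      rcases (one_false _ _ _).1 hone with h3 | ⟨t, h3⟩
      · refine ⟨⟨e, Sum.inr p⟩, hρ, hs, ?_⟩
        change TWO.Bad (β e) (Sum.inr p) (inpB ly e v)
        rw [h2]
        exact h3
      · refine ⟨⟨e, Sum.inl (t, p)⟩, hρ, hs, ?_⟩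
        change TWO.Bad (β e) (Sum.inl (t, p)) (inpB ly e v)
        rw [h2]
        exact h3
  unfold FB
  rw [key]

end Pool.Agent.TKB
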