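import Pool.Agent.TKB.St1

/-!
# Project TKB: RBB, the words in classes with two long sides are few (helper10)
-/

set_option autoImplicit false

open Finset
open scoped Classical

namespace Pool.Agent.TKB

open NCE TKN
open Pool.Agent.Lib_helper20.SRO (RectFree Rigid flipAt)

namespace MRBB

variable {n r : ℕ} {Z : Finset (Fin n → Bool)} {Ω' : Type}

theorem off_eq {V : Finset (Fin n)} {z z' : Fin n → Bool} (h : off V z = off V z') {x : Fin n}
    (hx : x ∉ V) : z x = z' x := by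
  have h1 := congrFun h x
  unfold off at h1
  rw [if_neg hx, if_neg hx] at h1
  exact Option.some.inj h1

theorem off_congr {V : Finset (Fin n)} {z z' : Fin n → Bool} (h : ∀ x, x ∉ V → z x = z' x) :
    off V z = off V z' := by
  funext x
  unfold off
  by_cases hx : x ∈ V
  · rw [if_pos hx, if_pos hx]
  · rw [if_neg hx, if_neg hx, h x hx]

/-- the words of the class of `q` -/
noncomputable def CC [Fintype Ω'] (P' : FP Ω') {κ : Type} (K : Ω' → κ) (π : Ω' → {z // z ∈ Z})
    (q : Ω') : Finset (Fin n → Bool) :=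
  (univ.filter fun q' => P'.p q' ≠ 0 ∧ K q' = K q).image fun q' => (π q').1

theorem mem_CC [Fintype Ω'] (P' : FP Ω') {κ : Type} (K : Ω' → κ) (π : Ω' → {z // z ∈ Z})
    (q : Ω') (z : Fin n → Bool) : z ∈ CC P' K π q ↔
      ∃ q', P'.p q' ≠ 0 ∧ K q' = K q ∧ (π q').1 = z := by
  unfold CC
  simp only [mem_image, mem_filter, mem_univ, true_and, and_assoc]

theorem mem_vals [Fintype Ω'] (P' : FP Ω') {κ α : Type} (K : Ω' → κ) (X : Ω' → α)
    (q : Ω') (x : α) : x ∈ vals P' K X q ↔ ∃ q', P'.p q' ≠ 0 ∧ K q' = K q ∧ X q' = x := by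
  unfold vals
  simp only [mem_image, mem_filter, mem_univ, true_and, and_assoc]

theorem vals_le [Fintype Ω'] (P' : FP Ω') {κ : Type} (K : Ω' → κ) (π : Ω' → {z // z ∈ Z})
    (q : Ω') (S : Ω' → Finset (Fin n)) (hS : ∀ q', K q' = K q → S q' = S q) :
    (vals P' K (fun q' => pat (S q') (π q').1) q).card ≤ ((CC P' K π q).image (pat (S q))).card := by
  apply Finset.card_le_card
  intro x hx
  obtain ⟨q', h2, h3, rfl⟩ := (mem_vals P' K _ q x).1 hx
  refine mem_image.2 ⟨(π q').1, (mem_CC P' K π q _).2 ⟨q', h2, h3, rfl⟩, ?_⟩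
  show pat (S q) (π q').1 = pat (S q') (π q').1
  rw [hS q' h3]

end MRBB

open MRBB in
theorem t_RBB (hRRCT : S_RRCT) (hRBX : S_RBX) : S_RBB := by
  intro n r w Z hZ U f M hFam hRig hRF hM1 V J1 Ω' _ P' π D hDSp b E S2 hexc hS2
  set K := KK U J1 b E S2 π D with hK
  set W := Z.filter fun z => z ∉ E ∧ ∃ q, P'.p q ≠ 0 ∧ (π q).1 = z ∧ Lev b (D q) ∧
      M ≤ (vals P' K (fun q' => pat (S1 b D q') (π q').1) q).card ∧
      M ≤ (vals P' K (fun q' => pat (T2 U J1 b E S2 π D q') (π q').1) q).card with hW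
  have hne : Nonempty Ω' := by
    by_contra h
    have h1 := P'.one
    rw [not_nonempty_iff] at h
    simp at h1
  have hWq : ∀ z ∈ W, ∃ q, P'.p q ≠ 0 ∧ (π q).1 = z ∧ Lev b (D q) ∧
      M ≤ (vals P' K (fun q' => pat (S1 b D q') (π q').1) q).card ∧
      M ≤ (vals P' K (fun q' => pat (T2 U J1 b E S2 π D q') (π q').1) q).card :=
    fun z hz => (mem_filter.1 hz).2.2
  choose! qf hq0 hqz hqL hqM1 hqM2 using hWq
  -- the classes
  have hK1 : ∀ q q', K q' = K q → S1 b D q' = S1 b D q := fun q q' h => congrArg (fun t => t.1) h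
  have hK2 : ∀ q q', K q' = K q → T2 U J1 b E S2 π D q' = T2 U J1 b E S2 π D q :=
    fun q q' h => congrArg (fun t => t.2.1) h
  have hK3 : ∀ q q', K q' = K q → off (S1 b D q ∪ T2 U J1 b E S2 π D q) (π q').1 =
      off (S1 b D q ∪ T2 U J1 b E S2 π D q) (π q).1 := by
    intro q q' h
    have h3 : off (S1 b D q' ∪ T2 U J1 b E S2 π D q') (π q').1 =
        off (S1 b D q ∪ T2 U J1 b E S2 π D q) (π q).1 := congrArg (fun t => t.2.2) h
    rw [hK1 q q' h, hK2 q q' h] at h3
    exact h3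
  -- one class
  have hcls : ∀ z0 ∈ W, (CC P' K π (qf z0)).card ≤ 4 * M ^ 2 * ((bad Z f).filter fun z =>
      ∀ v, v ∉ S1 b D (qf z0) ∪ T2 U J1 b E S2 π D (qf z0) → z v = z0 v).card := by
    intro z0 hz0
    obtain ⟨hr1, hr2⟩ := hRRCT n r w Z hZ U hFam V J1 Ω' P' π D hDSp b E S2 (qf z0) (hq0 z0 hz0)
    refine hRBX n Z (CC P' K π (qf z0)) f M (S1 b D (qf z0)) (T2 U J1 b E S2 π D (qf z0)) z0 hRF hM1
      (hr2 f hRig hexc) ?_ ?_ ?_ ?_
    · intro z hz v hv
      obtain ⟨q', h1, h2, rfl⟩ := (mem_CC P' K π _ _).1 hz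
      have h3 := off_eq (hK3 (qf z0) q' h2) hv
      rw [h3, hqz z0 hz0]
    · intro z hz z' hz'
      obtain ⟨q', h1, h2, rfl⟩ := (mem_CC P' K π _ _).1 hz
      obtain ⟨q'', h3, h4, rfl⟩ := (mem_CC P' K π _ _).1 hz'
      exact hr1 q' q'' h1 h3 h2 h4
    · exact (hqM1 z0 hz0).trans (vals_le P' K π (qf z0) (S1 b D) fun q' h => hK1 _ _ h)
    · exact (hqM2 z0 hz0).trans
        (vals_le P' K π (qf z0) (T2 U J1 b E S2 π D) fun q' h => hK2 _ _ h)
  -- one pair of sides
  have hpair : ∀ p ∈ V.powerset ×ˢ V.powerset, (W.filter fun z =>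
      (S1 b D (qf z), T2 U J1 b E S2 π D (qf z)) = p).card ≤ 4 * M ^ 2 * (bad Z f).card := by
    rintro ⟨D1, D2⟩ -
    set W' := W.filter fun z => (S1 b D (qf z), T2 U J1 b E S2 π D (qf z)) = (D1, D2) with hW'
    have hg : ∀ a ∈ W'.image (off (D1 ∪ D2)), (W'.filter fun z => off (D1 ∪ D2) z = a).card ≤
        4 * M ^ 2 * ((bad Z f).filter fun z => off (D1 ∪ D2) z = a).card := by
      intro a ha
      obtain ⟨z0, hz0, rfl⟩ := mem_image.1 ha
      obtain ⟨hz0W, hz0p⟩ := mem_filter.1 hz0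
      have e1 : S1 b D (qf z0) = D1 := congrArg Prod.fst hz0p
      have e2 : T2 U J1 b E S2 π D (qf z0) = D2 := congrArg Prod.snd hz0p
      have h1 : (W'.filter fun z => off (D1 ∪ D2) z = off (D1 ∪ D2) z0) ⊆ CC P' K π (qf z0) := by
        intro z hz
        obtain ⟨hzW', hzo⟩ := mem_filter.1 hz
        obtain ⟨hzW, hzp⟩ := mem_filter.1 hzW'
        have f1 : S1 b D (qf z) = D1 := congrArg Prod.fst hzp
        have f2 : T2 U J1 b E S2 π D (qf z) = D2 := congrArg Prod.snd hzp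
        refine (mem_CC P' K π _ _).2 ⟨qf z, hq0 z hzW, ?_, hqz z hzW⟩
        rw [hK]
        unfold KK
        rw [f1, f2, e1, e2, hqz z hzW, hqz z0 hz0W, hzo]
      have h2 := hcls z0 hz0W
      rw [e1, e2] at h2
      refine (Finset.card_le_card h1).trans (h2.trans (Nat.mul_le_mul_left _ ?_))
      apply Finset.card_le_card
      intro z hz
      obtain ⟨hz1, hz2⟩ := mem_filter.1 hz
      exact mem_filter.2 ⟨hz1, off_congr hz2⟩
    calc W'.card = ∑ a ∈ W'.image (off (D1 ∪ D2)), (W'.filter fun z => off (D1 ∪ D2) z = a).card :=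
          Finset.card_eq_sum_card_image _ _
      _ ≤ ∑ a ∈ W'.image (off (D1 ∪ D2)),
          4 * M ^ 2 * ((bad Z f).filter fun z => off (D1 ∪ D2) z = a).card :=
          Finset.sum_le_sum hg
      _ = 4 * M ^ 2 * ∑ a ∈ W'.image (off (D1 ∪ D2)),
          ((bad Z f).filter fun z => off (D1 ∪ D2) z = a).card := by rw [Finset.mul_sum]
      _ ≤ 4 * M ^ 2 * (bad Z f).card := by
          refine Nat.mul_le_mul_left _ ?_
          rw [← Finset.card_biUnion]
          · apply Finset.card_le_card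
            intro z hz
            obtain ⟨a, _, ha⟩ := mem_biUnion.1 hz
            exact (mem_filter.1 ha).1
          · intro a _ a' _ haa
            refine Finset.disjoint_left.2 fun z hz hz' => haa ?_
            exact (mem_filter.1 hz).2.symm.trans (mem_filter.1 hz').2
  have hmaps : ∀ z ∈ W, (S1 b D (qf z), T2 U J1 b E S2 π D (qf z)) ∈
      V.powerset ×ˢ V.powerset := by
    intro z hz
    refine mem_product.2 ⟨mem_powerset.2 ?_, mem_powerset.2 ?_⟩
    · show S1 b D (qf z) ⊆ V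
      unfold S1
      split_ifs
      · exact hDSp.sub _ (hq0 z hz)
      · exact Finset.empty_subset _
    · show T2 U J1 b E S2 π D (qf z) ⊆ V
      unfold T2
      split_ifs
      · exact Finset.sdiff_subset.trans hS2
      · exact Finset.empty_subset _
  have hfin := Finset.card_le_mul_card_image_of_maps_to hmaps (4 * M ^ 2 * (bad Z f).card) hpair
  have hcard : (V.powerset ×ˢ V.powerset).card = 4 ^ V.card := by
    rw [card_product, card_powerset, ← mul_pow]
    norm_num
  rw [hcard] at hfin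
  calc W.card ≤ 4 * M ^ 2 * (bad Z f).card * 4 ^ V.card := hfin
    _ = 4 * M ^ 2 * 4 ^ V.card * (bad Z f).card := by ring

end Pool.Agent.TKB
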