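import Pool.Agent.TKB.St1

/-!
# Project TKB: a rectangle with long sides contains many bad words
-/

set_option autoImplicit false

open Finset
open scoped Classical

namespace Pool.Agent.TKB

open NCE TKN
open Pool.Agent.Lib_helper20.SRO (RectFree Rigid flipAt)

namespace MRBX

/-- cut a finite set into groups of at least `M` elements -/
theorem groups {α : Type} (X : Finset α) (M : ℕ) (hM : 1 ≤ M) :
    ∃ g : α → ℕ, ∀ i, i < X.card / M → M ≤ (X.filter fun x => g x = i).card := by
  let e := X.equivFin
  refine ⟨fun x => if h : x ∈ X then (e ⟨x, h⟩).val / M else 0, fun i hi => ?_⟩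
  have hlt : ∀ k : Fin M, i * M + k.val < X.card := by
    intro k
    have h1 : (i + 1) * M ≤ X.card :=
      (Nat.mul_le_mul_right M hi).trans (Nat.div_mul_le_self X.card M)
    have h2 := k.isLt
    have h3 : (i + 1) * M = i * M + M := Nat.succ_mul i M
    omega
  let φ : Fin M → α := fun k => (e.symm ⟨i * M + k.val, hlt k⟩).val
  have hφ : Function.Injective φ := by
    intro k k' h
    have h1 : e.symm ⟨i * M + k.val, hlt k⟩ = e.symm ⟨i * M + k'.val, hlt k'⟩ := Subtype.ext h
    have h2 := Fin.mk.inj (e.symm.injective h1)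
    exact Fin.ext (by omega)
  have hsub : (univ : Finset (Fin M)).image φ ⊆
      X.filter fun x => (if h : x ∈ X then (e ⟨x, h⟩).val / M else 0) = i := by
    intro x hx
    obtain ⟨k, _, rfl⟩ := Finset.mem_image.1 hx
    have hm : φ k ∈ X := (e.symm ⟨i * M + k.val, hlt k⟩).2
    refine Finset.mem_filter.2 ⟨hm, ?_⟩
    rw [dif_pos hm]
    have h1 : (⟨φ k, hm⟩ : {x // x ∈ X}) = e.symm ⟨i * M + k.val, hlt k⟩ := rfl
    rw [h1, Equiv.apply_symm_apply]
    show (i * M + k.val) / M = i
    have hMp : 0 < M := hM
    rw [Nat.mul_comm, Nat.mul_add_div hMp, Nat.div_eq_of_lt k.isLt, Nat.add_zero]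
  calc M = ((univ : Finset (Fin M)).image φ).card := by
        rw [Finset.card_image_of_injective _ hφ, Finset.card_univ, Fintype.card_fin]
    _ ≤ _ := Finset.card_le_card hsub

theorem pat_eq {n : ℕ} {V : Finset (Fin n)} {z z' : Fin n → Bool} (h : pat V z = pat V z')
    {x : Fin n} (hx : x ∈ V) : z x = z' x := by
  have h1 := congrFun h x
  unfold pat at h1
  rw [if_pos hx, if_pos hx] at h1
  exact Option.some.inj h1

theorem pat_congr {n : ℕ} {V : Finset (Fin n)} {z z' : Fin n → Bool} (h : ∀ x ∈ V, z x = z' x) :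
    pat V z = pat V z' := by
  funext x
  unfold pat
  by_cases hx : x ∈ V
  · rw [if_pos hx, if_pos hx, h x hx]
  · rw [if_neg hx, if_neg hx]

theorem div_bound (a M : ℕ) (hM : 1 ≤ M) (h : M ≤ a) : a ≤ 2 * M * (a / M) := by
  have h1 : 1 ≤ a / M := (Nat.one_le_div_iff hM).2 h
  have h2 := Nat.div_add_mod a M
  have h3 : a % M < M := Nat.mod_lt a hM
  have h4 : M * 1 ≤ M * (a / M) := Nat.mul_le_mul_left M h1
  have h5 : 2 * M * (a / M) = M * (a / M) + M * (a / M) := by ring
  omega

end MRBX

open MRBX in
theorem t_RBX : S_RBX := by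
  intro n Z C f M D1 D2 z0 hRF hM hdis hout hmix hX hY
  have hdis' : ∀ v, v ∈ D2 → v ∉ D1 := fun v h2 h1 => Finset.disjoint_left.1 hdis h1 h2
  set X := C.image (pat D1) with hXdef
  set Y := C.image (pat D2) with hYdef
  -- representatives
  have hrx : ∀ x : Fin n → Option Bool, ∃ z : Fin n → Bool, x ∈ X → z ∈ C ∧ pat D1 z = x := by
    intro x
    by_cases hx : x ∈ X
    · obtain ⟨z, hz, h⟩ := Finset.mem_image.1 hx
      exact ⟨z, fun _ => ⟨hz, h⟩⟩
    · exact ⟨fun _ => false, fun h => absurd h hx⟩
  have hry : ∀ y : Fin n → Option Bool, ∃ z : Fin n → Bool, y ∈ Y → z ∈ C ∧ pat D2 z = y := by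
    intro y
    by_cases hy : y ∈ Y
    · obtain ⟨z, hz, h⟩ := Finset.mem_image.1 hy
      exact ⟨z, fun _ => ⟨hz, h⟩⟩
    · exact ⟨fun _ => false, fun h => absurd h hy⟩
  choose rx hrx using hrx
  choose ry hry using hry
  obtain ⟨gX, hgX⟩ := groups X M hM
  obtain ⟨gY, hgY⟩ := groups Y M hM
  -- a bad word for each pair of groups
  have key : ∀ p : Fin (X.card / M) × Fin (Y.card / M), ∃ z : Fin n → Bool,
      z ∈ ((bad Z f).filter fun z => ∀ v, v ∉ D1 ∪ D2 → z v = z0 v) ∧
      gX (pat D1 z) = p.1.val ∧ gY (pat D2 z) = p.2.val := by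
    rintro ⟨i, j⟩
    let wx : (Fin n → Option Bool) → Fin n → Bool := fun x v => if v ∈ D1 then rx x v else false
    let wy : (Fin n → Option Bool) → Fin n → Bool := fun y v => if v ∈ D1 then false else ry y v
    have hwx : ∀ x ∈ X, ∀ x' ∈ X, wx x = wx x' → x = x' := by
      intro x hx x' hx' h
      rw [← (hrx x hx).2, ← (hrx x' hx').2]
      refine pat_congr fun v hv => ?_
      have h1 : (if v ∈ D1 then rx x v else false) = (if v ∈ D1 then rx x' v else false) :=
        congrFun h v
      rwa [if_pos hv, if_pos hv] at h1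
    have hwy : ∀ y ∈ Y, ∀ y' ∈ Y, wy y = wy y' → y = y' := by
      intro y hy y' hy' h
      rw [← (hry y hy).2, ← (hry y' hy').2]
      refine pat_congr fun v hv => ?_
      have h1 : (if v ∈ D1 then false else ry y v) = (if v ∈ D1 then false else ry y' v) :=
        congrFun h v
      rwa [if_neg (hdis' v hv), if_neg (hdis' v hv)] at h1
    have hcx : M ≤ ((X.filter fun x => gX x = i.val).image wx).card := by
      rw [Finset.card_image_of_injOn]
      · exact hgX i.val i.isLt
      · intro x hx x' hx' h
        exact hwx x (Finset.mem_filter.1 (Finset.mem_coe.1 hx)).1 x'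
          (Finset.mem_filter.1 (Finset.mem_coe.1 hx')).1 h
    have hcy : M ≤ ((Y.filter fun y => gY y = j.val).image wy).card := by
      rw [Finset.card_image_of_injOn]
      · exact hgY j.val j.isLt
      · intro y hy y' hy' h
        exact hwy y (Finset.mem_filter.1 (Finset.mem_coe.1 hy)).1 y'
          (Finset.mem_filter.1 (Finset.mem_coe.1 hy')).1 h
    obtain ⟨a, ha, a', ha', hfa⟩ := hRF D1 _ _
      (by
        intro a ha v hv
        obtain ⟨x, _, rfl⟩ := Finset.mem_image.1 ha
        show (if v ∈ D1 then rx x v else false) = false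
        rw [if_neg hv])
      (by
        intro a ha v hv
        obtain ⟨y, _, rfl⟩ := Finset.mem_image.1 ha
        show (if v ∈ D1 then false else ry y v) = false
        rw [if_pos hv])
      hcx hcy
    obtain ⟨x, hx, rfl⟩ := Finset.mem_image.1 ha
    obtain ⟨y, hy, rfl⟩ := Finset.mem_image.1 ha'
    obtain ⟨hx1, hx2⟩ := Finset.mem_filter.1 hx
    obtain ⟨hy1, hy2⟩ := Finset.mem_filter.1 hy
    have hz : (fun v => if v ∈ D1 then wx x v else wy y v) =
        fun v => if v ∈ D1 then rx x v else ry y v := by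
      funext v
      by_cases hv : v ∈ D1
      · rw [if_pos hv, if_pos hv]
        show (if v ∈ D1 then rx x v else false) = rx x v
        rw [if_pos hv]
      · rw [if_neg hv, if_neg hv]
        show (if v ∈ D1 then false else ry y v) = ry y v
        rw [if_neg hv]
    rw [hz] at hfa
    refine ⟨fun v => if v ∈ D1 then rx x v else ry y v, ?_, ?_, ?_⟩
    · refine Finset.mem_filter.2 ⟨Finset.mem_filter.2
        ⟨hmix _ (hrx x hx1).1 _ (hry y hy1).1, hfa⟩, fun v hv => ?_⟩
      have hv1 : v ∉ D1 := fun h => hv (Finset.mem_union_left _ h)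
      show (if v ∈ D1 then rx x v else ry y v) = z0 v
      rw [if_neg hv1]
      exact hout _ (hry y hy1).1 v hv
    · have h1 : pat D1 (fun v => if v ∈ D1 then rx x v else ry y v) = x := by
        rw [← (hrx x hx1).2]
        refine pat_congr fun v hv => ?_
        rw [(hrx x hx1).2, if_pos hv]
      rw [h1]
      exact hx2
    · have h1 : pat D2 (fun v => if v ∈ D1 then rx x v else ry y v) = y := by
        rw [← (hry y hy1).2]
        refine pat_congr fun v hv => ?_
        rw [(hry y hy1).2, if_neg (hdis' v hv)]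
      rw [h1]
      exact hy2
  choose F hF using key
  have hinj : Function.Injective F := by
    intro p p' h
    refine Prod.ext (Fin.ext ?_) (Fin.ext ?_)
    · rw [← (hF p).2.1, ← (hF p').2.1, h]
    · rw [← (hF p).2.2, ← (hF p').2.2, h]
  have hcount : (X.card / M) * (Y.card / M) ≤
      ((bad Z f).filter fun z => ∀ v, v ∉ D1 ∪ D2 → z v = z0 v).card := by
    calc (X.card / M) * (Y.card / M)
        = ((univ : Finset (Fin (X.card / M) × Fin (Y.card / M))).image F).card := by
          rw [Finset.card_image_of_injective _ hinj, Finset.card_univ, Fintype.card_prod,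
            Fintype.card_fin, Fintype.card_fin]
      _ ≤ _ := by
          refine Finset.card_le_card fun z hz => ?_
          obtain ⟨p, _, rfl⟩ := Finset.mem_image.1 hz
          exact (hF p).1
  -- the words of `C` are determined by their two patterns
  have hC : C.card ≤ X.card * Y.card := by
    rw [← Finset.card_product]
    refine Finset.card_le_card_of_injOn (fun z => (pat D1 z, pat D2 z)) (fun z hz => ?_)
      (fun z hz z' hz' h => ?_)
    · exact Finset.mem_coe.2 (Finset.mem_product.2
        ⟨Finset.mem_image_of_mem _ hz, Finset.mem_image_of_mem _ hz⟩)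
    · have h1 : pat D1 z = pat D1 z' := congrArg Prod.fst h
      have h2 : pat D2 z = pat D2 z' := congrArg Prod.snd h
      funext v
      by_cases hv : v ∈ D1 ∪ D2
      · rcases Finset.mem_union.1 hv with hv | hv
        · exact pat_eq h1 hv
        · exact pat_eq h2 hv
      · rw [hout z hz v hv, hout z' hz' v hv]
  have hXb := div_bound X.card M hM hX
  have hYb := div_bound Y.card M hM hY
  calc C.card ≤ X.card * Y.card := hC
    _ ≤ (2 * M * (X.card / M)) * (2 * M * (Y.card / M)) := Nat.mul_le_mul hXb hYb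
    _ = 4 * M ^ 2 * ((X.card / M) * (Y.card / M)) := by ring
    _ ≤ _ := Nat.mul_le_mul_left _ hcount

end Pool.Agent.TKB
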