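import Pool.Agent.TKB.St1

/-!
# Module TKB_RCOV: few exceptional words
-/

set_option autoImplicit false

open Finset
open scoped Classical

namespace Pool.Agent.TKB

open NCE TKN
open Pool.Agent.Lib_helper20.SRO (RectFree Rigid flipAt)

namespace RCOV

theorem flip_flip {n : ℕ} (z : Fin n → Bool) (v : Fin n) : flipAt (flipAt z v) v = z := by
  funext x
  by_cases hx : x = v
  · subst hx
    simp [flipAt]
  · simp [flipAt, Function.update_of_ne hx]

/-- the good words of `Z` in which `v` is not read -/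
noncomputable def unr {n r : ℕ} (Z : Finset (Fin n → Bool))
    (U : Fin r → (Fin n → Bool) → Finset (Fin n)) (f : (Fin n → Bool) → Bool) (v : Fin n) :
    Finset (Fin n → Bool) := Z.filter fun z => f z = true ∧ ∀ j, v ∉ U j z

theorem unr_card {n r w : ℕ} {Z : Finset (Fin n → Bool)}
    {U : Fin r → (Fin n → Bool) → Finset (Fin n)} {f : (Fin n → Bool) → Bool}
    (hF : Fam n r w Z U) (hR : Rigid f) (v : Fin n) :
    (unr Z U f v).card ≤ (bad Z f).card := by
  refine Finset.card_le_card_of_injOn (fun z => flipAt z v) ?_ ?_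
  · intro z hz
    obtain ⟨hzZ, hzf, hc⟩ := Finset.mem_filter.1 (Finset.mem_coe.1 hz)
    refine Finset.mem_coe.2 (Finset.mem_filter.2 ⟨?_, hR z v hzf⟩)
    refine hF.mix _ fun j => ⟨z, hzZ, fun x hx => ?_⟩
    have hxv : x ≠ v := fun h => hc j (h ▸ hx)
    simp [flipAt, Function.update_of_ne hxv]
  · intro z _ z' _ h
    have h1 : flipAt z v = flipAt z' v := h
    rw [← flip_flip z v, h1, flip_flip]

theorem exc_sub {n r : ℕ} (Z : Finset (Fin n → Bool))
    (U : Fin r → (Fin n → Bool) → Finset (Fin n)) (f : (Fin n → Bool) → Bool) :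
    exc Z U f ⊆ bad Z f ∪ (Finset.univ : Finset (Fin n)).biUnion (unr Z U f) := by
  intro z hz
  obtain ⟨hzZ, h⟩ := Finset.mem_filter.1 hz
  rw [Finset.mem_union]
  by_cases hf : f z = false
  · exact Or.inl (Finset.mem_filter.2 ⟨hzZ, hf⟩)
  · obtain h1 | ⟨v, hv⟩ := h
    · exact absurd h1 hf
    · refine Or.inr (Finset.mem_biUnion.2 ⟨v, Finset.mem_univ _, ?_⟩)
      exact Finset.mem_filter.2 ⟨hzZ, by simpa using hf, hv⟩

end RCOV

open RCOV in
theorem t_RCOV : S_RCOV := by
  intro n r w Z hZ U f hF hR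
  refine ⟨?_, ?_⟩
  · refine (Finset.card_le_card (exc_sub Z U f)).trans ((Finset.card_union_le _ _).trans ?_)
    have h1 : ((Finset.univ : Finset (Fin n)).biUnion (unr Z U f)).card ≤
        (Finset.univ : Finset (Fin n)).card * (bad Z f).card :=
      Finset.card_biUnion_le_card_mul _ _ _ fun v _ => unr_card hF hR v
    rw [Finset.card_univ, Fintype.card_fin] at h1
    calc _ ≤ (bad Z f).card + n * (bad Z f).card := Nat.add_le_add_left h1 _
      _ = (n + 1) * (bad Z f).card := by ring
  · intro V J1 Ω' _ P' π D hD q hq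
    have h2 : ∀ j, j ∉ J1 → Disjoint (D q) (U j (π q).1) := by
      intro j hj
      rw [Finset.disjoint_left]
      intro v hv hvU
      obtain ⟨ω', hω, hne⟩ := hD.und q hq v hv
      have h3 := congrFun (congrFun (congrArg Prod.snd hω) j) v
      have hj' : j ∈ J1ᶜ := Finset.mem_compl.2 hj
      simp only [FJ, if_pos hj', pat, if_pos hvU] at h3
      split_ifs at h3 with h4
      exact hne (Option.some.inj h3)
    refine ⟨h2, fun hex v hv => ?_⟩
    rw [Finset.mem_inter]
    refine ⟨?_, hD.sub q hq hv⟩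
    have h4 : ∃ j, v ∈ U j (π q).1 := by
      by_contra hc
      push Not at hc
      exact hex (Finset.mem_filter.2 ⟨(π q).2, Or.inr ⟨v, hc⟩⟩)
    obtain ⟨j, hj⟩ := h4
    by_cases hJ : j ∈ J1
    · exact Finset.mem_biUnion.2 ⟨j, hJ, hj⟩
    · exact absurd hj (Finset.disjoint_left.1 (h2 j hJ) hv)

end Pool.Agent.TKB
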