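import Pool.Agent.TKB.St1
import Pool.Agent.TKN.R_COREQ

/-!
# Project TKB, module RCQ: the robust core with explicit bounds (helper9; port of R_COREQ.lean)
-/

set_option autoImplicit false

open Finset
open scoped Classical

namespace Pool.Agent.TKB

open NCE TKN
open Pool.Agent.Lib_helper20.SRO (RectFree Rigid flipAt)

namespace MRCQ

open MCOREQ

/-- the scale `n0 = n / 2 ^ (g + 2)` -/
theorem n0_low {g Q n : ℕ} (h : 4 ^ (g + Q) ≤ n) (hQ : 1 ≤ Q) :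
    2 ^ (g + 2 * Q - 2) ≤ n / 2 ^ (g + 2) ∧ (n : ℝ) / 2 ^ (g + 3) ≤ ((n / 2 ^ (g + 2) : ℕ) : ℝ) := by
  have h1 : 2 ^ (g + 2 * Q - 2) ≤ n / 2 ^ (g + 2) := by
    rw [Nat.le_div_iff_mul_le (by positivity), ← pow_add]
    refine le_trans (le_of_eq ?_) h
    rw [show (4 : ℕ) = 2 ^ 2 by norm_num, ← pow_mul]
    congr 1
    omega
  refine ⟨h1, ?_⟩
  have h2 : 1 ≤ n / 2 ^ (g + 2) := le_trans (Nat.one_le_two_pow) h1
  have h3 : n < (n / 2 ^ (g + 2) + 1) * 2 ^ (g + 2) := by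
    have := Nat.lt_div_mul_add (a := n) (b := 2 ^ (g + 2)) (by positivity)
    linarith
  have h4 : (n : ℝ) < ((n / 2 ^ (g + 2) : ℕ) + 1 : ℝ) * (2 : ℝ) ^ (g + 2) := by exact_mod_cast h3
  have h5 : (1 : ℝ) ≤ ((n / 2 ^ (g + 2) : ℕ) : ℝ) := by exact_mod_cast h2
  rw [div_le_iff₀ (by positivity)]
  have h6 : (2 : ℝ) ^ (g + 3) = 2 * 2 ^ (g + 2) := by ring
  rw [h6]
  have h7 : (0 : ℝ) < (2 : ℝ) ^ (g + 2) := by positivity
  nlinarith

theorem n0_up (g n : ℕ) : ((n / 2 ^ (g + 2) : ℕ) : ℝ) ≤ (n : ℝ) / 2 ^ g / 4 := by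
  have h1 : ((n / 2 ^ (g + 2) : ℕ) : ℝ) ≤ (n : ℝ) / ((2 ^ (g + 2) : ℕ) : ℝ) := Nat.cast_div_le
  refine h1.trans (le_of_eq ?_)
  push_cast
  rw [pow_add, div_div]
  norm_num

/-- the exponent `Q` is large -/
theorem Q_low (k B1 : ℕ) (hk : 1 ≤ k) :
    (k + 1) ^ (19 + 6 * B1) + 20 ≤ (k + 1) ^ (24 + 6 * B1) ∧
      2 ^ 24 * (k + 1) ^ B1 ≤ (k + 1) ^ (24 + 6 * B1) := by
  have h2 : 2 ≤ k + 1 := by omega
  have h3 : 2 ^ 5 ≤ (k + 1) ^ 5 := Nat.pow_le_pow_left h2 5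
  have h4 : 2 ^ 19 ≤ (k + 1) ^ (19 + 6 * B1) :=
    (Nat.pow_le_pow_left h2 19).trans (Nat.pow_le_pow_right (by omega) (by omega))
  have h5 : (k + 1) ^ (24 + 6 * B1) = (k + 1) ^ 5 * (k + 1) ^ (19 + 6 * B1) := by
    rw [← pow_add]
    congr 1
    omega
  constructor
  · rw [h5]
    nlinarith
  · have h6 : (k + 1) ^ (24 + 6 * B1) = (k + 1) ^ 24 * (k + 1) ^ (5 * B1) * (k + 1) ^ B1 := by
      rw [← pow_add, ← pow_add]
      congr 1
      omega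
    rw [h6]
    have h7 : 2 ^ 24 ≤ (k + 1) ^ 24 := Nat.pow_le_pow_left h2 24
    have h8 : 1 ≤ (k + 1) ^ (5 * B1) := Nat.one_le_pow _ _ (by omega)
    apply Nat.mul_le_mul_right
    nlinarith

/-- the numbers at the end -/
theorem final (n g Q : ℕ) (c V M b Zc P l : ℝ) (hn : 4 ^ (g + Q) ≤ n) (hQ : 2 ^ 24 ≤ Q)
    (hQP : 2 ^ 24 * P ≤ Q) (hl1 : 1 ≤ l) (hlP : l ≤ P) (hV : V ≤ (n : ℝ) / 2 ^ g / 4)
    (hM0 : 0 ≤ M) (hM : M ≤ Real.exp ((n : ℝ) / 2 ^ (g + Q))) (hb0 : 0 ≤ b) (hZc : 0 ≤ Zc)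
    (hc : c = Real.exp (V * Real.log 4))
    (hb : Real.exp ((n : ℝ) / 2 ^ g) * b ≤ Real.exp ((n : ℝ) / 2 ^ (g + Q)) * Zc) :
    (4 * M ^ 2 * c + n + 1) * b ≤ Real.exp (1 - l) / (4000 * l) * Zc := by
  obtain ⟨x, hx⟩ : ∃ x : ℝ, x = (n : ℝ) / 2 ^ g := ⟨_, rfl⟩
  have hg0 : (0 : ℝ) < 2 ^ g := by positivity
  have hQr : (2 : ℝ) ^ 24 ≤ Q := by exact_mod_cast hQ
  have h2Q : (Q : ℝ) ≤ 2 ^ Q := by exact_mod_cast (Nat.lt_two_pow_self (n := Q)).le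
  have hnr : (4 : ℝ) ^ (g + Q) ≤ n := by exact_mod_cast hn
  have h4g : (4 : ℝ) ^ g = 2 ^ g * 2 ^ g := by
    rw [← mul_pow]
    norm_num
  have h4Q : (4 : ℝ) ^ Q = 2 ^ Q * 2 ^ Q := by
    rw [← mul_pow]
    norm_num
  have hxQ : (2 : ℝ) ^ Q * 2 ^ Q * 2 ^ g ≤ x := by
    rw [hx, le_div_iff₀ hg0]
    refine le_trans (le_of_eq ?_) hnr
    rw [pow_add, h4g, h4Q]
    ring
  have h2Q0 : (1 : ℝ) ≤ 2 ^ Q := by linarith
  have h2g0 : (1 : ℝ) ≤ 2 ^ g := one_le_pow₀ (by norm_num)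
  have hxQ2 : (Q : ℝ) ≤ x := by
    have : (2 : ℝ) ^ Q ≤ 2 ^ Q * 2 ^ Q * 2 ^ g := by
      have e1 : (2 : ℝ) ^ Q * 1 * 1 ≤ 2 ^ Q * 2 ^ Q * 2 ^ g := by gcongr
      linarith
    linarith
  have hx0 : 0 < x := by linarith
  have hδx : (n : ℝ) / 2 ^ (g + Q) ≤ x / 100 := by
    rw [hx, pow_add, ← div_div]
    apply div_le_div_of_nonneg_left (by positivity) (by norm_num)
    linarith
  -- `n + 1 ≤ exp (x / 10)`
  have hn1 : (n : ℝ) + 1 ≤ Real.exp (x / 10) := by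
    have e1 := Real.quadratic_le_exp_of_nonneg (show 0 ≤ x / 10 by positivity)
    have e2 : (n : ℝ) * (2 ^ Q * 2 ^ Q) ≤ x ^ 2 := by
      have e3 : x * 2 ^ g = n := by rw [hx]; field_simp
      calc (n : ℝ) * (2 ^ Q * 2 ^ Q) = x * (2 ^ Q * 2 ^ Q * 2 ^ g) := by rw [← e3]; ring
        _ ≤ x * x := mul_le_mul_of_nonneg_left hxQ hx0.le
        _ = x ^ 2 := by ring
    have e4 : (n : ℝ) * 400 ≤ x ^ 2 := by
      refine le_trans ?_ e2
      apply mul_le_mul_of_nonneg_left _ (Nat.cast_nonneg _)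
      nlinarith
    nlinarith
  have hc1 : c ≤ Real.exp (0.35 * x) := by
    rw [hc]
    apply Real.exp_le_exp.2
    have e1 : Real.log 4 = 2 * Real.log 2 := by
      rw [show (4 : ℝ) = 2 ^ 2 by norm_num, Real.log_pow]
      norm_num
    have e2 := Real.log_two_lt_d9
    have e3 := Real.log_two_gt_d9
    rw [← hx] at hV
    have e4 : V * Real.log 4 ≤ x / 4 * Real.log 4 :=
      mul_le_mul_of_nonneg_right hV (by rw [e1]; linarith)
    have e5 : x / 4 * Real.log 4 ≤ x / 4 * 1.4 :=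
      mul_le_mul_of_nonneg_left (by rw [e1]; linarith) (by positivity)
    linarith
  have hc0 : 0 ≤ c := by rw [hc]; positivity
  have hM2 : M ^ 2 ≤ Real.exp (0.02 * x) := by
    have e1 : M ≤ Real.exp (x / 100) := hM.trans (Real.exp_le_exp.2 hδx)
    calc M ^ 2 ≤ Real.exp (x / 100) ^ 2 := pow_le_pow_left₀ hM0 e1 2
      _ = Real.exp (0.02 * x) := by
          rw [← Real.exp_nat_mul]
          congr 1
          push_cast
          ring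
  have hA : 4 * M ^ 2 * c + n + 1 ≤ 5 * Real.exp (0.37 * x) := by
    have e1 : M ^ 2 * c ≤ Real.exp (0.02 * x) * Real.exp (0.35 * x) := by gcongr
    rw [← Real.exp_add] at e1
    have e2 : Real.exp (0.02 * x + 0.35 * x) = Real.exp (0.37 * x) := by
      congr 1
      ring
    rw [e2] at e1
    have e3 : Real.exp (x / 10) ≤ Real.exp (0.37 * x) := Real.exp_le_exp.2 (by linarith)
    linarith
  have hb1 : b ≤ Real.exp (x / 100 - x) * Zc := by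
    rw [← hx] at hb
    have e1 : Real.exp x * b ≤ Real.exp (x / 100) * Zc :=
      hb.trans (mul_le_mul_of_nonneg_right (Real.exp_le_exp.2 hδx) hZc)
    have e2 : Real.exp (-x) * (Real.exp x * b) ≤ Real.exp (-x) * (Real.exp (x / 100) * Zc) :=
      mul_le_mul_of_nonneg_left e1 (Real.exp_pos _).le
    rw [← mul_assoc, ← mul_assoc, ← Real.exp_add, ← Real.exp_add] at e2
    rw [neg_add_cancel, Real.exp_zero, one_mul] at e2
    refine e2.trans (le_of_eq ?_)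
    congr 2
    ring
  have h5 : (5 : ℝ) ≤ Real.exp (0.12 * x) := by
    have := Real.add_one_le_exp (0.12 * x)
    linarith
  have h6 : (4 * M ^ 2 * c + n + 1) * b ≤ Real.exp (-(x / 2)) * Zc := by
    calc (4 * M ^ 2 * c + n + 1) * b ≤ (5 * Real.exp (0.37 * x)) * (Real.exp (x / 100 - x) * Zc) := by
          apply mul_le_mul hA hb1 hb0 (by positivity)
      _ ≤ (Real.exp (0.12 * x) * Real.exp (0.37 * x)) * (Real.exp (x / 100 - x) * Zc) := by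
          gcongr
      _ = Real.exp (-(x / 2)) * Zc := by
          rw [← mul_assoc, ← Real.exp_add, ← Real.exp_add]
          congr 2
          ring
  refine h6.trans (mul_le_mul_of_nonneg_right ?_ hZc)
  -- `exp (- x / 2) ≤ exp (1 - l) / (4000 l)`
  rw [le_div_iff₀ (by positivity)]
  have e1 : 4000 * l ≤ Real.exp (4000 * l) := by
    have := Real.add_one_le_exp (4000 * l)
    linarith
  calc Real.exp (-(x / 2)) * (4000 * l) ≤ Real.exp (-(x / 2)) * Real.exp (4000 * l) :=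
        mul_le_mul_of_nonneg_left e1 (Real.exp_pos _).le
    _ = Real.exp (-(x / 2) + 4000 * l) := (Real.exp_add _ _).symm
    _ ≤ Real.exp (1 - l) := by
        apply Real.exp_le_exp.2
        norm_num at hQP hQr
        linarith

/-- The choice of `V` and `J`. -/
theorem chooseVJ (hCHAIN : S_CHAIN) (hAVO : S_AVO) (hAVX : S_AVX) (hAVB : S_AVB) (hRE2 : S_RE2)
    (hST2 : S_ST2) (hSEL : S_SEL) {n n0 r w k m0 K L : ℕ} {l δ : ℝ} (Z : Finset (Fin n → Bool))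
    (hZ : Z.Nonempty) (U : Fin r → (Fin n → Bool) → Finset (Fin n)) (hFam : Fam n r w Z U)
    (hrw : r * w ≤ k * n) (hk : 1 ≤ k) (hm0 : 0 < m0) (hm0r : m0 < r) (hl1 : 1 ≤ l)
    (hK : 16000 * r * l ^ 3 ≤ K) (hL : (80 * r + 16000 * l) * Real.exp l ≤ L) (hL2 : 2 ≤ L)
    (hnum : ∀ b : ℕ → ℝ, 2 / 5 ≤ b 0 → (∀ i < r - m0, Real.exp (1 - l) ≤ b i → ∀ c0 : ℕ,
      b i - 12 / ((r : ℝ) - i) * ((c0 + 1) * b i + k * (((r : ℝ) - i) / r) ^ c0) -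
        Real.exp (1 - l) / (10 * r) ≤ b (i + 1)) → Real.exp (1 - l) ≤ b (r - m0))
    (hn0 : n0 ≤ n)
    (hn : (L : ℝ) ^ (r * K) * (3200 * (16000 * (r : ℝ) ^ 2 * l * Real.exp (2 * l))) ≤ n0)
    (hδ : δ * n * ((L : ℝ) ^ (r * K) * (3200 * (16000 * (r : ℝ) ^ 2 * l * Real.exp (2 * l)))) ≤ n0)
    (hδ0 : 0 ≤ δ) (hZ2 : (2 : ℝ) ^ n ≤ Real.exp (δ * n) * Z.card) :
    ∃ (V : Finset (Fin n)) (J : Finset (Fin r)), (n0 : ℝ) / (2 * (L : ℝ) ^ (r * K)) ≤ V.card ∧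
      V.card ≤ n0 ∧ J.card = r - m0 ∧ Real.exp (1 - l) / 2 * V.card ≤ PhiF Z hZ U V J ∧
      TCF Z hZ U V J ≤ 1 / (2000 * l) * PhiF Z hZ U V J ∧
      ((Z.filter fun z => 2 * (k * m0 / r : ℝ) * V.card < ((UJ U Jᶜ z ∩ V).card : ℝ)).card : ℝ) ≤
        Real.exp (1 - l) / (4000 * l) * Z.card := by
  have hr0 : 1 ≤ r := by omega
  have hr1 : (1 : ℝ) ≤ r := by exact_mod_cast hr0
  have hrpos : (0 : ℝ) < r := by linarith
  have hk1 : (1 : ℝ) ≤ k := by exact_mod_cast hk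
  have hm1 : (1 : ℝ) ≤ m0 := by exact_mod_cast hm0
  have hl0 : 0 < l := by linarith
  have hZc : (0 : ℝ) < Z.card := by exact_mod_cast Finset.card_pos.2 hZ
  have hLpos : (0 : ℝ) < L := by
    have : (2 : ℝ) ≤ L := by exact_mod_cast hL2
    linarith
  set S := r * K with hS
  set X : ℝ := 16000 * (r : ℝ) ^ 2 * l * Real.exp (2 * l) with hX
  have hX0 : 0 < X := by positivity
  have hLS : (0 : ℝ) < (L : ℝ) ^ S := by positivity
  have hX1 : 1 ≤ X := by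
    have e1 : 1 ≤ Real.exp (2 * l) := Real.one_le_exp (by linarith)
    have e2 : (1 : ℝ) ≤ (r : ℝ) ^ 2 := one_le_pow₀ hr1
    calc (1 : ℝ) ≤ 16000 * 1 * 1 * 1 := by norm_num
      _ ≤ 16000 * (r : ℝ) ^ 2 * l * Real.exp (2 * l) := by gcongr
  have hδn0 : 0 ≤ δ * n := mul_nonneg hδ0 (Nat.cast_nonneg _)
  have hn2 : 2 * L ^ S ≤ n0 := by
    have h1 : (2 : ℝ) * (L : ℝ) ^ S ≤ n0 := by
      refine le_trans ?_ hn
      nlinarith
    exact_mod_cast h1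
  have hlow : ∀ j, j ≤ S → (n0 : ℝ) / (2 * (L : ℝ) ^ S) ≤ ((n0 / L ^ j : ℕ) : ℝ) ∧ 1 ≤ n0 / L ^ j :=
    fun j hj => scale_low hL2 hn2 hj
  have hle0 : ∀ j, n0 / L ^ j ≤ n0 := fun j => Nat.div_le_self _ _
  have hle : ∀ j, n0 / L ^ j ≤ n := fun j => (hle0 j).trans hn0
  have hXt : ∀ j, j ≤ S → 1600 * X ≤ ((n0 / L ^ j : ℕ) : ℝ) := by
    intro j hj
    refine le_trans ?_ (hlow j hj).1
    rw [le_div_iff₀ (by positivity)]
    linarith
  have hch := hCHAIN r m0 K L k l (fun j i => oA Z hZ U (n0 / L ^ j) i)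
    (fun j i => xA Z hZ U (n0 / L ^ j) i) (fun j i => yA Z hZ U (n0 / L ^ j) i) hm0 hm0r hl1
    (by linarith) hK hL
    (by
      intro j i hj hi
      have h1 := (hlow (j + 1) (by omega)).2
      exact ⟨mono_up (fun t => oA Z hZ U t i) (fun t a b => hAVO n r Z hZ U t i a b hi) h1
        scale_succ.1 (hle j),
        mono_up (fun t => xA Z hZ U t i) (fun t a b => (hAVX n r Z hZ U i hi).1 t a b) h1
        scale_succ.1 (hle j)⟩)
    (by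
      intro j i hj hi
      exact hAVB n r Z hZ U _ i (hlow j hj).2 (hle j) hi)
    (by
      intro j i hj hi
      have h1 := (hlow (j + 1) (by omega)).2
      have h0 := (hlow j (by omega)).2
      have h2 := (hAVX n r Z hZ U i hi).2.2 (n0 / L ^ j) (n0 / L ^ (j + 1)) h1 scale_succ.1 (hle j)
      obtain ⟨b1, b2, b3, -⟩ := hAVB n r Z hZ U (n0 / L ^ (j + 1)) i h1 (hle _) hi
      refine h2.trans ?_
      have h3 : ((n0 / L ^ (j + 1) : ℕ) : ℝ) / ((n0 / L ^ j : ℕ) : ℝ) *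
          xA Z hZ U (n0 / L ^ (j + 1)) i ≤ 1 / L := by
        have h4 : (0 : ℝ) < ((n0 / L ^ j : ℕ) : ℝ) := by exact_mod_cast h0
        have h5 : ((n0 / L ^ (j + 1) : ℕ) : ℝ) / ((n0 / L ^ j : ℕ) : ℝ) ≤ 1 / L := by
          rw [div_le_iff₀ h4]
          have := (scale_succ (n := n0) (L := L) (j := j)).2
          calc ((n0 / L ^ (j + 1) : ℕ) : ℝ) ≤ ((n0 / L ^ j : ℕ) : ℝ) / L := this
            _ = 1 / L * ((n0 / L ^ j : ℕ) : ℝ) := by ring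
        calc _ ≤ 1 / (L : ℝ) * 1 := by
              apply mul_le_mul h5 b3 (b1.trans b2) (by positivity)
          _ = 1 / L := mul_one _
      linarith)
    (by
      intro j i hj hi c0
      exact hRE2 n r w k Z hZ U hFam hrw _ i (hlow j hj).2 (hle j) hi c0)
    (by
      intro j hj
      have h1 := hST2 n r Z hZ U (δ * n) (by
        have h1 := Real.log_le_log (by positivity) hZ2
        rw [Real.log_mul (Real.exp_pos _).ne' hZc.ne', Real.log_exp, Real.log_pow] at h1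
        linarith) (n0 / L ^ j) (hlow j hj).2 (hle j)
      refine le_trans ?_ h1
      have h4 : (0 : ℝ) < ((n0 / L ^ j : ℕ) : ℝ) := by exact_mod_cast (hlow j hj).2
      have h5 : δ * n / ((n0 / L ^ j : ℕ) : ℝ) ≤ 1 / 10 := by
        rw [div_le_iff₀ h4]
        have h6 := (hlow j hj).1
        rw [div_le_iff₀ (by positivity)] at h6
        have h7 : δ * n * (L : ℝ) ^ S * 20 ≤ δ * n * ((L : ℝ) ^ S * (3200 * X)) := by
          rw [mul_assoc (δ * n)]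
          apply mul_le_mul_of_nonneg_left _ hδn0
          apply mul_le_mul_of_nonneg_left _ hLS.le
          linarith
        have h8 : δ * n * 10 * (2 * (L : ℝ) ^ S) ≤
            ((n0 / L ^ j : ℕ) : ℝ) * (2 * (L : ℝ) ^ S) := by
          refine le_trans (le_of_eq ?_) (h7.trans (hδ.trans h6))
          ring
        have h9 := le_of_mul_le_mul_right h8 (by positivity)
        linarith
      linarith)
    hnum
  obtain ⟨j, hj, hμ, hy⟩ := hch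
  have hjS : j ≤ S := by omega
  obtain ⟨t, ht⟩ : ∃ t, t = n0 / L ^ j := ⟨_, rfl⟩
  have ht1 : 1 ≤ t := by rw [ht]; exact (hlow j hjS).2
  have htn : t ≤ n := by rw [ht]; exact hle j
  have htn0 : t ≤ n0 := by rw [ht]; exact hle0 j
  have htX : 1600 * X ≤ t := by rw [ht]; exact hXt j hjS
  have htlow : (n0 : ℝ) / (2 * (L : ℝ) ^ S) ≤ t := by rw [ht]; exact (hlow j hjS).1
  simp only [← ht] at hμ hy
  have ht0 : (0 : ℝ) < t := by exact_mod_cast ht1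
  obtain ⟨V, J, hV, hJ, h1, h2, h3⟩ := hSEL n r w Z hZ U hFam t (r - m0) (k * m0 / r)
    (Real.exp (1 - l) / (4000 * l)) (Real.exp (1 - l)) (1 / (2000 * l)) ht1 htn (Nat.sub_le _ _)
    (by positivity) (by positivity) (Real.exp_pos _) (by positivity)
    (by
      rw [Nat.cast_sub hm0r.le, sub_sub_cancel]
      have h1 : ((r : ℝ) * w) ≤ k * n := by exact_mod_cast hrw
      calc (m0 : ℝ) * w = m0 / r * (r * w) := by field_simp
        _ ≤ m0 / r * (k * n) := mul_le_mul_of_nonneg_left h1 (by positivity)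
        _ = k * m0 / r * n := by ring)
    hμ
    (by
      refine hy.trans (le_of_eq ?_)
      field_simp
      ring)
    (by
      have e0 : (1 / (r : ℝ)) ≤ k * m0 / r := by
        apply div_le_div_of_nonneg_right _ hrpos.le
        nlinarith
      have e1 : (1 / (r : ℝ)) ^ 2 ≤ ((k : ℝ) * m0 / r) ^ 2 := by gcongr
      have e2 : 1 / (((k : ℝ) * m0 / r) ^ 2 * t * (Real.exp (1 - l) / (4000 * l))) ≤
          1 / ((1 / (r : ℝ)) ^ 2 * t * (Real.exp (1 - l) / (4000 * l))) := by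
        apply one_div_le_one_div_of_le (by positivity)
        gcongr
      refine e2.trans ?_
      have e3 : 1 / ((1 / (r : ℝ)) ^ 2 * t * (Real.exp (1 - l) / (4000 * l))) =
          4000 * l * (r : ℝ) ^ 2 / (Real.exp (1 - l) * t) := by
        field_simp
      rw [e3, div_le_iff₀ (by positivity)]
      have e4 : Real.exp (1 - l) * Real.exp l = Real.exp 1 := by
        rw [← Real.exp_add]
        congr 1
        ring
      have e5 : Real.exp (2 * l) = Real.exp l * Real.exp l := by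
        rw [← Real.exp_add]
        congr 1
        ring
      have e6 : 1 ≤ Real.exp 1 := Real.one_le_exp (by norm_num)
      have e7 : Real.exp (1 - l) * (Real.exp (1 - l) * X) =
          16000 * (r : ℝ) ^ 2 * l * (Real.exp 1 * Real.exp 1) := by
        rw [hX, e5]
        calc Real.exp (1 - l) * (Real.exp (1 - l) *
              (16000 * (r : ℝ) ^ 2 * l * (Real.exp l * Real.exp l)))
            = 16000 * (r : ℝ) ^ 2 * l * ((Real.exp (1 - l) * Real.exp l) *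
              (Real.exp (1 - l) * Real.exp l)) := by ring
          _ = _ := by rw [e4]
      have e8 : 16000 * (r : ℝ) ^ 2 * l ≤ Real.exp (1 - l) * (Real.exp (1 - l) * X) := by
        rw [e7]
        have e10 : 0 ≤ 16000 * (r : ℝ) ^ 2 * l := by positivity
        have e11 : 1 ≤ Real.exp 1 * Real.exp 1 := by nlinarith
        exact le_mul_of_one_le_right e10 e11
      have e9 : Real.exp (1 - l) * (Real.exp (1 - l) * X) ≤
          Real.exp (1 - l) * (Real.exp (1 - l) * t) := by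
        have : X ≤ t := by linarith
        gcongr
      linarith)
  refine ⟨V, J, ?_, hV.le.trans htn0, hJ, ?_, h2, ?_⟩
  · rw [hV]
    exact htlow
  · rw [hV]
    exact h1
  · rw [hV]
    exact h3

/-- the logarithm of `1 / μ` -/
theorem logmu {l μ : ℝ} (hμ0 : 0 < μ) (hμ2 : Real.exp (1 - l) / 2 ≤ μ) :
    Real.log (1 / μ) ≤ Real.log 2 + (l - 1) := by
  have h1 : 1 / μ ≤ 2 * Real.exp (l - 1) := by
    rw [div_le_iff₀ hμ0]
    have h2 : Real.exp (l - 1) * Real.exp (1 - l) = 1 := by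
      rw [← Real.exp_add]
      simp
    calc (1 : ℝ) = 2 * Real.exp (l - 1) * (Real.exp (1 - l) / 2) := by linarith
      _ ≤ 2 * Real.exp (l - 1) * μ := mul_le_mul_of_nonneg_left hμ2 (by positivity)
  have h2 := Real.log_le_log (by positivity) h1
  rwa [Real.log_mul (by norm_num) (Real.exp_pos _).ne', Real.log_exp] at h2

theorem ee1 (l : ℝ) : Real.exp (1 - l) * Real.exp l = Real.exp 1 := by
  rw [← Real.exp_add]
  congr 1
  ring

theorem ee2 (l : ℝ) : Real.exp (2 * l) = Real.exp l * Real.exp l := by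
  rw [← Real.exp_add]
  congr 1
  ring

theorem ee3 : 2 ≤ Real.exp 1 := by
  have := Real.add_one_le_exp (1 : ℝ)
  linarith

/-- `μ X` is not small -/
theorem muX {r l μ X : ℝ} (hr1 : 1 ≤ r) (hl1 : 1 ≤ l)
    (hX : X = 16000 * r ^ 2 * l * Real.exp (2 * l)) (hμ2 : Real.exp (1 - l) / 2 ≤ μ) :
    16000 * (r ^ 2 * l * Real.exp l) ≤ μ * X ∧ 1 ≤ r ^ 2 * l ∧ l ≤ r ^ 2 * l * Real.exp l ∧
      r ^ 2 * l ≤ r ^ 2 * l * Real.exp l := by
  have hr2 : 1 ≤ r ^ 2 := one_le_pow₀ hr1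
  have hel : 1 ≤ Real.exp l := Real.one_le_exp (by linarith)
  have hrl : 1 ≤ r ^ 2 * l := by nlinarith
  have hrl2 : l ≤ r ^ 2 * l := by nlinarith
  have hrle : r ^ 2 * l ≤ r ^ 2 * l * Real.exp l := le_mul_of_one_le_right (by linarith) hel
  have hX0 : 0 ≤ X := by rw [hX]; positivity
  refine ⟨?_, hrl, hrl2.trans hrle, hrle⟩
  have h8 : Real.exp (1 - l) / 2 * X ≤ μ * X := mul_le_mul_of_nonneg_right hμ2 hX0
  refine le_trans ?_ h8
  have h9 : Real.exp (1 - l) / 2 * X =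
      (Real.exp (1 - l) * Real.exp l) * (8000 * (r ^ 2 * l * Real.exp l)) := by
    rw [hX, ee2]
    ring
  rw [h9, ee1]
  have h10 : 0 ≤ 8000 * (r ^ 2 * l * Real.exp l) := by linarith
  calc 16000 * (r ^ 2 * l * Real.exp l) = 2 * (8000 * (r ^ 2 * l * Real.exp l)) := by ring
    _ ≤ Real.exp 1 * (8000 * (r ^ 2 * l * Real.exp l)) := mul_le_mul_of_nonneg_right ee3 h10

/-- `μ V` is large -/
theorem muV {r l μ X V : ℝ} (hr1 : 1 ≤ r) (hl1 : 1 ≤ l)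
    (hX : X = 16000 * r ^ 2 * l * Real.exp (2 * l)) (hμ0 : 0 < μ)
    (hμ2 : Real.exp (1 - l) / 2 ≤ μ) (hVX : 1600 * X ≤ V) :
    1600 * (16000 * (r ^ 2 * l * Real.exp l)) ≤ μ * V := by
  obtain ⟨h1, -⟩ := muX hr1 hl1 hX hμ2
  calc 1600 * (16000 * (r ^ 2 * l * Real.exp l)) ≤ 1600 * (μ * X) := by linarith
    _ = μ * (1600 * X) := by ring
    _ ≤ μ * V := mul_le_mul_of_nonneg_left hVX hμ0.le

theorem g400 {r l y : ℝ} (h2 : 1 ≤ r ^ 2 * l) (h3 : r ^ 2 * l ≤ r ^ 2 * l * Real.exp l)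
    (hb : 1600 * (16000 * (r ^ 2 * l * Real.exp l)) ≤ y) : 400 ≤ y := by
  linarith

/-- the bound for `1 / (4 ε ^ 2 θ)` -/
theorem gth {r l ε θ μ V : ℝ} (hr1 : 1 ≤ r) (hl1 : 1 ≤ l) (hε : 1 / r ≤ ε)
    (hθ : Real.exp (1 - l) / (4000 * l) ≤ θ) (h2 : 1 ≤ r ^ 2 * l)
    (hb : 1600 * (16000 * (r ^ 2 * l * Real.exp l)) ≤ μ * V) :
    1 / (4 * ε ^ 2 * θ) ≤ 3 * μ * V := by
  have hrpos : 0 < r := by linarith
  have hl0 : 0 < l := by linarith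
  have h1 : 1 / (4 * ε ^ 2 * θ) ≤ 1 / (4 * (1 / r) ^ 2 * (Real.exp (1 - l) / (4000 * l))) := by
    apply one_div_le_one_div_of_le (by positivity)
    gcongr
  refine h1.trans ?_
  have h2' : 1 / (4 * (1 / r) ^ 2 * (Real.exp (1 - l) / (4000 * l))) =
      1000 * r ^ 2 * l / Real.exp (1 - l) := by
    field_simp
    ring
  rw [h2', div_le_iff₀ (Real.exp_pos _)]
  have h5 : (1600 * (16000 * (r ^ 2 * l * Real.exp l))) * Real.exp (1 - l) =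
      1600 * 16000 * (r ^ 2 * l) * (Real.exp (1 - l) * Real.exp l) := by ring
  have h4 : 1000 * r ^ 2 * l ≤ (1600 * (16000 * (r ^ 2 * l * Real.exp l))) * Real.exp (1 - l) := by
    rw [h5, ee1]
    calc 1000 * r ^ 2 * l = 1000 * (r ^ 2 * l) * 1 := by ring
      _ ≤ 1600 * 16000 * (r ^ 2 * l) * Real.exp 1 := by
          apply mul_le_mul (by linarith) (by linarith [ee3]) (by norm_num) (by linarith)
  have h6 : 0 ≤ μ * V := le_trans (by positivity) hb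
  calc 1000 * r ^ 2 * l ≤ (1600 * (16000 * (r ^ 2 * l * Real.exp l))) * Real.exp (1 - l) := h4
    _ ≤ (μ * V) * Real.exp (1 - l) := mul_le_mul_of_nonneg_right hb (Real.exp_pos _).le
    _ ≤ (3 * μ * V) * Real.exp (1 - l) := by
        apply mul_le_mul_of_nonneg_right _ (Real.exp_pos _).le
        linarith

/-- `exp (- μ V) ≤ θ` -/
theorem gex {r l θ y : ℝ} (hl1 : 1 ≤ l) (hθ : Real.exp (1 - l) / (4000 * l) ≤ θ)
    (h3 : l ≤ r ^ 2 * l * Real.exp l)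
    (hb : 1600 * (16000 * (r ^ 2 * l * Real.exp l)) ≤ y) : Real.exp (-y) ≤ θ := by
  have hl0 : 0 < l := by linarith
  refine le_trans ?_ hθ
  have h1 : Real.exp (-y) ≤ Real.exp (-(4000 * l) + (1 - l)) := by
    apply Real.exp_le_exp.2
    linarith
  refine h1.trans ?_
  rw [Real.exp_add, mul_comm, div_eq_mul_inv]
  apply mul_le_mul_of_nonneg_left _ (Real.exp_pos _).le
  rw [Real.exp_neg]
  apply inv_anti₀ (by positivity)
  have := Real.add_one_le_exp (4000 * l)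
  linarith

/-- `δ n ≤ μ V / 400` -/
theorem gdn {r l μ X V d Y n0 : ℝ} (hr1 : 1 ≤ r) (hl1 : 1 ≤ l)
    (hX : X = 16000 * r ^ 2 * l * Real.exp (2 * l)) (hμ0 : 0 < μ)
    (hμ2 : Real.exp (1 - l) / 2 ≤ μ) (hd : 0 ≤ d) (hY : 0 < Y)
    (hbig : d * (Y * (3200 * X)) ≤ n0) (hV : n0 / (2 * Y) ≤ V) : d ≤ μ * V / 400 := by
  have h1 : n0 ≤ V * (2 * Y) := by
    rwa [div_le_iff₀ (by positivity)] at hV
  have h2 : d * (1600 * X) * (2 * Y) ≤ V * (2 * Y) := by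
    refine le_trans (le_of_eq ?_) (hbig.trans h1)
    ring
  have h3 : d * (1600 * X) ≤ V := le_of_mul_le_mul_right h2 (by positivity)
  obtain ⟨h4, h5, h6, h7⟩ := muX hr1 hl1 hX hμ2
  rw [le_div_iff₀ (by norm_num)]
  calc d * 400 ≤ d * (1600 * (μ * X)) := by
        apply mul_le_mul_of_nonneg_left _ hd
        linarith
    _ = μ * (d * (1600 * X)) := by ring
    _ ≤ μ * V := mul_le_mul_of_nonneg_left h3 hμ0.le

/-- `1 / r ≤ k m0 / r` -/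
theorem gepr {r k m0 : ℝ} (hr : 0 < r) (hk : 1 ≤ k) (hm : 1 ≤ m0) : 1 / r ≤ k * m0 / r := by
  apply div_le_div_of_nonneg_right _ hr.le
  nlinarith

/-- the lower bound for `θ` -/
theorem gthl {l l' μ : ℝ} (hl1 : 1 ≤ l) (hl'0 : 0 < l') (hl'2 : l' ≤ 2 * l) (hμ0 : 0 < μ)
    (hμ2 : Real.exp (1 - l) / 2 ≤ μ) : Real.exp (1 - l) / (4000 * l) ≤ μ / (1000 * l') := by
  have hl0 : 0 < l := by linarith
  calc Real.exp (1 - l) / (4000 * l) = Real.exp (1 - l) / 2 / (1000 * (2 * l)) := by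
        field_simp
        ring
    _ ≤ μ / (1000 * l') := by gcongr

theorem gxi {l l' μ : ℝ} (hl'0 : 0 < l') (hl'2 : l' ≤ 2 * l) (hμ0 : 0 < μ) :
    1 / (2000 * l) * μ ≤ μ / (1000 * l') := by
  rw [div_mul_eq_mul_div, one_mul]
  apply div_le_div_of_nonneg_left hμ0.le (by positivity)
  linarith

theorem geta {l l' ε : ℝ} (hl'2 : l' ≤ 2 * l) (h : 20000 * l * eta (4 * ε) ≤ 1)
    (h0 : 0 ≤ eta (4 * ε)) : 10000 * l' * eta (4 * ε) ≤ 1 := by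
  calc 10000 * l' * eta (4 * ε) ≤ 10000 * (2 * l) * eta (4 * ε) := by gcongr
    _ = 20000 * l * eta (4 * ε) := by ring
    _ ≤ 1 := h

/-- the end of the proof -/
theorem endq {n r w k m0 : ℕ} {l δ X Y n0 : ℝ} (hRPB : S_RPB) (Z : Finset (Fin n → Bool))
    (hZ : Z.Nonempty) (U : Fin r → (Fin n → Bool) → Finset (Fin n)) (f : (Fin n → Bool) → Bool)
    (M : ℕ) (hFam : Fam n r w Z U) (hrig : Rigid f) (hrect : RectFree f M) (hM1 : 1 ≤ M)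
    (hk : 1 ≤ k) (hm0 : 0 < m0) (hm0r : m0 < r) (hl1 : 1 ≤ l)
    (he1 : 4 * (k * m0 / r : ℝ) ≤ 1 / 20000) (he2 : 20000 * l * eta (4 * (k * m0 / r)) ≤ 1)
    (hX : X = 16000 * (r : ℝ) ^ 2 * l * Real.exp (2 * l)) (hδ0 : 0 < δ) (hY : 0 < Y)
    (hδbig : δ * n * (Y * (3200 * X)) ≤ n0)
    (V : Finset (Fin n)) (J : Finset (Fin r)) (hV : n0 / (2 * Y) ≤ V.card)
    (hVX : 1600 * X ≤ V.card) (hΦ : Real.exp (1 - l) / 2 * V.card ≤ PhiF Z hZ U V J)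
    (hTC : TCF Z hZ U V J ≤ 1 / (2000 * l) * PhiF Z hZ U V J)
    (hheavy : ((Z.filter fun z => 2 * (k * m0 / r : ℝ) * V.card <
      ((UJ U Jᶜ z ∩ V).card : ℝ)).card : ℝ) ≤ Real.exp (1 - l) / (4000 * l) * Z.card)
    (hM : (M : ℝ) ≤ Real.exp (δ * n)) (hZ2 : (2 : ℝ) ^ n ≤ Real.exp (δ * n) * Z.card)
    (hend : (4 * (M : ℝ) ^ 2 * 4 ^ V.card + n + 1) * (bad Z f).card ≤
      Real.exp (1 - l) / (4000 * l) * Z.card) : False := by
  have hr1 : (1 : ℝ) ≤ r := by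
    have : 1 ≤ r := by omega
    exact_mod_cast this
  have hrpos : (0 : ℝ) < r := lt_of_lt_of_le one_pos hr1
  have hk1 : (1 : ℝ) ≤ k := by exact_mod_cast hk
  have hm1 : (1 : ℝ) ≤ m0 := by exact_mod_cast hm0
  have hl0 : 0 < l := lt_of_lt_of_le one_pos hl1
  have hX0 : 0 < X := by rw [hX]; positivity
  have hV0 : (0 : ℝ) < V.card := lt_of_lt_of_le (by positivity) hVX
  obtain ⟨μ, hμ⟩ : ∃ μ : ℝ, μ = PhiF Z hZ U V J / V.card := ⟨_, rfl⟩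
  have hμV : μ * V.card = PhiF Z hZ U V J := by rw [hμ]; exact div_mul_cancel₀ _ hV0.ne'
  have hμ2 : Real.exp (1 - l) / 2 ≤ μ := by
    rw [hμ, le_div_iff₀ hV0]
    exact hΦ
  have hμ0 : 0 < μ := lt_of_lt_of_le (by positivity) hμ2
  have hμ1 : μ ≤ 1 := by
    rw [hμ, div_le_one hV0]
    exact PhiF_le Z hZ U V J
  obtain ⟨l', hl'⟩ : ∃ l' : ℝ, l' = 1 + Real.log (1 / μ) := ⟨_, rfl⟩
  have hlog := logmu hμ0 hμ2
  have hlog0 : 0 ≤ Real.log (1 / μ) := Real.log_nonneg (by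
    rw [le_div_iff₀ hμ0, one_mul]
    exact hμ1)
  have hl'1 : 1 ≤ l' := by rw [hl']; exact le_add_of_nonneg_right hlog0
  have hl'2 : l' ≤ 2 * l := by
    clear hend hheavy hTC hΦ hM hZ2 hδbig hV hVX he1 he2
    rw [hl']
    have : Real.log 2 < 0.6931471808 := Real.log_two_lt_d9
    linarith
  have hl'0 : 0 < l' := lt_of_lt_of_le one_pos hl'1
  obtain ⟨ε, hε⟩ : ∃ ε : ℝ, ε = k * m0 / r := ⟨_, rfl⟩
  rw [← hε] at he1 he2 hheavy
  have hεr : 1 / (r : ℝ) ≤ ε := by rw [hε]; exact gepr hrpos hk1 hm1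
  have hε0 : 0 < ε := lt_of_lt_of_le (by positivity) hεr
  have hε4 : 4 * ε ≤ 1 / 10000 := he1.trans (by norm_num)
  have hε5 : 0 < 4 * ε := by positivity
  have hη0 : 0 ≤ eta (4 * ε) := hε5.le.trans (MCORE.le_eta hε5 (hε4.trans (by norm_num)))
  obtain ⟨θ, hθ⟩ : ∃ θ : ℝ, θ = μ / (1000 * l') := ⟨_, rfl⟩
  have hθlow : Real.exp (1 - l) / (4000 * l) ≤ θ := by
    rw [hθ]
    exact gthl hl1 hl'0 hl'2 hμ0 hμ2
  obtain ⟨h4, h5, h6, h7⟩ := muX hr1 hl1 hX hμ2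
  have hb := muV hr1 hl1 hX hμ0 hμ2 hVX
  have hJJ : (Jᶜ)ᶜ = J := compl_compl J
  refine hRPB n r w Z hZ U f M hFam hrig hrect hM1 V
    Jᶜ μ ε θ (1 / (2000 * l) * μ) δ l' hμ0 hμ1 hε0 hε4 hl' (geta hl'2 he2 hη0) hθ
    (gxi hl'0 hl'2 hμ0) ?_ ?_ (hheavy.trans (mul_le_mul_of_nonneg_right hθlow (Nat.cast_nonneg _)))
    (g400 h5 h7 hb) (gth hr1 hl1 hεr hθlow h5 hb) (gex hl1 hθlow h6 hb)
    (gdn hr1 hl1 hX hμ0 hμ2 (by positivity) hY hδbig hV) hM hZ2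
    (hend.trans (mul_le_mul_of_nonneg_right hθlow (Nat.cast_nonneg _)))
  · rw [hJJ]
    have h1 : 1 / (2000 * l) * μ * V.card = 1 / (2000 * l) * PhiF Z hZ U V J := by
      rw [mul_assoc, hμV]
    rw [h1]
    exact hTC
  · rw [hJJ, hμV]
    exact le_rfl

/-- the scale `n0` -/
theorem scales {n g Q A : ℕ} (hn : 4 ^ (g + Q) ≤ n) (hA : A + 20 ≤ Q) : ∃ n0 : ℕ, n0 ≤ n ∧
    (2 : ℝ) ^ A ≤ n0 ∧ (1 / 2 ^ (g + Q) : ℝ) * n * 2 ^ A ≤ n0 ∧ (n0 : ℝ) ≤ (n : ℝ) / 2 ^ g / 4 := by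
  obtain ⟨hn0a, hn0b⟩ := n0_low hn (by omega)
  refine ⟨n / 2 ^ (g + 2), Nat.div_le_self _ _, ?_, ?_, n0_up g n⟩
  · have h1 : 2 ^ A ≤ n / 2 ^ (g + 2) :=
      le_trans (Nat.pow_le_pow_right (by norm_num) (by omega)) hn0a
    exact_mod_cast h1
  · refine le_trans ?_ hn0b
    have h1 : (1 / 2 ^ (g + Q) : ℝ) * n = (n : ℝ) / 2 ^ (g + Q) := by ring
    rw [h1, div_mul_eq_mul_div, div_le_div_iff₀ (by positivity) (by positivity),
      mul_assoc, ← pow_add]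
    apply mul_le_mul_of_nonneg_left _ (Nat.cast_nonneg _)
    exact pow_le_pow_right₀ (by norm_num) (by omega)

/-- the bad words -/
theorem endbad {n n0 g Q k B1 : ℕ} {l M b Zc : ℝ} {V : ℕ} (hn : 4 ^ (g + Q) ≤ n)
    (hQ2 : 2 ^ 24 * (k + 1) ^ B1 ≤ Q) (hl1 : 1 ≤ l) (hlP : l ≤ (k + 1 : ℝ) ^ B1) (hVn : V ≤ n0)
    (hn0c : (n0 : ℝ) ≤ (n : ℝ) / 2 ^ g / 4) (hM0 : 0 ≤ M)
    (hM : M ≤ Real.exp ((n : ℝ) / 2 ^ (g + Q))) (hb0 : 0 ≤ b) (hZc : 0 ≤ Zc)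
    (hcon : Real.exp ((n : ℝ) / 2 ^ g) * b ≤ Real.exp ((n : ℝ) / 2 ^ (g + Q)) * Zc) :
    (4 * M ^ 2 * 4 ^ V + n + 1) * b ≤ Real.exp (1 - l) / (4000 * l) * Zc := by
  have h1 : (V : ℝ) ≤ (n : ℝ) / 2 ^ g / 4 := by
    refine le_trans ?_ hn0c
    exact_mod_cast hVn
  have h2 : (4 : ℝ) ^ V = Real.exp ((V : ℝ) * Real.log 4) := by
    rw [Real.exp_nat_mul, Real.exp_log (by norm_num)]
  have h3 : (2 : ℝ) ^ 24 * ((k + 1 : ℝ) ^ B1) ≤ Q := by exact_mod_cast hQ2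
  have h4 : 2 ^ 24 ≤ Q := by
    refine le_trans ?_ hQ2
    exact Nat.le_mul_of_pos_right _ (Nat.one_le_pow _ _ (by omega))
  exact final n g Q (4 ^ V) V M b Zc ((k + 1 : ℝ) ^ B1) l hn h4 h3 hl1 hlP h1
    hM0 hM hb0 hZc h2 hcon

/-- the middle of the proof -/
theorem midq (hCHAIN : S_CHAIN) (hAVO : S_AVO) (hAVX : S_AVX) (hAVB : S_AVB) (hRE2 : S_RE2)
    (hST2 : S_ST2) (hSEL : S_SEL) (hRPB : S_RPB) {n n0 r w k m0 g Q B1 K L A : ℕ} {l : ℝ}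
    (Z : Finset (Fin n → Bool)) (U : Fin r → (Fin n → Bool) → Finset (Fin n))
    (f : (Fin n → Bool) → Bool) (M : ℕ) (hFam : Fam n r w Z U) (hrw : r * w ≤ k * n)
    (hrig : Rigid f) (hrect : RectFree f M) (hM1 : 1 ≤ M) (hk : 1 ≤ k) (hm0 : 0 < m0)
    (hm0r : m0 < r) (hl1 : 1 ≤ l) (hlP : l ≤ (k + 1 : ℝ) ^ B1)
    (he1 : 4 * (k * m0 / r : ℝ) ≤ 1 / 20000) (he2 : 20000 * l * eta (4 * (k * m0 / r)) ≤ 1)
    (hnum : ∀ b : ℕ → ℝ, 2 / 5 ≤ b 0 → (∀ i < r - m0, Real.exp (1 - l) ≤ b i → ∀ c0 : ℕ,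
      b i - 12 / ((r : ℝ) - i) * ((c0 + 1) * b i + k * (((r : ℝ) - i) / r) ^ c0) -
        Real.exp (1 - l) / (10 * r) ≤ b (i + 1)) → Real.exp (1 - l) ≤ b (r - m0))
    (hK : 16000 * r * l ^ 3 ≤ K) (hL : (80 * r + 16000 * l) * Real.exp l ≤ L) (hL2 : 2 ≤ L)
    (hbig : (L : ℝ) ^ (r * K) * (3200 * (16000 * (r : ℝ) ^ 2 * l * Real.exp (2 * l))) ≤ 2 ^ A)
    (hn : 4 ^ (g + Q) ≤ n) (hQ2 : 2 ^ 24 * (k + 1) ^ B1 ≤ Q) (hn0n : n0 ≤ n)
    (hnE : (2 : ℝ) ^ A ≤ n0) (hδE : (1 / 2 ^ (g + Q) : ℝ) * n * 2 ^ A ≤ n0)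
    (hn0c : (n0 : ℝ) ≤ (n : ℝ) / 2 ^ g / 4) (hM : (M : ℝ) ≤ Real.exp ((n : ℝ) / 2 ^ (g + Q)))
    (hZ2 : (2 : ℝ) ^ n ≤ Real.exp ((n : ℝ) / 2 ^ (g + Q)) * Z.card) :
    (2 : ℝ) ^ n ≤ Real.exp ((n : ℝ) / 2 ^ g) * (bad Z f).card := by
  by_contra hcon
  have hcon2 : Real.exp ((n : ℝ) / 2 ^ g) * (bad Z f).card ≤
      Real.exp ((n : ℝ) / 2 ^ (g + Q)) * Z.card := (not_le.1 hcon).le.trans hZ2
  obtain ⟨δ, hδ⟩ : ∃ δ : ℝ, δ = 1 / 2 ^ (g + Q) := ⟨_, rfl⟩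
  have hδ0 : 0 < δ := by rw [hδ]; positivity
  have hδn : (n : ℝ) / 2 ^ (g + Q) = δ * n := by rw [hδ]; ring
  have hM' := hM
  rw [hδn] at hM hZ2
  rw [← hδ] at hδE
  have hZ : Z.Nonempty := by
    rw [Finset.nonempty_iff_ne_empty]
    intro h
    rw [h, Finset.card_empty, Nat.cast_zero, mul_zero] at hZ2
    exact absurd hZ2 (not_le.2 (pow_pos two_pos _))
  have hLpos : (0 : ℝ) < L := by
    have : 0 < L := by omega
    exact_mod_cast this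
  obtain ⟨X, hX⟩ : ∃ X : ℝ, X = 16000 * (r : ℝ) ^ 2 * l * Real.exp (2 * l) := ⟨_, rfl⟩
  rw [← hX] at hbig
  have hLS : (0 : ℝ) < (L : ℝ) ^ (r * K) := pow_pos hLpos _
  have hδn0 : 0 ≤ δ * n := mul_nonneg hδ0.le (Nat.cast_nonneg _)
  have hδbig : δ * n * ((L : ℝ) ^ (r * K) * (3200 * X)) ≤ n0 :=
    (mul_le_mul_of_nonneg_left hbig hδn0).trans hδE
  have hbn := hbig.trans hnE
  obtain ⟨V, J, hV, hVn, hJ, hΦ, hTC, hheavy⟩ := chooseVJ hCHAIN hAVO hAVX hAVB hRE2 hST2 hSEL Z hZ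
    U hFam hrw hk hm0 hm0r hl1 hK hL hL2 hnum hn0n (by rw [← hX]; exact hbn)
    (by rw [← hX]; exact hδbig) hδ0.le hZ2
  have hVX : 1600 * X ≤ V.card := by
    refine le_trans ?_ hV
    rw [le_div_iff₀ (mul_pos two_pos hLS)]
    refine le_trans (le_of_eq ?_) hbn
    ring
  exact endq hRPB Z hZ U f M hFam hrig hrect hM1 hk hm0 hm0r hl1 he1 he2 hX hδ0 hLS hδbig V J
    hV hVX hΦ hTC hheavy hM hZ2
    (endbad hn hQ2 hl1 hlP hVn hn0c (Nat.cast_nonneg _) hM' (Nat.cast_nonneg _)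
      (Nat.cast_nonneg _) hcon2)

end MRCQ

open MCOREQ MRCQ in
theorem t_RCQ (hNUMQ : S_NUMQ) (hCHAIN : S_CHAIN) (hAVO : S_AVO) (hAVX : S_AVX) (hAVB : S_AVB)
    (hRE2 : S_RE2) (hST2 : S_ST2) (hSEL : S_SEL) (hRPB : S_RPB) : S_RCQ := by
  obtain ⟨B1, hB1⟩ := hNUMQ
  refine ⟨24 + 6 * B1, ?_⟩
  intro k hk
  obtain ⟨r, m0, l, hm0, hm0r, hl1, hrP, hlP, he1, he2, hnum⟩ := hB1 k hk
  have hr0 : 1 ≤ r := by omega
  refine ⟨r, hr0, ?_, ?_⟩
  · have h1 : (r : ℝ) ≤ ((k + 1) ^ (24 + 6 * B1) : ℕ) := by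
      refine hrP.trans ?_
      push_cast
      exact pow_le_pow_right₀ (le_add_of_nonneg_left (Nat.cast_nonneg _)) (by omega)
    exact_mod_cast h1
  obtain ⟨hQ1, hQ2⟩ := Q_low k B1 hk
  intro g n hn w Z U f M hFam hrw hrig hrect hM1 hM hZ2
  obtain ⟨K, L, hK, hL, hL2, hKL⟩ := numsQ hr0 hrP hlP hl1
  obtain ⟨n0, hn0n, hnE, hδE, hn0c⟩ := scales hn hQ1
  exact midq hCHAIN hAVO hAVX hAVB hRE2 hST2 hSEL hRPB Z U f M hFam hrw hrig hrect hM1 hk hm0 hm0r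
    hl1 hlP he1 he2 hnum hK hL hL2 (hKL.trans (expB k B1 hk)) hn hQ2 hn0n hnE hδE hn0c hM hZ2

end Pool.Agent.TKB
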