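import Pool.Agent.TKB.St3
import Pool.Agent.TKN.Q_REDR

/-!
# Project TKB: fixing variables, for `q` programs (module REDB, helper62)
-/

set_option autoImplicit false

open Finset

namespace Pool.Agent.TKB

open Pool.Agent.TKN
open Pool.Agent.Lib_helper20.SRO (RectFree Rigid Agrees)
open Pool.Agent.CFT (Der FP)
open Pool.Agent.TKN.ONE (put MRED.fixG MRED.accepts_fix MRED.block_fix MREDR.time_fixR)

namespace MREDB

/-- a fork program for every easy property -/
theorem fork_of_easy {N s T : ℕ} {z : ℝ} (hz : 1 ≤ z) {A : (Fin N → Bool) → Prop}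
    (h : Easy N s T z A) : ∃ (Q : Type) (_ : Fintype Q) (G : CFT.FP (Fin N) Q), G.Block s ∧
      TimeFR G s T ∧ (∀ b, G.Accepts b ↔ A b) ∧ (Fintype.card Q : ℝ) ≤ 2 ^ (4 * z) := by
  have h5 : (2 : ℝ) ≤ (2 : ℝ) ^ z := by
    calc (2 : ℝ) = (2 : ℝ) ^ (1 : ℝ) := (Real.rpow_one 2).symm
      _ ≤ (2 : ℝ) ^ z := Real.rpow_le_rpow_of_exponent_le (by norm_num) hz
  have h4 : (2 : ℝ) ^ (4 * z) = ((2 : ℝ) ^ z) ^ 4 := by
    rw [← Real.rpow_natCast, ← Real.rpow_mul (by norm_num), mul_comm]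
    norm_num
  rcases h with ⟨Γ, Q, _, G, hB, hT, hA, hc⟩ | ⟨Q, hQ, G, hB, hT, hA, hc⟩
  · refine ⟨Q ⊕ (Q × Q), inferInstance, STK.ONE.toFP G, STK.ONE.block hB, ?_, ?_, ?_⟩
    · intro b hb
      obtain ⟨l, hl, hbl, hlen⟩ := hT b ((STK.ONE.accepts_iff G b).1 hb)
      exact ⟨l, (STK.ONE.full_iff G l).1 hl, hbl, hlen⟩
    · intro b
      rw [STK.ONE.accepts_iff]
      exact hA b
    · rw [STK.ONE.card_node, h4]
      push_cast
      generalize (2 : ℝ) ^ z = x at *
      have hq0 : (0 : ℝ) ≤ Fintype.card Q := Nat.cast_nonneg _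
      generalize (Fintype.card Q : ℝ) = y at *
      have h6 : y ^ 2 ≤ x ^ 2 := pow_le_pow_left₀ hq0 hc.le 2
      have h7 : x + x ^ 2 ≤ x ^ 4 := by
        have : x ^ 4 = x ^ 2 * x ^ 2 := by ring
        nlinarith [sq_nonneg x, mul_self_nonneg (x - 2)]
      linarith
  · refine ⟨Q, hQ, G, hB, hT, hA, ?_⟩
    refine hc.le.trans (Real.rpow_le_rpow_of_exponent_le (by norm_num) (by linarith))

end MREDB

theorem t_REDB : S_REDB := by
  intro q k0 n σ c hCB P W _ _ ρ m s L N T z w g F ι a hι hqs hR hRF hm1 hm hL hcard hbig hT hz h4z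
    hF A De hE hall
  choose Q hQ G hB hTi hA hc using fun i => MREDB.fork_of_easy hz (hE i)
  have h1 : (1 : ℝ) ≤ 2 ^ (4 * z) := Real.one_le_rpow (by norm_num) (by linarith)
  refine hCB P W ρ m s L Q (fun i => MRED.fixG (G i) ι a) w g De hqs
    (fun i => MRED.block_fix a (hB i)) hR hRF hm1 hm hL hcard ?_ hbig ?_ ?_
  · refine le_trans ?_ h4z
    push_cast
    have h2 : ∑ i, (Fintype.card (Q i) : ℝ) ≤ q * 2 ^ (4 * z) := by
      calc ∑ i, (Fintype.card (Q i) : ℝ) ≤ ∑ _i : Fin q, (2 : ℝ) ^ (4 * z) :=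
            Finset.sum_le_sum fun i _ => hc i
        _ = q * 2 ^ (4 * z) := by rw [Finset.sum_const, Finset.card_univ, Fintype.card_fin,
            nsmul_eq_mul]
    have hq0 : (0 : ℝ) ≤ q := Nat.cast_nonneg _
    nlinarith
  · intro i y hy
    exact MREDR.time_fixR hι a (hTi i) hT _ hy
  · intro y
    rw [← hF y, hall]
    have h2 : (fun i => A i (put ι a (Sum.elim w y))) =
        fun i => (MRED.fixG (G i) ι a).Accepts (Sum.elim w y) := by
      funext i
      apply propext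
      rw [MRED.accepts_fix hι a, hA]
    rw [h2]

end Pool.Agent.TKB
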