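import Pool.Agent.TKB.St1
import Pool.Agent.TKN.P_CORE

/-!
# TKB, module RPB (helper89): the end of the proof of the robust core

Port of `MCORE.partB` of `Pool/Agent/TKN/P_CORE.lean`.
-/

set_option autoImplicit false

open Finset
open scoped Classical

namespace Pool.Agent.TKB

open NCE TKN TKN.MCORE
open Pool.Agent.Lib_helper20.SRO (RectFree Rigid flipAt)

namespace MRPB

/-- The end of the proof, when the level and `S2` are chosen. `Y` is the expected size of the first
side, `Λ` the probability of the level. -/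
theorem final_num5 {m m2 : ℕ} {Y Λ b μ A l θ ξ T δn lM lD last : ℝ} (hμ : 0 < μ) (hμ1 : μ ≤ 1)
    (hl : l = 1 + Real.log (1 / μ)) (hm : 400 ≤ μ * m) (hb : μ * m / 4 ≤ b) (hbm : b ≤ m)
    (hA0 : 0 ≤ A) (hA : 10000 * l * A ≤ 1) (hm2 : (m2 : ℝ) ≤ 12 * (eta (b / m) * m) + 1)
    (hY : μ * m / (8 * l) ≤ Y) (hΛ0 : 0 ≤ Λ) (hΛ : Λ * (b / 2) ≤ Y)
    (hT : T ≤ ξ * m) (hξ : ξ ≤ μ / (1000 * l)) (hθ : θ = μ / (1000 * l))
    (hδ : δn ≤ μ * m / 400) (hlM : lM ≤ δn) (hlD : lD ≤ A * m2 + Real.log 2)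
    (hlast : last ≤ 5 * θ)
    (hfin : Real.log 2 * Y - T - Λ * lD ≤ Λ * lM + b * Real.log 2 * last) : False := by
  have hl1 : Real.log 2 < 0.6931471808 := Real.log_two_lt_d9
  have hl2 : 0.6931471803 < Real.log 2 := Real.log_two_gt_d9
  have hlog : 0 ≤ Real.log (1 / μ) := Real.log_nonneg (by rw [le_div_iff₀ hμ]; linarith)
  have hl0 : 1 ≤ l := by rw [hl]; linarith
  have hm0 : (0 : ℝ) < m := by
    by_contra h
    have : (m : ℝ) ≤ 0 := not_lt.1 h
    nlinarith
  have hb0 : 0 < b := by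
    have : 0 < μ * m / 4 := by positivity
    linarith
  have hY0 : 0 < Y := lt_of_lt_of_le (by positivity) hY
  -- m2 in terms of b
  have h1 : Real.log (1 / (b / m)) ≤ 1.4 + Real.log (1 / μ) := by
    have h2 : 1 / (b / m) ≤ 4 * (1 / μ) := by
      rw [one_div_div, div_le_iff₀ hb0]
      have : μ * m / 4 * (4 * (1 / μ)) = m := by field_simp
      have h3 : μ * m / 4 * (4 * (1 / μ)) ≤ b * (4 * (1 / μ)) :=
        mul_le_mul_of_nonneg_right hb (by positivity)
      linarith
    have h3 : Real.log (1 / (b / m)) ≤ Real.log (4 * (1 / μ)) :=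
      Real.log_le_log (by positivity) h2
    rw [Real.log_mul (by norm_num) (by positivity)] at h3
    have h4 : Real.log 4 = 2 * Real.log 2 := by
      rw [show (4 : ℝ) = 2 ^ 2 by norm_num, Real.log_pow]
      norm_num
    rw [h4] at h3
    linarith
  have h2 : eta (b / m) * m ≤ 2.4 * l * b := by
    unfold eta
    have e : b / m * (1 + Real.log (1 / (b / m))) * m = b * (1 + Real.log (1 / (b / m))) := by
      field_simp
    rw [e]
    have h3 : 1 + Real.log (1 / (b / m)) ≤ 2.4 * l := by rw [hl]; linarith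
    calc b * (1 + Real.log (1 / (b / m))) ≤ b * (2.4 * l) := mul_le_mul_of_nonneg_left h3 hb0.le
      _ = 2.4 * l * b := by ring
  have h3 : A * m2 ≤ 0.003 * b + 0.0001 := by
    have hA1 : A ≤ 0.0001 := by nlinarith
    calc A * m2 ≤ A * (12 * (2.4 * l * b) + 1) :=
          mul_le_mul_of_nonneg_left (by linarith) hA0
      _ = 28.8 * (l * A) * b + A := by ring
      _ ≤ 0.003 * b + 0.0001 := by
          have : l * A ≤ 0.0001 := by linarith
          nlinarith
  -- all terms in terms of Y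
  have hΛb : Λ * b ≤ 2 * Y := by linarith
  have hμb : Λ * (μ * m) ≤ 8 * Y := by
    have : Λ * (μ * m / 4) ≤ Λ * b := mul_le_mul_of_nonneg_left hb hΛ0
    linarith
  have hΛ1 : Λ ≤ 0.02 * Y := by
    have : Λ * 400 ≤ Λ * (μ * m) := mul_le_mul_of_nonneg_left hm hΛ0
    linarith
  have t1 : Λ * lD ≤ 0.03 * Y := by
    have : lD ≤ 0.003 * b + 1 := by linarith
    calc Λ * lD ≤ Λ * (0.003 * b + 1) := mul_le_mul_of_nonneg_left this hΛ0
      _ = 0.003 * (Λ * b) + Λ := by ring
      _ ≤ 0.03 * Y := by linarith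
  have t2 : Λ * lM ≤ 0.02 * Y := by
    calc Λ * lM ≤ Λ * (μ * m / 400) := mul_le_mul_of_nonneg_left (by linarith) hΛ0
      _ = (Λ * (μ * m)) / 400 := by ring
      _ ≤ 0.02 * Y := by linarith
  have hYl : μ * m / l ≤ 8 * Y := by
    have : μ * m / (8 * l) = μ * m / l / 8 := by
      field_simp
    rw [this] at hY
    linarith
  have t3 : T ≤ 0.008 * Y := by
    have : ξ * m ≤ μ / (1000 * l) * m := mul_le_mul_of_nonneg_right hξ hm0.le
    have e : μ / (1000 * l) * m = μ * m / l / 1000 := by field_simp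
    linarith
  have t4 : b * Real.log 2 * last ≤ 0.03 * Y := by
    have h4 : 0 ≤ b * Real.log 2 := by positivity
    calc b * Real.log 2 * last ≤ b * Real.log 2 * (5 * θ) := mul_le_mul_of_nonneg_left hlast h4
      _ ≤ (m * 0.7) * (5 * θ) := by
          have hθ0 : 0 ≤ 5 * θ := by rw [hθ]; positivity
          refine mul_le_mul_of_nonneg_right ?_ hθ0
          nlinarith
      _ = 3.5 * (μ * m / l) / 1000 := by rw [hθ]; field_simp; ring
      _ ≤ 0.03 * Y := by linarith
  nlinarith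

end MRPB

open MRPB in
theorem t_RPB (hDSX : S_DSX) (hCOV : S_RCOV) (hUPP : S_UPP) (hLOW : S_LOW) (hSUBS : S_SUBS)
    (hCTE : S_RCTE) (hRBB : S_RBB) (hLEV : TKN.S_LEV) (hSMP : S_SMP) : S_RPB := by
  intro n r w Z hZ U f M hFam hrig hrect hM1 V J1 μ ε θ ξ δ l hμ hμ1 hε0 hε hl hη hθ hξ hTC hO
    hheavy hm hm' hθe hδ hM hZ2 hbad
  have hlog : 0 ≤ Real.log (1 / μ) := Real.log_nonneg (by rw [le_div_iff₀ hμ]; linarith)
  have hl0 : 1 ≤ l := by rw [hl]; linarith
  have hθ0 : 0 < θ := by rw [hθ]; positivity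
  have hθ4 : 2 * θ ≤ μ / 4 := by
    have h1 : θ ≤ μ / 8 := by
      rw [hθ]
      apply div_le_div_of_nonneg_left hμ.le (by norm_num)
      linarith
    linarith
  have hm0 : (0 : ℝ) < V.card := by
    by_contra h
    have : (V.card : ℝ) ≤ 0 := not_lt.1 h
    nlinarith
  have hmV : (400 : ℝ) ≤ V.card := by nlinarith
  have hZc : (0 : ℝ) < Z.card := by exact_mod_cast Finset.card_pos.2 hZ
  obtain ⟨Ω', _, P', π, D, hD⟩ := hDSX n r Z hZ U V J1
  obtain ⟨hexc, hcov0⟩ := hCOV n r w Z hZ U f hFam hrig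
  have hcov := hcov0 V J1 Ω' P' π D hD
  have hM0 : (0 : ℝ) ≤ 4 * (M : ℝ) ^ 2 * 4 ^ V.card := by positivity
  have hb0' : (0 : ℝ) ≤ (bad Z f).card := Nat.cast_nonneg _
  have hn0' : (0 : ℝ) ≤ n := Nat.cast_nonneg _
  have hexcc : ((exc Z U f).card : ℝ) ≤ θ * Z.card := by
    have h1 : ((exc Z U f).card : ℝ) ≤ ((n : ℝ) + 1) * (bad Z f).card := by exact_mod_cast hexc
    refine h1.trans (le_trans ?_ hbad)
    refine mul_le_mul_of_nonneg_right ?_ hb0'
    linarith
  have hbadc : 4 * (M : ℝ) ^ 2 * 4 ^ V.card * (bad Z f).card ≤ θ * Z.card := by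
    refine le_trans ?_ hbad
    refine mul_le_mul_of_nonneg_right ?_ hb0'
    linarith
  have hXm : ∀ q, P'.p q ≠ 0 → 0 ≤ ((D q).card : ℝ) ∧ ((D q).card : ℝ) ≤ V.card := by
    intro q hq
    exact ⟨Nat.cast_nonneg _, by exact_mod_cast card_le_card (hD.sub q hq)⟩
  set E1 := (Z.filter fun z => 2 * ε * V.card < ((UJ U J1 z ∩ V).card : ℝ)) ∪ exc Z U f with hE1
  have hE1c : (E1.card : ℝ) ≤ (2 * θ) * Z.card := by
    have h1 : (E1.card : ℝ) ≤ (Z.filter fun z => 2 * ε * V.card <
        ((UJ U J1 z ∩ V).card : ℝ)).card + (exc Z U f).card := by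
      exact_mod_cast card_union_le _ _
    linarith
  have hbig : ex P' (fun q => if 2 * ε * V.card < ((D q).card : ℝ) then 1 else 0) ≤ 2 * θ := by
    refine le_trans (ex_mono P' _ (fun q => if (π q).1 ∈ E1 then 1 else 0) ?_)
      (law_le Z hZ P' π hD.law E1 (2 * θ) hE1c)
    intro q hq
    by_cases h : 2 * ε * V.card < ((D q).card : ℝ)
    · have h2 : (π q).1 ∈ E1 := by
        rw [hE1, mem_union]
        by_cases h3 : (π q).1 ∈ exc Z U f
        · exact Or.inr h3
        · left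
          rw [mem_filter]
          refine ⟨(π q).2, lt_of_lt_of_le h ?_⟩
          exact_mod_cast card_le_card ((hcov q hq).2 h3)
      rw [if_pos h, if_pos h2]
    · rw [if_neg h]
      split_ifs <;> norm_num
  obtain ⟨b, hb1, hb2, hb3⟩ := hLEV Ω' P' (fun q => ((D q).card : ℝ)) V.card μ ε (2 * θ) hm0 hμ hμ1 hε0
    (by linarith) hθ4 hXm (hO.trans hD.low) hbig
  have hb0 : 0 < b := lt_of_lt_of_le (by positivity) hb1
  set β : ℝ := b / V.card with hβ
  have hβ0 : 0 < β := div_pos hb0 hm0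
  have hβ2 : β ≤ 2 * ε := by
    rw [hβ, div_le_iff₀ hm0]
    exact hb2
  have hβm : β * V.card = b := by rw [hβ]; field_simp
  have hA1 : eta (4 * ε) ≤ 1 / 10000 := by
    have h0 : 0 ≤ eta (4 * ε) := le_trans (by linarith) (le_eta (by linarith : 0 < 4 * ε)
      (by linarith))
    nlinarith
  have hA0 : 0 ≤ eta (4 * ε) := le_trans (by linarith) (le_eta (by linarith : 0 < 4 * ε)
    (by linarith))
  have hηβ : eta β ≤ eta (4 * ε) := eta_mono hβ0 (by linarith) (by linarith)
  have hββ : β ≤ eta β := le_eta hβ0 (by linarith)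
  set m2 : ℕ := ⌈12 * (eta β * V.card)⌉₊ with hm2
  have hx0 : 0 ≤ 12 * (eta β * V.card) := by
    have : 0 ≤ eta β := by linarith
    positivity
  have hm2a : 12 * (eta β * V.card) ≤ m2 := Nat.le_ceil _
  have hm2b : (m2 : ℝ) ≤ 12 * (eta β * V.card) + 1 := (Nat.ceil_lt_add_one hx0).le
  have hm2V : m2 ≤ V.card := by
    have h1 : (m2 : ℝ) ≤ V.card := by
      refine hm2b.trans ?_
      have : eta β * V.card ≤ 1 / 10000 * V.card :=
        mul_le_mul_of_nonneg_right (by linarith) hm0.le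
      linarith
    exact_mod_cast h1
  have hm2c : 3 * μ * V.card ≤ m2 := by
    refine le_trans ?_ hm2a
    have : β * V.card ≤ eta β * V.card := mul_le_mul_of_nonneg_right hββ hm0.le
    rw [hβm] at this
    linarith
  have hm21 : 1 ≤ m2 := by
    have : (1 : ℝ) ≤ m2 := by linarith
    exact_mod_cast this
  -- the set `S2`
  obtain ⟨S2, hS2V, hS2c, hS2⟩ := choose_S2n hSMP V (Z \ E1) (fun z => UJ U J1 z) m2 (2 * ε)
    hm2V hm21 (by linarith) (by
      intro z hz
      rw [mem_sdiff] at hz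
      by_contra hcon
      rw [not_le] at hcon
      refine hz.2 ?_
      rw [hE1, mem_union]
      left
      rw [mem_filter]
      exact ⟨hz.1, hcon⟩)
  set E2 := (Z \ E1).filter fun z => 2 * (2 * ε) * m2 < ((UJ U J1 z ∩ S2).card : ℝ) with hE2
  have hE2c : (E2.card : ℝ) ≤ θ * Z.card := by
    refine hS2.trans ?_
    have h1 : ((Z \ E1).card : ℝ) ≤ Z.card := by exact_mod_cast card_le_card sdiff_subset
    have h2 : 1 ≤ θ * ((2 * ε) ^ 2 * m2) := by
      have h3 : 1 / (4 * ε ^ 2 * θ) ≤ m2 := hm'.trans hm2c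
      rw [div_le_iff₀ (by positivity)] at h3
      calc (1 : ℝ) ≤ m2 * (4 * ε ^ 2 * θ) := h3
        _ = θ * ((2 * ε) ^ 2 * m2) := by ring
    have h4 : (0 : ℝ) < (2 * ε) ^ 2 * m2 := by
      have : (0 : ℝ) < m2 := by exact_mod_cast hm21
      positivity
    rw [div_le_iff₀ h4]
    calc ((Z \ E1).card : ℝ) ≤ Z.card * 1 := by rw [mul_one]; exact h1
      _ ≤ Z.card * (θ * ((2 * ε) ^ 2 * m2)) := mul_le_mul_of_nonneg_left h2 hZc.le
      _ = θ * Z.card * ((2 * ε) ^ 2 * m2) := by ring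
  set E := E1 ∪ E2 with hE
  have hexcE : exc Z U f ⊆ E := by
    intro z hz
    rw [hE, hE1, mem_union, mem_union]
    exact Or.inl (Or.inr hz)
  have hEc : (E.card : ℝ) ≤ (3 * θ) * Z.card := by
    have h1 : (E.card : ℝ) ≤ E1.card + E2.card := by exact_mod_cast card_union_le _ _
    linarith
  have hEn : ∀ z ∈ Z, z ∉ E → ((UJ U J1 z ∩ S2).card : ℝ) ≤ (4 * ε) * S2.card := by
    intro z hz hzE
    rw [hE, mem_union, not_or] at hzE
    by_contra hcon
    rw [not_le] at hcon
    refine hzE.2 ?_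
    rw [hE2, mem_filter, mem_sdiff]
    refine ⟨⟨hz, hzE.1⟩, ?_⟩
    rw [hS2c] at hcon
    linarith
  -- the count
  have hcte := hCTE n r w Z hZ U M hFam V J1 Ω' P' π D hD b (4 * ε) β E S2
    (by linarith) (by linarith) hβ0 (by linarith) hβm.ge hEn
  have hrbb := hRBB n r w Z hZ U f M hFam hrig hrect hM1 V J1 Ω' P' π D hD b E S2 hexcE hS2V
  set EA := Z.filter fun z => z ∉ E ∧ ∃ q, P'.p q ≠ 0 ∧ (π q).1 = z ∧ Lev b (D q) ∧
      (vals P' (KK U J1 b E S2 π D) (fun q' => pat (T2 U J1 b E S2 π D q') (π q').1)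
        q).card < M with hEA
  set EB := Z.filter fun z => z ∉ E ∧ ∃ q, P'.p q ≠ 0 ∧ (π q).1 = z ∧ Lev b (D q) ∧
      M ≤ (vals P' (KK U J1 b E S2 π D) (fun q' => pat (S1 b D q') (π q').1) q).card ∧
      M ≤ (vals P' (KK U J1 b E S2 π D) (fun q' => pat (T2 U J1 b E S2 π D q') (π q').1)
        q).card with hEB
  rw [hS2c] at hcte
  have hEAc : (EA.card : ℝ) ≤ θ * Z.card :=
    hcte.trans (count_small hm2c hA1 hε hm2a hδ hμ hM hZ2 hθe)
  have hEBc : (EB.card : ℝ) ≤ θ * Z.card := by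
    refine le_trans ?_ hbadc
    exact_mod_cast hrbb
  have hupp := hUPP n r Z U J1 Ω' P' π D b E S2 M hM1 hb0.le
  have hlast : ex P' (fun q => if Lev b (D q) ∧
      M ≤ (vals P' (KK U J1 b E S2 π D) (fun q' => pat (S1 b D q') (π q').1) q).card
      then (1 : ℝ) else 0) ≤ 5 * θ := by
    have h1 := law_le Z hZ P' π hD.law E (3 * θ) hEc
    have h2 := law_le Z hZ P' π hD.law EA θ hEAc
    have h2' := law_le Z hZ P' π hD.law EB θ hEBc
    have h3 : ex P' (fun q => if Lev b (D q) ∧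
      M ≤ (vals P' (KK U J1 b E S2 π D) (fun q' => pat (S1 b D q') (π q').1) q).card
      then (1 : ℝ) else 0) ≤ ex P' (fun q => (if (π q).1 ∈ E then (1 : ℝ) else 0) +
        ((if (π q).1 ∈ EA then (1 : ℝ) else 0) + if (π q).1 ∈ EB then (1 : ℝ) else 0)) := by
      refine ex_mono P' _ _ fun q hq => ?_
      have n1 : (0 : ℝ) ≤ if (π q).1 ∈ E then (1 : ℝ) else 0 := by split_ifs <;> norm_num
      have n2 : (0 : ℝ) ≤ if (π q).1 ∈ EA then (1 : ℝ) else 0 := by split_ifs <;> norm_num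
      have n3 : (0 : ℝ) ≤ if (π q).1 ∈ EB then (1 : ℝ) else 0 := by split_ifs <;> norm_num
      by_cases h4 : Lev b (D q) ∧
        M ≤ (vals P' (KK U J1 b E S2 π D) (fun q' => pat (S1 b D q') (π q').1) q).card
      · rw [if_pos h4]
        by_cases h5 : (π q).1 ∈ E
        · rw [if_pos h5]
          linarith
        · by_cases h6 : M ≤ (vals P' (KK U J1 b E S2 π D)
              (fun q' => pat (T2 U J1 b E S2 π D q') (π q').1) q).card
          · have h7 : (π q).1 ∈ EB := by
              rw [hEB, mem_filter]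
              exact ⟨(π q).2, h5, q, hq, rfl, h4.1, h4.2, h6⟩
            rw [if_pos h7]
            linarith
          · have h7 : (π q).1 ∈ EA := by
              rw [hEA, mem_filter]
              exact ⟨(π q).2, h5, q, hq, rfl, h4.1, not_le.1 h6⟩
            rw [if_pos h7]
            linarith
      · rw [if_neg h4]
        linarith
    rw [ex_add, ex_add] at h3
    linarith
  -- the lower bound
  set DD : Finset (Finset (Fin n)) := insert ∅ ((S2.powerset.filter fun T =>
    (T.card : ℝ) ≤ (4 * ε) * S2.card).image fun T => S2 \ T) with hDD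
  have hlow := hLOW n r Z hZ U V J1 Ω' P' π D hD b E S2 DD (by
    intro q _ hq
    unfold T2
    split_ifs with h
    · rw [hDD, mem_insert]
      right
      rw [mem_image]
      refine ⟨UJ U J1 (π q).1 ∩ S2, ?_, ?_⟩
      · rw [mem_filter, mem_powerset]
        exact ⟨inter_subset_right, hEn _ (π q).2 h.2⟩
      · ext x
        simp only [mem_sdiff, mem_inter, not_and]
        constructor
        · rintro ⟨h1, h2⟩
          exact ⟨h1, fun h3 => h2 h3 h1⟩
        · rintro ⟨h1, h2⟩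
          exact ⟨h1, fun h3 => absurd h3 h2⟩
    · rw [hDD]
      exact mem_insert_self _ _)
  have hDDc : Real.log DD.card ≤ eta (4 * ε) * m2 + Real.log 2 := by
    have h1 := hSUBS (Fin n) S2 (4 * ε) (by linarith) (by linarith)
    rw [hS2c] at h1
    have h2 : (DD.card : ℝ) ≤ 2 * Real.exp (eta (4 * ε) * m2) := by
      have h3 : DD.card ≤ (S2.powerset.filter fun T =>
          (T.card : ℝ) ≤ (4 * ε) * S2.card).card + 1 := by
        rw [hDD]
        exact (card_insert_le _ _).trans (Nat.add_le_add_right card_image_le 1)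
      have h4 : (DD.card : ℝ) ≤ ((S2.powerset.filter fun T =>
          (T.card : ℝ) ≤ (4 * ε) * S2.card).card : ℝ) + 1 := by exact_mod_cast h3
      rw [hS2c] at h4
      have h5 : 1 ≤ Real.exp (eta (4 * ε) * m2) := Real.one_le_exp (by positivity)
      linarith
    have h3 : (0 : ℝ) < DD.card := by
      have : 0 < DD.card := card_pos.2 ⟨∅, by rw [hDD]; exact mem_insert_self _ _⟩
      exact_mod_cast this
    calc Real.log DD.card ≤ Real.log (2 * Real.exp (eta (4 * ε) * m2)) := Real.log_le_log h3 h2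
      _ = eta (4 * ε) * m2 + Real.log 2 := by
          rw [Real.log_mul (by norm_num) (Real.exp_pos _).ne', Real.log_exp]
          ring
  have hscale : ∀ c : ℝ, ex P' (fun q => if Lev b (D q) then c else 0) =
      ex P' (fun q => if Lev b (D q) then 1 else 0) * c := by
    intro c
    rw [mul_comm, ← ex_mul]
    congr 1
    funext q
    split_ifs <;> simp
  set Lam : ℝ := ex P' (fun q => if Lev b (D q) then 1 else 0) with hLam
  rw [hscale] at hlow hupp
  have hLam0 : 0 ≤ Lam := ex_nonneg P' _ fun q => by split_ifs <;> norm_num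
  have hYΛ : Lam * (b / 2) ≤ ex P' (fun q => ((S1 b D q).card : ℝ)) := by
    rw [hLam, mul_comm, ← ex_mul]
    refine ex_mono P' _ _ fun q _ => ?_
    rw [S1_card]
    by_cases h : b / 2 < ((D q).card : ℝ) ∧ ((D q).card : ℝ) ≤ b
    · rw [if_pos (show Lev b (D q) from h), if_pos h]
      linarith [h.1]
    · rw [if_neg (show ¬ Lev b (D q) from h), if_neg h]
      simp
  have hY : μ * V.card / (8 * l) ≤ ex P' (fun q => ((S1 b D q).card : ℝ)) := by
    rw [hl]
    refine hb3.trans (le_of_eq ?_)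
    congr 1
    funext q
    rw [S1_card]
  have hlM : Real.log M ≤ δ * n := by
    have h1 : (0 : ℝ) < M := by exact_mod_cast hM1
    calc Real.log M ≤ Real.log (Real.exp (δ * n)) := Real.log_le_log h1 hM
      _ = δ * n := Real.log_exp _
  refine final_num5 (m := V.card) (m2 := m2) (b := b) (A := eta (4 * ε)) hμ hμ1 hl hm hb1 ?_ hA0 hη
    hm2b hY hLam0 hYΛ hTC hξ hθ hδ hlM hDDc hlast ?_
  · have : 2 * ε * V.card ≤ 1 * V.card := mul_le_mul_of_nonneg_right (by linarith) hm0.le
    linarith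
  · linarith [hlow, hupp]

end Pool.Agent.TKB
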