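import Pool.Agent.TKB.St1
import Pool.Agent.TKN.P_RCT

/-!
# Project TKB: the rectangles are in the set, the sides are disjoint
-/

set_option autoImplicit false

open Finset
open scoped Classical

namespace Pool.Agent.TKB

open NCE TKN
open Pool.Agent.Lib_helper20.SRO (RectFree Rigid flipAt)

namespace RRCT

theorem rigid_false {n : ℕ} : Rigid (fun _ : Fin n → Bool => false) := by
  intro b x h
  exact absurd h Bool.false_ne_true

end RRCT

open TKN.MRCT in
theorem t_RRCT (hRCOV : S_RCOV) : S_RRCT := by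
  intro n r w Z hZ U hFam V J1 Ω' _ P' π D hD b E S2 q hq
  have hcov := (hRCOV n r w Z hZ U (fun _ => false) hFam RRCT.rigid_false).2 V J1 Ω' P' π D hD
  refine ⟨?_, ?_⟩
  · intro q1 q2 hq1 hq2 hK1 hK2
    set D1 := S1 b D q with hD1
    set D2 := T2 U J1 b E S2 π D q with hD2
    have hC1 : ∀ q', KK U J1 b E S2 π D q' = KK U J1 b E S2 π D q → S1 b D q' = D1 :=
      fun q' h => congrArg (fun t => t.1) h
    have hC2 : ∀ q', KK U J1 b E S2 π D q' = KK U J1 b E S2 π D q →
        T2 U J1 b E S2 π D q' = D2 := fun q' h => congrArg (fun t => t.2.1) h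
    have hC3 : ∀ q', KK U J1 b E S2 π D q' = KK U J1 b E S2 π D q →
        off (D1 ∪ D2) (π q').1 = off (D1 ∪ D2) (π q).1 := by
      intro q' h
      have h3 : off (S1 b D q' ∪ T2 U J1 b E S2 π D q') (π q').1 =
          off (S1 b D q ∪ T2 U J1 b E S2 π D q) (π q).1 := congrArg (fun t => t.2.2) h
      rw [hC1 q' h, hC2 q' h] at h3
      exact h3
    refine hFam.mix _ fun j => ?_
    by_cases hj : j ∈ J1
    · refine ⟨(π q1).1, (π q1).2, fun x hx => ?_⟩
      show (if x ∈ D1 then (π q1).1 x else (π q2).1 x) = (π q1).1 x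
      by_cases hx1 : x ∈ D1
      · rw [if_pos hx1]
      · rw [if_neg hx1]
        have hx2 : x ∉ D2 := by
          rw [← hC2 q1 hK1]
          exact T2_notin U J1 b E S2 π D q1 x (Finset.mem_biUnion.2 ⟨j, hj, hx⟩)
        refine off_eq (V := D1 ∪ D2) ((hC3 q2 hK2).trans (hC3 q1 hK1).symm) ?_
        rw [Finset.mem_union]
        exact fun h => h.elim hx1 hx2
    · refine ⟨(π q2).1, (π q2).2, fun x hx => ?_⟩
      show (if x ∈ D1 then (π q1).1 x else (π q2).1 x) = (π q2).1 x
      have hx1 : x ∉ D1 := by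
        rw [← hC1 q2 hK2]
        intro h
        exact Finset.disjoint_left.1 ((hcov q2 hq2).1 j hj) (S1_sub b D q2 h) hx
      rw [if_neg hx1]
  · intro f hf hE
    have hcf := (hRCOV n r w Z hZ U f hFam hf).2 V J1 Ω' P' π D hD
    refine Finset.disjoint_left.2 fun x hx1 hx2 => ?_
    have hnE : (π q).1 ∉ E := by
      intro hE'
      unfold T2 at hx2
      rw [if_neg fun h => h.2 hE'] at hx2
      exact absurd hx2 (Finset.notMem_empty _)
    have h1 := (hcf q hq).2 (fun h => hnE (hE h)) (S1_sub b D q hx1)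
    exact T2_notin U J1 b E S2 π D q x (Finset.mem_inter.1 h1).1 hx2

end Pool.Agent.TKB
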