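import Pool.Agent.TKB.St3
import Pool.Agent.TKN.O_SIZ

/-!
# Project TKB, module SIZB: the sizes
-/

set_option autoImplicit false

open Finset

namespace Pool.Agent.TKB

open Pool.Agent.TKN
open Pool.Agent.URG (VarA VarX deg lg pols)
open Pool.Agent.TKN.ONE (cop)

theorem t_SIZB : S_SIZB := by
  intro mb M hOK hM
  have hM2 : 2 ≤ M := le_trans (by norm_num) hM
  have hl : 57 ≤ lg M := ONE.MSIZ.le_lg hM
  have hlM : lg M ≤ M := ONE.MSIZ.lg_le hM2
  have hpow : 2 ^ (lg M - 1) ≤ M := by
    unfold lg
    rw [Nat.add_sub_cancel]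
    exact Nat.pow_log_le_self 2 (by omega)
  refine ⟨?_, ?_, ?_⟩
  · unfold sizeB blkB
    omega
  · unfold blkB
    omega
  · intro e he1 he
    have h8 : 10 * e ≤ lg M := by
      unfold blkB at he
      omega
    obtain ⟨hm1, hm2⟩ := hOK e
    have hcop := ONE.MSIZ.cop_le e
    have hcop1 : 1 ≤ cop e := by
      unfold cop
      omega
    have hc : mb e * cop e ≤ 2 ^ (6 + 4 * e) := by
      have h1 : mb e ≤ 2 ^ e := hm2.trans (Nat.lt_two_pow_self)
      calc mb e * cop e ≤ 2 ^ e * 2 ^ (6 + 3 * e) := Nat.mul_le_mul h1 hcop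
        _ = 2 ^ (6 + 4 * e) := by
            rw [← pow_add]
            congr 1
            omega
    have hc1 : 1 ≤ mb e * cop e := Nat.mul_pos hm1 hcop1
    have hcc : cop e ≤ mb e * cop e := Nat.le_mul_of_pos_left _ hm1
    have hpt' : ptB mb M e = M / (mb e * cop e) := rfl
    have hcard : Fintype.card (BVB mb M e) =
        Fintype.card (VarX (ptB mb M e) e) + mb e * cop e * ptB mb M e := by
      have h2 : Fintype.card (Fin (mb e * cop e) × Fin (ptB mb M e)) =
          mb e * cop e * ptB mb M e := by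
        rw [Fintype.card_prod, Fintype.card_fin, Fintype.card_fin]
      rw [Fintype.card_sum, h2]
    rw [hcard]
    rw [hpt']
    generalize mb e * cop e = C at hc hc1 hcc
    have hpt : 2 ^ (lg M - 7 - 4 * e) ≤ M / C := by
      rw [Nat.le_div_iff_mul_le (by omega)]
      calc 2 ^ (lg M - 7 - 4 * e) * C ≤ 2 ^ (lg M - 7 - 4 * e) * 2 ^ (6 + 4 * e) :=
            Nat.mul_le_mul_left _ hc
        _ = 2 ^ (lg M - 1) := by
            rw [← pow_add]
            congr 1
            omega
        _ ≤ M := hpow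
    have hpt2 : 2 ≤ M / C := by
      refine le_trans ?_ hpt
      calc 2 = 2 ^ 1 := rfl
        _ ≤ 2 ^ (lg M - 7 - 4 * e) := Nat.pow_le_pow_right (by norm_num) (by omega)
    have hlg : 4 * e ≤ lg (M / C) := by
      have := ONE.MSIZ.le_lg hpt
      omega
    have hcM : C ≤ M := by
      refine hc.trans (le_trans (Nat.pow_le_pow_right (by norm_num) ?_) hpow)
      omega
    have hmul : C * (M / C) ≤ M := Nat.mul_div_le M C
    have hmul' : cop e * (M / C) ≤ C * (M / C) := Nat.mul_le_mul_right _ hcc
    have hX := ONE.MSIZ.card_X_le (e := e) hpt2 hlg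
    have hpols : pols (M / C) e ≤ M := by
      have h1 := ONE.MSIZ.pols_lg e hpt2
      have h2 : pols (M / C) e ≤ pols (M / C) e * lg (M / C) := by
        apply Nat.le_mul_of_pos_right
        unfold lg
        omega
      have h3 : (4 * (2 ^ e + 1) + 1) * (M / C) ≤ cop e * (M / C) := by
        apply Nat.mul_le_mul_right
        unfold cop
        have h4 : 1 ≤ 3 * (4 ^ e + 1) := Nat.succ_le_of_lt (by positivity)
        have h5 := Nat.mul_le_mul_right (4 * (2 ^ e + 1) + 1) h4
        rw [one_mul] at h5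
        exact h5.trans (Nat.le_succ _)
      exact (h2.trans h1).trans (h3.trans (hmul'.trans hmul))
    have hle : lg (M / C) ≤ lg M := by
      unfold lg
      exact Nat.add_le_add_right (Nat.log_mono_right (Nat.div_le_self _ _)) 1
    refine ⟨hpt2, hlg, hc1, hcM, hpols, ?_, ?_, ?_⟩
    · omega
    · unfold deg
      omega
    · have h1 : M < C * (M / C + 1) := Nat.lt_mul_div_succ M hc1
      have h2 : C * (M / C + 1) = C * (M / C) + C := by ring
      have h3 : C ≤ C * (M / C) := Nat.le_mul_of_pos_right _ (by omega)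
      rw [mul_comm (M / C)]
      omega

end Pool.Agent.TKB
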