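import Pool.Agent.TKB.St2

/-!
# Project TKB, module STP: one step of the chain
-/

set_option autoImplicit false

open Finset

namespace Pool.Agent.TKB

open Pool.Agent.TKN
open Pool.Agent.Lib_helper20.SRO (RectFree Rigid Agrees)
open Pool.Agent.CFT (Der)

namespace MSTP

open Classical in
theorem outP_cons {W P : Type} {n : ℕ} (p : P) (R : Finset (W ⊕ (P × Fin n)))
    (a : (W ⊕ (P × Fin n)) × Bool) (l : List ((W ⊕ (P × Fin n)) × Bool)) :
    OutP p R (a :: l) = (if a.1 ∉ R ∧ ∃ j, a.1 = Sum.inr (p, j) then 1 else 0) + OutP p R l := by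
  unfold OutP
  rw [List.filter_cons]
  by_cases h : a.1 ∉ R ∧ ∃ j, a.1 = Sum.inr (p, j)
  · rw [if_pos h, if_pos (decide_eq_true h), List.length_cons, add_comm]
  · rw [if_neg h, if_neg (by rw [decide_eq_true_eq]; exact h), zero_add]

open Classical in
theorem out_cons {V : Type} (R : Finset V) (a : V × Bool) (l : List (V × Bool)) :
    Out R (a :: l) = (if a.1 ∉ R then 1 else 0) + Out R l := by
  unfold Out
  rw [List.filter_cons]
  by_cases h : a.1 ∉ R
  · rw [if_pos h, if_pos (decide_eq_true h), List.length_cons, add_comm]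
  · rw [if_neg h, if_neg (by rw [decide_eq_true_eq]; exact h), zero_add]

open Classical in
theorem outP_sum {W P : Type} {n : ℕ} (Bl : Finset P) (R : Finset (W ⊕ (P × Fin n)))
    (l : List ((W ⊕ (P × Fin n)) × Bool)) : ∑ p ∈ Bl, OutP p R l ≤ Out R l := by
  induction l with
  | nil => simp [OutP, Out]
  | cons a l ih =>
    rw [Finset.sum_congr rfl fun p _ => outP_cons p R a l, Finset.sum_add_distrib, out_cons]
    refine add_le_add ?_ ih
    by_cases h : a.1 ∉ R
    · rw [if_pos h, ← Finset.card_filter]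
      refine Finset.card_le_one.2 fun p hp p' hp' => ?_
      obtain ⟨_, _, j, hj⟩ := Finset.mem_filter.1 hp
      obtain ⟨_, _, j', hj'⟩ := Finset.mem_filter.1 hp'
      rw [hj] at hj'
      exact (Prod.ext_iff.1 (Sum.inr_injective hj')).1
    · rw [if_neg h]
      refine le_of_eq (Finset.sum_eq_zero fun p _ => if_neg fun h' => h h'.1)

/-- some point of the block has few tests -/
theorem few {W P : Type} {q n : ℕ} (K k0 L : ℕ) (S : Finset (Fin q)) (Bl : Finset P)
    (R : Fin q → Finset (W ⊕ (P × Fin n))) (l : Fin q → List ((W ⊕ (P × Fin n)) × Bool))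
    (h : ∀ i ∈ S, Out (R i) (l i) ≤ k0 * (n * L)) (hqK : q * k0 ≤ K) (hBl : Bl.card = L)
    (hL : 1 ≤ L) : ∃ p ∈ Bl, ∑ i ∈ S, OutP p (R i) (l i) ≤ K * n := by
  by_contra hcon
  push Not at hcon
  have h1 : L * (K * n + 1) ≤ ∑ p ∈ Bl, ∑ i ∈ S, OutP p (R i) (l i) := by
    rw [← hBl, ← smul_eq_mul]
    exact Finset.card_nsmul_le_sum _ _ _ fun p hp => hcon p hp
  rw [Finset.sum_comm] at h1
  have h2 : ∑ i ∈ S, ∑ p ∈ Bl, OutP p (R i) (l i) ≤ S.card * (k0 * (n * L)) := by
    rw [← smul_eq_mul]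
    exact Finset.sum_le_card_nsmul _ _ _ fun i hi => (outP_sum Bl (R i) (l i)).trans (h i hi)
  have h3 : S.card ≤ q := by
    have := Finset.card_le_univ S
    rwa [Fintype.card_fin] at this
  have h4 : S.card * (k0 * (n * L)) ≤ K * (n * L) := by
    rw [← mul_assoc]
    exact Nat.mul_le_mul_right _ ((Nat.mul_le_mul_right _ h3).trans hqK)
  have h5 : L * (K * n + 1) = K * (n * L) + L := by ring
  omega

open Classical in
/-- the pigeonhole principle -/
theorem pigeon {P Y : Type} (Bl : Finset P) (T : Finset Y) (Q : P → Y → Prop) (L : ℕ)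
    (hBl : Bl.card = L) (hL : 1 ≤ L) (h : ∀ y ∈ T, ∃ p ∈ Bl, Q p y) :
    ∃ p ∈ Bl, ∃ T1 : Finset Y, (∀ y ∈ T1, y ∈ T ∧ Q p y) ∧ T.card ≤ L * T1.card := by
  by_contra hcon
  push Not at hcon
  have hne : Bl.Nonempty := by
    rw [← Finset.card_pos]
    omega
  have h1 : ∑ p ∈ Bl, L * (T.filter fun y => Q p y).card < ∑ _p ∈ Bl, T.card :=
    Finset.sum_lt_sum_of_nonempty hne fun p hp => hcon p hp _ fun y hy => Finset.mem_filter.1 hy
  rw [← Finset.mul_sum, Finset.sum_const, smul_eq_mul, hBl] at h1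
  have h2 : T ⊆ Bl.biUnion fun p => T.filter fun y => Q p y := by
    intro y hy
    obtain ⟨p, hp, hq⟩ := h y hy
    exact Finset.mem_biUnion.2 ⟨p, hp, Finset.mem_filter.2 ⟨hy, hq⟩⟩
  have h3 := (Finset.card_le_card h2).trans Finset.card_biUnion_le
  have h4 := Nat.mul_le_mul_left L h3
  omega

theorem card_filter_inst {α : Type} [Fintype α] (p q : α → Prop) (i1 : DecidablePred p)
    (i2 : DecidablePred q) (h : ∀ a, p a ↔ q a) :
    (@Finset.filter α p i1 univ).card = (@Finset.filter α q i2 univ).card :=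
  congrArg Finset.card (Finset.filter_congr fun a _ => h a)

end MSTP

open MSTP in
theorem t_STP (hHVY : S_HVY) (hFIB : S_FIB) : S_STP := by
  intro P W _ _ q n K k0 m s L σ c c' D N _ G w g S A Bl u T hLB hqK hqs hBlk hRig hRF hm hmc hN
    hT hBl hL hAB hCfg hD hcnt hgd
  choose! l hl using hT
  choose! R hR using fun i hi y hy => (hl i hi y hy).2.2
  obtain ⟨p, hp, T1, hT1, hpT⟩ :=
    pigeon Bl T (fun p y => ∑ i ∈ S, OutP p (R i y) (l i y) ≤ K * n) L hBl hL
      (fun y hy => few K k0 L S Bl (fun i => R i y) (fun i => l i y)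
        (fun i hi => (hR i hi y hy).2) hqK hBl hL)
  have hLr : (1 : ℝ) ≤ L := by exact_mod_cast hL
  have hLD : (0 : ℝ) < L * D := by positivity
  have h2n : (0 : ℝ) < 2 ^ n := by positivity
  have hcn : (0 : ℝ) < 2 ^ (c * n) := Real.rpow_pos_of_pos two_pos _
  have hgpos : 0 < gd g := by
    rcases Nat.eq_zero_or_pos (gd g) with h0 | h0
    · exfalso
      rw [h0, Nat.cast_zero, mul_zero] at hgd
      have : (0 : ℝ) < 2 * L * D * 2 ^ n := by positivity
      linarith
    · exact h0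
  have hcard : (gd g : ℝ) ^ (Fintype.card P - A.card) ≤ (L * D) * T1.card := by
    refine hcnt.trans ?_
    have h1 : (T.card : ℝ) ≤ L * T1.card := by exact_mod_cast hpT
    calc D * T.card ≤ D * (L * T1.card) := mul_le_mul_of_nonneg_left h1 hD.le
      _ = (L * D) * T1.card := by ring
  refine (hHVY P n g A u p T1
    (fun y => ∀ i ∈ S, (G i).Accepts (Sum.elim w y)) (L * D) (2 ^ (c' * n))
    (fun h => Finset.disjoint_left.1 hAB h hp) hgpos hLD (Real.rpow_pos_of_pos two_pos _)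
    (fun y hy => hCfg y (hT1 y hy).1) hcard ?_).elim fun v hv0 => ?_
  rotate_left 1
  · obtain ⟨hv, T', hT', hT'c⟩ := hv0
    refine ⟨p, hp, v, hv, T', hT', hT'c.trans (le_of_eq ?_)⟩
    ring
  · intro y hy
    obtain ⟨B0, hB0, hy0⟩ : ∃ B0 : Finset (Fin n → Bool), (∀ v ∈ B0, ins p v y ∈ T1) ∧
        (gd g : ℝ) ≤ 2 * (L * D) * B0.card :=
      ⟨_, fun v hv => (Finset.mem_filter.1 hv).2, hy⟩
    refine (hFIB P W q n K m s σ c c' N G w g S p y B0
      hLB hqs hBlk hRig hRF hm hmc hN ?_ ?_).trans (le_of_eq ?_)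
    · intro v hv
      obtain ⟨hv2, hv3⟩ := hT1 _ (hB0 v hv)
      refine ⟨fun i => l i (ins p v y), fun i => R i (ins p v y), fun i hi => ?_, hv3⟩
      exact ⟨(hl i hi _ hv2).1, (hl i hi _ hv2).2.1, (hR i hi _ hv2).1⟩
    · have h2 := mul_le_mul_of_nonneg_left hy0 hcn.le
      have h3 := hgd.trans h2
      refine le_of_mul_le_mul_left (a := 2 * (L * D)) ?_ (by positivity)
      calc (2 * (L * D)) * (2 : ℝ) ^ n = 2 * L * D * 2 ^ n := by ring
        _ ≤ _ := h3
        _ = _ := by ring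
    · exact congrArg (fun t : ℕ => (2 : ℝ) ^ (c' * n) * (t : ℝ))
        (card_filter_inst _ _ _ _ fun v => Iff.rfl)

end Pool.Agent.TKB
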