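import Pool.Agent.TKB.St3
import Pool.Agent.TKN.O_UPA

/-!
# Project TKB, module UPB: the function is in PP mode of one automaton
-/

set_option autoImplicit false

open Finset

namespace Pool.Agent.TKB

open Pool.Agent.TKN
open Pool.Agent.URG (VarA VarX deg lg pols)
open Pool.Agent.HPM.Fn (Coord)
open Pool.Agent.TKN.ONE (cop Aut)
open Pool.Agent.TKN.ONE.MUPA (exists_inj)

namespace MUPB

/-- the items are decided by small automata -/
lemma aut (hCLO : ONE.S_CLO) (hAUQ : TWO.S_AUQ) {mb : ℕ → ℕ} {M : ℕ}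
    (hd : ∀ e : ℕ, 1 ≤ e → e ≤ blkB M → deg (ptB mb M e) e ≤ 3 * lg M) (β : BasB mb M)
    (ly : LayB mb M) (ω : OmB mb M) :
    Aut (sizeB M) (Fin (2 ^ (9 * lg M + 1))) (PB β ly ω) := by
  obtain ⟨e, x⟩ := ω
  have h1 := hAUQ (ptB mb M (e.val + 1)) (e.val + 1) (mb (e.val + 1) * cop (e.val + 1)) (sizeB M)
    (β e) (fun w => datB (ly.pos e w))
    (fun a b h => ly.inj e (Fin.natAdd_injective _ _ h))
    (fun t i p => (Fin.natAdd_lt_natAdd_iff _).2 (ly.lt₁ e t i p))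
    (fun t q p => (Fin.natAdd_lt_natAdd_iff _).2 (ly.lt₂ e t q p)) x
  have h2 := hCLO.2.1 (sizeB M) (swB e) (fun b => b = true)
  have h3 := hCLO.2.2.1 (sizeB M) _ _ _ _ And h2 h1
  have hlg := Pool.Agent.URG.lg_pos (ptB mb M (e.val + 1))
  have hdeg := hd (e.val + 1) (by omega) (by have := e.isLt; omega)
  obtain ⟨j, hj⟩ := exists_inj (deg (ptB mb M (e.val + 1)) (e.val + 1)) (9 * lg M + 1)
    (by unfold deg; omega) (by omega)
  exact hCLO.2.2.2 (sizeB M) _ _ j _ hj h3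

lemma pnt_lt {A : Type} {L : ℕ} (x : (A × Fin L) ⊕ Fin L) : pnt x < L := by
  rcases x with ⟨a, l⟩ | l
  · exact l.isLt
  · exact l.isLt

lemma cop_pos (e : ℕ) : 0 < cop e := by
  unfold cop
  omega

lemma blo_le {mb : ℕ → ℕ} {M mh : ℕ} (hmb : ∀ e, 1 ≤ e → e ≤ blkB M → mb e ≤ mh + 1)
    (ω : OmB mb M) : blo ω ≤ mh := by
  obtain ⟨e, x⟩ := ω
  have h1 : pnt x / cop (e.val + 1) < mb (e.val + 1) := by
    rw [Nat.div_lt_iff_lt_mul (cop_pos _)]
    exact pnt_lt x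
  have h2 := hmb (e.val + 1) (by omega) (by have := e.isLt; omega)
  unfold blo
  simp only
  omega

lemma lg_le {M : ℕ} (hM : M ≠ 0) : lg M ≤ M := by
  unfold lg
  exact Nat.log_lt_self 2 hM

lemma lt_two_pow_lg (M : ℕ) : M < 2 ^ lg M := by
  unfold lg
  exact Nat.lt_pow_succ_log_self (by norm_num) M

lemma two_pow_lg {M : ℕ} (hM : M ≠ 0) : 2 ^ lg M ≤ 2 * M := by
  unfold lg
  rw [pow_succ, mul_comm]
  exact Nat.mul_le_mul_left 2 (Nat.pow_log_le_self 2 hM)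

lemma card_Om {mb : ℕ → ℕ} {M : ℕ} (hM : M ≠ 0) (hc : ∀ e : ℕ, 1 ≤ e → e ≤ blkB M →
    mb e * cop e ≤ M ∧ pols (ptB mb M e) e ≤ M) : Fintype.card (OmB mb M) ≤ M * (M * M + M) := by
  rw [Fintype.card_sigma]
  have h1 : ∀ e : Fin (blkB M), Fintype.card (ItB mb M (e.val + 1)) ≤ M * M + M := by
    intro e
    rw [Fintype.card_sum, Fintype.card_prod, Fintype.card_fin, Fintype.card_fin]
    obtain ⟨h2, h3⟩ := hc (e.val + 1) (by omega) (by have := e.isLt; omega)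
    exact Nat.add_le_add (Nat.mul_le_mul h3 h2) h2
  refine (Finset.sum_le_card_nsmul _ _ _ fun e _ => h1 e).trans ?_
  rw [Finset.card_univ, Fintype.card_fin, smul_eq_mul]
  refine Nat.mul_le_mul_right _ ?_
  have := lg_le hM
  unfold blkB
  omega

/-- the number of the coins for the items -/
lemma coins {M K : ℕ} (hM : M ≠ 0) (hK : K ≤ M * (M * M + M)) :
    Nat.log 2 K + 1 ≤ 3 * lg M + 1 := by
  have h1 : K < 2 ^ (3 * lg M + 1) := by
    have h2 := lt_two_pow_lg M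
    have h3 : M ≤ M * M := Nat.le_mul_self M
    have h4 : M * (M * M + M) ≤ 2 * M ^ 3 := by nlinarith
    have h5 : M ^ 3 < (2 ^ lg M) ^ 3 := Nat.pow_lt_pow_left h2 (by norm_num)
    have h6 : 2 ^ (3 * lg M + 1) = 2 * (2 ^ lg M) ^ 3 := by
      rw [pow_succ, mul_comm 3, pow_mul, mul_comm]
    omega
  have h7 : Nat.log 2 K < 3 * lg M + 1 := Nat.log_lt_of_lt_pow' (by omega) h1
  omega

/-- the number of the states -/
lemma states {M s a : ℕ} (hM : 2 ^ 56 ≤ M) (hs : 2 * M ≤ s) (ha : a ≤ 3 * lg M + 1) :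
    2 ^ a * (2 * (2 * 2 ^ (9 * lg M + 1))) ≤ s ^ 24 := by
  have hM1 : 1 ≤ M := le_trans (by norm_num) hM
  have hM0 : M ≠ 0 := by omega
  have h1 : 2 ^ a * (2 * (2 * 2 ^ (9 * lg M + 1))) ≤ 16 * (2 * M) ^ 12 := by
    calc 2 ^ a * (2 * (2 * 2 ^ (9 * lg M + 1)))
        ≤ 2 ^ (3 * lg M + 1) * (2 * (2 * 2 ^ (9 * lg M + 1))) :=
          Nat.mul_le_mul_right _ (Nat.pow_le_pow_right (by norm_num) ha)
      _ = 16 * (2 ^ lg M) ^ 12 := by
          rw [pow_succ, pow_succ, mul_comm 3, mul_comm 9, pow_mul, pow_mul]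
          ring
      _ ≤ 16 * (2 * M) ^ 12 := Nat.mul_le_mul_left _ (Nat.pow_le_pow_left (two_pow_lg hM0) 12)
  have h2 : 16 ≤ (2 * M) ^ 12 := by
    calc 16 ≤ 2 * M := by omega
      _ = (2 * M) ^ 1 := (pow_one _).symm
      _ ≤ (2 * M) ^ 12 := Nat.pow_le_pow_right (by omega) (by norm_num)
  calc 2 ^ a * (2 * (2 * 2 ^ (9 * lg M + 1))) ≤ 16 * (2 * M) ^ 12 := h1
    _ ≤ (2 * M) ^ 12 * (2 * M) ^ 12 := Nat.mul_le_mul_right _ h2
    _ = (2 * M) ^ 24 := by rw [← pow_add]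
    _ ≤ s ^ 24 := Nat.pow_le_pow_left hs 24

end MUPB

open MUPB in
/-- **UPB** -/
theorem t_UPB (hCLO : ONE.S_CLO) (hAUQ : TWO.S_AUQ) (hSIZ : S_SIZB) (hPAU : S_PAU)
    (hPCT : S_PCT) : S_UPB := by
  intro mb M mh hOK hM hmb β ly
  obtain ⟨⟨hs1, -⟩, -, hsz⟩ := hSIZ mb M hOK hM
  have hM0 : M ≠ 0 := by
    have : 1 ≤ M := le_trans (by norm_num) hM
    omega
  have hK := card_Om (mb := mb) hM0 fun e h4 h5 =>
    ⟨(hsz e h4 h5).2.2.2.1, (hsz e h4 h5).2.2.2.2.1⟩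
  obtain ⟨w1, hw1⟩ : ∃ w1 : ℕ, w1 = Nat.log 2 (Fintype.card (OmB mb M)) + 1 := ⟨_, rfl⟩
  have hw : w1 ≤ 3 * lg M + 1 := by
    rw [hw1]
    exact coins hM0 hK
  have hlt : Fintype.card (OmB mb M) < 2 ^ w1 := by
    rw [hw1]
    exact Nat.lt_pow_succ_log_self (by norm_num) _
  obtain ⟨em⟩ : Nonempty (OmB mb M ↪ (Fin w1 → Bool)) := by
    refine Function.Embedding.nonempty_of_card_le ?_
    rw [Fintype.card_fun, Fintype.card_bool, Fintype.card_fin]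
    exact hlt.le
  have hP : ∀ ω : OmB mb M, Aut (sizeB M) (Fin (2 ^ (9 * lg M + 1))) (PB β ly ω) := fun ω =>
    aut hCLO hAUQ (fun e h1 h2 => (hsz e h1 h2).2.2.2.2.2.2.1) β ly ω
  have hV : Nonempty (Fin (2 ^ (9 * lg M + 1))) := ⟨⟨0, by positivity⟩⟩
  obtain ⟨A, hA, hacc⟩ := hPAU w1 (mh * w1) (sizeB M) (Fin (2 ^ (9 * lg M + 1))) (OmB mb M) em
    (fun ω => (mh - blo ω) * w1) (fun ω => Even (blo ω)) (PB β ly) em.injective hP
  refine ⟨(Fin w1 → Bool) × Bool × Bool × Fin (2 ^ (9 * lg M + 1)), inferInstance,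
    w1 + mh * w1 + 1, ?_, ?_, A, hA, fun x => ?_⟩
  · rw [Fintype.card_prod, Fintype.card_prod, Fintype.card_prod, Fintype.card_fun,
      Fintype.card_bool, Fintype.card_fin, Fintype.card_fin]
    exact states hM hs1 hw
  · have h1 : w1 + mh * w1 = (mh + 1) * w1 := by ring
    rw [h1]
    exact Nat.add_le_add_right (Nat.mul_le_mul_left _ (by omega)) 1
  · rw [Nat.card_congr (Equiv.subtypeEquivRight fun r => hacc r x)]
    exact (hPCT w1 w1 mh (sizeB M) (OmB mb M) em blo (PB β ly) x em.injective hlt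
      (blo_le hmb)).symm

end Pool.Agent.TKB
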