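import Pool.Agent.TKN.TwoAll
import Pool.Agent.TKB.Cor
import Pool.Agent.TKB.RCOV
import Pool.Agent.TKB.RRCT
import Pool.Agent.TKB.RBX
import Pool.Agent.TKB.RBB
import Pool.Agent.TKB.RCTE
import Pool.Agent.TKB.RPB
import Pool.Agent.TKB.RCQ
import Pool.Agent.TKB.LBFQ
import Pool.Agent.TKB.LBQ
import Pool.Agent.TKB.ANDP
import Pool.Agent.TKB.HVY
import Pool.Agent.TKB.FIB
import Pool.Agent.TKB.STP
import Pool.Agent.TKB.CHB
import Pool.Agent.TKB.CBQ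
import Pool.Agent.TKB.SIZB
import Pool.Agent.TKB.LAYB
import Pool.Agent.TKB.REDB
import Pool.Agent.TKB.NUB
import Pool.Agent.TKB.PUTB
import Pool.Agent.TKB.LWB
import Pool.Agent.TKB.PAU
import Pool.Agent.TKB.OMC
import Pool.Agent.TKB.PCT
import Pool.Agent.TKB.UPB
import Pool.Agent.TKB.DTB

/-!
# Project TKB: the main theorem
-/

set_option autoImplicit false

namespace Pool.Agent.TKB

open Pool.Agent.TKN
open Pool.Agent.HPM (DecOs)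

theorem rcq : S_RCQ :=
  have hSBS : S_SBS := t_SBS t_DTS
  have hSBA : S_SBA := t_SBA t_DTS hSBS
  have hSMP : S_SMP := t_SMP t_HYP
  have hAVX : S_AVX := t_AVX t_DTS hSBS
  have hSTART : S_START := t_START t_DTS hSBA t_BIN t_HE2
  have hDSX : S_DSX := t_DSX (t_D1 t_DTS hSBS hSBA t_BIN t_NOI)
  have hRPB : S_RPB := t_RPB hDSX t_RCOV t_UPP (t_LOW t_DTS hSBS) t_SUBS (t_RCTE t_SUBS)
    (t_RBB (t_RRCT t_RCOV) t_RBX) t_LEV hSMP
  t_RCQ t_NUMQ t_CHAIN (t_AVO t_OM) hAVX (t_AVB (t_OX t_BIN t_HE3))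
    (t_RE2 (t_STEP t_DTS hz) t_CHO) (t_ST2 hSTART) (t_SEL hSMP hAVX) hRPB

theorem lbq : S_LBQ := t_LBQ (t_LBFQ t_FAM rcq) t_SUBS

theorem stp : S_STP := t_STP t_HVY (t_FIB t_ANDP)

theorem cbq : S_CBQ := t_CBQ lbq (t_CHB stp)

theorem gooq : TWO.S_GOOQ := TWO.t_GOOQ TWO.t_UNQ TWO.t_BKQ

theorem lwb : S_LWB := t_LWB cbq t_REDB (t_NUB t_SIZB) t_PUTB gooq

theorem layb : S_LAYB := t_LAYB t_SIZB

theorem upb : S_UPB := t_UPB ONE.t_CLO TWO.t_AUQ t_SIZB t_PAU (t_PCT t_OMC)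

theorem dtb : S_DTB := t_DTB ONE.t_CLO TWO.t_AUQ t_SIZB

/-- the sizes, the upper bound in PP mode with `O(log ^ 2)` coins, and the deterministic machine -/
theorem mainU : ∀ M : ℕ, 2 ^ 56 ≤ M → (2 * M ≤ sizeB M ∧ sizeB M ≤ 3 * M) ∧
    Nonempty (BasB mbU M) ∧ Nonempty (LayB mbU M) ∧ ∀ (β : BasB mbU M) (ly : LayB mbU M),
    (∃ (V : Type) (_ : Fintype V) (w : ℕ), Fintype.card V ≤ sizeB M ^ 24 ∧
      w ≤ Nat.log 2 (sizeB M) ^ 2 ∧ PPA (sizeB M) w V (FB β ly)) ∧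
    ∃ (V : Type) (_ : Fintype V) (T : ℕ) (σ : Fin T → Fin 1 → Fin (sizeB M)),
      Fintype.card V ≤ sizeB M ^ 24 ∧ T ≤ sizeB M ^ 24 ∧
      DecOs 1 (Fin (sizeB M)) V T σ (FB β ly) := by
  intro M hM
  obtain ⟨hs, -, -⟩ := t_SIZB mbU M okU hM
  obtain ⟨h1, h2⟩ := layb mbU M okU hM
  refine ⟨hs, h1, h2, fun β ly => ⟨?_, dtb mbU M okU hM β ly⟩⟩
  obtain ⟨V, hV, w, g1, g2, g3⟩ := upb mbU M (blkB M) okU hM
    (fun e _ he => (okU e).2.trans (Nat.succ_le_succ he)) β ly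
  refine ⟨V, hV, w, g1, g2.trans ?_, g3⟩
  have hx : 56 ≤ Nat.log 2 M := Nat.le_log_of_pow_le (by norm_num) hM
  have hN : Nat.log 2 M + 1 ≤ Nat.log 2 (sizeB M) := by
    apply Nat.le_log_of_pow_le (by norm_num)
    have h3 : 2 ^ Nat.log 2 M ≤ M := Nat.pow_log_le_self 2 (by
      have : 1 ≤ M := le_trans (by norm_num) hM
      omega)
    rw [pow_succ]
    omega
  have hb : blkB M * 10 ≤ Nat.log 2 M + 1 := by
    unfold blkB Pool.Agent.URG.lg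
    exact Nat.div_mul_le_self _ _
  have hl : Pool.Agent.URG.lg M = Nat.log 2 M + 1 := rfl
  rw [hl]
  refine le_trans ?_ (Nat.pow_le_pow_left hN 2)
  generalize Nat.log 2 M = x at *
  generalize blkB M = y at *
  nlinarith

end Pool.Agent.TKB
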