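import Pool.Agent.TKB.St2

/-!
# Project TKB: module CBQ, the numbers
-/

set_option autoImplicit false

open Finset

namespace Pool.Agent.TKB

namespace CBQx

theorem LB_mono {k : ℕ} {σ σ' c c' : ℝ} {n : ℕ} (h : σ ≤ σ') (hL : LB k σ' c c' n) :
    LB k σ c c' n := by
  intro N _ G f m s B0 h1
  exact hL N G f m s B0 (h1.trans (mul_le_mul_of_nonneg_right h (Nat.cast_nonneg n)))

/-- the constants -/
def gg (q Q j : ℕ) : ℕ := (q - j) * (Q + 2)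

theorem gg_succ (q Q j : ℕ) (h : j + 1 ≤ q) : gg q Q j = gg q Q (j + 1) + (Q + 2) := by
  unfold gg
  obtain ⟨r, rfl⟩ : ∃ r, q = j + 1 + r := ⟨q - (j + 1), by omega⟩
  have h1 : j + 1 + r - j = r + 1 := by omega
  have h2 : j + 1 + r - (j + 1) = r := by omega
  rw [h1, h2]
  ring

theorem gg_le (q Q j : ℕ) : gg q Q j + Q ≤ (q + 1) * (Q + 2) := by
  unfold gg
  have h1 : (q - j) * (Q + 2) ≤ q * (Q + 2) := Nat.mul_le_mul_right _ (Nat.sub_le _ _)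
  have h2 : (q + 1) * (Q + 2) = q * (Q + 2) + (Q + 2) := by ring
  omega

theorem X_le (Y q Q B1 : ℕ) (hY : 2 ≤ Y) (hq : q + 1 ≤ Y) (hQ : Q ≤ Y ^ B1) :
    (q + 1) * (Q + 2) ≤ Y ^ (B1 + 3) := by
  have h1 : 1 ≤ Y ^ B1 := Nat.one_le_pow _ _ (by omega)
  have h2 : Q + 2 ≤ 3 * Y ^ B1 := by omega
  have h3 : 3 * Y ^ B1 ≤ Y ^ 2 * Y ^ B1 := Nat.mul_le_mul_right _ (by nlinarith)
  calc (q + 1) * (Q + 2) ≤ Y * (Y ^ 2 * Y ^ B1) := Nat.mul_le_mul hq (h2.trans h3)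
    _ = Y ^ (B1 + 3) := by ring

theorem inv_pow_le {b : ℝ} (hb : 1 < b) {x y : ℕ} (h : x ≤ y) : 1 / b ^ y ≤ 1 / b ^ x :=
  one_div_le_one_div_of_le (pow_pos (by linarith) x) (pow_le_pow_right₀ hb.le h)

/-- the constants `D j` -/
noncomputable def DD (q L n : ℕ) (c' : ℕ → ℝ) : ℕ → ℝ
  | 0 => 2 ^ q
  | j + 1 => 2 ^ q * (2 * L * DD q L n c' j * 2 ^ (c' j * n))

theorem step_c (Q g : ℕ) : (1 : ℝ) / 2 ^ (g + (Q + 2) + Q) / 2 + 1 / 2 ^ (g + (Q + 2)) ≤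
    1 / 2 ^ (g + Q) / 2 := by
  have h1 : (1 : ℝ) / 2 ^ (g + (Q + 2) + Q) / 2 = (1 / 2 ^ g) * (1 / 2 ^ Q) * (1 / 2 ^ Q) / 8 := by
    rw [pow_add, pow_add, pow_add]
    field_simp
    norm_num
  have h2 : (1 : ℝ) / 2 ^ (g + (Q + 2)) = (1 / 2 ^ g) * (1 / 2 ^ Q) / 4 := by
    rw [pow_add, pow_add]
    field_simp
    norm_num
  have h3 : (1 : ℝ) / 2 ^ (g + Q) / 2 = (1 / 2 ^ g) * (1 / 2 ^ Q) / 2 := by
    rw [pow_add]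
    field_simp
  rw [h1, h2, h3]
  have h4 : (1 : ℝ) / 2 ^ Q ≤ 1 := by
    have := inv_pow_le (b := 2) (by norm_num) (Nat.zero_le Q)
    simpa using this
  have h5 : (0 : ℝ) < 1 / 2 ^ Q := by positivity
  have h6 : (0 : ℝ) < 1 / 2 ^ g := by positivity
  have h7 : (1 : ℝ) / 2 ^ g * (1 / 2 ^ Q) * (1 / 2 ^ Q) ≤ 1 / 2 ^ g * (1 / 2 ^ Q) :=
    mul_le_of_le_one_right (by positivity) h4
  linarith [mul_pos h6 h5]

theorem DD_le (q Q L n : ℕ) (hL : 1 ≤ L) (j : ℕ) (hj : j ≤ q) :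
    2 * L * DD q L n (fun j => 1 / 2 ^ gg q Q j) j ≤
      ((2 : ℝ) ^ (q + 1) * L) ^ (j + 1) * 2 ^ ((1 : ℝ) / 2 ^ (gg q Q j + Q) / 2 * n) := by
  have hL' : (1 : ℝ) ≤ L := by exact_mod_cast hL
  have hn : (0 : ℝ) ≤ n := Nat.cast_nonneg n
  induction j with
  | zero =>
    have h1 : (1 : ℝ) ≤ 2 ^ ((1 : ℝ) / 2 ^ (gg q Q 0 + Q) / 2 * n) :=
      Real.one_le_rpow (by norm_num) (by positivity)
    have h2 : 2 * (L : ℝ) * DD q L n (fun j => 1 / 2 ^ gg q Q j) 0 = 2 ^ (q + 1) * L := by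
      show 2 * (L : ℝ) * 2 ^ q = 2 ^ (q + 1) * L
      ring
    rw [h2, zero_add, pow_one]
    exact le_mul_of_one_le_right (by positivity) h1
  | succ j ih =>
    have ih' := ih (by omega)
    have h2 : 2 * (L : ℝ) * DD q L n (fun j => 1 / 2 ^ gg q Q j) (j + 1) =
        (2 ^ (q + 1) * L) * (2 * L * DD q L n (fun j => 1 / 2 ^ gg q Q j) j) *
          2 ^ ((1 : ℝ) / 2 ^ gg q Q j * n) := by
      show 2 * (L : ℝ) * (2 ^ q * (2 * L * DD q L n (fun j => 1 / 2 ^ gg q Q j) j *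
        2 ^ ((1 : ℝ) / 2 ^ gg q Q j * n))) = _
      ring
    rw [h2]
    have h3 : (1 : ℝ) / 2 ^ (gg q Q j + Q) / 2 * n + 1 / 2 ^ gg q Q j * n ≤
        1 / 2 ^ (gg q Q (j + 1) + Q) / 2 * n := by
      rw [← add_mul, gg_succ q Q j hj]
      exact mul_le_mul_of_nonneg_right (step_c Q (gg q Q (j + 1))) hn
    have h4 : (2 : ℝ) ^ ((1 : ℝ) / 2 ^ (gg q Q j + Q) / 2 * n) *
        2 ^ ((1 : ℝ) / 2 ^ gg q Q j * n) ≤ 2 ^ ((1 : ℝ) / 2 ^ (gg q Q (j + 1) + Q) / 2 * n) := by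
      rw [← Real.rpow_add (by norm_num)]
      exact Real.rpow_le_rpow_of_exponent_le (by norm_num) h3
    calc (2 ^ (q + 1) * (L : ℝ)) * (2 * L * DD q L n (fun j => 1 / 2 ^ gg q Q j) j) *
          2 ^ ((1 : ℝ) / 2 ^ gg q Q j * n)
        ≤ (2 ^ (q + 1) * (L : ℝ)) * (((2 : ℝ) ^ (q + 1) * L) ^ (j + 1) *
          2 ^ ((1 : ℝ) / 2 ^ (gg q Q j + Q) / 2 * n)) * 2 ^ ((1 : ℝ) / 2 ^ gg q Q j * n) := by
          gcongr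
      _ = ((2 : ℝ) ^ (q + 1) * L) ^ (j + 1 + 1) * (2 ^ ((1 : ℝ) / 2 ^ (gg q Q j + Q) / 2 * n) *
          2 ^ ((1 : ℝ) / 2 ^ gg q Q j * n)) := by ring
      _ ≤ _ := mul_le_mul_of_nonneg_left h4 (by positivity)

end CBQx

open CBQx

theorem t_CBQ (hLBQ : S_LBQ) (hCHB : S_CHB) : S_CBQ := by
  obtain ⟨B1, hB1⟩ := hLBQ
  refine ⟨B1 + 3, ?_⟩
  intro q k0 hk0 n hn
  obtain ⟨Y, hY⟩ : ∃ Y, Y = (k0 + 1) * (q + 1) := ⟨_, rfl⟩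
  rw [← hY] at hn ⊢
  obtain ⟨K, hK⟩ : ∃ K, K = q * k0 + 1 := ⟨_, rfl⟩
  obtain ⟨Q, hQ⟩ : ∃ Q, Q = (K + 1) ^ B1 := ⟨_, rfl⟩
  have hYe : Y = q * k0 + k0 + q + 1 := by rw [hY]; ring
  have hKY : K + 1 ≤ Y := by omega
  have hY2 : 2 ≤ Y := by omega
  have hqY : q + 1 ≤ Y := by
    have : 0 ≤ q * k0 := Nat.zero_le _
    omega
  have hQY : Q ≤ Y ^ B1 := by
    rw [hQ]
    exact Nat.pow_le_pow_left hKY B1
  have hX := X_le Y q Q B1 hY2 hqY hQY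
  have hgX : ∀ j, gg q Q j + Q ≤ Y ^ (B1 + 3) := fun j => (gg_le q Q j).trans hX
  have hn0 : (0 : ℝ) ≤ n := Nat.cast_nonneg n
  have hLB : ∀ j ≤ q, LB K (1 / 4 ^ (Y ^ (B1 + 3))) (1 / 2 ^ (gg q Q j + Q)) (1 / 2 ^ gg q Q j) n := by
    intro j _
    have h1 : 4 ^ (gg q Q j + (K + 1) ^ B1) ≤ n := by
      rw [← hQ]
      exact (Nat.pow_le_pow_right (by norm_num) (hgX j)).trans hn
    have h2 := hB1 K (by omega) (gg q Q j) n h1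
    rw [← hQ] at h2
    exact LB_mono (inv_pow_le (by norm_num) (hgX j)) h2
  have hc : ∀ j, (1 : ℝ) / 2 ^ (Y ^ (B1 + 3)) ≤ 1 / 2 ^ (gg q Q j + Q) := fun j =>
    inv_pow_le (by norm_num) (hgX j)
  intro P W _ _ ρ m s L N _ G w g De hs hBl hRig hRF hm hmc hL hcard hsum hbig htree hall
  have hpow : ∀ j, (2 : ℝ) ^ ((1 : ℝ) / 2 ^ (Y ^ (B1 + 3)) * n) ≤
      2 ^ ((1 : ℝ) / 2 ^ (gg q Q j + Q) * n) := fun j =>
    Real.rpow_le_rpow_of_exponent_le (by norm_num) (mul_le_mul_of_nonneg_right (hc j) hn0)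
  refine hCHB P W ρ q n K k0 m s L (1 / 4 ^ (Y ^ (B1 + 3))) (fun j => 1 / 2 ^ (gg q Q j + Q))
    (fun j => 1 / 2 ^ gg q Q j) (DD q L n fun j => 1 / 2 ^ gg q Q j) N G w g De hLB (by omega) hs
    hBl hRig hRF hm hL hcard (fun j _ => hmc.trans (hpow j)) (fun j _ => hsum.trans (hpow j)) rfl
    (fun j => rfl) ?_ htree hall
  intro j hj
  have hL' : (1 : ℝ) ≤ L := by exact_mod_cast hL
  have h1 := DD_le q Q L n hL j hj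
  have hA : (1 : ℝ) ≤ 2 ^ (q + 1) * L := by
    have : (1 : ℝ) ≤ 2 ^ (q + 1) := one_le_pow₀ (by norm_num)
    nlinarith
  have h2 : ((2 : ℝ) ^ (q + 1) * L) ^ (j + 1) ≤ ((2 : ℝ) ^ (q + 1) * L) ^ (q + 1) :=
    pow_le_pow_right₀ hA (by omega)
  have h3 : (1 : ℝ) / 2 ^ (Y ^ (B1 + 3)) * n / 2 + 1 / 2 ^ (gg q Q j + Q) / 2 * n ≤
      1 / 2 ^ (gg q Q j + Q) * n := by
    have := mul_le_mul_of_nonneg_right (hc j) hn0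
    linarith
  have h4 : (2 : ℝ) ^ ((1 : ℝ) / 2 ^ (Y ^ (B1 + 3)) * n / 2) *
      2 ^ ((1 : ℝ) / 2 ^ (gg q Q j + Q) / 2 * n) ≤ 2 ^ ((1 : ℝ) / 2 ^ (gg q Q j + Q) * n) := by
    rw [← Real.rpow_add (by norm_num)]
    exact Real.rpow_le_rpow_of_exponent_le (by norm_num) h3
  calc 2 * (L : ℝ) * DD q L n (fun j => 1 / 2 ^ gg q Q j) j * 2 ^ n
      ≤ ((2 : ℝ) ^ (q + 1) * L) ^ (j + 1) * 2 ^ ((1 : ℝ) / 2 ^ (gg q Q j + Q) / 2 * n) * 2 ^ n :=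
        mul_le_mul_of_nonneg_right h1 (by positivity)
    _ ≤ ((2 : ℝ) ^ (q + 1) * L) ^ (q + 1) * 2 ^ ((1 : ℝ) / 2 ^ (gg q Q j + Q) / 2 * n) * 2 ^ n := by
        gcongr
    _ = (((2 : ℝ) ^ (q + 1) * L) ^ (q + 1) * 2 ^ n) *
        2 ^ ((1 : ℝ) / 2 ^ (gg q Q j + Q) / 2 * n) := by ring
    _ ≤ (2 ^ ((1 : ℝ) / 2 ^ (Y ^ (B1 + 3)) * n / 2) * gd g) *
        2 ^ ((1 : ℝ) / 2 ^ (gg q Q j + Q) / 2 * n) :=
        mul_le_mul_of_nonneg_right hbig (by positivity)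
    _ = (2 ^ ((1 : ℝ) / 2 ^ (Y ^ (B1 + 3)) * n / 2) *
        2 ^ ((1 : ℝ) / 2 ^ (gg q Q j + Q) / 2 * n)) * gd g := by ring
    _ ≤ 2 ^ ((1 : ℝ) / 2 ^ (gg q Q j + Q) * n) * gd g :=
        mul_le_mul_of_nonneg_right h4 (Nat.cast_nonneg _)

end Pool.Agent.TKB
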