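import Pool.Agent.TKB.St4
import Pool.Agent.TKB.CBQ

/-!
# Project TKB: module CBRQ, the numbers for `q` blocks (port of CBQ of helper63, whose lemmas are used)
-/

set_option autoImplicit false

open Finset

namespace Pool.Agent.TKB

open CBQx

/-- **CBRQ.** -/
theorem t_CBRQ (hLBQ : S_LBQ) (hCHR : S_CHR) : S_CBRQ := by
  obtain ⟨B1, hB1⟩ := hLBQ
  refine ⟨B1 + 3, ?_⟩
  intro q k0 hq1 hk0 n hn
  obtain ⟨Y, hY⟩ : ∃ Y, Y = (k0 + 1) * (q + 1) := ⟨_, rfl⟩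
  rw [← hY] at hn ⊢
  obtain ⟨K, hK⟩ : ∃ K, K = q * k0 + 1 := ⟨_, rfl⟩
  obtain ⟨Q, hQ⟩ : ∃ Q, Q = (K + 1) ^ B1 := ⟨_, rfl⟩
  have hYe : Y = q * k0 + k0 + q + 1 := by rw [hY]; ring
  have hKY : K + 1 ≤ Y := by omega
  have hY2 : 2 ≤ Y := by omega
  have hqY : q + 1 ≤ Y := by
    have : 0 ≤ q * k0 := Nat.zero_le _
    omega
  have hQY : Q ≤ Y ^ B1 := by
    rw [hQ]
    exact Nat.pow_le_pow_left hKY B1
  have hX := X_le Y q Q B1 hY2 hqY hQY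
  have hgX : ∀ j, gg q Q j + Q ≤ Y ^ (B1 + 3) := fun j => (gg_le q Q j).trans hX
  have hn0 : (0 : ℝ) ≤ n := Nat.cast_nonneg n
  have hLB : ∀ j ≤ q, LB K (1 / 4 ^ (Y ^ (B1 + 3))) (1 / 2 ^ (gg q Q j + Q)) (1 / 2 ^ gg q Q j) n := by
    intro j _
    have h1 : 4 ^ (gg q Q j + (K + 1) ^ B1) ≤ n := by
      rw [← hQ]
      exact (Nat.pow_le_pow_right (by norm_num) (hgX j)).trans hn
    have h2 := hB1 K (by omega) (gg q Q j) n h1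
    rw [← hQ] at h2
    exact LB_mono (inv_pow_le (by norm_num) (hgX j)) h2
  have hc : ∀ j, (1 : ℝ) / 2 ^ (Y ^ (B1 + 3)) ≤ 1 / 2 ^ (gg q Q j + Q) := fun j =>
    inv_pow_le (by norm_num) (hgX j)
  intro P W _ _ ρ m s L N _ G w g De hDe hs hBl hRig hRF hm hmc hL hcard hsum hbig htree hall
  have hpow : ∀ j, (2 : ℝ) ^ ((1 : ℝ) / 2 ^ (Y ^ (B1 + 3)) * n) ≤
      2 ^ ((1 : ℝ) / 2 ^ (gg q Q j + Q) * n) := fun j =>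
    Real.rpow_le_rpow_of_exponent_le (by norm_num) (mul_le_mul_of_nonneg_right (hc j) hn0)
  refine hCHR P W ρ q n K k0 m s L (1 / 4 ^ (Y ^ (B1 + 3))) (fun j => 1 / 2 ^ (gg q Q j + Q))
    (fun j => 1 / 2 ^ gg q Q j) (DD q L n fun j => 1 / 2 ^ gg q Q j) N G w g De hq1 hDe
    (fun j hj => hLB j hj.le) (by omega) hs
    hBl hRig hRF hm hL hcard (fun j _ => hmc.trans (hpow j)) (fun j _ => hsum.trans (hpow j)) rfl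
    (fun j => rfl) ?_ htree hall
  intro j hj
  have hL' : (1 : ℝ) ≤ L := by exact_mod_cast hL
  have h1 := DD_le q Q L n hL j hj.le
  have hA : (1 : ℝ) ≤ 2 ^ (q + 1) * L := by
    have : (1 : ℝ) ≤ 2 ^ (q + 1) := one_le_pow₀ (by norm_num)
    nlinarith
  have h2 : ((2 : ℝ) ^ (q + 1) * L) ^ (j + 1) ≤ ((2 : ℝ) ^ (q + 1) * L) ^ (q + 1) :=
    pow_le_pow_right₀ hA (by omega)
  have h3 : (1 : ℝ) / 2 ^ (Y ^ (B1 + 3)) * n / 2 + 1 / 2 ^ (gg q Q j + Q) / 2 * n ≤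
      1 / 2 ^ (gg q Q j + Q) * n := by
    have := mul_le_mul_of_nonneg_right (hc j) hn0
    linarith
  have h4 : (2 : ℝ) ^ ((1 : ℝ) / 2 ^ (Y ^ (B1 + 3)) * n / 2) *
      2 ^ ((1 : ℝ) / 2 ^ (gg q Q j + Q) / 2 * n) ≤ 2 ^ ((1 : ℝ) / 2 ^ (gg q Q j + Q) * n) := by
    rw [← Real.rpow_add (by norm_num)]
    exact Real.rpow_le_rpow_of_exponent_le (by norm_num) h3
  calc 2 * (L : ℝ) * DD q L n (fun j => 1 / 2 ^ gg q Q j) j * 2 ^ n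
      ≤ ((2 : ℝ) ^ (q + 1) * L) ^ (j + 1) * 2 ^ ((1 : ℝ) / 2 ^ (gg q Q j + Q) / 2 * n) * 2 ^ n :=
        mul_le_mul_of_nonneg_right h1 (by positivity)
    _ ≤ ((2 : ℝ) ^ (q + 1) * L) ^ (q + 1) * 2 ^ ((1 : ℝ) / 2 ^ (gg q Q j + Q) / 2 * n) * 2 ^ n := by
        gcongr
    _ = (((2 : ℝ) ^ (q + 1) * L) ^ (q + 1) * 2 ^ n) *
        2 ^ ((1 : ℝ) / 2 ^ (gg q Q j + Q) / 2 * n) := by ring
    _ ≤ (2 ^ ((1 : ℝ) / 2 ^ (Y ^ (B1 + 3)) * n / 2) * gd g) *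
        2 ^ ((1 : ℝ) / 2 ^ (gg q Q j + Q) / 2 * n) :=
        mul_le_mul_of_nonneg_right hbig (by positivity)
    _ = (2 ^ ((1 : ℝ) / 2 ^ (Y ^ (B1 + 3)) * n / 2) *
        2 ^ ((1 : ℝ) / 2 ^ (gg q Q j + Q) / 2 * n)) * gd g := by ring
    _ ≤ 2 ^ ((1 : ℝ) / 2 ^ (gg q Q j + Q) * n) * gd g :=
        mul_le_mul_of_nonneg_right h4 (Nat.cast_nonneg _)

end Pool.Agent.TKB
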