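import Pool.Agent.TKB.St4
import Pool.Agent.TKB.CHB

/-!
# TKB_CHR: the chain of `q` steps
-/

set_option autoImplicit false

open Finset

namespace Pool.Agent.TKB

open Pool.Agent.TKN
open Pool.Agent.Lib_helper20.SRO (RectFree Rigid Agrees)
open Pool.Agent.CFT (Der)

open CHBx in
theorem t_CHR (hSTP : S_STP) : S_CHR := by
  intro P W _ _ ρ q n K k0 m s L σ c c' D N _ G w g De hq1 hDe hLB hq hs hBl hR hF hm hL hρ hmc hN
    hD0 hDS hDg hT hOm
  classical
  have hL' : (0 : ℝ) < L := by exact_mod_cast hL
  have hDpos : ∀ j, 0 < D j := by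
    intro j
    induction j with
    | zero => rw [hD0]; positivity
    | succ j ih => rw [hDS]; positivity
  have hgd : (0 : ℝ) < gd g := by
    have h1 := hDg 0 hq1
    have h2 : (0 : ℝ) < 2 * L * D 0 * 2 ^ n := by
      have := hDpos 0
      positivity
    have h3 : (0 : ℝ) < 2 ^ (c 0 * n) * gd g := lt_of_lt_of_le h2 h1
    have h4 : (0 : ℝ) < 2 ^ (c 0 * n) := by positivity
    exact (pos_iff_pos_of_mul_pos h3).1 h4
  have hne : ∀ (a : ℕ) (x : ℝ) (T : Finset (P × Fin n → Bool)),
      (gd g : ℝ) ^ a ≤ x * T.card → T.Nonempty := by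
    intro a x T h
    rw [nonempty_iff_ne_empty]
    rintro rfl
    rw [card_empty, Nat.cast_zero, mul_zero] at h
    exact absurd (pow_pos hgd a) (not_lt.2 h)
  have key : ∀ j ≤ q, ∃ (A : Finset P) (u : P → Fin n → Bool)
      (T : Finset (P × Fin n → Bool)) (S : Finset (Fin q)), A.card = j ∧
      (∀ p ∈ A, g (u p) = false ∧ ρ p < j) ∧ (∀ i < j, ∃ p ∈ A, ρ p = i) ∧
      (∀ y ∈ T, Cfg g A u y) ∧ (∀ y ∈ T, ∀ i, (G i).Accepts (Sum.elim w y) ↔ i ∈ S) ∧
      (gd g : ℝ) ^ (Fintype.card P - j) ≤ D j * T.card ∧ j + 1 ≤ S.card := by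
    intro j
    induction j with
    | zero =>
      intro _
      obtain ⟨S, hS⟩ := pig q (univ.filter fun y : P × Fin n → Bool =>
        ∀ p, g (fun j => y (p, j)) = true)
        (fun y => univ.filter fun i => (G i).Accepts (Sum.elim w y))
      set T0 := (univ.filter fun y : P × Fin n → Bool =>
          ∀ p, g (fun j => y (p, j)) = true).filter fun y =>
            (univ.filter fun i => (G i).Accepts (Sum.elim w y)) = S with hT0
      have hD' : (gd g : ℝ) ^ (Fintype.card P - 0) ≤ D 0 * T0.card := by
        rw [cntG, Nat.cast_pow] at hS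
        rw [hD0, Nat.sub_zero]
        exact hS
      have hcfg : ∀ y ∈ T0, Cfg g ∅ (fun _ _ => false) y := by
        intro y hy
        have hy1 := (mem_filter.1 (mem_filter.1 hy).1).2
        exact ⟨fun p hp => absurd hp (notMem_empty p), fun p _ => hy1 p⟩
      have hpat : ∀ y ∈ T0, ∀ i, (G i).Accepts (Sum.elim w y) ↔ i ∈ S := by
        intro y hy i
        have hy1 := (mem_filter.1 hy).2
        rw [← hy1, mem_filter]
        exact ⟨fun h => ⟨mem_univ _, h⟩, fun h => h.2⟩
      have hS1 : 0 + 1 ≤ S.card := by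
        obtain ⟨y, hy⟩ := hne _ _ _ hD'
        rw [Nat.zero_add, Nat.one_le_iff_ne_zero]
        intro h0
        have hS0 : S = ∅ := card_eq_zero.1 h0
        have e1 : Omb (BadB ρ g y) ↔ ¬ Even 0 :=
          omb_iff _ _ (badb ρ g ∅ (fun _ _ => false) y 0 (fun p hp => absurd hp (notMem_empty p))
            (fun i hi => absurd hi (Nat.not_lt_zero i)) (hcfg y hy))
        have e2 : (fun i => (G i).Accepts (Sum.elim w y)) = fun _ => False := by
          funext i
          refine propext ((hpat y hy i).trans ?_)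
          rw [hS0]
          exact ⟨fun h => notMem_empty i h, fun h => h.elim⟩
        have e3 := hOm y
        rw [e2] at e3
        exact e1.1 (e3.2 hDe) Even.zero
      refine ⟨∅, fun _ _ => false, T0, S, card_empty, ?_, ?_, hcfg, hpat, hD', hS1⟩
      · intro p hp
        exact absurd hp (notMem_empty p)
      · intro i hi
        exact absurd hi (Nat.not_lt_zero i)
    | succ j ih =>
      intro hj1
      have hj : j < q := by omega
      obtain ⟨A, u, T, S, hA, hAu, hAi, hTc, hTS, hTD, hS⟩ := ih (by omega)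
      have hdis : Disjoint A (univ.filter fun p => ρ p = j) := by
        rw [disjoint_left]
        intro p hp hp'
        have h1 := (hAu p hp).2
        have h2 := (mem_filter.1 hp').2
        omega
      obtain ⟨p, hp, v, hv, T', hT', hT'D⟩ := hSTP P W q n K k0 m s L σ (c j) (c' j) (D j) N G w
        g S A (univ.filter fun p => ρ p = j) u T (hLB j hj) hq hs hBl hR hF hm (hmc j hj)
        (hN j hj) (fun i hi y hy => hT i y ((hTS y hy i).2 hi)) (hρ j hj) hL hdis hTc (hDpos j)
        (by rw [hA]; exact hTD) (hDg j hj)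
      have hρp : ρ p = j := (mem_filter.1 hp).2
      have hpA : p ∉ A := fun h => disjoint_left.1 hdis h hp
      have hcard : (insert p A).card = j + 1 := by rw [card_insert_of_notMem hpA, hA]
      obtain ⟨S', hS'⟩ := pig q T' (fun y => univ.filter fun i => (G i).Accepts (Sum.elim w y))
      set T'' := T'.filter fun y =>
        (univ.filter fun i => (G i).Accepts (Sum.elim w y)) = S' with hT''
      have hD'' : (gd g : ℝ) ^ (Fintype.card P - (j + 1)) ≤ D (j + 1) * T''.card := by
        rw [hcard] at hT'D
        refine hT'D.trans ?_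
        rw [hDS]
        have h3 : (0 : ℝ) ≤ 2 * L * D j * 2 ^ (c' j * n) := by
          have := hDpos j
          positivity
        calc 2 * L * D j * 2 ^ (c' j * n) * (T'.card : ℝ)
            ≤ 2 * L * D j * 2 ^ (c' j * n) * (2 ^ q * (T''.card : ℝ)) :=
              mul_le_mul_of_nonneg_left hS' h3
          _ = 2 ^ q * (2 * L * D j * 2 ^ (c' j * n)) * (T''.card : ℝ) := by ring
      have hsub : ∀ y ∈ T'', y ∈ T' := fun y hy => (mem_filter.1 hy).1
      have hpat : ∀ y ∈ T'', ∀ i, (G i).Accepts (Sum.elim w y) ↔ i ∈ S' := by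
        intro y hy i
        have hy1 := (mem_filter.1 hy).2
        rw [← hy1, mem_filter]
        exact ⟨fun h => ⟨mem_univ _, h⟩, fun h => h.2⟩
      have hau' : ∀ p' ∈ insert p A, g (Function.update u p v p') = false ∧ ρ p' < j + 1 := by
        intro p' hp'
        rcases mem_insert.1 hp' with h | h
        · subst h
          rw [Function.update_self]
          exact ⟨hv, by omega⟩
        · have hne' : p' ≠ p := fun h' => hpA (h' ▸ h)
          rw [Function.update_of_ne hne']
          exact ⟨(hAu p' h).1, by have := (hAu p' h).2; omega⟩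
      have hai' : ∀ i < j + 1, ∃ p' ∈ insert p A, ρ p' = i := by
        intro i hi
        rcases Nat.lt_succ_iff_lt_or_eq.1 hi with h | h
        · obtain ⟨p', hp', h'⟩ := hAi i h
          exact ⟨p', mem_insert_of_mem hp', h'⟩
        · exact ⟨p, mem_insert_self _ _, by rw [hρp, h]⟩
      obtain ⟨y, hy⟩ := hne _ _ _ hTD
      obtain ⟨y', hy'⟩ := hne _ _ _ hD''
      have hSS : S ⊆ S' := by
        intro i hi
        exact (hpat y' hy' i).1 ((hT' y' (hsub y' hy')).2 i hi)
      have hSne : S ≠ S' := by
        intro he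
        have e1 : Omb (BadB ρ g y) ↔ ¬ Even j :=
          omb_iff _ _ (badb ρ g A u y j hAu hAi (hTc y hy))
        have e2 : Omb (BadB ρ g y') ↔ ¬ Even (j + 1) :=
          omb_iff _ _ (badb ρ g (insert p A) (Function.update u p v) y' (j + 1) hau' hai'
            (hT' y' (hsub y' hy')).1)
        have e3 : (fun i => (G i).Accepts (Sum.elim w y)) =
            fun i => (G i).Accepts (Sum.elim w y') := by
          funext i
          exact propext ((hTS y hy i).trans ((he ▸ Iff.rfl : i ∈ S ↔ i ∈ S').trans
            (hpat y' hy' i).symm))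
        have e4 := hOm y
        rw [e3] at e4
        have e5 : Omb (BadB ρ g y) ↔ Omb (BadB ρ g y') := e4.trans (hOm y').symm
        rw [e1, e2, Nat.even_add_one] at e5
        tauto
      have hlt : S.card < S'.card := card_lt_card (hSS.ssubset_of_ne hSne)
      exact ⟨insert p A, Function.update u p v, T'', S', hcard, hau', hai',
        fun y hy => (hT' y (hsub y hy)).1, hpat, hD'', by omega⟩
  obtain ⟨A, u, T, S, -, -, -, -, -, -, hS⟩ := key q le_rfl
  have h1 : S.card ≤ q := by
    have := card_le_univ S
    rwa [Fintype.card_fin] at this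
  omega

end Pool.Agent.TKB
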