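import Pool.Agent.TKB.St4
import Pool.Agent.TKB.LWB

/-!
# Project TKB, module LWC: the lower bound for the levels of the Boolean hierarchy
-/

set_option autoImplicit false

open Finset

namespace Pool.Agent.TKB

open Pool.Agent.TKN
open Pool.Agent.Lib_helper20.SRO (RectFree Rigid)
open Pool.Agent.URG (VarX deg lg)
open Pool.Agent.TKN.ONE (cop)

theorem t_LWC (hCBRQ : S_CBRQ) (hREDC : S_REDC) (hNUC : S_NUC) (hPUTB : S_PUTB)
    (hGOOQ : TWO.S_GOOQ) : S_LWC := by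
  obtain ⟨B1, hCB⟩ := hCBRQ
  refine ⟨5 * B1 + 7, ?_⟩
  intro mb q k M e hmb hk hq hme hYe heb β ly s hs
  have hE := (MLWB.expo B1 k q hk).trans hYe
  have hCB' := hCB q (6 * k * (q + 1)) hq (Nat.mul_pos (by omega) (by omega))
  generalize ((6 * k * (q + 1) + 1) * (q + 1)) ^ B1 = X at hE hCB'
  obtain ⟨-, hn2, hlg, h4X, hm, hdens, hT, hz1, hz2, hqs⟩ := hNUC mb M e q k X hmb hq hme hk hE heb
  obtain ⟨f, rfl⟩ : ∃ f, e = f + 1 := ⟨e - 1, by omega⟩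
  have hfb : f < blkB M := heb
  obtain ⟨hrig, u, hfree, hgood⟩ := hGOOQ (ptB mb M (f + 1)) (f + 1) (β ⟨f, hfb⟩) hn2
    (by omega) hlg
  obtain ⟨hinj, hput⟩ := hPUTB mb M β ly ⟨f, hfb⟩
  have hcop : 1 ≤ cop (f + 1) := by
    unfold cop
    omega
  refine hREDC q (6 * k * (q + 1)) (ptB mb M (f + 1)) (1 / 4 ^ X) (1 / 2 ^ X) (hCB' _ h4X)
    (Fin (mb (f + 1) * cop (f + 1))) (VarX (ptB mb M (f + 1)) (f + 1))
    (fun p => p.val / cop (f + 1)) (2 ^ (f + 1)) s (cop (f + 1)) (sizeB M) (k * sizeB M)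
    ((sizeB M : ℝ) / 2 ^ (6 * (f + 1))) u (TWO.one (β ⟨f, hfb⟩) u) (FB β ly)
    (fun w => datB (ly.pos ⟨f, hfb⟩ w)) (fun i => decide (i = swB ⟨f, hfb⟩)) hinj ?_ (hrig u)
    hfree Nat.one_le_two_pow hm hcop ?_ ?_ hT hz1 hz2 (fun y => hput u y)
  · -- the exceptional variables
    refine le_trans ?_ hqs
    rw [Nat.cast_mul]
    exact mul_le_mul_of_nonneg_left hs (Nat.cast_nonneg _)
  · intro j hj
    exact MLWB.fibre (mb (f + 1)) (cop (f + 1)) j (by omega)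
  · -- the density of the good words
    show ((2 : ℝ) ^ (q + 1) * (cop (f + 1) : ℕ)) ^ (q + 1) * 2 ^ ptB mb M (f + 1) ≤
      2 ^ (1 / 2 ^ X * (ptB mb M (f + 1) : ℝ) / 2) *
        ((univ.filter fun x : Fin (ptB mb M (f + 1)) → Bool =>
          TWO.one (β ⟨f, hfb⟩) u x = true).card : ℕ)
    have h1 : (0 : ℝ) ≤ ((univ.filter fun x : Fin (ptB mb M (f + 1)) → Bool =>
        TWO.one (β ⟨f, hfb⟩) u x = true).card : ℕ) := Nat.cast_nonneg _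
    generalize ((univ.filter fun x : Fin (ptB mb M (f + 1)) → Bool =>
        TWO.one (β ⟨f, hfb⟩) u x = true).card : ℕ) = Γ at hgood h1 ⊢
    have h0 : (0 : ℝ) ≤ ((2 : ℝ) ^ (q + 1) * (cop (f + 1) : ℕ)) ^ (q + 1) := by positivity
    calc ((2 : ℝ) ^ (q + 1) * (cop (f + 1) : ℕ)) ^ (q + 1) * 2 ^ ptB mb M (f + 1)
        ≤ ((2 : ℝ) ^ (q + 1) * (cop (f + 1) : ℕ)) ^ (q + 1) *
          (2 ^ (24 * (ptB mb M (f + 1) : ℝ) / 2 ^ (f + 1) + 2 * lg (ptB mb M (f + 1))) * Γ) :=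
          mul_le_mul_of_nonneg_left hgood h0
      _ = ((2 : ℝ) ^ (q + 1) * (cop (f + 1) : ℕ)) ^ (q + 1) *
          2 ^ (24 * (ptB mb M (f + 1) : ℝ) / 2 ^ (f + 1) + 2 * lg (ptB mb M (f + 1))) * Γ := by
          ring
      _ ≤ _ := mul_le_mul_of_nonneg_right hdens h1

end Pool.Agent.TKB
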