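import Pool.Agent.TKB.St4
import Pool.Agent.TKN.O_SIZ

/-!
# Project TKB: the numbers, levels of the Boolean hierarchy
-/

set_option autoImplicit false

open Finset

namespace Pool.Agent.TKB

open Pool.Agent.TKN
open Pool.Agent.URG (VarA VarX deg lg pols)
open Pool.Agent.TKN.ONE (cop)

namespace MNUC

lemma two_le {a b : ℕ} (h : a ≤ b) : 2 ^ a ≤ 2 ^ b := Nat.pow_le_pow_right (by norm_num) h

/-- a natural inequality as a real one for quotients -/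
lemma div_of {a b n : ℕ} (hb : 0 < b) (h : a * b ≤ n) : (a : ℝ) ≤ (n : ℝ) / b := by
  rw [le_div_iff₀ (by exact_mod_cast hb)]
  exact_mod_cast h

lemma two_pow_ge {e : ℕ} (h : 2 ≤ e) : e + 2 ≤ 2 ^ e := by
  obtain ⟨m, rfl⟩ : ∃ m, e = m + 1 := ⟨e - 1, by omega⟩
  have h1 : m < 2 ^ m := Nat.lt_two_pow_self
  rw [pow_succ]
  omega

lemma lg_bound {n X e : ℕ} (hX : 4 * X + 100 ≤ e) (hn : 2 ^ (6 * e - 7) ≤ n) :
    lg n * 2 ^ (X + 4) ≤ n := by
  have hn0 : n ≠ 0 := by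
    have := Nat.one_le_two_pow (n := 6 * e - 7)
    omega
  have hl : 6 * e - 7 ≤ Nat.log 2 n := Nat.le_log_of_pow_le (by norm_num) hn
  have hp : 2 ^ Nat.log 2 n ≤ n := Nat.pow_log_le_self 2 hn0
  unfold lg
  generalize Nat.log 2 n = l at hl hp
  have h1 : l / 2 + 1 ≤ 2 ^ (l / 2) := Nat.lt_two_pow_self
  have h2 : l + 1 ≤ 2 ^ (l / 2 + 1) := by
    rw [pow_succ]
    omega
  calc (l + 1) * 2 ^ (X + 4) ≤ 2 ^ (l / 2 + 1) * 2 ^ (X + 4) := Nat.mul_le_mul_right _ h2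
    _ = 2 ^ (l / 2 + 1 + (X + 4)) := (pow_add 2 _ _).symm
    _ ≤ 2 ^ l := two_le (by omega)
    _ ≤ n := hp

lemma core (e q X n c N l : ℕ) (hX : 4 * X + 100 ≤ e) (hq : q ≤ e + 1) (hc : c ≤ 2 ^ (6 + 3 * e))
    (hn : 2 ^ (6 * e - 7) ≤ n) (hN : N ≤ n * 2 ^ (4 * e + 9)) (hNl : 2 ^ (10 * e) ≤ N)
    (hl : l * 2 ^ (X + 4) ≤ n) :
    4 ^ X ≤ n ∧
    ((2 ^ e : ℕ) : ℝ) ≤ 2 ^ (1 / 2 ^ X * (n : ℝ)) ∧
    ((2 : ℝ) ^ (q + 1) * c) ^ (q + 1) * 2 ^ (24 * (n : ℝ) / 2 ^ e + 2 * l) ≤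
      2 ^ (1 / 2 ^ X * (n : ℝ) / 2) ∧
    1 ≤ (N : ℝ) / 2 ^ (6 * e) ∧
    (2 * (q : ℝ) + 1) * 2 ^ (4 * ((N : ℝ) / 2 ^ (6 * e))) ≤ 2 ^ (1 / 2 ^ X * (n : ℝ)) ∧
    q * ((N : ℝ) / 2 ^ (6 * e)) ≤ 1 / 4 ^ X * (n : ℝ) := by
  have he : e + 2 ≤ 2 ^ e := two_pow_ge (by omega)
  have h2X : (0 : ℝ) < 2 ^ X := by positivity
  set t : ℝ := (n : ℝ) / 2 ^ X with ht
  have ht0 : 0 ≤ t := by positivity
  have et : 1 / 2 ^ X * (n : ℝ) = t := by rw [ht]; ring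
  have h8 : ∀ m : ℕ, (n : ℝ) / ((2 ^ (X + m) : ℕ) : ℝ) = t / 2 ^ m := by
    intro m
    rw [ht, div_div]
    push_cast
    rw [pow_add]
  have two1 : (1 : ℝ) ≤ 2 := by norm_num
  -- the natural inequalities
  have nA : (e + 1) * 2 ^ (X + 1) ≤ n := by
    refine le_trans ?_ hn
    calc (e + 1) * 2 ^ (X + 1) ≤ 2 ^ e * 2 ^ (X + 1) := Nat.mul_le_mul_right _ (by omega)
      _ = 2 ^ (e + (X + 1)) := (pow_add 2 _ _).symm
      _ ≤ 2 ^ (6 * e - 7) := two_le (by omega)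
  have nB : ((q + 7 + 3 * e) * (q + 1)) * 2 ^ (X + 3) ≤ n := by
    refine le_trans ?_ hn
    have h1 : q + 7 + 3 * e ≤ 2 ^ (e + 3) := by
      rw [pow_add]
      omega
    have h2 : q + 1 ≤ 2 ^ e := by omega
    calc ((q + 7 + 3 * e) * (q + 1)) * 2 ^ (X + 3) ≤ (2 ^ (e + 3) * 2 ^ e) * 2 ^ (X + 3) :=
          Nat.mul_le_mul_right _ (Nat.mul_le_mul h1 h2)
      _ = 2 ^ (e + 3 + e + (X + 3)) := by rw [← pow_add, ← pow_add]
      _ ≤ 2 ^ (6 * e - 7) := two_le (by omega)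
  have nC : 24 * 2 ^ (X + 3) ≤ 2 ^ e := by
    calc 24 * 2 ^ (X + 3) ≤ 2 ^ 5 * 2 ^ (X + 3) := Nat.mul_le_mul_right _ (by norm_num)
      _ = 2 ^ (5 + (X + 3)) := (pow_add 2 _ _).symm
      _ ≤ 2 ^ e := two_le (by omega)
  have nE : N * 2 ^ (X + 3) ≤ n * 2 ^ (6 * e) := by
    calc N * 2 ^ (X + 3) ≤ n * 2 ^ (4 * e + 9) * 2 ^ (X + 3) := Nat.mul_le_mul_right _ hN
      _ = n * 2 ^ (4 * e + 9 + (X + 3)) := by rw [mul_assoc, ← pow_add]
      _ ≤ n * 2 ^ (6 * e) := Nat.mul_le_mul_left _ (two_le (by omega))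
  have nF : q * N * 4 ^ X ≤ n * 2 ^ (6 * e) := by
    have h4 : (4 : ℕ) ^ X = 2 ^ (2 * X) := by
      rw [pow_mul]
      norm_num
    calc q * N * 4 ^ X ≤ 2 ^ e * (n * 2 ^ (4 * e + 9)) * 2 ^ (2 * X) := by
          rw [h4]
          exact Nat.mul_le_mul_right _ (Nat.mul_le_mul (by omega) hN)
      _ = n * 2 ^ (e + (4 * e + 9) + 2 * X) := by
          rw [pow_add, pow_add]
          ring
      _ ≤ n * 2 ^ (6 * e) := Nat.mul_le_mul_left _ (two_le (by omega))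
  -- the real inequalities
  have rA : ((e : ℝ) + 1) ≤ t / 2 := by
    have h := div_of (by positivity) nA
    rw [h8] at h
    push_cast at h
    linarith
  have rB : (((q + 7 + 3 * e) * (q + 1) : ℕ) : ℝ) ≤ t / 8 := by
    have h := div_of (by positivity) nB
    rw [h8] at h
    norm_num at h ⊢
    exact h
  have rC : 24 * (n : ℝ) / 2 ^ e ≤ t / 8 := by
    rw [ht, div_div, div_le_div_iff₀ (by positivity) (by positivity)]
    have h : (24 : ℝ) * (2 ^ X * 8) ≤ 2 ^ e := by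
      have h1 : ((24 * 2 ^ (X + 3) : ℕ) : ℝ) ≤ ((2 ^ e : ℕ) : ℝ) := by exact_mod_cast nC
      push_cast at h1
      rw [pow_add] at h1
      norm_num at h1
      linarith
    have hn0 : (0 : ℝ) ≤ n := Nat.cast_nonneg _
    nlinarith [mul_le_mul_of_nonneg_left h hn0]
  have rD : 2 * (l : ℝ) ≤ t / 8 := by
    have h := div_of (by positivity) hl
    rw [h8] at h
    norm_num at h
    linarith
  have rE : (N : ℝ) / 2 ^ (6 * e) ≤ t / 8 := by
    rw [ht, div_div, div_le_div_iff₀ (by positivity) (by positivity)]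
    have h1 : ((N * 2 ^ (X + 3) : ℕ) : ℝ) ≤ ((n * 2 ^ (6 * e) : ℕ) : ℝ) := by exact_mod_cast nE
    push_cast at h1
    rw [pow_add] at h1
    norm_num at h1
    exact h1
  refine ⟨?_, ?_, ?_, ?_, ?_, ?_⟩
  · refine le_trans ?_ hn
    have h4 : (4 : ℕ) ^ X = 2 ^ (2 * X) := by
      rw [pow_mul]
      norm_num
    rw [h4]
    exact two_le (by omega)
  · rw [et]
    push_cast
    rw [← Real.rpow_natCast]
    exact Real.rpow_le_rpow_of_exponent_le two1 (by linarith)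
  · rw [et]
    have h1 : ((2 : ℝ) ^ (q + 1) * c) ^ (q + 1) ≤ (2 : ℝ) ^ (((q + 7 + 3 * e) * (q + 1) : ℕ) : ℝ) := by
      rw [Real.rpow_natCast, pow_mul]
      refine pow_le_pow_left₀ (by positivity) ?_ _
      have h2 : (c : ℝ) ≤ 2 ^ (6 + 3 * e) := by exact_mod_cast hc
      calc (2 : ℝ) ^ (q + 1) * c ≤ 2 ^ (q + 1) * 2 ^ (6 + 3 * e) :=
            mul_le_mul_of_nonneg_left h2 (by positivity)
        _ = 2 ^ (q + 7 + 3 * e) := by
            rw [← pow_add]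
            congr 1
            ring
    calc ((2 : ℝ) ^ (q + 1) * c) ^ (q + 1) * 2 ^ (24 * (n : ℝ) / 2 ^ e + 2 * (l : ℝ))
        ≤ (2 : ℝ) ^ (((q + 7 + 3 * e) * (q + 1) : ℕ) : ℝ) *
            2 ^ (24 * (n : ℝ) / 2 ^ e + 2 * (l : ℝ)) :=
          mul_le_mul_of_nonneg_right h1 (Real.rpow_nonneg (by norm_num) _)
      _ = (2 : ℝ) ^ ((((q + 7 + 3 * e) * (q + 1) : ℕ) : ℝ) +
            (24 * (n : ℝ) / 2 ^ e + 2 * (l : ℝ))) := by
          exact (Real.rpow_add (by norm_num) _ _).symm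
      _ ≤ (2 : ℝ) ^ (t / 2) := Real.rpow_le_rpow_of_exponent_le two1 (by linarith)
  · rw [one_le_div (by positivity)]
    have h1 : ((2 ^ (10 * e) : ℕ) : ℝ) ≤ (N : ℝ) := by exact_mod_cast hNl
    push_cast at h1
    refine le_trans ?_ h1
    exact pow_le_pow_right₀ two1 (by omega)
  · rw [et]
    have h1 : (2 * (q : ℝ) + 1) ≤ (2 : ℝ) ^ ((e : ℝ) + 1) := by
      have h2 : 2 * q + 1 ≤ 2 ^ (e + 1) := by
        rw [pow_succ]
        omega
      have h3 : ((2 * q + 1 : ℕ) : ℝ) ≤ ((2 ^ (e + 1) : ℕ) : ℝ) := by exact_mod_cast h2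
      have h4 : (2 : ℝ) ^ ((e : ℝ) + 1) = (2 : ℝ) ^ (e + 1) := by
        rw [← Real.rpow_natCast]
        push_cast
        rfl
      rw [h4]
      push_cast at h3
      exact h3
    calc (2 * (q : ℝ) + 1) * 2 ^ (4 * ((N : ℝ) / 2 ^ (6 * e)))
        ≤ (2 : ℝ) ^ ((e : ℝ) + 1) * 2 ^ (4 * ((N : ℝ) / 2 ^ (6 * e))) :=
          mul_le_mul_of_nonneg_right h1 (Real.rpow_nonneg (by norm_num) _)
      _ = (2 : ℝ) ^ (((e : ℝ) + 1) + 4 * ((N : ℝ) / 2 ^ (6 * e))) := by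
          exact (Real.rpow_add (by norm_num) _ _).symm
      _ ≤ (2 : ℝ) ^ t := Real.rpow_le_rpow_of_exponent_le two1 (by linarith)
  · have h1 : ((q * N * 4 ^ X : ℕ) : ℝ) ≤ ((n * 2 ^ (6 * e) : ℕ) : ℝ) := by exact_mod_cast nF
    push_cast at h1
    rw [one_div, inv_mul_eq_div, ← mul_div_assoc, div_le_div_iff₀ (by positivity) (by positivity)]
    exact h1

end MNUC

open MNUC in
/-- **NUC.** -/
theorem t_NUC (hSIZ : S_SIZB) : S_NUC := by
  intro mb M e q k X hOK hq1 hmb hk hX he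
  have h10 : 10 * e ≤ lg M := by
    unfold blkB at he
    omega
  have hM0 : M ≠ 0 := by
    rintro rfl
    unfold lg at h10
    rw [Nat.log_zero_right] at h10
    omega
  have hM1 : 2 ^ (10 * e - 1) ≤ M := by
    refine (two_le ?_).trans (Nat.pow_log_le_self 2 hM0)
    unfold lg at h10
    omega
  have hM : 2 ^ 56 ≤ M := le_trans (two_le (by omega)) hM1
  obtain ⟨⟨hs1, hs2⟩, -, hS⟩ := hSIZ mb M hOK hM
  obtain ⟨p1, p2, p3, p4, -, -, -, p8⟩ := hS e (by omega) he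
  have hq : q ≤ e + 1 := by
    have := (hOK e).2
    omega
  have hq2 : q ≤ 2 ^ e := by
    have : e + 2 ≤ 2 ^ e := two_pow_ge (by omega)
    omega
  have hc := ONE.MSIZ.cop_le e
  have hmc : mb e * cop e ≤ 2 ^ (6 + 4 * e) := by
    rw [hmb]
    calc q * cop e ≤ 2 ^ e * 2 ^ (6 + 3 * e) := Nat.mul_le_mul hq2 hc
      _ = 2 ^ (6 + 4 * e) := by
          rw [← pow_add]
          congr 1
          omega
  have hn : 2 ^ (6 * e - 7) ≤ ptB mb M e := by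
    unfold ptB
    rw [Nat.le_div_iff_mul_le (by omega)]
    calc 2 ^ (6 * e - 7) * (mb e * cop e) ≤ 2 ^ (6 * e - 7) * 2 ^ (6 + 4 * e) :=
          Nat.mul_le_mul_left _ hmc
      _ = 2 ^ (10 * e - 1) := by
          rw [← pow_add]
          congr 1
          omega
      _ ≤ M := hM1
  have hlg := lg_bound hX hn
  generalize ptB mb M e = n at *
  have hN6 : sizeB M ≤ 6 * (n * (mb e * cop e)) := by omega
  have hN : sizeB M ≤ n * 2 ^ (4 * e + 9) := by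
    calc sizeB M ≤ 6 * (n * (mb e * cop e)) := hN6
      _ ≤ 2 ^ 3 * (n * 2 ^ (6 + 4 * e)) :=
          Nat.mul_le_mul (by norm_num) (Nat.mul_le_mul_left _ hmc)
      _ = n * 2 ^ (4 * e + 9) := by
          rw [show 4 * e + 9 = 3 + (6 + 4 * e) by omega, pow_add 2 3]
          ring
  have hNl : 2 ^ (10 * e) ≤ sizeB M := by
    have h1 : 2 ^ (10 * e) = 2 * 2 ^ (10 * e - 1) := by
      rw [← pow_succ']
      congr 1
      omega
    omega
  obtain ⟨c1, c2, c3, c4, c5, c6⟩ := core e q X n (cop e) (sizeB M) (lg n) hX hq hc hn hN hNl hlg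
  refine ⟨hM, p1, by omega, c1, c2, c3, ?_, c4, c5, c6⟩
  have h1 : 6 * k * (q + 1) * (n * cop e) = k * (6 * (n * (mb e * cop e))) + 6 * k * (n * cop e) := by
    rw [hmb]
    ring
  rw [h1]
  exact (Nat.mul_le_mul_left _ hN6).trans (Nat.le_add_right _ _)

end Pool.Agent.TKB
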