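import Pool.Agent.TKB.St4
import Pool.Agent.TKB.REDB

/-!
# Project TKB: fixing variables, for `q` programs and the levels of the hierarchy (module REDC,
helper37; a small change of the module REDB of helper62)
-/

set_option autoImplicit false

open Finset

namespace Pool.Agent.TKB

open Pool.Agent.TKN
open Pool.Agent.Lib_helper20.SRO (RectFree Rigid Agrees)
open Pool.Agent.CFT (Der FP)
open Pool.Agent.TKN.ONE (put MRED.fixG MRED.accepts_fix MRED.block_fix MREDR.time_fixR)

theorem t_REDC : S_REDC := by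
  intro q k0 n σ c hCB P W _ _ ρ m s L N T z w g F ι a hι hqs hR hRF hm1 hm hL hcard hbig hT hz h4z
    hF A De hE hDe hall
  choose Q hQ G hB hTi hA hc using fun i => MREDB.fork_of_easy hz (hE i)
  have h1 : (1 : ℝ) ≤ 2 ^ (4 * z) := Real.one_le_rpow (by norm_num) (by linarith)
  refine hCB P W ρ m s L Q (fun i => MRED.fixG (G i) ι a) w g De hDe hqs
    (fun i => MRED.block_fix a (hB i)) hR hRF hm1 hm hL hcard ?_ hbig ?_ ?_
  · refine le_trans ?_ h4z
    push_cast
    have h2 : ∑ i, (Fintype.card (Q i) : ℝ) ≤ q * 2 ^ (4 * z) := by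
      calc ∑ i, (Fintype.card (Q i) : ℝ) ≤ ∑ _i : Fin q, (2 : ℝ) ^ (4 * z) :=
            Finset.sum_le_sum fun i _ => hc i
        _ = q * 2 ^ (4 * z) := by rw [Finset.sum_const, Finset.card_univ, Fintype.card_fin,
            nsmul_eq_mul]
    have hq0 : (0 : ℝ) ≤ q := Nat.cast_nonneg _
    nlinarith
  · intro i y hy
    exact MREDR.time_fixR hι a (hTi i) hT _ hy
  · intro y
    rw [← hF y, hall]
    have h2 : (fun i => A i (put ι a (Sum.elim w y))) =
        fun i => (MRED.fixG (G i) ι a).Accepts (Sum.elim w y) := by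
      funext i
      apply propext
      rw [MRED.accepts_fix hι a, hA]
    rw [h2]

end Pool.Agent.TKB
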