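import Pool.Agent.TKB.UHB

/-!
# Project TKB: the property that some block with the number at least `i` is bad
-/

set_option autoImplicit false

open Finset

namespace Pool.Agent.TKB

open Pool.Agent.TKN
open Pool.Agent.Lib_helper20.SRO (NBP Walk)
open Pool.Agent.URG (lg)
open Pool.Agent.TKN.ONE (Aut)

open MUHB in
theorem uhc (hCLO : ONE.S_CLO) (hNBP : ONE.S_NBP) (hAUQ : TWO.S_AUQ) (hSIZ : S_SIZB)
    (mb : ℕ → ℕ) (M : ℕ) (hOK : OKB mb) (hM : 2 ^ 56 ≤ M) (β : BasB mb M) (ly : LayB mb M) (i : ℕ) :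
    ∃ (Q : Type) (_ : Fintype Q) (G : NBP (Fin (sizeB M)) Q),
      (∀ l, Walk G G.source G.sink l → (l.map Prod.fst).Pairwise (· < ·)) ∧
      (∀ v, G.Accepts v ↔ ∃ j, i ≤ j ∧ BadBl β ly v j) ∧ Fintype.card Q ≤ sizeB M ^ 24 := by
  classical
  obtain ⟨⟨hs1, hs2⟩, -, hsz⟩ := hSIZ mb M hOK hM
  have hM1 : 1 ≤ M := le_trans (by norm_num) hM
  have hb : blkB M ≤ M := by
    have h1 : sizeB M = blkB M + 2 * M := rfl
    omega
  have hP : ∀ ω : {ω : OmB mb M // i ≤ blo ω},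
      Aut (sizeB M) (Fin (2 ^ (9 * lg M + 1))) (PB β ly ω.1) := fun ω =>
    aut hCLO hAUQ (fun e h1 h2 => (hsz e h1 h2).2.2.2.2.2.2.1) β ly ω.1
  obtain ⟨Q, hQ, G, h1, h2, h3⟩ := hNBP (sizeB M) (Fin (2 ^ (9 * lg M + 1)))
    {ω : OmB mb M // i ≤ blo ω} (fun ω => PB β ly ω.1) hP
  refine ⟨Q, hQ, G, h1, fun v => ?_, ?_⟩
  · rw [h2 v]
    constructor
    · rintro ⟨⟨ω, hω⟩, h⟩
      exact ⟨blo ω, hω, ω, rfl, h⟩
    · rintro ⟨j, hj, ω, hω, h⟩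
      exact ⟨⟨ω, by rw [hω]; exact hj⟩, h⟩
  · rw [h3, Fintype.card_fin]
    refine num hM hs1 (by omega) ((Fintype.card_subtype_le _).trans ?_)
    exact card_OmB hb fun e h4 h5 => ⟨(hsz e h4 h5).2.2.2.1, (hsz e h4 h5).2.2.2.2.1⟩

/-- the number of a block is less than the number of the blocks -/
theorem blo_lt {mb : ℕ → ℕ} {M : ℕ} (ω : OmB mb M) : blo ω < mb (ω.1.val + 1) := by
  obtain ⟨e, x⟩ := ω
  have hc : 0 < ONE.cop (e.val + 1) := by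
    unfold ONE.cop
    omega
  have hp : pnt x < mb (e.val + 1) * ONE.cop (e.val + 1) := by
    rcases x with ⟨t, l⟩ | l
    · exact l.2
    · exact l.2
  exact (Nat.div_lt_iff_lt_mul hc).2 hp

/-- `FB` in terms of the nested properties -/
theorem FB_nested {mb : ℕ → ℕ} {M m : ℕ} (hm : ∀ e, mb e ≤ m) (β : BasB mb M) (ly : LayB mb M)
    (v : Fin (sizeB M) → Bool) : FB β ly v ↔ ∃ i, i < m ∧ Even i ∧
      (∃ j, i ≤ j ∧ BadBl β ly v j) ∧ ¬ ∃ j, i + 1 ≤ j ∧ BadBl β ly v j := by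
  constructor
  · rintro ⟨i, h1, h2, h3⟩
    obtain ⟨ω, hω, hb⟩ := h2
    refine ⟨i, ?_, h1, ⟨i, le_rfl, ω, hω, hb⟩, ?_⟩
    · rw [← hω]
      exact (blo_lt ω).trans_le (hm _)
    · rintro ⟨j, hj, hb'⟩
      exact h3 j hj hb'
  · rintro ⟨i, -, h1, ⟨j, hj, hb⟩, h3⟩
    have hji : j = i := by
      by_contra hne
      exact h3 ⟨j, by omega, hb⟩
    subst hji
    exact ⟨j, h1, hb, fun k hk hbk => h3 ⟨k, hk, hbk⟩⟩

end Pool.Agent.TKB
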