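import Pool.Agent.TKB.All
import Pool.Agent.TKB.CorH
import Pool.Agent.TKB.CHR
import Pool.Agent.TKB.CBRQ
import Pool.Agent.TKB.REDC
import Pool.Agent.TKB.NUC
import Pool.Agent.TKB.LWC
import Pool.Agent.TKB.UHC

/-!
# Project TKB: the levels of the Boolean hierarchy
-/

set_option autoImplicit false

namespace Pool.Agent.TKB

open Pool.Agent.TKN
open Pool.Agent.HPM (DecOs)
open Pool.Agent.STK (Prog ofNBP blocks_ofNBP full_ofNBP accepts_ofNBP)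

theorem lwc : S_LWC := t_LWC (t_CBRQ lbq (t_CHR stp)) t_REDC (t_NUC t_SIZB) t_PUTB gooq

/-- the upper bounds for the function with `m` blocks -/
theorem mainH : ∀ m M : ℕ, 1 ≤ m → 2 ^ 56 ≤ M → (2 * M ≤ sizeB M ∧ sizeB M ≤ 3 * M) ∧
    Nonempty (BasB (mbL m) M) ∧ Nonempty (LayB (mbL m) M) ∧
    ∀ (β : BasB (mbL m) M) (ly : LayB (mbL m) M),
    (∃ C : ℕ → (Fin (sizeB M) → Bool) → Prop,
      (∀ i, ∃ (Q : Type) (_ : Fintype Q) (G : Prog (Fin (sizeB M)) 0 Empty Q), G.Blocks 1 ∧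
        (∀ l, G.Full l → (l.map Prod.fst).Pairwise (· < ·)) ∧ (∀ v, G.Accepts v ↔ C i v) ∧
        Fintype.card Q ≤ sizeB M ^ 24) ∧
      (∀ i v, C (i + 1) v → C i v) ∧ (∀ v, ¬ C m v) ∧
      ∀ v, FB β ly v ↔ ∃ i, i < m ∧ Even i ∧ C i v ∧ ¬ C (i + 1) v) ∧
    ∃ (V : Type) (_ : Fintype V) (T : ℕ) (σ : Fin T → Fin 1 → Fin (sizeB M)),
      Fintype.card V ≤ sizeB M ^ 24 ∧ T ≤ sizeB M ^ 24 ∧
      DecOs 1 (Fin (sizeB M)) V T σ (FB β ly) := by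
  intro m M hm hM
  obtain ⟨hs, -, -⟩ := t_SIZB (mbL m) M (okL hm) hM
  obtain ⟨h1, h2⟩ := layb (mbL m) M (okL hm) hM
  refine ⟨hs, h1, h2, fun β ly => ⟨?_, dtb (mbL m) M (okL hm) hM β ly⟩⟩
  refine ⟨fun i v => ∃ j, i ≤ j ∧ BadBl β ly v j, fun i => ?_, ?_, ?_, ?_⟩
  · obtain ⟨Q, _, G, g1, g2, g3⟩ := uhc ONE.t_CLO ONE.t_NBP TWO.t_AUQ t_SIZB (mbL m) M (okL hm) hM
      β ly i
    exact ⟨Q, inferInstance, ofNBP 0 Empty G, blocks_ofNBP G, fun l hl => g1 l (full_ofNBP.1 hl),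
      fun v => accepts_ofNBP.trans (g2 v), g3⟩
  · rintro i v ⟨j, hj, hb⟩
    exact ⟨j, by omega, hb⟩
  · rintro v ⟨j, hj, ω, hω, -⟩
    have h3 := blo_lt ω
    have h4 : mbL m (ω.1.val + 1) ≤ m := min_le_left _ _
    omega
  · exact fun v => FB_nested (fun e => min_le_left _ _) β ly v

end Pool.Agent.TKB
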