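import Pool.Agent.TKN.St8

/-!
# Project TKB: statements, part 1 (the robust core)

Follow-up of TKN / TKQ (helper83). TKB (helper32): Boolean combinations of `q` nondeterministic programs
of length `k N`. The robust core: an intersection `Z` of unions of subcubes that contains many good words
also contains many bad words (in TKQ: at least one).

Every module `TKB_XXX` proves one `S_XXX` as `theorem Pool.Agent.TKB.t_XXX : S_XXX`, file
Pool/Agent/TKB/XXX.lean; the statements named after `uses` are explicit hypotheses, in this order.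
Most proofs are ports of files of Pool/Agent/TKN: copy the text, change it as said; do not change the
files of Pool/Agent/TKN, they are in the closure of landed hand-ins.
-/

set_option autoImplicit false

open Finset
open scoped Classical

namespace Pool.Agent.TKB

open NCE TKN
open Pool.Agent.Lib_helper20.SRO (RectFree Rigid flipAt)

/-- the bad words of `Z` -/
noncomputable def bad {n : ℕ} (Z : Finset (Fin n → Bool)) (f : (Fin n → Bool) → Bool) :
    Finset (Fin n → Bool) := Z.filter fun z => f z = false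

/-- the exceptional words of `Z`: the bad words and the words with a variable that is not read -/
noncomputable def exc {n r : ℕ} (Z : Finset (Fin n → Bool))
    (U : Fin r → (Fin n → Bool) → Finset (Fin n)) (f : (Fin n → Bool) → Bool) :
    Finset (Fin n → Bool) := Z.filter fun z => f z = false ∨ ∃ v, ∀ j, v ∉ U j z

/-- RCOV.  Few exceptional words; `D` is read by `J1` only.
Proof (port of P_COV.lean): (1) if `z ∈ Z` is good (`f z = true`) and no `U j z` contains `v` then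
`flipAt z v ∈ Z` (`mix`) and it is bad (`Rigid`); `z ↦ (flipAt z v, v)` with a chosen `v` is injective
(`z = flipAt (flipAt z v) v`), so there are at most `n * |bad|` such `z`. (2) the second part as in
P_COV.lean; the third for `π q ∉ exc`: then every variable is read. -/
def S_RCOV : Prop := ∀ (n r w : ℕ) (Z : Finset (Fin n → Bool)) (hZ : Z.Nonempty)
  (U : Fin r → (Fin n → Bool) → Finset (Fin n)) (f : (Fin n → Bool) → Bool), Fam n r w Z U →
  Rigid f →
  (exc Z U f).card ≤ (n + 1) * (bad Z f).card ∧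
  ∀ (V : Finset (Fin n)) (J1 : Finset (Fin r)) (Ω' : Type) [Fintype Ω'] (P' : FP Ω')
    (π : Ω' → {z // z ∈ Z}) (D : Ω' → Finset (Fin n)), DSp Z hZ U V J1 P' π D →
    ∀ q, P'.p q ≠ 0 → (∀ j, j ∉ J1 → Disjoint (D q) (U j (π q).1)) ∧
      ((π q).1 ∉ exc Z U f → D q ⊆ UJ U J1 (π q).1 ∩ V)

/-- RRCT (uses `S_RCOV`).  The rectangles are in `Z`; the sides are disjoint.
Proof (from P_RCT.lean): let `D1 = S1 b D q`, `D2 = T2 .. q`, `z' = π q'`, `z'' = π q''`; all words of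
the class agree outside `D1 ∪ D2`. For `j ∈ J1` the mixed word agrees with `z'` on `U j z'` (which is
disjoint from `D2 = T2 .. q'`: `T2_notin`); for `j ∉ J1` it agrees with `z''` on `U j z''`, which is
disjoint from `D q'' ⊇ D1` (RCOV; for this part use any `f`, for example the constant `false`, which is
`Rigid`). So it is in `Z` (`mix`). The second part: if `T2 .. q` is not empty then `π q ∉ E`, so
`π q ∉ exc`, so `D q ⊆ UJ U J1 z`, and `T2 .. q ⊆ S2 \ UJ U J1 z`. -/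
def S_RRCT : Prop := ∀ (n r w : ℕ) (Z : Finset (Fin n → Bool)) (hZ : Z.Nonempty)
  (U : Fin r → (Fin n → Bool) → Finset (Fin n)), Fam n r w Z U →
  ∀ (V : Finset (Fin n)) (J1 : Finset (Fin r)) (Ω' : Type) [Fintype Ω'] (P' : FP Ω')
    (π : Ω' → {z // z ∈ Z}) (D : Ω' → Finset (Fin n)), DSp Z hZ U V J1 P' π D →
  ∀ (b : ℝ) (E : Finset (Fin n → Bool)) (S2 : Finset (Fin n)) (q : Ω'), P'.p q ≠ 0 →
    (∀ q' q'' : Ω', P'.p q' ≠ 0 → P'.p q'' ≠ 0 →
      KK U J1 b E S2 π D q' = KK U J1 b E S2 π D q → KK U J1 b E S2 π D q'' = KK U J1 b E S2 π D q →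
      (fun v => if v ∈ S1 b D q then (π q').1 v else (π q'').1 v) ∈ Z) ∧
    ∀ f : (Fin n → Bool) → Bool, Rigid f → exc Z U f ⊆ E →
      Disjoint (S1 b D q) (T2 U J1 b E S2 π D q)

/-- RBX.  A rectangle with long sides contains many bad words (pure combinatorics).
Proof: let `X = C.image (pat D1)`, `Y = C.image (pat D2)`, `|X|, |Y| ≥ M`; a word of `C` is determined by
its two patterns, so `|C| ≤ |X| |Y|`. Number `X` by `Fin |X|` and cut it into the `⌊|X| / M⌋` groups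
`{x | ⌊number of x / M⌋ = i}`, `i < ⌊|X| / M⌋`, of exactly `M` elements, and `Y` in the same way. For a
pair `(i, j)` of groups `RectFree` for `D1`, the words `fun v => if v ∈ D1 then z v else false` and
`fun v => if v ∈ D1 then false else z v` (one `z ∈ C` for each pattern of the group) gives a pair of
words of `C` whose mixed word is bad; it is in `Z`, it agrees with `z0` outside `D1 ∪ D2`, and its
patterns on `D1`, `D2` are in the groups `i` and `j`. Different pairs `(i, j)` give different words, so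
`|bad words| ≥ ⌊|X| / M⌋ ⌊|Y| / M⌋ ≥ |X| |Y| / (4 M ^ 2)`. -/
def S_RBX : Prop := ∀ (n : ℕ) (Z C : Finset (Fin n → Bool)) (f : (Fin n → Bool) → Bool) (M : ℕ)
  (D1 D2 : Finset (Fin n)) (z0 : Fin n → Bool), RectFree f M → 1 ≤ M → Disjoint D1 D2 →
  (∀ z ∈ C, ∀ v, v ∉ D1 ∪ D2 → z v = z0 v) →
  (∀ z ∈ C, ∀ z' ∈ C, (fun v => if v ∈ D1 then z v else z' v) ∈ Z) →
  M ≤ (C.image (pat D1)).card → M ≤ (C.image (pat D2)).card →
  C.card ≤ 4 * M ^ 2 * ((bad Z f).filter fun z => ∀ v, v ∉ D1 ∪ D2 → z v = z0 v).card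

/-- RBB (uses `S_RRCT`, `S_RBX`).  The words in classes with two long sides are few.
Proof: for `z` in this set `W` choose `q = qf z`; `(S1 q, T2 q)` is a pair of subsets of `V` (`S1 q ⊆ D q
⊆ V` and `T2 q ⊆ S2 ⊆ V`): at most `4 ^ |V|` pairs `(D1, D2)`. For a fixed pair group the words `z` by
`off (D1 ∪ D2) z`: the words of a group are in `C = {π q' | P'.p q' ≠ 0, KK q' = KK (qf z)}` for any `z` of
the group; the two sets of values (`vals`) at `qf z` are `C.image (pat D1)`, `C.image (pat D2)`. RBX for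
`z0 = z` (disjointness and `C`-words mixed: RRCT; if the pair is not disjoint the group is empty):
`|group| ≤ |C| ≤ 4 M ^ 2 * #(bad words that agree with z outside D1 ∪ D2)`; sum over the groups:
`4 M ^ 2 |bad|` for each pair. -/
def S_RBB : Prop := ∀ (n r w : ℕ) (Z : Finset (Fin n → Bool)) (hZ : Z.Nonempty)
  (U : Fin r → (Fin n → Bool) → Finset (Fin n)) (f : (Fin n → Bool) → Bool) (M : ℕ),
  Fam n r w Z U → Rigid f → RectFree f M → 1 ≤ M →
  ∀ (V : Finset (Fin n)) (J1 : Finset (Fin r)) (Ω' : Type) [Fintype Ω'] (P' : FP Ω')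
    (π : Ω' → {z // z ∈ Z}) (D : Ω' → Finset (Fin n)), DSp Z hZ U V J1 P' π D →
  ∀ (b : ℝ) (E : Finset (Fin n → Bool)) (S2 : Finset (Fin n)), exc Z U f ⊆ E → S2 ⊆ V →
    (Z.filter fun z => z ∉ E ∧ ∃ q, P'.p q ≠ 0 ∧ (π q).1 = z ∧ Lev b (D q) ∧
      M ≤ (vals P' (KK U J1 b E S2 π D) (fun q' => pat (S1 b D q') (π q').1) q).card ∧
      M ≤ (vals P' (KK U J1 b E S2 π D) (fun q' => pat (T2 U J1 b E S2 π D q') (π q').1)
        q).card).card ≤ 4 * M ^ 2 * 4 ^ V.card * (bad Z f).card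

/-- RCTE (uses `S_SUBS`).  The words in classes whose second side is short are few.
Proof: as P_CTE.lean; there the second side is short by RCT, here it is a hypothesis (choose `q` with
this property); the first side and `f` are not used. -/
def S_RCTE : Prop := ∀ (n r w : ℕ) (Z : Finset (Fin n → Bool)) (hZ : Z.Nonempty)
  (U : Fin r → (Fin n → Bool) → Finset (Fin n)) (M : ℕ), Fam n r w Z U →
  ∀ (V : Finset (Fin n)) (J1 : Finset (Fin r)) (Ω' : Type) [Fintype Ω'] (P' : FP Ω')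
    (π : Ω' → {z // z ∈ Z}) (D : Ω' → Finset (Fin n)), DSp Z hZ U V J1 P' π D →
  ∀ (b α β : ℝ) (E : Finset (Fin n → Bool)) (S2 : Finset (Fin n)), 0 < α → α ≤ 1 → 0 < β →
    β ≤ 1 → b ≤ β * V.card →
    (∀ z ∈ Z, z ∉ E → ((UJ U J1 z ∩ S2).card : ℝ) ≤ α * S2.card) →
    ((Z.filter fun z => z ∉ E ∧ ∃ q, P'.p q ≠ 0 ∧ (π q).1 = z ∧ Lev b (D q) ∧
      (vals P' (KK U J1 b E S2 π D) (fun q' => pat (T2 U J1 b E S2 π D q') (π q').1)
        q).card < M).card : ℝ) ≤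
    Real.exp ((n - S2.card) * Real.log 2 + (eta α + α * Real.log 2) * S2.card + eta β * V.card) *
      M

/-- RPB (uses `S_DSX`, `S_RCOV`, `S_UPP`, `S_LOW`, `S_SUBS`, `S_RCTE`, `S_RBB`, `S_LEV`, `S_SMP`).
The end of the proof of the core.
Proof: port of `MCORE.partB` (file P_CORE.lean; import it, its lemmas `ex_mono`, `law_le`, `eta_mono`,
`le_eta`, `choose_S2n`, `count_small`, `S1_card` can be used). Changes: `E1 = heavy words ∪ exc Z U f`,
`|E1| ≤ 2 θ |Z|` (RCOV and the last hypothesis: `|exc| ≤ (n + 1) |bad| ≤ θ |Z|`); LEV with `2 θ` in place of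
`θ` (`2 θ ≤ μ / 4`); `|E| ≤ 3 θ |Z|`; the words that are in `EE` are those of RCTE and those of RBB
(`S2 ⊆ V`, `exc ⊆ E`), together at most `2 θ |Z|`; so `last ≤ 5 θ`. The lemma `final_num` must be copied
with `last ≤ 5 * θ`: in `t4` the bound becomes `0.03 * Y`, which is enough. -/
def S_RPB : Prop := ∀ (n r w : ℕ) (Z : Finset (Fin n → Bool)) (hZ : Z.Nonempty)
  (U : Fin r → (Fin n → Bool) → Finset (Fin n)) (f : (Fin n → Bool) → Bool) (M : ℕ),
  Fam n r w Z U → Rigid f → RectFree f M → 1 ≤ M →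
  ∀ (V : Finset (Fin n)) (J1 : Finset (Fin r)) (μ ε θ ξ δ l : ℝ), 0 < μ → μ ≤ 1 → 0 < ε →
    4 * ε ≤ 1 / 10000 → l = 1 + Real.log (1 / μ) → 10000 * l * eta (4 * ε) ≤ 1 →
    θ = μ / (1000 * l) → ξ ≤ μ / (1000 * l) →
    TC (uni Z hZ) (FJ Z U V J1ᶜ) V Subtype.val ≤ ξ * V.card →
    μ * V.card ≤ ∑ v ∈ V, O (uni Z hZ) (FJ Z U V J1ᶜ) (bit Z v) →
    ((Z.filter fun z => 2 * ε * V.card < ((UJ U J1 z ∩ V).card : ℝ)).card : ℝ) ≤ θ * Z.card →
    400 ≤ μ * V.card → 1 / (4 * ε ^ 2 * θ) ≤ 3 * μ * V.card →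
    Real.exp (-(μ * V.card)) ≤ θ → δ * n ≤ μ * V.card / 400 → (M : ℝ) ≤ Real.exp (δ * n) →
    (2 : ℝ) ^ n ≤ Real.exp (δ * n) * Z.card →
    (4 * (M : ℝ) ^ 2 * 4 ^ V.card + n + 1) * (bad Z f).card ≤ θ * Z.card → False

/-- RCQ (uses `S_NUMQ`, `S_CHAIN`, `S_AVO`, `S_AVX`, `S_AVB`, `S_RE2`, `S_ST2`, `S_SEL`, `S_RPB`).
THE ROBUST CORE.
Proof: port of R_COREQ.lean (`MCOREQ.numsQ`, `expB`, `scale_low`, `scale_succ`, `mono_up`, `PhiF_le` can be
used as they are). The scales are now `t j = n0 / L ^ j`, `n0 = n / 2 ^ (g + 2)` (quotients in `ℕ`), so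
`|V| ≤ n0`. Let `P = (k + 1) ^ B1`, `E = 2 ^ ((k + 1) ^ (19 + 6 * B1))`, `X = 16000 r^2 l exp (2 l)`:
`L ^ (r K) * (3200 X) ≤ E` (numsQ, expB); `B = 24 + 6 * B1`, `Q = (k + 1) ^ B ≥ (k + 1) ^ (19 + 6 * B1) + 20`,
`δ = 1 / 2 ^ (g + Q)`. Then `E ≤ n0` (as `n0 ≥ n / 2 ^ (g + 3)`, `n ≥ 4 ^ (g + Q)`) and
`δ * n * (L ^ (r K) * 3200 X) ≤ n0`; so `chooseVJ` (with `n0` in place of `n` in the scales and in the
conclusion: `n0 / (2 L ^ (r K)) ≤ |V|`, and `|V| ≤ n0`; `t ≤ n0 ≤ n`) goes through: only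
`hn : L ^ (r K) (3200 X) ≤ n0` and `hδ : δ n (L ^ (r K) (3200 X)) ≤ n0` are used.
The last hypothesis of RPB, for contradiction suppose `|bad| < 2 ^ n exp (- x)`, `x = n / 2 ^ g`: with
`|Z| ≥ 2 ^ n exp (- δ n)`, `M ≤ exp (δ n)`, `4 ^ |V| ≤ exp (1.3863 n / 2 ^ (g + 2)) ≤ exp (0.35 x)`,
`n + 1 ≤ exp (0.1 x)` (as `x ≥ √n * 2 ^ Q` and `√n ≥ log (n + 1)` for large `n`), `δ n ≤ x / 2 ^ Q ≤ x / 100`:
`(4 M^2 4^|V| + n + 1) |bad| ≤ 5 exp (0.02 x + 0.35 x) exp (- x + 0.01 x) |Z| ≤ exp (- x / 2) |Z| ≤ θ |Z|`,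
as `1 / θ ≤ 4000 l exp (l - 1) ≤ exp (12 P) ≤ exp (x / 2)` (`x ≥ 2 ^ Q`). -/
def S_RCQ : Prop := ∃ B : ℕ, ∀ k : ℕ, 1 ≤ k → ∃ r : ℕ, 0 < r ∧ r ≤ (k + 1) ^ B ∧
  ∀ g n : ℕ, 4 ^ (g + (k + 1) ^ B) ≤ n →
  ∀ (w : ℕ) (Z : Finset (Fin n → Bool)) (U : Fin r → (Fin n → Bool) → Finset (Fin n))
    (f : (Fin n → Bool) → Bool) (M : ℕ), Fam n r w Z U → r * w ≤ k * n →
    Rigid f → RectFree f M → 1 ≤ M →
    (M : ℝ) ≤ Real.exp ((n : ℝ) / 2 ^ (g + (k + 1) ^ B)) →
    (2 : ℝ) ^ n ≤ Real.exp ((n : ℝ) / 2 ^ (g + (k + 1) ^ B)) * Z.card →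
    (2 : ℝ) ^ n ≤ Real.exp ((n : ℝ) / 2 ^ g) * (bad Z f).card

end Pool.Agent.TKB
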