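import Pool.Agent.TKB.St1
import Pool.Agent.TKN.St9

/-!
# Project TKB: statements, part 2 (programs; the chain of `q + 1` steps)

Here `CFT.FP` is the type of the fork programs and `NCE.FP` is not used. Modules: see part 1.
-/

set_option autoImplicit false

open Finset

namespace Pool.Agent.TKB

open Pool.Agent.TKN
open Pool.Agent.Lib_helper20.SRO (RectFree Rigid Agrees)
open Pool.Agent.CFT (Der)

/-! ## One point -/

open Classical in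
/-- The robust lower bound for fork programs on `n` bits: a program that accepts many words by trees with
at most `k n` tests accepts many bad words. -/
def LBF (k : ℕ) (c c' : ℝ) (n : ℕ) : Prop := ∀ (N : Type) [Fintype N]
  (G : CFT.FP (Fin n) N) (f : (Fin n → Bool) → Bool) (m s : ℕ) (B0 : Finset (Fin n → Bool)),
  (s : ℝ) ≤ c * n → G.Block s → Rigid f →
  (∀ b ∈ B0, ∃ l, Der G G.source l ∧ Agrees b l ∧ l.length ≤ k * n) →
  1 ≤ m → (m : ℝ) ≤ 2 ^ (c * n) → RectFree f m →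
  (2 : ℝ) ^ n ≤ 2 ^ (c * n) * B0.card → (Fintype.card N : ℝ) ≤ 2 ^ (c * n) →
  (2 : ℝ) ^ n ≤ 2 ^ (c' * n) * (univ.filter fun b => G.Accepts b ∧ f b = false).card

open Classical in
/-- The same; the tests of `s ≤ σ n` variables are not counted. -/
def LB (k : ℕ) (σ c c' : ℝ) (n : ℕ) : Prop := ∀ (N : Type) [Fintype N]
  (G : CFT.FP (Fin n) N) (f : (Fin n → Bool) → Bool) (m s : ℕ) (B0 : Finset (Fin n → Bool)),
  (s : ℝ) ≤ σ * n → G.Block s → Rigid f →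
  (∀ b ∈ B0, ∃ l, Der G G.source l ∧ Agrees b l ∧ ∃ R : Finset (Fin n), R.card ≤ s ∧
    Out R l ≤ k * n) →
  1 ≤ m → (m : ℝ) ≤ 2 ^ (c * n) → RectFree f m →
  (2 : ℝ) ^ n ≤ 2 ^ (c * n) * B0.card → (Fintype.card N : ℝ) ≤ 2 ^ (c * n) →
  (2 : ℝ) ^ n ≤ 2 ^ (c' * n) * (univ.filter fun b => G.Accepts b ∧ f b = false).card

/-- LBFQ (uses `TKN.S_FAM`, `S_RCQ`).
Proof: port of R_LFQ.lean (import it; its lemmas `RLFQ.arith`, `base`, `expo` can be used). RCQ for `4 k`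
and `g + 1`: `r ≤ X = (4 k + 1) ^ B1`; `S_FAM` for the function `fun b => decide (G.Accepts b)` (the
hypothesis of FAM is trivial) gives `Z`, `U` with `Fam`, `Z` accepted, `|B0| ≤ |N| ^ r |Z|`. With
`Y = (k + 1) ^ (3 * B1 + 2) ≥ 4 X` (as `2 X ≤ (k + 1) ^ (3 * B1 + 1)`), `c = 1 / 2 ^ (g + Y)`:
`c (r + 1) log 2 ≤ 1 / 2 ^ (g + 1 + X)`, `4 ^ (g + 1 + X) ≤ 4 ^ (g + Y) ≤ n`. The words of `bad Z f` are
accepted with `f = false`, and `exp (n / 2 ^ (g + 1)) ≤ 2 ^ (n / 2 ^ g)` as `log 2 ≥ 1 / 2`. -/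
def S_LBFQ : Prop := ∃ B : ℕ, ∀ k : ℕ, 1 ≤ k → ∀ g n : ℕ, 4 ^ (g + (k + 1) ^ B) ≤ n →
  LBF k (1 / 2 ^ (g + (k + 1) ^ B)) (1 / 2 ^ g) n

/-- LBQ (uses `S_LBFQ`, `TKN.S_SUBS`).
Proof: port of R_LRQ.lean (import it and Q_LOWR.lean; `EXC54.progR`, `block`, `sound`, `complete`,
`exp_le`, `eta_le` can be used). LBFQ for `k + 1`, `g`: `e = (k + 2) ^ B1`, `c1 = 1 / 2 ^ (g + e)`. Let
`Q = (k + 1) ^ B ≥ e + 4`, `σ = 1 / 4 ^ (g + Q) ≤ (c1 / 16) ^ 2`, so `eta σ ≤ 2 √σ ≤ c1 / 8`, and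
`c = 1 / 2 ^ (g + Q) ≤ c1 / 8`. As in `LRQ54.core` with `s ≤ σ n`, sets of size `≤ σ n`:
`2 ^ n ≤ 2 ^ (c n) |B0| ≤ 2 ^ (c n + 4 eta σ n) |B1| ≤ 2 ^ (c1 n) |B1|`, and
`|N| + 1 ≤ 2 * 2 ^ (c n) ≤ 2 ^ (c1 n)`. A word that `progR G R a` accepts is accepted by `G` (`sound`), so
the number of the bad accepted words of `G` is at least that of `progR G R a`. -/
def S_LBQ : Prop := ∃ B : ℕ, ∀ k : ℕ, 1 ≤ k → ∀ g n : ℕ, 4 ^ (g + (k + 1) ^ B) ≤ n →
  LB k (1 / 4 ^ (g + (k + 1) ^ B)) (1 / 2 ^ (g + (k + 1) ^ B)) (1 / 2 ^ g) n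

/-! ## Conjunctions -/

/-- the conjunction of the programs `G i`, `i ∈ S` -/
def andP {V : Type} {q : ℕ} {N : Fin q → Type} (G : ∀ i, CFT.FP V (N i)) (S : Finset (Fin q)) :
    CFT.FP V (Fin (q + 1) ⊕ (Σ i, N i)) where
  source := Sum.inl 0
  edge a t b := (∃ i : Fin q, i ∉ S ∧ a = Sum.inl i.castSucc ∧ t = [] ∧ b = Sum.inl i.succ) ∨
    ∃ (i : Fin q) (u v : N i), (G i).edge u t v ∧ a = Sum.inr ⟨i, u⟩ ∧ b = Sum.inr ⟨i, v⟩
  fork a b d := (∃ i : Fin q, i ∈ S ∧ a = Sum.inl i.castSucc ∧ b = Sum.inr ⟨i, (G i).source⟩ ∧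
      d = Sum.inl i.succ) ∨
    ∃ (i : Fin q) (u v w : N i), (G i).fork u v w ∧ a = Sum.inr ⟨i, u⟩ ∧ b = Sum.inr ⟨i, v⟩ ∧
      d = Sum.inr ⟨i, w⟩
  fin a := a = Sum.inl (Fin.last q) ∨ ∃ (i : Fin q) (u : N i), (G i).fin u ∧ a = Sum.inr ⟨i, u⟩

open Classical in
/-- ANDP.  Proof: trees from `Sum.inr ⟨i, u⟩` are trees of `G i` from `u` and conversely (induction on
`Der`, with the node generalised: `a = Sum.inr ⟨i, u⟩ → ...`); trees from `Sum.inl i` by induction from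
the last `i` to the first one. For (3): `List.finRange q` splits as the numbers `< i` and the list from
`i` on (`List.drop`), or use induction with `List.ofFn` / `(List.finRange q).drop i`. -/
def S_ANDP : Prop := ∀ (V : Type) (q : ℕ) (N : Fin q → Type) (G : ∀ i, CFT.FP V (N i))
  (S : Finset (Fin q)),
  (∀ b, (andP G S).Accepts b ↔ ∀ i ∈ S, (G i).Accepts b) ∧
  (∀ s, (∀ i, (G i).Block s) → (andP G S).Block s) ∧
  ∀ ls : Fin q → List (V × Bool), (∀ i ∈ S, Der (G i) (G i).source (ls i)) →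
    Der (andP G S) (andP G S).source ((List.finRange q).flatMap fun i => if i ∈ S then ls i else [])

/-! ## One step -/

/-- the word `y` with the point `p` replaced by `v` -/
def ins {P : Type} [DecidableEq P] {n : ℕ} (p : P) (v : Fin n → Bool) (y : P × Fin n → Bool) :
    P × Fin n → Bool := fun a => if a.1 = p then v a.2 else y a

/-- the configurations: the points of `A` have the values `u`, the other points are good -/
def Cfg {P : Type} {n : ℕ} (g : (Fin n → Bool) → Bool) (A : Finset P) (u : P → Fin n → Bool)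
    (y : P × Fin n → Bool) : Prop :=
  (∀ p ∈ A, ∀ j, y (p, j) = u p j) ∧ ∀ p, p ∉ A → g (fun j => y (p, j)) = true

/-- the number of the good words -/
def gd {n : ℕ} (g : (Fin n → Bool) → Bool) : ℕ := (univ.filter fun x => g x = true).card

open Classical in
/-- HVY.  Heavy fibres (pure combinatorics).
Proof: let `Γ = gd g`, `a = |P| - |A| ≥ 1`, `H` = the image of `T` under `y ↦ ins p 0 y` (`0` = the word
`fun _ => false`), `F y = {v | ins p v y ∈ T}` for `y ∈ H`: `∑ y ∈ H, |F y| = |T|` (`y' ∈ T` is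
`ins p v y` for exactly one pair with `y ∈ H`), `|F y| ≤ Γ` (the point `p ∉ A` is good), and
`|H| ≤ Γ ^ (a - 1)` (the points of `A` are fixed, the point `p` is `0`, the others are good: an injection
into the functions from the other points to the good words). Light `y ∈ H`: `2 D |F y| < Γ`; they
contribute at most `Γ ^ (a - 1) Γ / (2 D) ≤ |T| / 2`, so the set `H'` of the heavy `y` has
`|H'| Γ ≥ |T| / 2`, `2 D |H'| ≥ Γ ^ (a - 1)`. By hypothesis `∑ y ∈ H', #{v | Acc (ins p v y), g v = false}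
≥ |H'| 2 ^ n / E`, so for some `v` with `g v = false` at least `|H'| / E` of the `y ∈ H'` have
`Acc (ins p v y)`; `T'` = the set of these `ins p v y` (`y ↦ ins p v y` is injective on `H`). -/
def S_HVY : Prop := ∀ (P : Type) [Fintype P] [DecidableEq P] (n : ℕ) (g : (Fin n → Bool) → Bool)
  (A : Finset P) (u : P → Fin n → Bool) (p : P) (T : Finset (P × Fin n → Bool))
  (Acc : (P × Fin n → Bool) → Prop) (D E : ℝ), p ∉ A → 0 < gd g → 0 < D → 0 < E →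
  (∀ y ∈ T, Cfg g A u y) → (gd g : ℝ) ^ (Fintype.card P - A.card) ≤ D * T.card →
  (∀ y, (gd g : ℝ) ≤ 2 * D * (univ.filter fun v => ins p v y ∈ T).card →
    (2 : ℝ) ^ n ≤ E * (univ.filter fun v => Acc (ins p v y) ∧ g v = false).card) →
  ∃ v : Fin n → Bool, g v = false ∧ ∃ T' : Finset (P × Fin n → Bool),
    (∀ y ∈ T', Cfg g (insert p A) (Function.update u p v) y ∧ Acc y) ∧
    (gd g : ℝ) ^ (Fintype.card P - (insert p A).card) ≤ 2 * D * E * T'.card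

open Classical in
/-- the number of the tests of the point `p`, outside `R` -/
noncomputable def OutP {W P : Type} {n : ℕ} (p : P) (R : Finset (W ⊕ (P × Fin n)))
    (l : List ((W ⊕ (P × Fin n)) × Bool)) : ℕ :=
  (l.filter fun a => a.1 ∉ R ∧ ∃ j, a.1 = Sum.inr (p, j)).length

open Classical in
/-- FIB (uses `S_ANDP`).  The programs on one point.
Proof: `ι j = Sum.inr (p, j)` is injective; the program `MRED.fixG (andP G S) ι (Sum.elim w y)` (file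
Pool/Agent/TKN/O_RED.lean, namespace `Pool.Agent.TKN.ONE.MRED`; `ONE.put ι (Sum.elim w y) v =
Sum.elim w (ins p v y)`) has `q + 1 + ∑ |N i|` nodes, blocks `≤ q s` (`s ≤ q s` if `q ≠ 0`; for `q = 0`
all blocks are empty), it accepts `v` iff all `G i`, `i ∈ S`, accept (`accepts_fix`). For `v ∈ B0` let `l` be
the list of ANDP: `der_fix`, `agrees_rst` give the tree `rst ι l`; the exceptional set is
`R' = {j | ∃ i ∈ S, Sum.inr (p, j) ∈ Rs i}`, `|R'| ≤ q s`, and `Out R' (rst ι l) ≤ ∑ i ∈ S, OutP p (Rs i)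
(ls i)` (`rst` of a `flatMap`; compare `MREDR.out_rst`, file Q_REDR.lean). Apply `LB`. -/
def S_FIB : Prop := ∀ (P W : Type) [Fintype P] [DecidableEq P] (q n K m s : ℕ) (σ c c' : ℝ)
  (N : Fin q → Type) [∀ i, Fintype (N i)] (G : ∀ i, CFT.FP (W ⊕ (P × Fin n)) (N i))
  (w : W → Bool) (g : (Fin n → Bool) → Bool) (S : Finset (Fin q)) (p : P)
  (y : P × Fin n → Bool) (B0 : Finset (Fin n → Bool)),
  LB K σ c c' n → ((q * s : ℕ) : ℝ) ≤ σ * n → (∀ i, (G i).Block s) → Rigid g → RectFree g m →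
  1 ≤ m → (m : ℝ) ≤ 2 ^ (c * n) →
  ((q + 1 + ∑ i, Fintype.card (N i) : ℕ) : ℝ) ≤ 2 ^ (c * n) →
  (∀ v ∈ B0, ∃ (ls : Fin q → List ((W ⊕ (P × Fin n)) × Bool))
    (Rs : Fin q → Finset (W ⊕ (P × Fin n))),
    (∀ i ∈ S, Der (G i) (G i).source (ls i) ∧ Agrees (Sum.elim w (ins p v y)) (ls i) ∧
      (Rs i).card ≤ s) ∧ ∑ i ∈ S, OutP p (Rs i) (ls i) ≤ K * n) →
  (2 : ℝ) ^ n ≤ 2 ^ (c * n) * B0.card →
  (2 : ℝ) ^ n ≤ 2 ^ (c' * n) * (univ.filter fun v : Fin n → Bool =>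
    (∀ i ∈ S, (G i).Accepts (Sum.elim w (ins p v y))) ∧ g v = false).card

/-- STP (uses `S_HVY`, `S_FIB`).  One step of the chain.
Proof: for `y ∈ T`, `i ∈ S` choose the tree `l` and the set `R`. `∑ p ∈ Bl, OutP p R l ≤ Out R l`, so
`∑ p ∈ Bl, ∑ i ∈ S, OutP ≤ q k0 n L ≤ K n L` and some `p ∈ Bl` has `∑ i ∈ S, OutP ≤ K n`; by the pigeonhole
principle there is a `p ∈ Bl` and `T1 ⊆ T` with `|T| ≤ L |T1|` such that this holds for all `y ∈ T1`. HVY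
for `T1`, `L D`, `E = 2 ^ (c' n)`, `Acc y = ∀ i ∈ S, (G i).Accepts (Sum.elim w y)` (`0 < gd g` by the last
hypothesis): if `gd g ≤ 2 L D |B0|`, `B0 = {v | ins p v y ∈ T1}`, then `2 ^ n ≤ 2 ^ (c n) |B0|`; FIB. -/
def S_STP : Prop := ∀ (P W : Type) [Fintype P] [DecidableEq P] (q n K k0 m s L : ℕ)
  (σ c c' D : ℝ) (N : Fin q → Type) [∀ i, Fintype (N i)]
  (G : ∀ i, CFT.FP (W ⊕ (P × Fin n)) (N i)) (w : W → Bool) (g : (Fin n → Bool) → Bool)
  (S : Finset (Fin q)) (A Bl : Finset P) (u : P → Fin n → Bool) (T : Finset (P × Fin n → Bool)),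
  LB K σ c c' n → q * k0 ≤ K → ((q * s : ℕ) : ℝ) ≤ σ * n → (∀ i, (G i).Block s) → Rigid g →
  RectFree g m → 1 ≤ m → (m : ℝ) ≤ 2 ^ (c * n) →
  ((q + 1 + ∑ i, Fintype.card (N i) : ℕ) : ℝ) ≤ 2 ^ (c * n) →
  (∀ i ∈ S, ∀ y ∈ T, ∃ l, Der (G i) (G i).source l ∧ Agrees (Sum.elim w y) l ∧
    ∃ R : Finset (W ⊕ (P × Fin n)), R.card ≤ s ∧ Out R l ≤ k0 * (n * L)) →
  Bl.card = L → 1 ≤ L → Disjoint A Bl → (∀ y ∈ T, Cfg g A u y) → 0 < D →
  (gd g : ℝ) ^ (Fintype.card P - A.card) ≤ D * T.card →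
  2 * L * D * 2 ^ n ≤ 2 ^ (c * n) * gd g →
  ∃ p ∈ Bl, ∃ v : Fin n → Bool, g v = false ∧ ∃ T' : Finset (P × Fin n → Bool),
    (∀ y ∈ T', Cfg g (insert p A) (Function.update u p v) y ∧
      ∀ i ∈ S, (G i).Accepts (Sum.elim w y)) ∧
    (gd g : ℝ) ^ (Fintype.card P - (insert p A).card) ≤ 2 * L * D * 2 ^ (c' * n) * T'.card

/-! ## The chain -/

/-- The last index with the property `b` exists and is even. -/
def Omb (b : ℕ → Prop) : Prop := ∃ i, Even i ∧ b i ∧ ∀ j, i < j → ¬ b j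

/-- Some point of the block `i` is bad; `ρ p` is the block of `p`. -/
def BadB {P : Type} {n : ℕ} (ρ : P → ℕ) (g : (Fin n → Bool) → Bool) (y : P × Fin n → Bool)
    (i : ℕ) : Prop := ∃ p, ρ p = i ∧ g (fun j => y (p, j)) = false

/-- CHB (uses `S_STP`).  The chain of `q + 1` steps.
Proof: by induction on `j ≤ q + 1` there are `A`, `u`, `T`, `S` with: `|A| = j`; `g (u p) = false` and
`ρ p < j` for `p ∈ A`; for every `i < j` there is a `p ∈ A` with `ρ p = i`; all `y ∈ T` are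
configurations; for `y ∈ T`: `(G i).Accepts (Sum.elim w y) ↔ i ∈ S`; `gd g ^ (|P| - j) ≤ D j * |T|`;
`j ≤ |S|`. For `j = 0`: `A = ∅`, the set of all configurations has `gd g ^ |P|` elements, take the most
frequent pattern `S` (`2 ^ q` patterns). Step: STP with `Bl = {p | ρ p = j}`, `c j`, `c' j`, `D j` gives
`p`, `v`, `T'`; let `T''` be the `y ∈ T'` with the most frequent pattern `S'`, `|T'| ≤ 2 ^ q |T''|`,
`T'' ≠ ∅` (`gd g > 0`), `S ⊆ S'`. The bad blocks of the `y ∈ T` are exactly those `< j`, so `Omb` holds iff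
`j` is odd; for `y ∈ T''` it holds iff `j + 1` is odd. If `S = S'` then the last hypothesis gives the
same value; so `|S'| ≥ |S| + 1`. At the end `q + 1 ≤ |S| ≤ q`. -/
def S_CHB : Prop := ∀ (P W : Type) [Fintype P] [DecidableEq P] (ρ : P → ℕ) (q n K k0 m s L : ℕ)
  (σ : ℝ) (c c' D : ℕ → ℝ) (N : Fin q → Type) [∀ i, Fintype (N i)]
  (G : ∀ i, CFT.FP (W ⊕ (P × Fin n)) (N i)) (w : W → Bool) (g : (Fin n → Bool) → Bool)
  (De : (Fin q → Prop) → Prop),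
  (∀ j ≤ q, LB K σ (c j) (c' j) n) → q * k0 ≤ K → ((q * s : ℕ) : ℝ) ≤ σ * n →
  (∀ i, (G i).Block s) → Rigid g → RectFree g m → 1 ≤ m → 1 ≤ L →
  (∀ j ≤ q, (univ.filter fun p => ρ p = j).card = L) →
  (∀ j ≤ q, (m : ℝ) ≤ 2 ^ (c j * n)) →
  (∀ j ≤ q, ((q + 1 + ∑ i, Fintype.card (N i) : ℕ) : ℝ) ≤ 2 ^ (c j * n)) →
  D 0 = 2 ^ q → (∀ j, D (j + 1) = 2 ^ q * (2 * L * D j * 2 ^ (c' j * n))) →
  (∀ j ≤ q, 2 * L * D j * 2 ^ n ≤ 2 ^ (c j * n) * gd g) →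
  (∀ i y, (G i).Accepts (Sum.elim w y) → ∃ l, Der (G i) (G i).source l ∧
    Agrees (Sum.elim w y) l ∧ ∃ R : Finset (W ⊕ (P × Fin n)), R.card ≤ s ∧
      Out R l ≤ k0 * (n * L)) →
  (∀ y, Omb (BadB ρ g y) ↔ De fun i => (G i).Accepts (Sum.elim w y)) → False

/-- No Boolean combination of `q` programs, for points of length `n`. -/
def CB (q k0 : ℕ) (σ c : ℝ) (n : ℕ) : Prop := ∀ (P W : Type) [Fintype P] [DecidableEq P]
  (ρ : P → ℕ) (m s L : ℕ) (N : Fin q → Type) [∀ i, Fintype (N i)]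
  (G : ∀ i, CFT.FP (W ⊕ (P × Fin n)) (N i)) (w : W → Bool) (g : (Fin n → Bool) → Bool)
  (De : (Fin q → Prop) → Prop),
  ((q * s : ℕ) : ℝ) ≤ σ * n → (∀ i, (G i).Block s) → Rigid g → RectFree g m → 1 ≤ m →
  (m : ℝ) ≤ 2 ^ (c * n) → 1 ≤ L → (∀ j ≤ q, (univ.filter fun p => ρ p = j).card = L) →
  ((q + 1 + ∑ i, Fintype.card (N i) : ℕ) : ℝ) ≤ 2 ^ (c * n) →
  ((2 : ℝ) ^ (q + 1) * L) ^ (q + 1) * 2 ^ n ≤ 2 ^ (c * n / 2) * gd g →
  (∀ i y, (G i).Accepts (Sum.elim w y) → ∃ l, Der (G i) (G i).source l ∧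
    Agrees (Sum.elim w y) l ∧ ∃ R : Finset (W ⊕ (P × Fin n)), R.card ≤ s ∧
      Out R l ≤ k0 * (n * L)) →
  ¬ ∀ y, (Omb (BadB ρ g y) ↔ De fun i => (G i).Accepts (Sum.elim w y))

/-- CBQ (uses `S_LBQ`, `S_CHB`).
Proof: let `Y = (k0 + 1) (q + 1)`, `K = q k0 + 1 ≥ 1` (`K + 1 ≤ Y`), `Q = (K + 1) ^ B1 ≤ Y ^ B1` from LBQ,
`g j = (q - j) (Q + 2)` (difference in `ℕ`), `c' j = 1 / 2 ^ (g j)`, `c j = 1 / 2 ^ (g j + Q)`; LBQ for `g j`
gives `LB K (1 / 4 ^ (g j + Q)) (c j) (c' j) n`, and `LB` for a smaller `σ` is weaker. `X = Y ^ B`,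
`B = B1 + 3`, so `g j + Q ≤ (q + 1) (Q + 2) ≤ X`. `D j = 2 ^ q ∏ i < j, (2 ^ (q + 1) L 2 ^ (c' i n))`, so
`2 L D j = (2 ^ (q + 1) L) ^ (j + 1) 2 ^ (n ∑ i < j, c' i)` (define `D` by this recursion, prove this
formula or only `≤` by induction), and `∑ i < j, c' i ≤ c j / 2` for `j ≤ q` (`g i = g j + (j - i) (Q + 2)`;
by induction: `S (j + 1) = S j + c' j ≤ c j / 2 + c' j ≤ 2 c' j ≤ c (j + 1) / 2`). Hence
`2 L D j 2 ^ n ≤ (2 ^ (q + 1) L) ^ (q + 1) 2 ^ n 2 ^ (c j n / 2) ≤ 2 ^ (c n / 2) gd g 2 ^ (c j n / 2)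
≤ 2 ^ (c j n) gd g`, as `c = 1 / 2 ^ X ≤ c j`. -/
def S_CBQ : Prop := ∃ B : ℕ, ∀ q k0 : ℕ, 1 ≤ k0 → ∀ n : ℕ,
  4 ^ (((k0 + 1) * (q + 1)) ^ B) ≤ n →
  CB q k0 (1 / 4 ^ (((k0 + 1) * (q + 1)) ^ B)) (1 / 2 ^ (((k0 + 1) * (q + 1)) ^ B)) n

end Pool.Agent.TKB
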