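import Pool.Agent.TKB.St2
import Pool.Agent.TKN.St10

/-!
# Project TKB: statements, part 3 (the function; lower bound; upper bounds)

The function has the switches `e = 1, .., blkB M` and `2 M` data bits; if the switch `e` is on the data
bits are read as tests and `mb e` blocks of `cop e` points. The block `i` is bad if for some switch that is
on a point of the block `i` has an odd number of ones or fails a test. The value is `1` if the last bad
block exists and has an even number (the blocks are numbered from `0`).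
-/

set_option autoImplicit false

open Finset

namespace Pool.Agent.TKB

open Pool.Agent.TKN
open Pool.Agent.Lib_helper20.SRO (RectFree Rigid Agrees evenWeight NBP Walk)
open Pool.Agent.URG (VarA VarX deg lg pols)
open Pool.Agent.HPM (DecOs)
open Pool.Agent.HPM.Fn (Coord)
open Pool.Agent.TKN.ONE (cop Aut put)

/-! ## The function -/

/-- the length of the points for the parameter `e` -/
def ptB (mb : ℕ → ℕ) (M e : ℕ) : ℕ := M / (mb e * cop e)

/-- the number of the switches -/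
def blkB (M : ℕ) : ℕ := lg M / 10

/-- the number of the input bits -/
def sizeB (M : ℕ) : ℕ := blkB M + 2 * M

/-- the variables for the parameter `e` -/
abbrev BVB (mb : ℕ → ℕ) (M e : ℕ) : Type := VarA (ptB mb M e) e (mb e * cop e)

/-- the bases of the fields -/
abbrev BasB (mb : ℕ → ℕ) (M : ℕ) : Type :=
  ∀ e : Fin (blkB M), Coord (deg (ptB mb M (e.val + 1)) (e.val + 1))

/-- A layout of the variables in the data bits: the elements `a` of the tests come first, then the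
points, then the coefficients of the tests. -/
structure LayB (mb : ℕ → ℕ) (M : ℕ) where
  pos : ∀ e : Fin (blkB M), BVB mb M (e.val + 1) → Fin (2 * M)
  inj : ∀ e, Function.Injective (pos e)
  lt₁ : ∀ e t i p, pos e (Sum.inl (t, Sum.inl i)) < pos e (Sum.inr p)
  lt₂ : ∀ e t q p, pos e (Sum.inr p) < pos e (Sum.inl (t, Sum.inr q))

/-- the switch `e` -/
def swB {M : ℕ} (e : Fin (blkB M)) : Fin (sizeB M) := Fin.castAdd (2 * M) e

/-- the data bit `j` -/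
def datB {M : ℕ} (j : Fin (2 * M)) : Fin (sizeB M) := Fin.natAdd (blkB M) j

/-- the input for the switch `e` -/
def inpB {mb : ℕ → ℕ} {M : ℕ} (ly : LayB mb M) (e : Fin (blkB M)) (v : Fin (sizeB M) → Bool) :
    BVB mb M (e.val + 1) → Bool := fun w => v (datB (ly.pos e w))

/-- the items for the parameter `e`: pairs of a test and a point; points (for the parity) -/
abbrev ItB (mb : ℕ → ℕ) (M e : ℕ) : Type :=
  (Fin (pols (ptB mb M e) e) × Fin (mb e * cop e)) ⊕ Fin (mb e * cop e)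

/-- the number of the point of an item -/
def pnt {A : Type} {L : ℕ} : (A × Fin L) ⊕ Fin L → ℕ
  | Sum.inl (_, l) => l.val
  | Sum.inr l => l.val

/-- all items -/
abbrev OmB (mb : ℕ → ℕ) (M : ℕ) : Type := Σ e : Fin (blkB M), ItB mb M (e.val + 1)

/-- the block of an item -/
def blo {mb : ℕ → ℕ} {M : ℕ} (ω : OmB mb M) : ℕ := pnt ω.2 / cop (ω.1.val + 1)

/-- the switch of the item is on and the item is bad (`TWO.Bad`) -/
def PB {mb : ℕ → ℕ} {M : ℕ} (β : BasB mb M) (ly : LayB mb M) (ω : OmB mb M)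
    (v : Fin (sizeB M) → Bool) : Prop :=
  v (swB ω.1) = true ∧ TWO.Bad (β ω.1) ω.2 (inpB ly ω.1 v)

/-- the block `i` is bad -/
def BadBl {mb : ℕ → ℕ} {M : ℕ} (β : BasB mb M) (ly : LayB mb M) (v : Fin (sizeB M) → Bool)
    (i : ℕ) : Prop := ∃ ω : OmB mb M, blo ω = i ∧ PB β ly ω v

/-- THE FUNCTION: the last bad block exists and has an even number. -/
def FB {mb : ℕ → ℕ} {M : ℕ} (β : BasB mb M) (ly : LayB mb M) (v : Fin (sizeB M) → Bool) : Prop :=
  Omb (BadBl β ly v)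

/-- the conditions for the number of the blocks -/
def OKB (mb : ℕ → ℕ) : Prop := ∀ e, 1 ≤ mb e ∧ mb e ≤ e + 1

/-- SIZB: the sizes.  Proof: port of O_SIZ.lean (`ONE.MSIZ.cop_le`, `card_X_le`, `pols_lg`, `le_lg` can be
used). `mb e ≤ e + 1 ≤ 2 ^ e`, so `mb e * cop e ≤ 2 ^ (6 + 4 e)`; `10 e ≤ lg M`, `57 ≤ lg M`, so
`ptB mb M e ≥ 2 ^ (lg M - 7 - 4 e)`, `4 e ≤ lg M - 7 - 4 e` and `2 (mb e * cop e) ≤ M`;
`card (VarX n e) + 1 ≤ cop e * n ≤ (mb e * cop e) n`. -/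
def S_SIZB : Prop := ∀ (mb : ℕ → ℕ) (M : ℕ), OKB mb → 2 ^ 56 ≤ M →
  (2 * M ≤ sizeB M ∧ sizeB M ≤ 3 * M) ∧ 1 ≤ blkB M ∧
  ∀ e : ℕ, 1 ≤ e → e ≤ blkB M → 2 ≤ ptB mb M e ∧ 4 * e ≤ lg (ptB mb M e) ∧
    1 ≤ mb e * cop e ∧ mb e * cop e ≤ M ∧ pols (ptB mb M e) e ≤ M ∧
    Fintype.card (BVB mb M e) ≤ 2 * M ∧ deg (ptB mb M e) e ≤ 3 * lg M ∧
    M ≤ 2 * (ptB mb M e * (mb e * cop e))

/-- LAYB (uses `S_SIZB`): layouts and bases exist.  Proof: port of O_LAY.lean. -/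
def S_LAYB : Prop := ∀ (mb : ℕ → ℕ) (M : ℕ), OKB mb → 2 ^ 56 ≤ M →
  Nonempty (BasB mb M) ∧ Nonempty (LayB mb M)

/-! ## The lower bound -/

/-- The property `A` is decided by a nondeterministic program with one stack, or by a fork program, with
blocks of at most `s` tests, fewer than `2 ^ z` nodes, and such that each accepted input has an accepting
run (tree) with at most `T` tests of variables outside a set of at most `s` variables. -/
def Easy (N s T : ℕ) (z : ℝ) (A : (Fin N → Bool) → Prop) : Prop :=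
  (∃ (Γ Q : Type) (_ : Fintype Q) (G : STK.Prog (Fin N) 1 Γ Q), G.Blocks s ∧ TimeSR G s T ∧
    (∀ b, G.Accepts b ↔ A b) ∧ (Fintype.card Q : ℝ) < 2 ^ z) ∨
  ∃ (Q : Type) (_ : Fintype Q) (G : CFT.FP (Fin N) Q), G.Block s ∧ TimeFR G s T ∧
    (∀ b, G.Accepts b ↔ A b) ∧ (Fintype.card Q : ℝ) < 2 ^ z

/-- `f` is no Boolean function of `q` easy properties. -/
def NoBool (q N s T : ℕ) (z : ℝ) (f : (Fin N → Bool) → Prop) : Prop :=
  ∀ (A : Fin q → (Fin N → Bool) → Prop) (De : (Fin q → Prop) → Prop),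
    (∀ i, Easy N s T z (A i)) → ¬ ∀ v, (f v ↔ De fun i => A i v)

/-- REDB: fixing variables, for `q` programs.
Proof: compare Q_REDR.lean. If `A i` is easy there is a fork program with blocks `≤ s`, `TimeFR .. s T`,
at most `2 ^ (4 z)` nodes (for one stack: `STK.ONE.toFP`, `accepts_iff`, `full_iff`, `block`, `card_node`:
`Q + Q ^ 2 ≤ 2 ^ (4 z)` nodes as `2 ≤ 2 ^ z`). Fix the variables outside the range of `ι`
(`ONE.MRED.fixG`, `accepts_fix`, `block_fix`, `ONE.MREDR.time_fixR`) and apply `CB`;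
`q + 1 + ∑ ≤ q + 1 + q 2 ^ (4 z) ≤ (2 q + 1) 2 ^ (4 z)`. -/
def S_REDB : Prop := ∀ (q k0 n : ℕ) (σ c : ℝ), CB q k0 σ c n →
  ∀ (P W : Type) [Fintype P] [DecidableEq P] (ρ : P → ℕ) (m s L N T : ℕ) (z : ℝ) (w : W → Bool)
    (g : (Fin n → Bool) → Bool) (F : (Fin N → Bool) → Prop) (ι : W ⊕ (P × Fin n) → Fin N)
    (a : Fin N → Bool), Function.Injective ι → ((q * s : ℕ) : ℝ) ≤ σ * n → Rigid g →
    RectFree g m → 1 ≤ m → (m : ℝ) ≤ 2 ^ (c * n) → 1 ≤ L →
    (∀ j ≤ q, (univ.filter fun p => ρ p = j).card = L) →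
    ((2 : ℝ) ^ (q + 1) * L) ^ (q + 1) * 2 ^ n ≤ 2 ^ (c * n / 2) * gd g →
    T ≤ k0 * (n * L) → 1 ≤ z → (2 * (q : ℝ) + 1) * 2 ^ (4 * z) ≤ 2 ^ (c * n) →
    (∀ y, F (put ι a (Sum.elim w y)) ↔ Omb (BadB ρ g y)) → NoBool q N s T z F

/-- NUB (uses `S_SIZB`): the numbers.  `n` is the length of the points, `L = cop e` the number of the
points of a block.
Proof: `2 ^ 56 ≤ M` as `100 ≤ e ≤ lg M / 10`. `cop e ≤ 2 ^ (6 + 3 e)` (`ONE.MSIZ.cop_le`), `q + 1 ≤ 2 ^ e`, `2 ^ (10 e - 1) ≤ M` (`10 e ≤ lg M`), so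
`n = M / ((q + 1) cop e) ≥ 2 ^ (6 e - 8)` and, with SIZB, `N ≤ 3 M ≤ 6 n (q + 1) cop e ≤ n 2 ^ (4 e + 9)`.
(1) `6 e - 8 ≥ 2 X`. (2) `e 2 ^ X ≤ 2 ^ (2 e) ≤ n`. (3) `(q + 1) (q + 1 + 6 + 3 e) ≤ (e + 1) (4 e + 7)`,
`24 n / 2 ^ e ≤ n / 2 ^ (X + 3)`, `lg n ≤ √n`-like, in total at most `n / 2 ^ (X + 1)`. (4) `N ≤ 6 (q + 1)
(n L)`. (5) `z = N / 2 ^ (6 e)`: `1 ≤ z` as `N ≥ 2 ^ (10 e)`, `4 z ≤ n 2 ^ (11 - 2 e) ≤ n / 2 ^ (X + 1)`,
`2 q + 1 ≤ 2 ^ (e + 1)`. (6) `q N / 2 ^ (6 e) ≤ n 2 ^ (9 - e) ≤ n / 4 ^ X`. -/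
def S_NUB : Prop := ∀ (mb : ℕ → ℕ) (M e q k X : ℕ), OKB mb → mb e = q + 1 → 1 ≤ k →
  4 * X + 100 ≤ e → e ≤ blkB M → 2 ^ 56 ≤ M ∧ 2 ≤ ptB mb M e ∧ 8 ≤ lg (ptB mb M e) ∧
  4 ^ X ≤ ptB mb M e ∧
  ((2 ^ e : ℕ) : ℝ) ≤ 2 ^ (1 / 2 ^ X * (ptB mb M e : ℝ)) ∧
  ((2 : ℝ) ^ (q + 1) * cop e) ^ (q + 1) *
      2 ^ (24 * (ptB mb M e : ℝ) / 2 ^ e + 2 * lg (ptB mb M e)) ≤
    2 ^ (1 / 2 ^ X * (ptB mb M e : ℝ) / 2) ∧
  k * sizeB M ≤ 6 * k * (q + 1) * (ptB mb M e * cop e) ∧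
  1 ≤ (sizeB M : ℝ) / 2 ^ (6 * e) ∧
  (2 * (q : ℝ) + 1) * 2 ^ (4 * ((sizeB M : ℝ) / 2 ^ (6 * e))) ≤
    2 ^ (1 / 2 ^ X * (ptB mb M e : ℝ)) ∧
  q * ((sizeB M : ℝ) / 2 ^ (6 * e)) ≤ 1 / 4 ^ X * (ptB mb M e : ℝ)

/-- PUTB: the restriction of `FB` to the inputs with one switch on.  Here `W = VarX n e`,
`P = Fin (mb e * cop e)`, `ρ p = p / cop e`, `g = TWO.one β w`.
Proof: compare `fA_put` in R_LWQ.lean. Only the items of the switch `e` can be bad; for them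
`TWO.Bad β x (Sum.elim w y)` is `¬ Pass ..` for `x = inl (t, l)` and `¬ even` for `x = inr l`; a point `l` has
`TWO.one β w (y l) = false` iff one of its items is bad. -/
def S_PUTB : Prop := ∀ (mb : ℕ → ℕ) (M : ℕ) (β : BasB mb M) (ly : LayB mb M) (e : Fin (blkB M)),
  (Function.Injective fun w => datB (ly.pos e w)) ∧
  ∀ (w : VarX (ptB mb M (e.val + 1)) (e.val + 1) → Bool)
    (y : Fin (mb (e.val + 1) * cop (e.val + 1)) × Fin (ptB mb M (e.val + 1)) → Bool),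
    FB β ly (put (fun w => datB (ly.pos e w)) (fun i => decide (i = swB e)) (Sum.elim w y)) ↔
      Omb (BadB (fun p : Fin (mb (e.val + 1) * cop (e.val + 1)) => p.val / cop (e.val + 1))
        (TWO.one (β e) w) y)

/-- LWB (uses `S_CBQ`, `S_REDB`, `S_NUB`, `S_PUTB`, `TWO.S_GOOQ`).  THE LOWER BOUND.
Proof: `k0 = 6 k (q + 1)`, `Y = (k + 1) (q + 1) ≥ 2`, `X = ((k0 + 1) (q + 1)) ^ B1 ≤ Y ^ (5 * B1)` (as
`6 k (q + 1) + 1 ≤ 6 Y ≤ Y ^ 4`), and `4 X + 100 ≤ 104 Y ^ (5 * B1) ≤ Y ^ (5 * B1 + 7)`, `B = 5 * B1 + 7`.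
NUB for this `X`; let `n = ptB mb M e`. `TWO.S_GOOQ` gives `u` with `RectFree (one β u) (2 ^ e)`, `Rigid` and the
density. REDB (with CBQ for `q`, `k0`, `n`) with `m = 2 ^ e`, `L = cop e`, `T = k N`, `z = N / 2 ^ (6 e)`,
`w = u`, `ι w = datB (ly.pos e' w)` (`e' = e - 1 : Fin (blkB M)`), `a` = only the switch `e'` is on (PUTB). The
fibres of `p ↦ p / cop e` on `Fin (mb e * cop e)`, `mb e = q + 1`, have `cop e` elements for `j ≤ q`. -/
def S_LWB : Prop := ∃ B : ℕ, ∀ (mb : ℕ → ℕ) (q k M e : ℕ), OKB mb → 1 ≤ k → mb e = q + 1 →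
  ((k + 1) * (q + 1)) ^ B ≤ e → e ≤ blkB M → ∀ (β : BasB mb M) (ly : LayB mb M) (s : ℕ),
  (s : ℝ) ≤ (sizeB M : ℝ) / 2 ^ (6 * e) →
  NoBool q (sizeB M) s (k * sizeB M) ((sizeB M : ℝ) / 2 ^ (6 * e)) (FB β ly)

/-! ## Upper bounds -/

/-- `P` is decided in PP mode by ONE automaton with the states `V`, which reads `w` coins and then the
`m` bits of the input, once from left to right: `P x` iff more than half of the coin strings are
accepted. -/
def PPA (m w : ℕ) (V : Type) (P : (Fin m → Bool) → Prop) : Prop :=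
  ∃ A : (Fin (w + m) → Bool) → Prop, Aut (w + m) V A ∧
    ∀ x, P x ↔ 2 ^ w < 2 * Nat.card {r : Fin w → Bool // A (Fin.append r x)}

/-- The coin string `r1 r2 r3` (of `w1 + h + 1` coins) selects the item `ω`: `r1` is its code and the
first `t ω` bits of `r2` are `0`. -/
def Sel {w1 h : ℕ} {Ω : Type} (em : Ω → Fin w1 → Bool) (t : Ω → ℕ)
    (r : Fin (w1 + h + 1) → Bool) (ω : Ω) : Prop :=
  (∀ i : Fin w1, r (Fin.castAdd 1 (Fin.castAdd h i)) = em ω i) ∧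
    ∀ j : Fin h, j.val < t ω → r (Fin.castAdd 1 (Fin.natAdd w1 j)) = false

/-- the coin string `r` accepts: if an item with the property `P` is selected, the answer is `ev ω`,
otherwise it is the last coin -/
def Acp {w1 h m : ℕ} {Ω : Type} (em : Ω → Fin w1 → Bool) (t : Ω → ℕ) (ev : Ω → Prop)
    (P : Ω → (Fin m → Bool) → Prop) (r : Fin (w1 + h + 1) → Bool) (x : Fin m → Bool) : Prop :=
  (∃ ω, Sel em t r ω ∧ P ω x ∧ ev ω) ∨
    ((∀ ω, Sel em t r ω → ¬ P ω x) ∧ r (Fin.last (w1 + h)) = true)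

/-- PAU: the automaton.
Proof: state `(c, f, b, v)`: `c` = the first coins read so far (the others `false`), `f` = no bit `1` so
far among the first `t ω` bits of the second part, where `ω` is the item with `em ω = c` (if there is one),
`b` = the last coin, `v` = the state of the automaton of `ω` (its start at the last coin), if there is no
such item nothing is changed. Acceptance: if `em ω = c` for some `ω`, `f = true` and the automaton of `ω`
accepts `v`, then `ev ω`, otherwise `b = true`. `List.finRange (w + m)` is `(finRange w).map (castAdd m)`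
followed by `(finRange m).map (natAdd w)`; `fold` = `List.foldl`, invariants by induction on the list. -/
def S_PAU : Prop := ∀ (w1 h m : ℕ) (V Ω : Type) [Nonempty V] (em : Ω → Fin w1 → Bool) (t : Ω → ℕ)
  (ev : Ω → Prop) (P : Ω → (Fin m → Bool) → Prop), Function.Injective em →
  (∀ ω, Aut m V (P ω)) →
  ∃ A : (Fin (w1 + h + 1 + m) → Bool) → Prop,
    Aut (w1 + h + 1 + m) ((Fin w1 → Bool) × Bool × Bool × V) A ∧
    ∀ r x, A (Fin.append r x) ↔ Acp em t ev P r x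

/-- OMC: odd-max-bit and weights.
Proof: induction on `mh`: if `a mh ≠ 0` then the term `a mh W ^ mh ≥ W ^ mh` is more than the sum of
all smaller terms, `∑ i < mh, a i W ^ i ≤ K (W ^ mh - 1) / (W - 1) < W ^ mh` (by induction
`∑ i < j, a i W ^ i < W ^ j` from `a i ≤ K < W`); otherwise drop it. -/
def S_OMC : Prop := ∀ (mh K W : ℕ) (a : ℕ → ℕ), K < W → (∀ i, a i ≤ K) → (∀ i, mh < i → a i = 0) →
  ((∑ i ∈ (range (mh + 1)).filter (fun i => ¬ Even i), a i * W ^ i <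
      ∑ i ∈ (range (mh + 1)).filter (fun i => Even i), a i * W ^ i) ↔ Omb fun i => a i ≠ 0)

/-- PCT (uses `S_OMC`): the count.
Proof: a coin string `(r1, r2)` without the last coin that selects an item with `P ω x` counts `2` if the
block of `ω` is even and `0` if it is odd, any other one counts `1`; so `2 * #accepted - 2 ^ w =
2 (#(even) - #(odd))`, `w = w1 + h + 1`. The item `ω` of the block `i = b ω ≤ mh` is selected by
`2 ^ (h - (mh - i) u) = 2 ^ (i u)` strings `(r1, r2)` (`h = mh u`), and different items by different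
strings (`em` injective). So `#(even) = ∑ i even, a i (2 ^ u) ^ i` with `a i` = the number of the items `ω`
of the block `i` with `P ω x`, `a i ≤ |Ω| < 2 ^ u`; OMC. -/
def S_PCT : Prop := ∀ (w1 u mh m : ℕ) (Ω : Type) [Fintype Ω] (em : Ω → Fin w1 → Bool) (b : Ω → ℕ)
  (P : Ω → (Fin m → Bool) → Prop) (x : Fin m → Bool), Function.Injective em →
  Fintype.card Ω < 2 ^ u → (∀ ω, b ω ≤ mh) →
  (2 ^ (w1 + mh * u + 1) < 2 * Nat.card {r : Fin (w1 + mh * u + 1) → Bool //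
      Acp em (fun ω => (mh - b ω) * u) (fun ω => Even (b ω)) P r x} ↔
    Omb fun i => ∃ ω, b ω = i ∧ P ω x)

/-- UPB (uses `ONE.S_CLO`, `TWO.S_AUQ`, `S_SIZB`, `S_PAU`, `S_PCT`): `FB` is in PP mode of ONE automaton.
Proof: port of R_UFQ.lean. `Ω = OmB mb M`, `|Ω| ≤ blkB M (M M + M) ≤ (2 M) ^ 3`, `w1 = u = log2 |Ω| + 1`
(so `|Ω| < 2 ^ w1`, an injection `em` exists, `w1 ≤ 3 lg M + 4`), `b = blo ≤ mh` (`pnt < mb e * cop e`,
`mb e ≤ mh + 1`), `P ω = PB β ly ω`: an automaton with `2 ^ (9 lg M + 1)` states as in R_UFQ.lean /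
R_UAQ.lean (`MUAQ.aut`). Number of the states: `2 ^ w1 * 4 * 2 ^ (9 lg M + 1) ≤ 2 ^ (12 lg M + 7)
≤ (2 M) ^ 12 * 2 ^ 7 ≤ N ^ 24`. `w = w1 + mh w1 + 1 ≤ (mh + 1) (3 lg M + 4) + 1`. -/
def S_UPB : Prop := ∀ (mb : ℕ → ℕ) (M mh : ℕ), OKB mb → 2 ^ 56 ≤ M →
  (∀ e, 1 ≤ e → e ≤ blkB M → mb e ≤ mh + 1) → ∀ (β : BasB mb M) (ly : LayB mb M),
  ∃ (V : Type) (_ : Fintype V) (w : ℕ), Fintype.card V ≤ sizeB M ^ 24 ∧
    w ≤ (mh + 1) * (3 * lg M + 4) + 1 ∧ PPA (sizeB M) w V (FB β ly)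

/-- UHB (uses `ONE.S_CLO`, `ONE.S_NBP`, `TWO.S_AUQ`, `S_SIZB`): each block is easy.
Proof: port of R_UAQ.lean for the items `ω` with `blo ω = i` (a subtype of `OmB mb M`). -/
def S_UHB : Prop := ∀ (mb : ℕ → ℕ) (M : ℕ), OKB mb → 2 ^ 56 ≤ M → ∀ (β : BasB mb M) (ly : LayB mb M)
  (i : ℕ), ∃ (Q : Type) (_ : Fintype Q) (G : NBP (Fin (sizeB M)) Q),
    (∀ l, Walk G G.source G.sink l → (l.map Prod.fst).Pairwise (· < ·)) ∧
    (∀ v, G.Accepts v ↔ BadBl β ly v i) ∧ Fintype.card Q ≤ sizeB M ^ 24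

/-- DTB (uses `ONE.S_CLO`, `TWO.S_AUQ`, `S_SIZB`): a deterministic oblivious machine.
Proof: port of R_DTQ.lean / O_DTA.lean: the items are treated one after the other; in place of one bit
the machine stores the greatest bad block so far (`Option (Fin (blkB M + 1))`, `blo ω ≤ blkB M`), which
is updated after each item. `(blkB M + 2) 2 ^ (9 lg M + 1)` states, `|OmB mb M| * sizeB M` steps. -/
def S_DTB : Prop := ∀ (mb : ℕ → ℕ) (M : ℕ), OKB mb → 2 ^ 56 ≤ M → ∀ (β : BasB mb M) (ly : LayB mb M),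
  ∃ (V : Type) (_ : Fintype V) (T : ℕ) (σ : Fin T → Fin 1 → Fin (sizeB M)),
    Fintype.card V ≤ sizeB M ^ 24 ∧ T ≤ sizeB M ^ 24 ∧ DecOs 1 (Fin (sizeB M)) V T σ (FB β ly)

end Pool.Agent.TKB
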