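import Pool.Agent.TKB.St3

/-!
# Project TKB: statements, part 4 (the levels of the Boolean hierarchy)

Refined form of the lower bound: `q` blocks, `q` programs, and a Boolean function `De` that is TRUE if all
answers are `no` (the function with `q` blocks is `false` if all points are good). For `q = 1` this is
NP /= coNP: the complement of the property that the block is bad. All modules are small changes of modules
of parts 2 and 3: copy the files.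
-/

set_option autoImplicit false

open Finset

namespace Pool.Agent.TKB

open Pool.Agent.TKN
open Pool.Agent.Lib_helper20.SRO (RectFree Rigid Agrees)
open Pool.Agent.URG (VarA VarX deg lg pols)
open Pool.Agent.HPM.Fn (Coord)
open Pool.Agent.TKN.ONE (cop put)
open Pool.Agent.CFT (Der)

/-- CHR (uses `S_STP`).  The chain of `q` steps.
Proof: as CHB, but only the steps `j < q` are made, and the invariant is `j + 1 ≤ |S|`. For `j = 0` all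
points are good, so `Omb` is false, but `De` is true for the pattern `∅`; so `S ≠ ∅`. At the end
`q + 1 ≤ |S| ≤ q`. (`0 < gd g` from the numeric hypothesis for `j = 0 < q`.) -/
def S_CHR : Prop := ∀ (P W : Type) [Fintype P] [DecidableEq P] (ρ : P → ℕ) (q n K k0 m s L : ℕ)
  (σ : ℝ) (c c' D : ℕ → ℝ) (N : Fin q → Type) [∀ i, Fintype (N i)]
  (G : ∀ i, CFT.FP (W ⊕ (P × Fin n)) (N i)) (w : W → Bool) (g : (Fin n → Bool) → Bool)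
  (De : (Fin q → Prop) → Prop), 1 ≤ q → De (fun _ => False) →
  (∀ j < q, LB K σ (c j) (c' j) n) → q * k0 ≤ K → ((q * s : ℕ) : ℝ) ≤ σ * n →
  (∀ i, (G i).Block s) → Rigid g → RectFree g m → 1 ≤ m → 1 ≤ L →
  (∀ j < q, (univ.filter fun p => ρ p = j).card = L) →
  (∀ j < q, (m : ℝ) ≤ 2 ^ (c j * n)) →
  (∀ j < q, ((q + 1 + ∑ i, Fintype.card (N i) : ℕ) : ℝ) ≤ 2 ^ (c j * n)) →
  D 0 = 2 ^ q → (∀ j, D (j + 1) = 2 ^ q * (2 * L * D j * 2 ^ (c' j * n))) →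
  (∀ j < q, 2 * L * D j * 2 ^ n ≤ 2 ^ (c j * n) * gd g) →
  (∀ i y, (G i).Accepts (Sum.elim w y) → ∃ l, Der (G i) (G i).source l ∧
    Agrees (Sum.elim w y) l ∧ ∃ R : Finset (W ⊕ (P × Fin n)), R.card ≤ s ∧
      Out R l ≤ k0 * (n * L)) →
  (∀ y, Omb (BadB ρ g y) ↔ De fun i => (G i).Accepts (Sum.elim w y)) → False

/-- `CB` for `q` blocks and `De ∅` -/
def CBR (q k0 : ℕ) (σ c : ℝ) (n : ℕ) : Prop := ∀ (P W : Type) [Fintype P] [DecidableEq P]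
  (ρ : P → ℕ) (m s L : ℕ) (N : Fin q → Type) [∀ i, Fintype (N i)]
  (G : ∀ i, CFT.FP (W ⊕ (P × Fin n)) (N i)) (w : W → Bool) (g : (Fin n → Bool) → Bool)
  (De : (Fin q → Prop) → Prop), De (fun _ => False) →
  ((q * s : ℕ) : ℝ) ≤ σ * n → (∀ i, (G i).Block s) → Rigid g → RectFree g m → 1 ≤ m →
  (m : ℝ) ≤ 2 ^ (c * n) → 1 ≤ L → (∀ j < q, (univ.filter fun p => ρ p = j).card = L) →
  ((q + 1 + ∑ i, Fintype.card (N i) : ℕ) : ℝ) ≤ 2 ^ (c * n) →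
  ((2 : ℝ) ^ (q + 1) * L) ^ (q + 1) * 2 ^ n ≤ 2 ^ (c * n / 2) * gd g →
  (∀ i y, (G i).Accepts (Sum.elim w y) → ∃ l, Der (G i) (G i).source l ∧
    Agrees (Sum.elim w y) l ∧ ∃ R : Finset (W ⊕ (P × Fin n)), R.card ≤ s ∧
      Out R l ≤ k0 * (n * L)) →
  ¬ ∀ y, (Omb (BadB ρ g y) ↔ De fun i => (G i).Accepts (Sum.elim w y))

/-- CBRQ (uses `S_LBQ`, `S_CHR`).  Proof: as CBQ.lean (only `j < q` is needed). -/
def S_CBRQ : Prop := ∃ B : ℕ, ∀ q k0 : ℕ, 1 ≤ q → 1 ≤ k0 → ∀ n : ℕ,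
  4 ^ (((k0 + 1) * (q + 1)) ^ B) ≤ n →
  CBR q k0 (1 / 4 ^ (((k0 + 1) * (q + 1)) ^ B)) (1 / 2 ^ (((k0 + 1) * (q + 1)) ^ B)) n

/-- `f` is no Boolean function of `q` easy properties that is true if all of them are false. -/
def NoLev (q N s T : ℕ) (z : ℝ) (f : (Fin N → Bool) → Prop) : Prop :=
  ∀ (A : Fin q → (Fin N → Bool) → Prop) (De : (Fin q → Prop) → Prop),
    (∀ i, Easy N s T z (A i)) → De (fun _ => False) → ¬ ∀ v, (f v ↔ De fun i => A i v)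

/-- REDC: Proof: as REDB.lean, with `CBR`. -/
def S_REDC : Prop := ∀ (q k0 n : ℕ) (σ c : ℝ), CBR q k0 σ c n →
  ∀ (P W : Type) [Fintype P] [DecidableEq P] (ρ : P → ℕ) (m s L N T : ℕ) (z : ℝ) (w : W → Bool)
    (g : (Fin n → Bool) → Bool) (F : (Fin N → Bool) → Prop) (ι : W ⊕ (P × Fin n) → Fin N)
    (a : Fin N → Bool), Function.Injective ι → ((q * s : ℕ) : ℝ) ≤ σ * n → Rigid g →
    RectFree g m → 1 ≤ m → (m : ℝ) ≤ 2 ^ (c * n) → 1 ≤ L →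
    (∀ j < q, (univ.filter fun p => ρ p = j).card = L) →
    ((2 : ℝ) ^ (q + 1) * L) ^ (q + 1) * 2 ^ n ≤ 2 ^ (c * n / 2) * gd g →
    T ≤ k0 * (n * L) → 1 ≤ z → (2 * (q : ℝ) + 1) * 2 ^ (4 * z) ≤ 2 ^ (c * n) →
    (∀ y, F (put ι a (Sum.elim w y)) ↔ Omb (BadB ρ g y)) → NoLev q N s T z F

/-- NUC (uses `S_SIZB`): the numbers.  Proof: as NUB.lean, now `mb e = q` with `1 ≤ q ≤ e + 1`
(`q + 1 ≤ 2 ^ e`). -/
def S_NUC : Prop := ∀ (mb : ℕ → ℕ) (M e q k X : ℕ), OKB mb → 1 ≤ q → mb e = q → 1 ≤ k →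
  4 * X + 100 ≤ e → e ≤ blkB M → 2 ^ 56 ≤ M ∧ 2 ≤ ptB mb M e ∧ 8 ≤ lg (ptB mb M e) ∧
  4 ^ X ≤ ptB mb M e ∧
  ((2 ^ e : ℕ) : ℝ) ≤ 2 ^ (1 / 2 ^ X * (ptB mb M e : ℝ)) ∧
  ((2 : ℝ) ^ (q + 1) * cop e) ^ (q + 1) *
      2 ^ (24 * (ptB mb M e : ℝ) / 2 ^ e + 2 * lg (ptB mb M e)) ≤
    2 ^ (1 / 2 ^ X * (ptB mb M e : ℝ) / 2) ∧
  k * sizeB M ≤ 6 * k * (q + 1) * (ptB mb M e * cop e) ∧
  1 ≤ (sizeB M : ℝ) / 2 ^ (6 * e) ∧
  (2 * (q : ℝ) + 1) * 2 ^ (4 * ((sizeB M : ℝ) / 2 ^ (6 * e))) ≤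
    2 ^ (1 / 2 ^ X * (ptB mb M e : ℝ)) ∧
  q * ((sizeB M : ℝ) / 2 ^ (6 * e)) ≤ 1 / 4 ^ X * (ptB mb M e : ℝ)

/-- LWC (uses `S_CBRQ`, `S_REDC`, `S_NUC`, `S_PUTB`, `TWO.S_GOOQ`).  Proof: as LWB.lean, now
`mb e = q`. -/
def S_LWC : Prop := ∃ B : ℕ, ∀ (mb : ℕ → ℕ) (q k M e : ℕ), OKB mb → 1 ≤ k → 1 ≤ q → mb e = q →
  ((k + 1) * (q + 1)) ^ B ≤ e → e ≤ blkB M → ∀ (β : BasB mb M) (ly : LayB mb M) (s : ℕ),
  (s : ℝ) ≤ (sizeB M : ℝ) / 2 ^ (6 * e) →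
  NoLev q (sizeB M) s (k * sizeB M) ((sizeB M : ℝ) / 2 ^ (6 * e)) (FB β ly)

end Pool.Agent.TKB
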