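import Pool.Agent.TKB.St3
import Pool.Agent.TKN.O_UPA

/-!
# Project TKB: module UHB: each block is easy (helper23)
-/

set_option autoImplicit false

open Finset

namespace Pool.Agent.TKB

open Pool.Agent.TKN
open Pool.Agent.Lib_helper20.SRO (RectFree Rigid Agrees evenWeight NBP Walk)
open Pool.Agent.URG (VarA VarG VarX deg lg pols zs zs_le Zero)
open Pool.Agent.HPM.Fn (Coord)
open Pool.Agent.TKN.ONE (cop Aut)

namespace MUHB

lemma aut (hCLO : ONE.S_CLO) (hAUQ : TWO.S_AUQ) {mb : ℕ → ℕ} {M : ℕ}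
    (hd : ∀ e : ℕ, 1 ≤ e → e ≤ blkB M → deg (ptB mb M e) e ≤ 3 * lg M)
    (β : BasB mb M) (ly : LayB mb M) (ω : OmB mb M) :
    Aut (sizeB M) (Fin (2 ^ (9 * lg M + 1))) (PB β ly ω) := by
  obtain ⟨e, x⟩ := ω
  have h1 := hAUQ (ptB mb M (e.val + 1)) (e.val + 1) (mb (e.val + 1) * cop (e.val + 1)) (sizeB M)
    (β e) (fun w => datB (ly.pos e w))
    (fun a b h => ly.inj e (Fin.natAdd_injective _ _ h))
    (fun t i p => (Fin.natAdd_lt_natAdd_iff _).2 (ly.lt₁ e t i p))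
    (fun t q p => (Fin.natAdd_lt_natAdd_iff _).2 (ly.lt₂ e t q p)) x
  have h2 := hCLO.2.1 (sizeB M) (swB e) (fun b => b = true)
  have h3 := hCLO.2.2.1 (sizeB M) _ _ _ _ And h2 h1
  have hlg := Pool.Agent.URG.lg_pos (ptB mb M (e.val + 1))
  have hdeg := hd (e.val + 1) (by omega) (by have := e.isLt; omega)
  obtain ⟨j, hj⟩ := ONE.MUPA.exists_inj (deg (ptB mb M (e.val + 1)) (e.val + 1)) (9 * lg M + 1)
    (by unfold deg; omega) (by omega)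
  exact hCLO.2.2.2 (sizeB M) _ _ j _ hj h3

lemma card_OmB {mb : ℕ → ℕ} {M : ℕ} (hb : blkB M ≤ M)
    (hc : ∀ e : ℕ, 1 ≤ e → e ≤ blkB M → mb e * cop e ≤ M ∧ pols (ptB mb M e) e ≤ M) :
    Fintype.card (OmB mb M) ≤ M * (M * M + M) := by
  rw [Fintype.card_sigma]
  have h1 : ∀ e : Fin (blkB M), Fintype.card (ItB mb M (e.val + 1)) ≤ M * M + M := by
    intro e
    rw [Fintype.card_sum, Fintype.card_prod, Fintype.card_fin, Fintype.card_fin]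
    obtain ⟨h2, h3⟩ := hc (e.val + 1) (by omega) (by have := e.isLt; omega)
    exact Nat.add_le_add (Nat.mul_le_mul h3 h2) h2
  refine (Finset.sum_le_card_nsmul _ _ _ fun e _ => h1 e).trans ?_
  rw [Finset.card_univ, Fintype.card_fin, smul_eq_mul]
  exact Nat.mul_le_mul_right _ hb

lemma num {M s c : ℕ} (hM : 2 ^ 56 ≤ M) (hs1 : 2 * M ≤ s) (hs2 : s + 1 ≤ 4 * M)
    (hc : c ≤ M * (M * M + M)) : c * ((s + 1) * 2 ^ (9 * lg M + 1)) + 2 ≤ s ^ 24 := by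
  have hM1 : 1 ≤ M := le_trans (by norm_num) hM
  have hM0 : M ≠ 0 := by omega
  have h1 : 2 ^ (9 * lg M + 1) ≤ 2 * (2 * M) ^ 9 := by
    rw [pow_succ, mul_comm 9, pow_mul, mul_comm]
    exact Nat.mul_le_mul_left 2 (Nat.pow_le_pow_left (ONE.MUPA.two_pow_lg hM0) 9)
  have h2 : M * (M * M + M) ≤ 2 * M ^ 3 := by nlinarith
  have h3 : c * ((s + 1) * 2 ^ (9 * lg M + 1)) ≤ (2 * M ^ 3) * ((4 * M) * (2 * (2 * M) ^ 9)) :=
    Nat.mul_le_mul (hc.trans h2) (Nat.mul_le_mul hs2 h1)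
  have h4 : (2 * M ^ 3) * ((4 * M) * (2 * (2 * M) ^ 9)) = 8192 * M ^ 13 := by ring
  have h5 : (2 * M) ^ 24 ≤ s ^ 24 := Nat.pow_le_pow_left hs1 24
  have h6 : (2 * M) ^ 24 = 16777216 * M ^ 24 := by ring
  have h7 : M ^ 13 ≤ M ^ 24 := Nat.pow_le_pow_right hM1 (by norm_num)
  have h8 : 1 ≤ M ^ 24 := Nat.one_le_pow _ _ hM1
  omega

end MUHB

open MUHB in
theorem t_UHB (hCLO : ONE.S_CLO) (hNBP : ONE.S_NBP) (hAUQ : TWO.S_AUQ) (hSIZ : S_SIZB) :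
    S_UHB := by
  classical
  intro mb M hOK hM β ly i
  obtain ⟨⟨hs1, hs2⟩, -, hsz⟩ := hSIZ mb M hOK hM
  have hM1 : 1 ≤ M := le_trans (by norm_num) hM
  have hb : blkB M ≤ M := by
    have h1 : sizeB M = blkB M + 2 * M := rfl
    omega
  have hP : ∀ ω : {ω : OmB mb M // blo ω = i},
      Aut (sizeB M) (Fin (2 ^ (9 * lg M + 1))) (PB β ly ω.1) := fun ω =>
    aut hCLO hAUQ (fun e h1 h2 => (hsz e h1 h2).2.2.2.2.2.2.1) β ly ω.1
  obtain ⟨Q, hQ, G, h1, h2, h3⟩ := hNBP (sizeB M) (Fin (2 ^ (9 * lg M + 1)))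
    {ω : OmB mb M // blo ω = i} (fun ω => PB β ly ω.1) hP
  refine ⟨Q, hQ, G, h1, fun v => ?_, ?_⟩
  · rw [h2 v]
    constructor
    · rintro ⟨⟨ω, hω⟩, h⟩
      exact ⟨ω, hω, h⟩
    · rintro ⟨ω, hω, h⟩
      exact ⟨⟨ω, hω⟩, h⟩
  · rw [h3, Fintype.card_fin]
    refine num hM hs1 (by omega) ((Fintype.card_subtype_le _).trans ?_)
    exact card_OmB hb fun e h4 h5 => ⟨(hsz e h4 h5).2.2.2.1, (hsz e h4 h5).2.2.2.2.1⟩

end Pool.Agent.TKB
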